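import Mathlib

set_option linter.all false

open MeasureTheory ProbabilityTheory
open scoped RealInnerProductSpace

namespace Pool.Agent.KXP

section DV

variable {E : Type*} [NormedAddCommGroup E] [InnerProductSpace ℝ E] [FiniteDimensional ℝ E]
  [MeasurableSpace E] [BorelSpace E]

/-- The law of a linear functional under the standard Gaussian measure. -/
lemma map_inner_std (θ : E) :
    (stdGaussian E).map (fun v => ⟪θ, v⟫) = gaussianReal 0 (‖θ‖ ^ 2).toNNReal := by
  have h := IsGaussian.map_eq_gaussianReal (μ := stdGaussian E) (innerSL ℝ θ)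
  rw [integral_strongDual_stdGaussian, variance_dual_stdGaussian] at h
  simpa using h

lemma integral_exp_inner (θ : E) :
    ∫ v, Real.exp ⟪θ, v⟫ ∂(stdGaussian E) = Real.exp (‖θ‖ ^ 2 / 2) := by
  have h := mgf_gaussianReal (map_inner_std θ) 1
  simpa [mgf] using h

lemma integrable_exp_inner (θ : E) :
    Integrable (fun v => Real.exp ⟪θ, v⟫) (stdGaussian E) := by
  by_contra hc
  have h := integral_exp_inner θ
  rw [integral_undef hc] at h
  exact absurd h (Real.exp_pos _).ne

lemma negMulLog_le_gibbs {q s : ℝ} (hq : 0 ≤ q) (hs : 0 < s) :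
    Real.negMulLog q ≤ -(q * Real.log s) - q + s := by
  rcases hq.eq_or_lt with h | h
  · subst h; simp [Real.negMulLog]; exact hs.le
  · have h1 := Real.log_le_sub_one_of_pos (div_pos hs h)
    rw [Real.log_div hs.ne' h.ne'] at h1
    have h2 : q * (Real.log s - Real.log q) ≤ q * (s / q - 1) :=
      mul_le_mul_of_nonneg_left h1 h.le
    have h3 : q * (s / q - 1) = s - q := by field_simp
    rw [h3] at h2
    unfold Real.negMulLog
    nlinarith

lemma integrable_negMulLog {q : E → ℝ} (hm : Measurable q) (h0 : ∀ v, 0 ≤ q v)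
    (h1 : ∀ v, q v ≤ 1) : Integrable (fun v => Real.negMulLog (q v)) (stdGaussian E) := by
  refine Integrable.of_bound (C := 1)
    ((Real.continuous_negMulLog.measurable.comp hm).aestronglyMeasurable) ?_
  refine Filter.Eventually.of_forall fun v => ?_
  have ha : 0 ≤ Real.negMulLog (q v) := Real.negMulLog_nonneg (h0 v) (h1 v)
  have hb : Real.negMulLog (q v) ≤ 1 - q v := Real.negMulLog_le_one_sub_self (h0 v)
  rw [Real.norm_eq_abs, abs_of_nonneg ha]
  linarith [h0 v]

lemma gibbs_one (q : E → ℝ) (hm : Measurable q) (h0 : ∀ v, 0 ≤ q v) (h1 : ∀ v, q v ≤ 1)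
    (p : ℝ) (hp : ∫ v, q v ∂(stdGaussian E) = p) (m : E) (r : ℝ)
    (hr : ∫ v, q v • v ∂(stdGaussian E) = r • m) :
    ∫ v, Real.negMulLog (q v) ∂(stdGaussian E) ≤
      Real.negMulLog p - r ^ 2 / 2 * (‖m‖ ^ 2 / p) := by
  have hqi : Integrable q (stdGaussian E) := by
    refine Integrable.of_bound (C := 1) hm.aestronglyMeasurable ?_
    refine Filter.Eventually.of_forall fun v => ?_
    rw [Real.norm_eq_abs, abs_of_nonneg (h0 v)]; exact h1 v
  have hp0 : 0 ≤ p := by rw [← hp]; exact integral_nonneg h0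
  have hIn := integrable_negMulLog hm h0 h1
  rcases hp0.eq_or_lt with h | h
  · have hz : q =ᵐ[stdGaussian E] 0 := by
      rw [← integral_eq_zero_iff_of_nonneg h0 hqi, hp, ← h]
    have : ∫ v, Real.negMulLog (q v) ∂(stdGaussian E) = 0 := by
      have : ∫ v, Real.negMulLog (q v) ∂(stdGaussian E) = ∫ v, (0:ℝ) ∂(stdGaussian E) := by
        refine integral_congr_ae ?_
        filter_upwards [hz] with v hv
        simp [hv]
      rw [this]; simp
    rw [this, ← h]; simp
  · set θ : E := (r / p) • m with hθ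
    have hid : Integrable (fun v : E => v) (stdGaussian E) := IsGaussian.integrable_fun_id
    have hqv : Integrable (fun v => q v • v) (stdGaussian E) := by
      refine Integrable.mono hid (hm.aestronglyMeasurable.smul hid.aestronglyMeasurable) ?_
      refine Filter.Eventually.of_forall fun v => ?_
      rw [norm_smul, Real.norm_eq_abs, abs_of_nonneg (h0 v)]
      exact mul_le_of_le_one_left (norm_nonneg _) (h1 v)
    have hth : Integrable (fun v => ⟪θ, q v • v⟫) (stdGaussian E) := hqv.const_inner θ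
    have hint : ∫ v, ⟪θ, q v • v⟫ ∂(stdGaussian E) = r ^ 2 * ‖m‖ ^ 2 / p := by
      rw [integral_inner hqv θ, hr, hθ, real_inner_smul_left, real_inner_smul_right,
        real_inner_self_eq_norm_sq]
      ring
    have hexp : Integrable (fun v => (p * Real.exp (-(‖θ‖ ^ 2 / 2))) * Real.exp ⟪θ, v⟫)
        (stdGaussian E) := (integrable_exp_inner θ).const_mul _
    have hexpi : ∫ v, (p * Real.exp (-(‖θ‖ ^ 2 / 2))) * Real.exp ⟪θ, v⟫ ∂(stdGaussian E) = p := by
      rw [integral_const_mul, integral_exp_inner, mul_assoc, ← Real.exp_add]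
      simp
    have hpt : ∀ v, Real.negMulLog (q v) ≤
        ((-Real.log p + ‖θ‖ ^ 2 / 2 - 1) * q v - ⟪θ, q v • v⟫) +
          (p * Real.exp (-(‖θ‖ ^ 2 / 2))) * Real.exp ⟪θ, v⟫ := by
      intro v
      have hs : 0 < p * Real.exp (⟪θ, v⟫ - ‖θ‖ ^ 2 / 2) := mul_pos h (Real.exp_pos _)
      have hg := negMulLog_le_gibbs (h0 v) hs
      rw [Real.log_mul h.ne' (Real.exp_pos _).ne', Real.log_exp] at hg
      have he : p * Real.exp (⟪θ, v⟫ - ‖θ‖ ^ 2 / 2) =
          (p * Real.exp (-(‖θ‖ ^ 2 / 2))) * Real.exp ⟪θ, v⟫ := by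
        rw [mul_assoc, ← Real.exp_add]; congr 2; ring
      rw [he] at hg
      rw [real_inner_smul_right]
      linarith
    have hi1 : Integrable (fun v => (-Real.log p + ‖θ‖ ^ 2 / 2 - 1) * q v) (stdGaussian E) :=
      hqi.const_mul _
    have hi12 : Integrable (fun v => (-Real.log p + ‖θ‖ ^ 2 / 2 - 1) * q v - ⟪θ, q v • v⟫)
        (stdGaussian E) := hi1.sub hth
    have hmono := integral_mono hIn (hi12.add hexp) hpt
    have hcalc : ∫ v, (((-Real.log p + ‖θ‖ ^ 2 / 2 - 1) * q v - ⟪θ, q v • v⟫) +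
          (p * Real.exp (-(‖θ‖ ^ 2 / 2))) * Real.exp ⟪θ, v⟫) ∂(stdGaussian E) =
        Real.negMulLog p - r ^ 2 / 2 * (‖m‖ ^ 2 / p) := by
      rw [integral_add hi12 hexp, integral_sub hi1 hth, hint, hexpi,
        integral_const_mul, hp]
      have hn : ‖θ‖ ^ 2 = r ^ 2 * ‖m‖ ^ 2 / p ^ 2 := by
        rw [hθ, norm_smul, mul_pow, Real.norm_eq_abs, sq_abs]; field_simp
      rw [hn]
      unfold Real.negMulLog
      field_simp
      ring
    rw [← hcalc]
    exact hmono

/-- One Donsker-Varadhan step. -/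
theorem gibbs_step {ι : Type*} [Fintype ι] (q : ι → E → ℝ) (hm : ∀ i, Measurable (q i))
    (h0 : ∀ i v, 0 ≤ q i v) (h1 : ∀ i v, q i v ≤ 1)
    (p : ι → ℝ) (hp : ∀ i, ∫ v, q i v ∂(stdGaussian E) = p i)
    (m : ι → E) (r : ℝ) (hr : ∀ i, ∫ v, q i v • v ∂(stdGaussian E) = r • m i) :
    ∫ v, ∑ i, Real.negMulLog (q i v) ∂(stdGaussian E) + r ^ 2 / 2 * ∑ i, ‖m i‖ ^ 2 / p i ≤
      ∑ i, Real.negMulLog (p i) := by
  rw [integral_finsetSum _ (fun i _ => integrable_negMulLog (hm i) (h0 i) (h1 i)),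
    Finset.mul_sum, ← Finset.sum_add_distrib]
  refine Finset.sum_le_sum fun i _ => ?_
  have := gibbs_one (q i) (hm i) (h0 i) (h1 i) (p i) (hp i) (m i) r (hr i)
  linarith

end DV

end Pool.Agent.KXP
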