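import Pool.Agent.KXP.Fib
import Pool.Agent.KXP.Gibbs

set_option autoImplicit false
set_option linter.all false

open MeasureTheory ProbabilityTheory Filter Topology
open scoped BigOperators

namespace Pool.Agent.KXP

variable {d : ℕ} {ι : Type} [Fintype ι]

theorem ent_le_log (D : Pre d ι) (hm : ∀ i, MeasurableSet {u | D.L u = i}) :
    ent D ≤ Real.log ((Set.range D.L).ncard : ℝ) := by
  classical
  set s : Finset ι := Finset.univ.filter (fun i => i ∈ Set.range D.L) with hs
  have hcard : (Set.range D.L).ncard = s.card := by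
    rw [← Set.ncard_coe_finset]
    congr 1
    ext i; simp [hs]
  have hne : s.Nonempty := ⟨D.L 0, by simp [hs]⟩
  have hpos : (0 : ℝ) < (s.card : ℝ) := by exact_mod_cast hne.card_pos
  have hz : ∀ i, i ∉ s → q D i = 0 := by
    intro i hi
    have : {u | D.L u = i} = ∅ := by
      ext u
      simp only [Set.mem_setOf_eq, Set.mem_empty_iff_false, iff_false]
      intro h
      exact hi (by simp [hs, ← h])
    unfold q
    rw [this]; simp
  have hsum : ∑ i ∈ s, q D i = 1 := by
    rw [← q_sum hm]
    exact Finset.sum_subset (Finset.subset_univ s) fun i _ hi => hz i hi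
  have hent : ent D = ∑ i ∈ s, Real.negMulLog (q D i) := by
    unfold ent
    symm
    exact Finset.sum_subset (Finset.subset_univ s) fun i _ hi => by rw [hz i hi]; simp
  rw [hent, hcard]
  calc ∑ i ∈ s, Real.negMulLog (q D i)
      ≤ ∑ i ∈ s, (-(q D i * Real.log (1 / (s.card : ℝ))) - q D i + 1 / (s.card : ℝ)) :=
        Finset.sum_le_sum fun i _ => negMulLog_le_gibbs (q_nonneg D i) (by positivity)
    _ = Real.log (s.card : ℝ) := by
        rw [Finset.sum_add_distrib, Finset.sum_sub_distrib, Finset.sum_neg_distrib,
          ← Finset.sum_mul, hsum, Finset.sum_const, nsmul_eq_mul, one_div, Real.log_inv]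
        field_simp
        ring

end Pool.Agent.KXP
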