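import Mathlib

/-! KXP: exponential lower bound for the number of faces of all centrally symmetric polytopes. Definitions. -/

set_option autoImplicit false

open MeasureTheory ProbabilityTheory Filter Topology
open scoped BigOperators

namespace Pool.Agent.KXP

/-- Euclidean space of dimension `d` -/
abbrev E (d : ℕ) : Type := EuclideanSpace ℝ (Fin d)

/-- the standard Gaussian measure -/
noncomputable def gam (d : ℕ) : Measure (E d) := stdGaussian (E d)

instance (d : ℕ) : IsProbabilityMeasure (gam d) := by unfold gam; infer_instance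

/-- the Mehler average with correlation `r` -/
noncomputable def ou {d : ℕ} (r : ℝ) (f : E d → ℝ) (v : E d) : ℝ :=
  ∫ w, f (r • v + Real.sqrt (1 - r ^ 2) • w) ∂(gam d)

/-- matrix times vector, in coordinates -/
noncomputable def mv {d : ℕ} (M : Matrix (Fin d) (Fin d) ℝ) (u : E d) : E d :=
  WithLp.toLp 2 (fun a => ∑ b, M a b * u b)

@[simp] theorem mv_apply {d : ℕ} (M : Matrix (Fin d) (Fin d) ℝ) (u : E d) (a : Fin d) :
    mv M u a = ∑ b, M a b * u b := rfl

/-- labelled piecewise affine map: on the cell of the label `i` the map `X` is `c i + P i u` -/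
structure Pre (d : ℕ) (ι : Type) where
  X : E d → E d
  L : E d → ι
  c : ι → E d
  P : ι → Matrix (Fin d) (Fin d) ℝ

/-- the axioms of the data: `X` is 1-Lipschitz, `P i` are orthogonal projections, the label is locally
constant almost everywhere -/
structure Good {d : ℕ} {ι : Type} (D : Pre d ι) : Prop where
  sym : ∀ i a b, D.P i a b = D.P i b a
  idem : ∀ i, D.P i * D.P i = D.P i
  meas : ∀ i, MeasurableSet {u | D.L u = i}
  lip : LipschitzWith 1 D.X
  loc : ∀ᵐ u ∂(volume : Measure (E d)), ∀ᶠ v in 𝓝 u, D.L v = D.L u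
  aff : ∀ u a, D.X u a = D.c (D.L u) a + ∑ b, D.P (D.L u) a b * u b

/-- the same data seen from the center `z` at the scale `r` -/
noncomputable def Pre.rs {d : ℕ} {ι : Type} (D : Pre d ι) (z : E d) (r : ℝ) : Pre d ι where
  X u := r⁻¹ • D.X (z + r • u)
  L u := D.L (z + r • u)
  c i := r⁻¹ • (D.c i + mv (D.P i) z)
  P := D.P

variable {d : ℕ} {ι : Type} [Fintype ι]

/-- probability of a label -/
noncomputable def q (D : Pre d ι) (i : ι) : ℝ := (gam d).real {u | D.L u = i}

/-- first moment of a cell -/
noncomputable def mom (D : Pre d ι) (i : ι) (k : Fin d) : ℝ := ∫ u in {u | D.L u = i}, u k ∂(gam d)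

/-- mean projection -/
noncomputable def A (D : Pre d ι) : Matrix (Fin d) (Fin d) ℝ := ∑ i, q D i • D.P i

/-- `(T D k) a b` is the expectation of `P a b * u k` -/
noncomputable def T (D : Pre d ι) (k : Fin d) : Matrix (Fin d) (Fin d) ℝ := ∑ i, mom D i k • D.P i

/-- explained variance -/
noncomputable def Ye (D : Pre d ι) : ℝ := ∑ i, (∑ k, mom D i k ^ 2) / q D i

/-- entropy of the label -/
noncomputable def ent (D : Pre d ι) : ℝ := ∑ i, Real.negMulLog (q D i)

/-- the trace potential -/
noncomputable def J (m : ℕ) (B : Matrix (Fin d) (Fin d) ℝ) : ℝ :=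
  ∑ j ∈ Finset.range (m + 1),
    ((d : ℝ) - ((1 - (2 : ℝ) • B) ^ (2 * j + 2)).trace) / ((2 * (j : ℝ) + 1) * (2 * (j : ℝ) + 2))

/-- minus the second derivative of the potential at `B`, summed over the directions `S k` -/
noncomputable def LL (m : ℕ) (B : Matrix (Fin d) (Fin d) ℝ) (S : Fin d → Matrix (Fin d) (Fin d) ℝ) : ℝ :=
  ∑ k, ∑ j ∈ Finset.range (m + 1), (4 / (2 * (j : ℝ) + 1)) * ∑ l ∈ Finset.range (2 * j + 1),
    ((1 - (2 : ℝ) • B) ^ l * S k * (1 - (2 : ℝ) • B) ^ (2 * j - l) * S k).trace

/-- the value of the scalar potential at `1/2` -/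
noncomputable def Jh (m : ℕ) : ℝ :=
  ∑ j ∈ Finset.range (m + 1), 1 / ((2 * (j : ℝ) + 1) * (2 * (j : ℝ) + 2))

/-- the extra properties of the data of a centrally symmetric polytope in isotropic position -/
structure Iso (D : Pre d ι) : Prop where
  odd : ∀ u, D.X (-u) = -D.X u
  even : ∀ u, D.P (D.L (-u)) = D.P (D.L u)
  pc : ∀ u a, ∑ b, D.P (D.L u) a b * D.c (D.L u) b = 0
  half : A D = (1 / 2 : ℝ) • (1 : Matrix (Fin d) (Fin d) ℝ)

/-! geometry -/

/-- matrix of the orthogonal projection onto a subspace -/
noncomputable def Pmat (W : Submodule ℝ (E d)) : Matrix (Fin d) (Fin d) ℝ :=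
  fun a b => W.starProjection (EuclideanSpace.single b (1 : ℝ)) a

/-- the polytope `T (conv S)` -/
def body (S : Finset (E d)) (M : Matrix (Fin d) (Fin d) ℝ) : Set (E d) :=
  mv M '' convexHull ℝ (S : Set (E d))

open Classical in
/-- the nearest point of the body -/
noncomputable def near (S : Finset (E d)) (M : Matrix (Fin d) (Fin d) ℝ) (u : E d) : E d :=
  if h : ∃ x ∈ body S M, ∀ p ∈ body S M, inner ℝ (u - x) (p - x) ≤ 0 then h.choose else 0

open Classical in
/-- the label: the vertices of the body where the normal `u - near u` is maximal -/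
noncomputable def lab (S : Finset (E d)) (M : Matrix (Fin d) (Fin d) ℝ) (u : E d) : S.powerset :=
  ⟨S.filter (fun s => inner ℝ (u - near S M u) (mv M s) = inner ℝ (u - near S M u) (near S M u)),
    Finset.mem_powerset.2 (Finset.filter_subset _ _)⟩

/-- direction space of a label -/
noncomputable def dir (S : Finset (E d)) (M : Matrix (Fin d) (Fin d) ℝ) (I : S.powerset) : Submodule ℝ (E d) :=
  vectorSpan ℝ (mv M '' ((I : Finset (E d)) : Set (E d)))

open Classical in
/-- the constant part: component orthogonal to the direction space -/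
noncomputable def cst (S : Finset (E d)) (M : Matrix (Fin d) (Fin d) ℝ) (I : S.powerset) : E d :=
  if h : ∃ s, s ∈ (I : Finset (E d)) then
    mv M h.choose - (dir S M I).starProjection (mv M h.choose) else 0

/-- the data of the nearest point map of `T (conv S)` -/
noncomputable def geo (S : Finset (E d)) (M : Matrix (Fin d) (Fin d) ℝ) : Pre d S.powerset where
  X := near S M
  L := lab S M
  c := cst S M
  P I := Pmat (dir S M I)

/-- the set of nonempty exposed faces -/
def faces (S : Finset (E d)) : Set (Set (E d)) :=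
  {F | F.Nonempty ∧ IsExposed ℝ (convexHull ℝ (S : Set (E d))) F}

end Pool.Agent.KXP
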