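import Mathlib

open MeasureTheory ProbabilityTheory Real
open scoped RealInnerProductSpace ENNReal

namespace Pool.Agent.KXP

section Dens

variable {E : Type*} [NormedAddCommGroup E] [InnerProductSpace ℝ E] [FiniteDimensional ℝ E]
  [MeasurableSpace E] [BorelSpace E]

/-- The Gaussian density on a finite dimensional inner product space. -/
noncomputable def gd (y : E) : ℝ :=
  (2 * π) ^ (-(Module.finrank ℝ E / 2 : ℝ)) * Real.exp (-‖y‖ ^ 2 / 2)

omit [FiniteDimensional ℝ E] [MeasurableSpace E] [BorelSpace E] in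
lemma gd_pos (y : E) : 0 < gd y := by
  unfold gd; positivity

omit [FiniteDimensional ℝ E] [MeasurableSpace E] [BorelSpace E] in
lemma gd_cont : Continuous (gd (E := E)) := by
  unfold gd; fun_prop

lemma gd_integrable : Integrable (gd (E := E)) volume := by
  have h := GaussianFourier.integrable_cexp_neg_mul_sq_norm_add (V := E) (b := (1 / 2 : ℂ))
    (by norm_num) 0 0
  have h2 := h.re
  have h3 : Integrable (fun y : E => Real.exp (-‖y‖ ^ 2 / 2)) volume := by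
    refine h2.congr (Filter.Eventually.of_forall fun y => ?_)
    simp only [RCLike.re_to_complex]
    have : (-(1 / 2 : ℂ) * (‖y‖ : ℂ) ^ 2 + 0 * ((⟪(0 : E), y⟫ : ℝ) : ℂ)) = ((-‖y‖ ^ 2 / 2 : ℝ) : ℂ) := by
      push_cast; ring
    rw [this, ← Complex.ofReal_exp, Complex.ofReal_re]
  exact h3.const_mul _

lemma gd_charFun (t : E) :
    ∫ y : E, ((gd y : ℝ) : ℂ) * Complex.exp (⟪y, t⟫ * Complex.I) = Complex.exp (-‖t‖ ^ 2 / 2) := by
  have h := GaussianFourier.integral_cexp_neg_mul_sq_norm_add (V := E) (b := (1 / 2 : ℂ))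
    (by norm_num) Complex.I t
  have h1 : ∀ y : E, ((gd y : ℝ) : ℂ) * Complex.exp (⟪y, t⟫ * Complex.I) =
      (((2 * π) ^ (-(Module.finrank ℝ E / 2 : ℝ)) : ℝ) : ℂ) *
        Complex.exp (-(1 / 2 : ℂ) * (‖y‖ : ℂ) ^ 2 + Complex.I * ((⟪t, y⟫ : ℝ) : ℂ)) := by
    intro y
    unfold gd
    rw [Complex.exp_add, real_inner_comm t y]
    push_cast
    rw [mul_assoc]
    congr 3
    · ring
    · ring
  simp_rw [h1]
  rw [integral_const_mul, h]
  have h2 : (π / (1 / 2 : ℂ)) ^ (Module.finrank ℝ E / 2 : ℂ) =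
      (((2 * π) ^ (Module.finrank ℝ E / 2 : ℝ) : ℝ) : ℂ) := by
    rw [Complex.ofReal_cpow (by positivity)]
    push_cast
    congr 1
    ring
  rw [h2, ← mul_assoc, ← Complex.ofReal_mul, ← Real.rpow_add (by positivity)]
  rw [neg_add_cancel, Real.rpow_zero, Complex.ofReal_one, one_mul]
  congr 1
  rw [Complex.I_sq]
  ring

lemma stdGaussian_eq : stdGaussian E = volume.withDensity (fun y => ENNReal.ofReal (gd y)) := by
  have : IsFiniteMeasure ((volume : Measure E).withDensity (fun y => ENNReal.ofReal (gd y))) :=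
    isFiniteMeasure_withDensity_ofReal gd_integrable.2
  apply Measure.ext_of_charFun (E := E)
  ext t
  rw [charFun_stdGaussian, charFun_apply, integral_withDensity_eq_integral_toReal_smul]
  · rw [← gd_charFun t]
    refine integral_congr_ae (Filter.Eventually.of_forall fun y => ?_)
    simp only [ENNReal.toReal_ofReal (gd_pos y).le, Complex.real_smul]
  · exact (gd_cont.measurable).ennreal_ofReal
  · exact Filter.Eventually.of_forall fun y => ENNReal.ofReal_lt_top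

lemma integral_std {F : Type*} [NormedAddCommGroup F] [NormedSpace ℝ F] (g : E → F) :
    ∫ y, g y ∂(stdGaussian E) = ∫ y, gd y • g y := by
  rw [stdGaussian_eq, integral_withDensity_eq_integral_toReal_smul]
  · refine integral_congr_ae (Filter.Eventually.of_forall fun y => ?_)
    simp only [ENNReal.toReal_ofReal (gd_pos y).le]
  · exact (gd_cont.measurable).ennreal_ofReal
  · exact Filter.Eventually.of_forall fun y => ENNReal.ofReal_lt_top

/-- The Mehler kernel. -/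
noncomputable def mkz (τ : ℝ) (x z : E) : ℝ :=
  (Real.sqrt (1 - τ ^ 2) ^ Module.finrank ℝ E)⁻¹ *
    Real.exp ((2 * τ * ⟪x, z⟫ - τ ^ 2 * (‖x‖ ^ 2 + ‖z‖ ^ 2)) / (2 * (1 - τ ^ 2)))

lemma mkz_integral {τ : ℝ} (h0 : 0 ≤ τ) (h1 : τ < 1) (g : E → ℝ) (x : E) :
    ∫ y, g (τ • x + Real.sqrt (1 - τ ^ 2) • y) ∂(stdGaussian E) =
      ∫ z, mkz τ x z * g z ∂(stdGaussian E) := by
  have hs2 : 0 < 1 - τ ^ 2 := by nlinarith
  set s := Real.sqrt (1 - τ ^ 2) with hs
  have hs0 : 0 < s := Real.sqrt_pos.2 hs2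
  have hss : s ^ 2 = 1 - τ ^ 2 := Real.sq_sqrt hs2.le
  rw [integral_std, integral_std]
  set F : E → ℝ := fun z => gd (s⁻¹ • (z - τ • x)) • g z with hF
  have e1 : ∫ y, gd y • g (τ • x + s • y) = ∫ y, F (s • y + τ • x) := by
    refine integral_congr_ae (Filter.Eventually.of_forall fun y => ?_)
    simp only [hF]
    rw [add_sub_cancel_right, smul_smul, inv_mul_cancel₀ hs0.ne', one_smul, add_comm]
  rw [e1]
  have e2 := Measure.integral_comp_smul (volume : Measure E) (fun y => F (y + τ • x)) s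
  rw [e2, integral_add_right_eq_self, abs_of_pos (by positivity), smul_eq_mul,
    ← integral_const_mul]
  refine integral_congr_ae (Filter.Eventually.of_forall fun z => ?_)
  simp only [hF, smul_eq_mul]
  have key : gd (s⁻¹ • (z - τ • x)) =
      gd z * Real.exp ((2 * τ * ⟪x, z⟫ - τ ^ 2 * (‖x‖ ^ 2 + ‖z‖ ^ 2)) / (2 * (1 - τ ^ 2))) := by
    unfold gd
    rw [mul_assoc, ← Real.exp_add]
    congr 2
    have n1 : ‖s⁻¹ • (z - τ • x)‖ ^ 2 =
        (‖z‖ ^ 2 - 2 * τ * ⟪x, z⟫ + τ ^ 2 * ‖x‖ ^ 2) / (1 - τ ^ 2) := by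
      rw [norm_smul, mul_pow, norm_inv, Real.norm_eq_abs, abs_of_pos hs0, inv_pow, hss,
        norm_sub_sq_real, real_inner_smul_right, norm_smul, real_inner_comm x z, mul_pow]
      simp only [Real.norm_eq_abs, sq_abs]
      field_simp
    rw [n1]
    field_simp
    ring
  rw [key, mkz]
  ring

end Dens

section Small

lemma exp_sub_le (x : ℝ) : |Real.exp x - 1 - x| ≤ x ^ 2 * Real.exp |x| := by
  have h1 : 0 ≤ Real.exp x - 1 - x := by have := Real.add_one_le_exp x; linarith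
  have he : 1 ≤ Real.exp |x| := Real.one_le_exp (abs_nonneg x)
  rcases le_or_gt |x| 1 with h | h
  · have h2 := Real.abs_exp_sub_one_sub_id_le h
    nlinarith [sq_nonneg x]
  · rw [abs_of_nonneg h1]
    have hx2 : 1 ≤ x ^ 2 := by rw [← sq_abs]; nlinarith
    rcases le_or_gt 0 x with h0 | h0
    · rw [abs_of_nonneg h0] at he ⊢
      nlinarith
    · have h3 : Real.exp x ≤ 1 := Real.exp_le_one_iff.2 h0.le
      rw [abs_of_neg h0] at h he ⊢
      nlinarith

variable {E : Type*} [NormedAddCommGroup E] [InnerProductSpace ℝ E]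

lemma mkz_bound {c : ℝ} (hc : 0 < c) : ∃ K τ0 : ℝ, 0 < τ0 ∧ τ0 ≤ 1 / 2 ∧ 0 ≤ K ∧
    ∀ τ : ℝ, 0 ≤ τ → τ ≤ τ0 → ∀ x z : E,
      |mkz τ x z - 1 - τ * ⟪x, z⟫| ≤
        K * τ ^ 2 * (Real.exp (c * ‖x‖ ^ 2) * Real.exp (c * ‖z‖ ^ 2)) := by
  set d := Module.finrank ℝ E with hd
  set D : ℝ := d * (4 / 3 : ℝ) ^ d with hD
  have hD0 : 0 ≤ D := by positivity
  refine ⟨(D + 1) * (1 + 4 / c) ^ 2, min (1 / 2) (c / 2), by positivity, min_le_left _ _,
    by positivity, ?_⟩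
  intro τ h0 h1 x z
  have h12 : τ ≤ 1 / 2 := h1.trans (min_le_left _ _)
  have h1c : τ ≤ c / 2 := h1.trans (min_le_right _ _)
  have ht : τ ^ 2 ≤ 1 / 4 := by nlinarith
  have hs2 : 0 < 1 - τ ^ 2 := by linarith
  set s := Real.sqrt (1 - τ ^ 2) with hs
  have hs0 : 0 < s := Real.sqrt_pos.2 hs2
  have hss : s ^ 2 = 1 - τ ^ 2 := Real.sq_sqrt hs2.le
  have hs1 : s ≤ 1 := by
    rw [hs]; exact Real.sqrt_le_one.2 (by nlinarith)
  set S : ℝ := ‖x‖ ^ 2 + ‖z‖ ^ 2 with hS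
  have hS0 : 0 ≤ S := by positivity
  have hin : |⟪x, z⟫| ≤ S / 2 := by
    have := abs_real_inner_le_norm x z
    nlinarith [sq_nonneg (‖x‖ - ‖z‖)]
  obtain ⟨hin1, hin2⟩ := abs_le.1 hin
  set p := ⟪x, z⟫ with hp
  set q := (2 * τ * p - τ ^ 2 * S) / (2 * (1 - τ ^ 2)) with hq
  have hsd1 : s ^ d ≤ 1 := pow_le_one₀ hs0.le hs1
  have hsd0 : 0 < s ^ d := by positivity
  have hsd2 : (1 - τ ^ 2) ^ d ≤ s ^ d := by
    rw [← hss, ← pow_mul, mul_comm, pow_mul, sq]
    nlinarith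
  have hsd3 : (3 / 4 : ℝ) ^ d ≤ s ^ d := by
    refine le_trans ?_ hsd2
    gcongr
    linarith
  have hinv : (s ^ d)⁻¹ ≤ (4 / 3 : ℝ) ^ d := by
    have : ((4 / 3 : ℝ) ^ d) = ((3 / 4 : ℝ) ^ d)⁻¹ := by rw [← inv_pow]; norm_num
    rw [this]
    exact inv_anti₀ (by positivity) hsd3
  have hbern : 1 - d * τ ^ 2 ≤ s ^ d := by
    refine le_trans ?_ hsd2
    have := one_add_mul_le_pow (a := -τ ^ 2) (by linarith) d
    calc 1 - d * τ ^ 2 = 1 + d * (-τ ^ 2) := by ring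
      _ ≤ (1 + -τ ^ 2) ^ d := this
      _ = (1 - τ ^ 2) ^ d := by ring_nf
  have ha1 : 0 ≤ (s ^ d)⁻¹ - 1 := by
    have := one_le_inv_iff₀.2 ⟨hsd0, hsd1⟩
    linarith
  have ha2 : (s ^ d)⁻¹ - 1 ≤ D * τ ^ 2 := by
    have e1 : (s ^ d)⁻¹ - 1 = (1 - s ^ d) * (s ^ d)⁻¹ := by field_simp
    rw [e1, hD]
    calc (1 - s ^ d) * (s ^ d)⁻¹ ≤ (d * τ ^ 2) * (4 / 3 : ℝ) ^ d := by
          apply mul_le_mul _ hinv (by positivity) (by positivity)
          linarith
      _ = d * (4 / 3 : ℝ) ^ d * τ ^ 2 := by ring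
  have hqa : |q| ≤ τ * S := by
    rw [hq, abs_div, abs_of_pos (by linarith : (0:ℝ) < 2 * (1 - τ ^ 2)), div_le_iff₀ (by linarith)]
    have e1 : |2 * τ * p - τ ^ 2 * S| ≤ τ * S + τ ^ 2 * S := by
      rw [abs_le]
      constructor <;> nlinarith [mul_nonneg h0 hS0, mul_nonneg (sq_nonneg τ) hS0]
    have hτS : 0 ≤ τ * S := mul_nonneg h0 hS0
    calc |2 * τ * p - τ ^ 2 * S| ≤ τ * S + τ ^ 2 * S := e1
      _ = τ * S * (1 + τ) := by ring
      _ ≤ τ * S * (2 * (1 - τ ^ 2)) := by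
          apply mul_le_mul_of_nonneg_left _ hτS
          linarith
  have hexp : Real.exp |q| ≤ Real.exp (c / 2 * S) := by
    apply Real.exp_le_exp.2
    exact hqa.trans (mul_le_mul_of_nonneg_right h1c hS0)
  have hexp' : Real.exp q ≤ Real.exp (c / 2 * S) :=
    (Real.exp_le_exp.2 (le_abs_self q)).trans hexp
  have hexp1 : 1 ≤ Real.exp (c / 2 * S) := Real.one_le_exp (by positivity)
  have t1 : |((s ^ d)⁻¹ - 1) * Real.exp q| ≤ D * τ ^ 2 * Real.exp (c / 2 * S) := by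
    rw [abs_of_nonneg (mul_nonneg ha1 (Real.exp_pos _).le)]
    exact mul_le_mul ha2 hexp' (Real.exp_pos _).le (by positivity)
  have t2 : |Real.exp q - 1 - q| ≤ τ ^ 2 * S ^ 2 * Real.exp (c / 2 * S) := by
    refine (exp_sub_le q).trans ?_
    apply mul_le_mul _ hexp (Real.exp_pos _).le (by positivity)
    rw [← sq_abs, ← mul_pow]
    exact pow_le_pow_left₀ (abs_nonneg _) hqa 2
  have t3 : |q - τ * p| ≤ τ ^ 2 * S := by
    have e1 : q - τ * p = (2 * τ ^ 3 * p - τ ^ 2 * S) / (2 * (1 - τ ^ 2)) := by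
      rw [hq]; field_simp; ring
    rw [e1, abs_div, abs_of_pos (by linarith : (0:ℝ) < 2 * (1 - τ ^ 2)), div_le_iff₀ (by linarith)]
    have hτ3 : 0 ≤ τ ^ 3 := by positivity
    have e2 : |2 * τ ^ 3 * p - τ ^ 2 * S| ≤ τ ^ 3 * S + τ ^ 2 * S := by
      rw [abs_le]
      constructor <;> nlinarith [mul_nonneg hτ3 hS0, mul_nonneg (sq_nonneg τ) hS0]
    have hτS : 0 ≤ τ ^ 2 * S := mul_nonneg (sq_nonneg τ) hS0
    calc |2 * τ ^ 3 * p - τ ^ 2 * S| ≤ τ ^ 3 * S + τ ^ 2 * S := e2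
      _ = τ ^ 2 * S * (1 + τ) := by ring
      _ ≤ τ ^ 2 * S * (2 * (1 - τ ^ 2)) := by
          apply mul_le_mul_of_nonneg_left _ hτS
          linarith
  have hsum : mkz τ x z - 1 - τ * p =
      ((s ^ d)⁻¹ - 1) * Real.exp q + (Real.exp q - 1 - q) + (q - τ * p) := by
    unfold mkz
    rw [← hp, ← hs, ← hd, ← hS, ← hq]
    ring
  have hS1 : 1 + S ≤ (1 + 4 / c) * Real.exp (c / 4 * S) := by
    have e1 : c / 4 * S + 1 ≤ Real.exp (c / 4 * S) := Real.add_one_le_exp _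
    calc 1 + S ≤ (1 + 4 / c) * (c / 4 * S + 1) := by
          have : (1 + 4 / c) * (c / 4 * S + 1) = 1 + S + c / 4 * S + 4 / c := by
            field_simp; ring
          rw [this]
          have : 0 ≤ c / 4 * S + 4 / c := by positivity
          linarith
      _ ≤ _ := by gcongr
  have hS2 : (1 + S) ^ 2 ≤ (1 + 4 / c) ^ 2 * Real.exp (c / 2 * S) := by
    calc (1 + S) ^ 2 ≤ ((1 + 4 / c) * Real.exp (c / 4 * S)) ^ 2 :=
          pow_le_pow_left₀ (by positivity) hS1 2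
      _ = (1 + 4 / c) ^ 2 * Real.exp (c / 2 * S) := by
          rw [mul_pow, ← Real.exp_nat_mul]
          congr 2
          push_cast
          ring
  rw [hsum]
  calc |((s ^ d)⁻¹ - 1) * Real.exp q + (Real.exp q - 1 - q) + (q - τ * p)|
      ≤ |((s ^ d)⁻¹ - 1) * Real.exp q| + |Real.exp q - 1 - q| + |q - τ * p| := abs_add_three _ _ _
    _ ≤ D * τ ^ 2 * Real.exp (c / 2 * S) + τ ^ 2 * S ^ 2 * Real.exp (c / 2 * S) + τ ^ 2 * S :=
        add_le_add (add_le_add t1 t2) t3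
    _ ≤ D * τ ^ 2 * Real.exp (c / 2 * S) + τ ^ 2 * S ^ 2 * Real.exp (c / 2 * S)
          + τ ^ 2 * S * Real.exp (c / 2 * S) := by
        have : 0 ≤ τ ^ 2 * S := by positivity
        nlinarith
    _ = τ ^ 2 * Real.exp (c / 2 * S) * (D + S ^ 2 + S) := by ring
    _ ≤ τ ^ 2 * Real.exp (c / 2 * S) * ((D + 1) * (1 + S) ^ 2) := by
        apply mul_le_mul_of_nonneg_left _ (by positivity)
        nlinarith [mul_nonneg hD0 hS0, mul_nonneg hD0 (sq_nonneg S)]
    _ ≤ τ ^ 2 * Real.exp (c / 2 * S) * ((D + 1) * ((1 + 4 / c) ^ 2 * Real.exp (c / 2 * S))) := by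
        gcongr
    _ = (D + 1) * (1 + 4 / c) ^ 2 * τ ^ 2 * (Real.exp (c / 2 * S) * Real.exp (c / 2 * S)) := by
        ring
    _ = _ := by
        rw [← Real.exp_add, ← Real.exp_add]
        congr 2
        rw [hS]; ring

variable [FiniteDimensional ℝ E] [MeasurableSpace E] [BorelSpace E]

omit [FiniteDimensional ℝ E] [MeasurableSpace E] [BorelSpace E] in
lemma mkz_cont (τ : ℝ) (x : E) : Continuous (mkz τ x) := by
  unfold mkz; fun_prop

theorem small_tau (f : E → ℝ) (hf : MemLp f 2 (stdGaussian E)) (h0 : ∫ u, f u ∂(stdGaussian E) = 0)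
    (h1 : ∀ e : E, ∫ u, f u * ⟪e, u⟫ ∂(stdGaussian E) = 0) :
    ∃ C τ0 : ℝ, 0 < τ0 ∧ 0 ≤ C ∧ ∀ τ : ℝ, 0 ≤ τ → τ ≤ τ0 →
      |∫ x, f x * (∫ y, f (τ • x + Real.sqrt (1 - τ ^ 2) • y) ∂(stdGaussian E)) ∂(stdGaussian E)|
        ≤ C * τ ^ 2 := by
  obtain ⟨C0, hC0, hC1⟩ := IsGaussian.exists_integrable_exp_sq (stdGaussian E)
  obtain ⟨K, τ0, hτ0, hτ1, hK, hb⟩ := mkz_bound (E := E) (c := C0 / 2) (by positivity)
  set G : E → ℝ := fun x => Real.exp (C0 / 2 * ‖x‖ ^ 2) with hG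
  have hGc : Continuous G := by rw [hG]; fun_prop
  have hGm : MemLp G 2 (stdGaussian E) := by
    rw [memLp_two_iff_integrable_sq hGc.aestronglyMeasurable]
    refine hC1.congr (Filter.Eventually.of_forall fun x => ?_)
    simp only [hG]
    rw [← Real.exp_nat_mul]
    congr 1
    push_cast
    ring
  have hG0 : ∀ x, 0 ≤ G x := fun x => (Real.exp_pos _).le
  have hfG : Integrable (fun x => |f x| * G x) (stdGaussian E) := hf.abs.integrable_mul hGm
  set I := ∫ x, |f x| * G x ∂(stdGaussian E) with hI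
  have hI0 : 0 ≤ I := integral_nonneg fun x => mul_nonneg (abs_nonneg _) (hG0 x)
  have hfi : Integrable f (stdGaussian E) := hf.integrable (by norm_num)
  refine ⟨K * I ^ 2, τ0, hτ0, by positivity, ?_⟩
  intro τ ht0 ht1
  have hlt : τ < 1 := by linarith
  have hin : ∀ x : E, |∫ y, f (τ • x + Real.sqrt (1 - τ ^ 2) • y) ∂(stdGaussian E)| ≤
      K * τ ^ 2 * G x * I := by
    intro x
    rw [mkz_integral ht0 hlt f x]
    have hxin : Integrable (fun z : E => f z * ⟪x, z⟫) (stdGaussian E) := by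
      have hm : MemLp (fun z : E => ⟪x, z⟫) 2 (stdGaussian E) :=
        IsGaussian.memLp_dual (stdGaussian E) (innerSL ℝ x) 2 (by simp)
      exact hf.integrable_mul hm
    have hbd : ∀ z : E, ‖(mkz τ x z - 1 - τ * ⟪x, z⟫) * f z‖ ≤ K * τ ^ 2 * G x * (|f z| * G z) := by
      intro z
      rw [norm_mul, Real.norm_eq_abs, Real.norm_eq_abs]
      calc |mkz τ x z - 1 - τ * ⟪x, z⟫| * |f z| ≤ (K * τ ^ 2 * (G x * G z)) * |f z| :=
            mul_le_mul_of_nonneg_right (hb τ ht0 ht1 x z) (abs_nonneg _)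
        _ = _ := by ring
    have hmeas : AEStronglyMeasurable (fun z : E => (mkz τ x z - 1 - τ * ⟪x, z⟫) * f z)
        (stdGaussian E) := by
      refine AEStronglyMeasurable.mul ?_ hf.1
      have : Continuous fun z : E => mkz τ x z - 1 - τ * ⟪x, z⟫ := by
        have := mkz_cont (E := E) τ x
        fun_prop
      exact this.aestronglyMeasurable
    have hi1 : Integrable (fun z : E => (mkz τ x z - 1 - τ * ⟪x, z⟫) * f z) (stdGaussian E) :=
      (hfG.const_mul (K * τ ^ 2 * G x)).mono' hmeas (Filter.Eventually.of_forall hbd)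
    have hsplit : (fun z => mkz τ x z * f z) = fun z =>
        (mkz τ x z - 1 - τ * ⟪x, z⟫) * f z + (f z + τ * (f z * ⟪x, z⟫)) := by
      funext z; ring
    have hi2 : Integrable (fun z : E => f z + τ * (f z * ⟪x, z⟫)) (stdGaussian E) :=
      hfi.add (hxin.const_mul τ)
    rw [hsplit, integral_add hi1 hi2, integral_add hfi (hxin.const_mul τ),
      h0, integral_const_mul, h1 x, mul_zero, add_zero, add_zero, ← Real.norm_eq_abs]
    calc ‖∫ z, (mkz τ x z - 1 - τ * ⟪x, z⟫) * f z ∂(stdGaussian E)‖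
        ≤ ∫ z, K * τ ^ 2 * G x * (|f z| * G z) ∂(stdGaussian E) :=
          norm_integral_le_of_norm_le (hfG.const_mul _) (Filter.Eventually.of_forall hbd)
      _ = K * τ ^ 2 * G x * I := by rw [integral_const_mul]
  rw [← Real.norm_eq_abs]
  calc ‖∫ x, f x * (∫ y, f (τ • x + Real.sqrt (1 - τ ^ 2) • y) ∂(stdGaussian E)) ∂(stdGaussian E)‖
      ≤ ∫ x, K * τ ^ 2 * I * (|f x| * G x) ∂(stdGaussian E) := by
        refine norm_integral_le_of_norm_le (hfG.const_mul _) (Filter.Eventually.of_forall ?_)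
        intro x
        rw [norm_mul, Real.norm_eq_abs, Real.norm_eq_abs]
        calc |f x| * |∫ y, f (τ • x + Real.sqrt (1 - τ ^ 2) • y) ∂(stdGaussian E)|
            ≤ |f x| * (K * τ ^ 2 * G x * I) := mul_le_mul_of_nonneg_left (hin x) (abs_nonneg _)
          _ = _ := by ring
    _ = K * I ^ 2 * τ ^ 2 := by rw [integral_const_mul]; ring

end Small

end Pool.Agent.KXP
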