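import Pool.Agent.KXP.Defs
import Pool.Agent.KXP.Ker

/-! KXP row DEN: the density of the standard Gaussian measure. -/

set_option autoImplicit false

open MeasureTheory ProbabilityTheory Filter Topology
open scoped BigOperators

namespace Pool.Agent.KXP

variable {d : ℕ}

theorem gau_den (f : E d → ℝ) :
    ∫ u, f u ∂(gam d) = ∫ u, f u * ((2 * Real.pi) ^ (-(d : ℝ) / 2) * Real.exp (-‖u‖ ^ 2 / 2)) := by
  unfold gam
  rw [integral_std]
  refine integral_congr_ae (Filter.Eventually.of_forall fun y => ?_)
  simp only [gd, smul_eq_mul, finrank_euclideanSpace, Fintype.card_fin]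
  rw [mul_comm, neg_div]
  simp only [neg_div]

end Pool.Agent.KXP
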