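import Pool.Agent.KXP.Defs
import Pool.Agent.KXP.Ker

/-! KXP row GAU: basic facts on the standard Gaussian measure. -/

set_option autoImplicit false

open MeasureTheory ProbabilityTheory Filter Topology
open scoped BigOperators

namespace Pool.Agent.KXP

variable {d : ℕ}

theorem Gau_cont_coord (a : Fin d) : Continuous fun u : E d => u a := by fun_prop

theorem gau_pow (n : ℕ) : Integrable (fun u : E d => ‖u‖ ^ n) (gam d) := by
  have h : MemLp (id : E d → E d) n (gam d) := by
    unfold gam
    exact IsGaussian.memLp_id _ _ (by simp)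
  rcases Nat.eq_zero_or_pos n with rfl | hn
  · simp
  · exact h.integrable_norm_pow (by omega)

theorem Gau_eq_pi : gam d = (Measure.pi fun _ : Fin d => gaussianReal 0 1).map (WithLp.toLp 2) := by
  unfold gam
  rw [map_pi_eq_stdGaussian]

theorem Gau_int (g : E d → ℝ) (hg : Continuous g) : ∫ u, g u ∂(gam d) =
    ∫ x, g (WithLp.toLp 2 x) ∂(Measure.pi fun _ : Fin d => gaussianReal 0 1) := by
  rw [Gau_eq_pi, integral_map (by fun_prop) hg.aestronglyMeasurable]

theorem gau_mean (a : Fin d) : ∫ u, u a ∂(gam d) = 0 := by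
  have h := integral_strongDual_stdGaussian (E := E d) (EuclideanSpace.proj a : E d →L[ℝ] ℝ)
  simpa [gam] using h

theorem Gau_memLp (a : Fin d) : MemLp (fun u : E d => u a) 2 (gam d) :=
  IsGaussian.memLp_dual (stdGaussian (E d)) (EuclideanSpace.proj a : E d →L[ℝ] ℝ) 2 (by simp)

theorem gau_cov (a b : Fin d) : ∫ u, u a * u b ∂(gam d) = if a = b then 1 else 0 := by
  have h := covarianceBilin_stdGaussian (E := E d)
  have h1 : covarianceBilin (stdGaussian (E d)) (EuclideanSpace.single a (1 : ℝ))
      (EuclideanSpace.single b (1 : ℝ)) = if a = b then 1 else 0 := by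
    rw [h]
    have : (innerSL ℝ (EuclideanSpace.single a (1 : ℝ) : E d)) (EuclideanSpace.single b (1 : ℝ)) =
      inner ℝ (EuclideanSpace.single a (1 : ℝ) : E d) (EuclideanSpace.single b (1 : ℝ)) := rfl
    refine this.trans ?_
    rw [EuclideanSpace.inner_single_left, PiLp.single_apply]
    simp
  rw [covarianceBilin_apply IsGaussian.memLp_two_id] at h1
  have e0 : (∫ x : E d, id x ∂stdGaussian (E d)) = 0 := integral_id_stdGaussian
  rw [e0] at h1
  simp only [EuclideanSpace.inner_single_left, map_one, one_mul, sub_zero] at h1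
  exact h1

theorem gau_rot {α β : ℝ} (h : α ^ 2 + β ^ 2 = 1) :
    MeasurePreserving (fun p : E d × E d => (α • p.1 + β • p.2, (-β) • p.1 + α • p.2))
      ((gam d).prod (gam d)) ((gam d).prod (gam d)) := by
  obtain ⟨θ, h1, h2⟩ : ∃ θ : ℝ, Real.cos θ = α ∧ Real.sin θ = β := by
    set z : ℂ := ⟨α, β⟩ with hz
    have hn : ‖z‖ = 1 := by
      rw [Complex.norm_def, Complex.normSq_mk, show α * α + β * β = 1 by nlinarith, Real.sqrt_one]
    have hz0 : z ≠ 0 := by
      intro h0
      rw [h0, norm_zero] at hn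
      exact zero_ne_one hn
    refine ⟨z.arg, ?_, ?_⟩
    · rw [Complex.cos_arg hz0, hn, div_one]
    · rw [Complex.sin_arg, hn, div_one]
  have h3 := IsGaussian.map_rotation_eq_self (μ := stdGaussian (E d)) (by simp) θ
  refine ⟨by fun_prop, ?_⟩
  rw [← h1, ← h2]
  exact h3

theorem gau_sum {α β : ℝ} (h : α ^ 2 + β ^ 2 = 1) :
    MeasurePreserving (fun p : E d × E d => α • p.1 + β • p.2) ((gam d).prod (gam d)) (gam d) :=
  measurePreserving_fst.comp (gau_rot h)

theorem gau_neg : MeasurePreserving (fun u : E d => -u) (gam d) (gam d) := by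
  refine ⟨by fun_prop, ?_⟩
  exact stdGaussian_map (LinearIsometryEquiv.neg ℝ (E := E d))

theorem gau_ac : gam d ≪ (volume : Measure (E d)) := by
  unfold gam
  rw [stdGaussian_eq]
  exact withDensity_absolutelyContinuous _ _

theorem gau_exp (θ : Fin d → ℝ) :
    Integrable (fun u : E d => Real.exp (∑ k, θ k * u k)) (gam d) ∧
      ∫ u, Real.exp (∑ k, θ k * u k) ∂(gam d) = Real.exp ((∑ k, θ k ^ 2) / 2) := by
  have hc : Continuous fun u : E d => Real.exp (∑ k, θ k * u k) := by fun_prop
  have hp : (fun x : Fin d → ℝ => Real.exp (∑ k, θ k * x k)) =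
      fun x => ∏ k, Real.exp (θ k * x k) := by
    funext x
    rw [Real.exp_sum]
  have hi : ∀ k : Fin d, Integrable (fun x : ℝ => Real.exp (θ k * x)) (gaussianReal 0 1) := fun k =>
    integrable_exp_mul_gaussianReal (θ k)
  constructor
  · rw [Gau_eq_pi, integrable_map_measure hc.aestronglyMeasurable (by fun_prop)]
    have : (fun u : E d => Real.exp (∑ k, θ k * u k)) ∘ (WithLp.toLp 2) =
      fun x : Fin d → ℝ => ∏ k, Real.exp (θ k * x k) := by
      rw [← hp]; rfl
    rw [this]
    exact Integrable.fintype_prod hi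
  · rw [Gau_int _ hc]
    have : ∀ x : Fin d → ℝ, Real.exp (∑ k, θ k * (WithLp.toLp 2 x : E d) k) =
        ∏ k, Real.exp (θ k * x k) := fun x => congrFun hp x
    simp_rw [this]
    rw [integral_fintype_prod_eq_prod (f := fun k x => Real.exp (θ k * x))]
    have h2 : ∀ k : Fin d, ∫ x, Real.exp (θ k * x) ∂(gaussianReal 0 1) = Real.exp (θ k ^ 2 / 2) := by
      intro k
      have := congrFun (mgf_id_gaussianReal (μ := 0) (v := 1)) (θ k)
      simpa [mgf] using this
    simp_rw [h2]
    rw [← Real.exp_sum, Finset.sum_div]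

end Pool.Agent.KXP
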