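import Pool.Agent.KXP.Defs

/-! KXP, row RSG: rescaled data. -/

set_option autoImplicit false

open MeasureTheory ProbabilityTheory Filter Topology
open scoped BigOperators

namespace Pool.Agent.KXP

set_option linter.unusedSectionVars false

variable {d : ℕ} {ι : Type} [Fintype ι]

omit [Fintype ι] in
private theorem Rsg_qmp (z : E d) {r : ℝ} (hr : 0 < r) :
    Measure.QuasiMeasurePreserving (fun u : E d => z + r • u) volume volume := by
  have h1 : Measure.QuasiMeasurePreserving (fun u : E d => r • u) volume volume := by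
    refine ⟨measurable_const_smul r, ?_⟩
    rw [Measure.map_addHaar_smul volume hr.ne']
    exact Measure.smul_absolutelyContinuous
  have h2 : Measure.QuasiMeasurePreserving (fun u : E d => z + u) volume volume :=
    (measurePreserving_add_left volume z).quasiMeasurePreserving
  exact h2.comp h1

theorem Good.rs {D : Pre d ι} (hD : Good D) (z : E d) {r : ℝ} (hr : 0 < r) : Good (D.rs z r) := by
  have hcont : Continuous fun u : E d => z + r • u := by fun_prop
  refine ⟨hD.sym, hD.idem, fun i => ?_, ?_, ?_, ?_⟩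
  · exact hcont.measurable (hD.meas i)
  · refine LipschitzWith.of_dist_le_mul fun u v => ?_
    have h1 := hD.lip.dist_le_mul (z + r • u) (z + r • v)
    have h2 : dist (z + r • u) (z + r • v) = r * dist u v := by
      rw [dist_add_left, dist_smul₀, Real.norm_eq_abs, abs_of_pos hr]
    rw [h2] at h1
    show dist (r⁻¹ • D.X (z + r • u)) (r⁻¹ • D.X (z + r • v)) ≤ _
    rw [dist_smul₀, Real.norm_eq_abs, abs_of_pos (inv_pos.2 hr)]
    calc r⁻¹ * dist (D.X (z + r • u)) (D.X (z + r • v)) ≤ r⁻¹ * (((1 : NNReal) : ℝ) * (r * dist u v)) :=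
          mul_le_mul_of_nonneg_left h1 (inv_pos.2 hr).le
      _ = ((1 : NNReal) : ℝ) * dist u v := by field_simp
  · have h1 := (Rsg_qmp z hr).ae hD.loc
    filter_upwards [h1] with u hu
    exact hcont.continuousAt.eventually hu
  · intro u a
    show (r⁻¹ • D.X (z + r • u)) a = (r⁻¹ • (D.c (D.L (z + r • u)) + mv (D.P (D.L (z + r • u))) z)) a +
      ∑ b, D.P (D.L (z + r • u)) a b * u b
    have h1 := hD.aff (z + r • u) a
    simp only [PiLp.smul_apply, PiLp.add_apply, smul_eq_mul, mv_apply] at h1 ⊢
    rw [h1]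
    have h2 : ∑ b, D.P (D.L (z + r • u)) a b * (z b + r * u b) =
        ∑ b, D.P (D.L (z + r • u)) a b * z b + r * ∑ b, D.P (D.L (z + r • u)) a b * u b := by
      rw [Finset.mul_sum, ← Finset.sum_add_distrib]
      exact Finset.sum_congr rfl fun b _ => by ring
    rw [h2]
    field_simp
    ring

omit [Fintype ι] in
private theorem Rsg_set (D : Pre d ι) (z z' : E d) (r r' : ℝ) (i : ι) :
    {u | ((D.rs z r).rs z' r').L u = i} = {u | (D.rs (z + r • z') (r * r')).L u = i} := by
  ext u
  show D.L (z + r • (z' + r' • u)) = i ↔ D.L (z + r • z' + (r * r') • u) = i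
  rw [smul_add, smul_smul, add_assoc]

theorem q_rs_rs (D : Pre d ι) (z z' : E d) (r r' : ℝ) (i : ι) :
    q ((D.rs z r).rs z' r') i = q (D.rs (z + r • z') (r * r')) i := by
  unfold q
  rw [Rsg_set]

theorem A_rs_rs (D : Pre d ι) (z z' : E d) (r r' : ℝ) :
    A ((D.rs z r).rs z' r') = A (D.rs (z + r • z') (r * r')) := by
  unfold A
  refine Finset.sum_congr rfl fun i _ => ?_
  rw [q_rs_rs]
  rfl

theorem q_rs_meas {D : Pre d ι} (hm : ∀ i, MeasurableSet {u | D.L u = i}) (a b : ℝ) (i : ι) :
    Measurable (fun v : E d => q (D.rs (a • v) b) i) := by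
  have h1 : Measurable fun p : E d × E d => a • p.1 + b • p.2 :=
    (measurable_fst.const_smul a).add (measurable_snd.const_smul b)
  have h2 : MeasurableSet {p : E d × E d | D.L (a • p.1 + b • p.2) = i} := h1 (hm i)
  have h3 := measurable_measure_prodMk_left (ν := gam d) h2
  exact h3.ennreal_toReal

open Classical in
theorem q_rs_ou (D : Pre d ι) (hm : ∀ i, MeasurableSet {u | D.L u = i}) (r : ℝ) (v : E d) (i : ι) :
    q (D.rs (r • v) (Real.sqrt (1 - r ^ 2))) i = ou r (fun u => if D.L u = i then (1 : ℝ) else 0) v := by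
  have hcont : Continuous fun u : E d => r • v + Real.sqrt (1 - r ^ 2) • u := by fun_prop
  have hms : MeasurableSet {u : E d | D.L (r • v + Real.sqrt (1 - r ^ 2) • u) = i} :=
    hcont.measurable (hm i)
  unfold q ou
  have h1 : (fun w : E d => if D.L (r • v + Real.sqrt (1 - r ^ 2) • w) = i then (1 : ℝ) else 0) =
      Set.indicator {u : E d | D.L (r • v + Real.sqrt (1 - r ^ 2) • u) = i} (fun _ => (1 : ℝ)) := by
    funext w
    by_cases h : D.L (r • v + Real.sqrt (1 - r ^ 2) • w) = i
    · rw [if_pos h, Set.indicator_of_mem]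
      exact h
    · rw [if_neg h, Set.indicator_of_notMem]
      exact h
  show (gam d).real {u : E d | D.L (r • v + Real.sqrt (1 - r ^ 2) • u) = i} =
    ∫ w, (if D.L (r • v + Real.sqrt (1 - r ^ 2) • w) = i then (1 : ℝ) else 0) ∂(gam d)
  rw [h1, integral_indicator_const (1 : ℝ) hms, smul_eq_mul, mul_one]

end Pool.Agent.KXP
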