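import Pool.Agent.KXP.Fib
import Pool.Agent.KXP.Gibbs
import Pool.Agent.KXP.Rsg
import Pool.Agent.KXP.Gau
import Pool.Agent.KXP.Den

set_option autoImplicit false
set_option linter.all false

open MeasureTheory ProbabilityTheory Filter Topology
open scoped BigOperators RealInnerProductSpace

namespace Pool.Agent.KXP

variable {d : ℕ} {ι : Type} [Fintype ι]

/-! ### the tilted density -/

private theorem Dv2_tilt (a : E d) {κ : ℝ} (hκ : 0 < κ) :
    ∫ v : E d, Real.exp (‖v‖ ^ 2 / 2 - ‖v - a‖ ^ 2 / (2 * κ)) ∂(gam d) = κ ^ ((d : ℝ) / 2) := by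
  rw [gau_den]
  have h1 : ∀ v : E d, Real.exp (‖v‖ ^ 2 / 2 - ‖v - a‖ ^ 2 / (2 * κ)) *
      ((2 * Real.pi) ^ (-(d : ℝ) / 2) * Real.exp (-‖v‖ ^ 2 / 2)) =
      (2 * Real.pi) ^ (-(d : ℝ) / 2) * Real.exp (-(1 / (2 * κ)) * ‖v - a‖ ^ 2) := by
    intro v
    rw [mul_left_comm, ← Real.exp_add]
    congr 2
    field_simp
    ring
  simp_rw [h1]
  rw [integral_const_mul]
  have h2 : ∫ v : E d, Real.exp (-(1 / (2 * κ)) * ‖v - a‖ ^ 2) =
      ∫ v : E d, Real.exp (-(1 / (2 * κ)) * ‖v‖ ^ 2) :=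
    integral_sub_right_eq_self (fun v : E d => Real.exp (-(1 / (2 * κ)) * ‖v‖ ^ 2)) a
  rw [h2, GaussianFourier.integral_rexp_neg_mul_sq_norm (V := E d) (b := 1 / (2 * κ)) (by positivity)]
  have h3 : Real.pi / (1 / (2 * κ)) = (2 * Real.pi) * κ := by field_simp
  rw [h3, finrank_euclideanSpace_fin, Real.mul_rpow (by positivity) hκ.le, ← mul_assoc,
    ← Real.rpow_add (by positivity)]
  rw [show -(d : ℝ) / 2 + (d : ℝ) / 2 = 0 by ring, Real.rpow_zero, one_mul]

private theorem Dv2_tilt_int (a : E d) {κ : ℝ} (hκ : 0 < κ) :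
    Integrable (fun v : E d => Real.exp (‖v‖ ^ 2 / 2 - ‖v - a‖ ^ 2 / (2 * κ))) (gam d) := by
  by_contra hc
  have h := Dv2_tilt a hκ
  rw [integral_undef hc] at h
  exact absurd h (Real.rpow_pos_of_pos hκ _).ne

private theorem Dv2_one (q : E d → ℝ) (hm : Measurable q) (h0 : ∀ v, 0 ≤ q v) (h1 : ∀ v, q v ≤ 1)
    (p : ℝ) (hp : ∫ v, q v ∂(gam d) = p) (μ : E d) (r : ℝ)
    (hr : ∫ v, q v • v ∂(gam d) = r • μ) {κ : ℝ} (hκ : 0 < κ) :
    ∫ v, Real.negMulLog (q v) ∂(gam d) ≤
      Real.negMulLog p + (d : ℝ) / 2 * Real.log κ * p - (∫ v, q v * ‖v‖ ^ 2 ∂(gam d)) / 2 +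
        ((∫ v, q v * ‖v‖ ^ 2 ∂(gam d)) - r ^ 2 * (‖μ‖ ^ 2 / p)) / (2 * κ) := by
  have hqi : Integrable q (gam d) := by
    refine Integrable.of_bound (C := 1) hm.aestronglyMeasurable ?_
    refine Filter.Eventually.of_forall fun v => ?_
    rw [Real.norm_eq_abs, abs_of_nonneg (h0 v)]; exact h1 v
  have hp0 : 0 ≤ p := by rw [← hp]; exact integral_nonneg h0
  have hIn : Integrable (fun v => Real.negMulLog (q v)) (gam d) := integrable_negMulLog hm h0 h1
  have hsq : Integrable (fun v : E d => q v * ‖v‖ ^ 2) (gam d) := by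
    refine Integrable.mono (gau_pow 2)
      (hm.aestronglyMeasurable.mul (gau_pow 2).aestronglyMeasurable) ?_
    refine Filter.Eventually.of_forall fun v => ?_
    rw [norm_mul, Real.norm_eq_abs, abs_of_nonneg (h0 v)]
    exact mul_le_of_le_one_left (norm_nonneg _) (h1 v)
  rcases hp0.eq_or_lt with h | h
  · have hz : q =ᵐ[gam d] 0 := by
      rw [← integral_eq_zero_iff_of_nonneg h0 hqi, hp, ← h]
    have e1 : ∫ v, Real.negMulLog (q v) ∂(gam d) = 0 := by
      have : ∫ v, Real.negMulLog (q v) ∂(gam d) = ∫ v : E d, (0:ℝ) ∂(gam d) := by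
        refine integral_congr_ae ?_
        filter_upwards [hz] with v hv
        simp [hv]
      rw [this]; simp
    have e2 : ∫ v, q v * ‖v‖ ^ 2 ∂(gam d) = 0 := by
      have : ∫ v, q v * ‖v‖ ^ 2 ∂(gam d) = ∫ v : E d, (0:ℝ) ∂(gam d) := by
        refine integral_congr_ae ?_
        filter_upwards [hz] with v hv
        simp [hv]
      rw [this]; simp
    rw [e1, e2, ← h]; simp
  · set a : E d := (r / p) • μ with ha
    have hid : Integrable (fun v : E d => v) (gam d) := by
      unfold gam; exact IsGaussian.integrable_fun_id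
    have hqv : Integrable (fun v => q v • v) (gam d) := by
      refine Integrable.mono hid (hm.aestronglyMeasurable.smul hid.aestronglyMeasurable) ?_
      refine Filter.Eventually.of_forall fun v => ?_
      rw [norm_smul, Real.norm_eq_abs, abs_of_nonneg (h0 v)]
      exact mul_le_of_le_one_left (norm_nonneg _) (h1 v)
    have hth : Integrable (fun v => ⟪a, q v • v⟫) (gam d) := hqv.const_inner a
    have hint : ∫ v, ⟪a, q v • v⟫ ∂(gam d) = r ^ 2 * ‖μ‖ ^ 2 / p := by
      rw [integral_inner hqv a, hr, ha, real_inner_smul_left, real_inner_smul_right,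
        real_inner_self_eq_norm_sq]
      ring
    set c : ℝ := p * κ ^ (-((d : ℝ) / 2)) with hc
    have hcpos : 0 < c := mul_pos h (Real.rpow_pos_of_pos hκ _)
    have hexp : Integrable (fun v => c * Real.exp (‖v‖ ^ 2 / 2 - ‖v - a‖ ^ 2 / (2 * κ)))
        (gam d) := (Dv2_tilt_int a hκ).const_mul _
    have hexpi : ∫ v, c * Real.exp (‖v‖ ^ 2 / 2 - ‖v - a‖ ^ 2 / (2 * κ)) ∂(gam d) = p := by
      rw [integral_const_mul, Dv2_tilt a hκ, hc, mul_assoc, ← Real.rpow_add hκ,
        show -((d : ℝ) / 2) + (d : ℝ) / 2 = 0 by ring, Real.rpow_zero, mul_one]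
    have hlogc : Real.log c = Real.log p - (d : ℝ) / 2 * Real.log κ := by
      rw [hc, Real.log_mul h.ne' (Real.rpow_pos_of_pos hκ _).ne', Real.log_rpow hκ]
      ring
    set C1 : ℝ := -Real.log p + (d : ℝ) / 2 * Real.log κ + ‖a‖ ^ 2 / (2 * κ) - 1 with hC1
    set C2 : ℝ := -(1 / 2) + 1 / (2 * κ) with hC2
    have hpt : ∀ v, Real.negMulLog (q v) ≤
        ((C1 * q v + C2 * (q v * ‖v‖ ^ 2)) - (1 / κ) * ⟪a, q v • v⟫) +
          c * Real.exp (‖v‖ ^ 2 / 2 - ‖v - a‖ ^ 2 / (2 * κ)) := by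
      intro v
      have hs : 0 < c * Real.exp (‖v‖ ^ 2 / 2 - ‖v - a‖ ^ 2 / (2 * κ)) :=
        mul_pos hcpos (Real.exp_pos _)
      have hg := negMulLog_le_gibbs (h0 v) hs
      rw [Real.log_mul hcpos.ne' (Real.exp_pos _).ne', Real.log_exp, hlogc] at hg
      have hn : ‖v - a‖ ^ 2 = ‖v‖ ^ 2 - 2 * ⟪a, v⟫ + ‖a‖ ^ 2 := by
        rw [norm_sub_sq_real, real_inner_comm]
      have e : -(q v * (Real.log p - (d : ℝ) / 2 * Real.log κ +
            (‖v‖ ^ 2 / 2 - ‖v - a‖ ^ 2 / (2 * κ)))) - q v =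
          (C1 * q v + C2 * (q v * ‖v‖ ^ 2)) - (1 / κ) * (q v * ⟪a, v⟫) := by
        rw [hn, hC1, hC2]
        field_simp
        ring
      rw [real_inner_smul_right, ← e]
      exact hg
    have hi1 : Integrable (fun v => C1 * q v) (gam d) := hqi.const_mul _
    have hi2 : Integrable (fun v => C2 * (q v * ‖v‖ ^ 2)) (gam d) := hsq.const_mul _
    have hi3 : Integrable (fun v => (1 / κ) * ⟪a, q v • v⟫) (gam d) := hth.const_mul _
    have hi12 : Integrable (fun v => C1 * q v + C2 * (q v * ‖v‖ ^ 2)) (gam d) := hi1.add hi2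
    have hi123 : Integrable (fun v => (C1 * q v + C2 * (q v * ‖v‖ ^ 2)) -
        (1 / κ) * ⟪a, q v • v⟫) (gam d) := hi12.sub hi3
    have hmono := integral_mono hIn (hi123.add hexp) hpt
    refine hmono.trans (le_of_eq ?_)
    have hadd : ∫ v, (((C1 * q v + C2 * (q v * ‖v‖ ^ 2)) - (1 / κ) * ⟪a, q v • v⟫) +
          c * Real.exp (‖v‖ ^ 2 / 2 - ‖v - a‖ ^ 2 / (2 * κ))) ∂(gam d) =
        Real.negMulLog p + (d : ℝ) / 2 * Real.log κ * p - (∫ v, q v * ‖v‖ ^ 2 ∂(gam d)) / 2 +
        ((∫ v, q v * ‖v‖ ^ 2 ∂(gam d)) - r ^ 2 * (‖μ‖ ^ 2 / p)) / (2 * κ) := by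
      rw [integral_add hi123 hexp, integral_sub hi12 hi3, integral_add hi1 hi2,
        integral_const_mul, integral_const_mul, integral_const_mul, hint, hexpi, hp]
      have hn : ‖a‖ ^ 2 = r ^ 2 * ‖μ‖ ^ 2 / p ^ 2 := by
        rw [ha, norm_smul, mul_pow, Real.norm_eq_abs, sq_abs]; field_simp
      rw [hC1, hC2, hn]
      unfold Real.negMulLog
      field_simp
      ring
    exact hadd

/-! ### the cells -/

private noncomputable def Dv2_chi (D : Pre d ι) (i : ι) (u : E d) : ℝ :=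
  Set.indicator {u | D.L u = i} (fun _ => (1 : ℝ)) u

private theorem Dv2_chi_meas {D : Pre d ι} (hm : ∀ i, MeasurableSet {u | D.L u = i}) (i : ι) :
    Measurable (Dv2_chi D i) := measurable_const.indicator (hm i)

private theorem Dv2_chi_abs (D : Pre d ι) (i : ι) (u : E d) : |Dv2_chi D i u| ≤ 1 := by
  unfold Dv2_chi Set.indicator
  split_ifs <;> simp

private theorem Dv2_q {D : Pre d ι} (hm : ∀ i, MeasurableSet {u | D.L u = i}) (r s : ℝ) (v : E d)
    (i : ι) : q (D.rs (r • v) s) i = ∫ w, Dv2_chi D i (r • v + s • w) ∂(gam d) := by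
  have hcont : Continuous fun u : E d => r • v + s • u := by fun_prop
  have hms : MeasurableSet {u : E d | D.L (r • v + s • u) = i} := hcont.measurable (hm i)
  have h1 : (fun w : E d => Dv2_chi D i (r • v + s • w)) =
      Set.indicator {u : E d | D.L (r • v + s • u) = i} (fun _ => (1 : ℝ)) := by
    funext w
    unfold Dv2_chi
    by_cases h : D.L (r • v + s • w) = i
    · rw [Set.indicator_of_mem, Set.indicator_of_mem] <;> exact h
    · rw [Set.indicator_of_notMem, Set.indicator_of_notMem] <;> exact h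
  rw [h1, integral_indicator_const (1 : ℝ) hms, smul_eq_mul, mul_one]
  rfl

private theorem Dv2_int_chi {D : Pre d ι} (hm : ∀ i, MeasurableSet {u | D.L u = i}) (i : ι) :
    ∫ u, Dv2_chi D i u ∂(gam d) = q D i := by
  show ∫ u, Set.indicator {u | D.L u = i} (fun _ => (1 : ℝ)) u ∂(gam d) = q D i
  rw [integral_indicator_const (1 : ℝ) (hm i), smul_eq_mul, mul_one]
  rfl

private theorem Dv2_int_chi_coord {D : Pre d ι} (hm : ∀ i, MeasurableSet {u | D.L u = i}) (i : ι)
    (k : Fin d) : ∫ u, Dv2_chi D i u * u k ∂(gam d) = mom D i k := by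
  have h1 : (fun u : E d => Dv2_chi D i u * u k) =
      Set.indicator {u | D.L u = i} (fun u => u k) := by
    funext u
    unfold Dv2_chi
    by_cases h : D.L u = i
    · rw [Set.indicator_of_mem, Set.indicator_of_mem]
      · simp
      · exact h
      · exact h
    · rw [Set.indicator_of_notMem, Set.indicator_of_notMem]
      · simp
      · exact h
      · exact h
  rw [h1, integral_indicator (hm i)]
  rfl

private theorem Dv2_chi_mul_int {D : Pre d ι} (hm : ∀ i, MeasurableSet {u | D.L u = i}) (i : ι)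
    {α : Type} [MeasurableSpace α] {ν : Measure α} {T : α → E d} (hT : Measurable T)
    {g : α → ℝ} (hg : Integrable g ν) : Integrable (fun x => Dv2_chi D i (T x) * g x) ν := by
  refine Integrable.mono hg
    (((Dv2_chi_meas hm i).comp hT).aestronglyMeasurable.mul hg.aestronglyMeasurable) ?_
  refine Eventually.of_forall fun x => ?_
  rw [norm_mul, Real.norm_eq_abs]
  exact mul_le_of_le_one_left (norm_nonneg _) (Dv2_chi_abs D i _)

private theorem Dv2_hp1 {D : Pre d ι} (hm : ∀ i, MeasurableSet {u | D.L u = i}) {r s : ℝ}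
    (hrs : r ^ 2 + s ^ 2 = 1) (i : ι) : ∫ v, q (D.rs (r • v) s) i ∂(gam d) = q D i := by
  have hT : Measurable (fun p : E d × E d => r • p.1 + s • p.2) := by fun_prop
  have hint : Integrable (fun p : E d × E d => Dv2_chi D i (r • p.1 + s • p.2))
      ((gam d).prod (gam d)) := by
    have := Dv2_chi_mul_int hm i hT (integrable_const (μ := (gam d).prod (gam d)) (1 : ℝ))
    simpa using this
  have e1 : ∫ v, q (D.rs (r • v) s) i ∂(gam d) =
      ∫ p : E d × E d, Dv2_chi D i (r • p.1 + s • p.2) ∂((gam d).prod (gam d)) := by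
    rw [integral_prod _ hint]
    exact integral_congr_ae (Eventually.of_forall fun v => Dv2_q hm r s v i)
  rw [e1, ← Dv2_int_chi hm i]
  have h2 := gau_sum (d := d) hrs
  rw [← h2.map_eq, integral_map h2.measurable.aemeasurable
    (by rw [h2.map_eq]; exact (Dv2_chi_meas hm i).aestronglyMeasurable)]
  rw [h2.map_eq]

private theorem Dv2_hp2 {D : Pre d ι} (hm : ∀ i, MeasurableSet {u | D.L u = i}) {r s : ℝ}
    (hrs : r ^ 2 + s ^ 2 = 1) (i : ι) (k : Fin d) :
    ∫ v, q (D.rs (r • v) s) i * v k ∂(gam d) = r * mom D i k := by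
  have hT : Measurable (fun p : E d × E d => r • p.1 + s • p.2) := by fun_prop
  have hco1 : Integrable (fun p : E d × E d => p.1 k) ((gam d).prod (gam d)) :=
    (Fib_coord k).comp_fst (gam d)
  have hco2 : Integrable (fun p : E d × E d => p.2 k) ((gam d).prod (gam d)) :=
    (Fib_coord k).comp_snd (gam d)
  have hint : Integrable (fun p : E d × E d => Dv2_chi D i (r • p.1 + s • p.2) * p.1 k)
      ((gam d).prod (gam d)) := Dv2_chi_mul_int hm i hT hco1
  have e1 : ∫ v, q (D.rs (r • v) s) i * v k ∂(gam d) =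
      ∫ p : E d × E d, Dv2_chi D i (r • p.1 + s • p.2) * p.1 k ∂((gam d).prod (gam d)) := by
    rw [integral_prod _ hint]
    refine integral_congr_ae (Eventually.of_forall fun v => ?_)
    show q (D.rs (r • v) s) i * v k = ∫ w, Dv2_chi D i (r • v + s • w) * v k ∂(gam d)
    rw [integral_mul_const, Dv2_q hm r s v i]
  set F : E d × E d → ℝ := fun p => Dv2_chi D i p.1 * (r * p.1 k - s * p.2 k) with hF
  have hmF : Measurable F := by
    refine Measurable.mul ((Dv2_chi_meas hm i).comp measurable_fst) ?_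
    fun_prop
  have e2 : (fun p : E d × E d => Dv2_chi D i (r • p.1 + s • p.2) * p.1 k) =
      fun p => F (r • p.1 + s • p.2, (-s) • p.1 + r • p.2) := by
    funext p
    simp only [hF, PiLp.add_apply, PiLp.smul_apply, smul_eq_mul]
    congr 1
    linear_combination (-(p.1 k)) * hrs
  have h2 := gau_rot (d := d) hrs
  have e3 : ∫ p : E d × E d, F (r • p.1 + s • p.2, (-s) • p.1 + r • p.2) ∂((gam d).prod (gam d)) =
      ∫ p, F p ∂((gam d).prod (gam d)) := by
    conv_rhs => rw [← h2.map_eq]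
    rw [integral_map h2.measurable.aemeasurable hmF.aestronglyMeasurable]
  have i1 : Integrable (fun p : E d × E d => r * (Dv2_chi D i p.1 * p.1 k))
      ((gam d).prod (gam d)) :=
    (Dv2_chi_mul_int hm i measurable_fst hco1).const_mul r
  have i2 : Integrable (fun p : E d × E d => s * (Dv2_chi D i p.1 * p.2 k))
      ((gam d).prod (gam d)) :=
    (Dv2_chi_mul_int hm i measurable_fst hco2).const_mul s
  have e4 : F = fun p => r * (Dv2_chi D i p.1 * p.1 k) - s * (Dv2_chi D i p.1 * p.2 k) := by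
    funext p; simp only [hF]; ring
  have e5 : ∫ p : E d × E d, Dv2_chi D i p.1 * p.1 k ∂((gam d).prod (gam d)) = mom D i k := by
    rw [integral_prod _ (Dv2_chi_mul_int hm i measurable_fst hco1)]
    simp only [integral_const, probReal_univ, one_smul]
    exact Dv2_int_chi_coord hm i k
  have e6 : ∫ p : E d × E d, Dv2_chi D i p.1 * p.2 k ∂((gam d).prod (gam d)) = 0 := by
    rw [integral_prod _ (Dv2_chi_mul_int hm i measurable_fst hco2)]
    simp only [integral_const_mul, Fib_mean, mul_zero, integral_zero]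
  rw [e1, e2, e3, e4, integral_sub i1 i2, integral_const_mul, integral_const_mul, e5, e6]
  ring

theorem dv_step2 {D : Pre d ι} (hm : ∀ i, MeasurableSet {u | D.L u = i}) {r : ℝ} (h0 : 0 ≤ r) (h1 : r < 1)
    {y : ℝ} (hy0 : 0 ≤ y) (hy1 : y ≤ 1) (hY : (d : ℝ) * y ≤ Ye D) :
    (∫ v, ent (D.rs (r • v) (Real.sqrt (1 - r ^ 2))) ∂(gam d)) + (d : ℝ) * (-Real.log (1 - r ^ 2 * y) / 2)
      ≤ ent D := by
  set s : ℝ := Real.sqrt (1 - r ^ 2) with hs
  have hr2 : r ^ 2 < 1 := by nlinarith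
  have hrs : r ^ 2 + s ^ 2 = 1 := by
    rw [hs, Real.sq_sqrt (by linarith)]; ring
  set κ : ℝ := 1 - r ^ 2 * y with hκd
  have hκ : 0 < κ := by
    have : r ^ 2 * y ≤ r ^ 2 := mul_le_of_le_one_right (sq_nonneg r) hy1
    rw [hκd]; linarith
  have hqm : ∀ i, Measurable (fun v : E d => q (D.rs (r • v) s) i) := fun i => q_rs_meas hm r s i
  have hvec : ∀ i, ∫ v, (q (D.rs (r • v) s) i) • v ∂(gam d) =
      r • (WithLp.toLp 2 (mom D i) : E d) := by
    intro i
    have hid : Integrable (fun v : E d => v) (gam d) := by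
      unfold gam; exact IsGaussian.integrable_fun_id
    have hqv : Integrable (fun v : E d => q (D.rs (r • v) s) i • v) (gam d) := by
      refine Integrable.mono hid ((hqm i).aestronglyMeasurable.smul hid.aestronglyMeasurable) ?_
      refine Filter.Eventually.of_forall fun v => ?_
      rw [norm_smul, Real.norm_eq_abs, abs_of_nonneg (q_nonneg _ _)]
      exact mul_le_of_le_one_left (norm_nonneg _) (q_le_one _ _)
    ext k
    have h3 := (EuclideanSpace.proj k : E d →L[ℝ] ℝ).integral_comp_comm hqv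
    have h4 := Dv2_hp2 hm hrs i k
    have h5 : (∫ v, (q (D.rs (r • v) s) i) • v ∂(gam d)) k =
        ∫ v, q (D.rs (r • v) s) i * v k ∂(gam d) := h3.symm
    rw [h5, h4]
    simp
  have hone := fun i => Dv2_one (fun v => q (D.rs (r • v) s) i) (hqm i)
    (fun v => q_nonneg _ _) (fun v => q_le_one _ _) (q D i) (Dv2_hp1 hm hrs i)
    (WithLp.toLp 2 (mom D i) : E d) r (hvec i) hκ
  have hsum := Finset.sum_le_sum fun i (_ : i ∈ (Finset.univ : Finset ι)) => hone i
  set Q : ι → ℝ := fun i => ∫ v, q (D.rs (r • v) s) i * ‖v‖ ^ 2 ∂(gam d) with hQ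
  have hsqi : ∀ i, Integrable (fun v : E d => q (D.rs (r • v) s) i * ‖v‖ ^ 2) (gam d) := by
    intro i
    refine Integrable.mono (gau_pow 2)
      ((hqm i).aestronglyMeasurable.mul (gau_pow 2).aestronglyMeasurable) ?_
    refine Filter.Eventually.of_forall fun v => ?_
    rw [norm_mul, Real.norm_eq_abs, abs_of_nonneg (q_nonneg _ _)]
    exact mul_le_of_le_one_left (norm_nonneg _) (q_le_one _ _)
  have hQs : ∑ i, Q i = d := by
    have hmr : ∀ v : E d, ∀ i, MeasurableSet {u | (D.rs (r • v) s).L u = i} := by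
      intro v i
      have hcont : Continuous fun u : E d => r • v + s • u := by fun_prop
      exact hcont.measurable (hm i)
    have e1 : ∑ i, Q i = ∫ v : E d, ‖v‖ ^ 2 ∂(gam d) := by
      rw [hQ, ← integral_finsetSum _ (fun i _ => hsqi i)]
      refine integral_congr_ae (Eventually.of_forall fun v => ?_)
      show ∑ i, q (D.rs (r • v) s) i * ‖v‖ ^ 2 = ‖v‖ ^ 2
      rw [← Finset.sum_mul, q_sum (hmr v), one_mul]
    rw [e1]
    have e2 : (fun v : E d => ‖v‖ ^ 2) = fun v => ∑ a, v a * v a := by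
      funext v
      rw [EuclideanSpace.real_norm_sq_eq]
      exact Finset.sum_congr rfl fun a _ => by ring
    have hia : ∀ a : Fin d, Integrable (fun v : E d => v a * v a) (gam d) := by
      intro a
      refine Integrable.mono (gau_pow 2) (by fun_prop) ?_
      refine Filter.Eventually.of_forall fun v => ?_
      rw [Real.norm_eq_abs, Real.norm_eq_abs, abs_mul_self, abs_of_nonneg (by positivity),
        EuclideanSpace.real_norm_sq_eq]
      have := Finset.single_le_sum (f := fun i => v i ^ 2) (fun i _ => sq_nonneg (v i))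
        (Finset.mem_univ a)
      calc v a * v a = v a ^ 2 := by ring
        _ ≤ _ := this
    rw [e2, integral_finsetSum _ (fun a _ => hia a)]
    simp [gau_cov]
  have hps : ∑ i, q D i = 1 := q_sum hm
  have hYs : ∑ i, ‖(WithLp.toLp 2 (mom D i) : E d)‖ ^ 2 / q D i = Ye D := by
    unfold Ye
    refine Finset.sum_congr rfl fun i _ => ?_
    rw [EuclideanSpace.real_norm_sq_eq]
  have hL : (∫ v, ent (D.rs (r • v) s) ∂(gam d)) =
      ∑ i, ∫ v, Real.negMulLog (q (D.rs (r • v) s) i) ∂(gam d) := by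
    have hni : ∀ i, Integrable (fun v => Real.negMulLog (q (D.rs (r • v) s) i)) (gam d) :=
      fun i => integrable_negMulLog (hqm i) (fun v => q_nonneg _ _) (fun v => q_le_one _ _)
    rw [← integral_finsetSum _ (fun i _ => hni i)]
    rfl
  have hR : ∑ i, (Real.negMulLog (q D i) + (d : ℝ) / 2 * Real.log κ * q D i - Q i / 2 +
        (Q i - r ^ 2 * (‖(WithLp.toLp 2 (mom D i) : E d)‖ ^ 2 / q D i)) / (2 * κ)) =
      ent D + (d : ℝ) / 2 * Real.log κ - (d : ℝ) / 2 + ((d : ℝ) - r ^ 2 * Ye D) / (2 * κ) := by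
    rw [Finset.sum_add_distrib, Finset.sum_sub_distrib, Finset.sum_add_distrib,
      ← Finset.mul_sum, ← Finset.sum_div, ← Finset.sum_div, Finset.sum_sub_distrib,
      ← Finset.mul_sum, hYs, hQs, hps, mul_one]
    rfl
  have hfin : ((d : ℝ) - r ^ 2 * Ye D) / (2 * κ) ≤ (d : ℝ) / 2 := by
    rw [div_le_iff₀ (by positivity)]
    have h2 : r ^ 2 * ((d : ℝ) * y) ≤ r ^ 2 * Ye D := mul_le_mul_of_nonneg_left hY (sq_nonneg r)
    have h3 : (d : ℝ) / 2 * (2 * κ) = d - r ^ 2 * (d * y) := by rw [hκd]; ring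
    rw [h3]; linarith
  rw [hL]
  have hsum' : ∑ i, ∫ v, Real.negMulLog (q (D.rs (r • v) s) i) ∂(gam d) ≤
      ∑ i, (Real.negMulLog (q D i) + (d : ℝ) / 2 * Real.log κ * q D i - Q i / 2 +
        (Q i - r ^ 2 * (‖(WithLp.toLp 2 (mom D i) : E d)‖ ^ 2 / q D i)) / (2 * κ)) := hsum
  rw [hR] at hsum'
  have h9 : (d : ℝ) * (-Real.log κ / 2) = -((d : ℝ) / 2 * Real.log κ) := by ring
  rw [h9]
  linarith

end Pool.Agent.KXP
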