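import Pool.Agent.KXP.Fib
import Pool.Agent.KXP.Gibbs
import Pool.Agent.KXP.Rsg
import Pool.Agent.KXP.Gau

set_option autoImplicit false
set_option linter.all false

open MeasureTheory ProbabilityTheory Filter Topology
open scoped BigOperators

namespace Pool.Agent.KXP

variable {d : ℕ} {ι : Type} [Fintype ι]

private noncomputable def Dvs_chi (D : Pre d ι) (i : ι) (u : E d) : ℝ :=
  Set.indicator {u | D.L u = i} (fun _ => (1 : ℝ)) u

private theorem Dvs_chi_meas {D : Pre d ι} (hm : ∀ i, MeasurableSet {u | D.L u = i}) (i : ι) :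
    Measurable (Dvs_chi D i) := measurable_const.indicator (hm i)

private theorem Dvs_chi_abs (D : Pre d ι) (i : ι) (u : E d) : |Dvs_chi D i u| ≤ 1 := by
  unfold Dvs_chi Set.indicator
  split_ifs <;> simp

private theorem Dvs_q {D : Pre d ι} (hm : ∀ i, MeasurableSet {u | D.L u = i}) (r s : ℝ) (v : E d)
    (i : ι) : q (D.rs (r • v) s) i = ∫ w, Dvs_chi D i (r • v + s • w) ∂(gam d) := by
  have hcont : Continuous fun u : E d => r • v + s • u := by fun_prop
  have hms : MeasurableSet {u : E d | D.L (r • v + s • u) = i} := hcont.measurable (hm i)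
  have h1 : (fun w : E d => Dvs_chi D i (r • v + s • w)) =
      Set.indicator {u : E d | D.L (r • v + s • u) = i} (fun _ => (1 : ℝ)) := by
    funext w
    unfold Dvs_chi
    by_cases h : D.L (r • v + s • w) = i
    · rw [Set.indicator_of_mem, Set.indicator_of_mem] <;> exact h
    · rw [Set.indicator_of_notMem, Set.indicator_of_notMem] <;> exact h
  rw [h1, integral_indicator_const (1 : ℝ) hms, smul_eq_mul, mul_one]
  rfl

private theorem Dvs_int_chi {D : Pre d ι} (hm : ∀ i, MeasurableSet {u | D.L u = i}) (i : ι) :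
    ∫ u, Dvs_chi D i u ∂(gam d) = q D i := by
  show ∫ u, Set.indicator {u | D.L u = i} (fun _ => (1 : ℝ)) u ∂(gam d) = q D i
  rw [integral_indicator_const (1 : ℝ) (hm i), smul_eq_mul, mul_one]
  rfl

private theorem Dvs_int_chi_coord {D : Pre d ι} (hm : ∀ i, MeasurableSet {u | D.L u = i}) (i : ι)
    (k : Fin d) : ∫ u, Dvs_chi D i u * u k ∂(gam d) = mom D i k := by
  have h1 : (fun u : E d => Dvs_chi D i u * u k) =
      Set.indicator {u | D.L u = i} (fun u => u k) := by
    funext u
    unfold Dvs_chi
    by_cases h : D.L u = i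
    · rw [Set.indicator_of_mem, Set.indicator_of_mem]
      · simp
      · exact h
      · exact h
    · rw [Set.indicator_of_notMem, Set.indicator_of_notMem]
      · simp
      · exact h
      · exact h
  rw [h1, integral_indicator (hm i)]
  rfl

private theorem Dvs_chi_mul_int {D : Pre d ι} (hm : ∀ i, MeasurableSet {u | D.L u = i}) (i : ι)
    {α : Type} [MeasurableSpace α] {ν : Measure α} {T : α → E d} (hT : Measurable T)
    {g : α → ℝ} (hg : Integrable g ν) : Integrable (fun x => Dvs_chi D i (T x) * g x) ν := by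
  refine Integrable.mono hg
    (((Dvs_chi_meas hm i).comp hT).aestronglyMeasurable.mul hg.aestronglyMeasurable) ?_
  refine Eventually.of_forall fun x => ?_
  rw [norm_mul, Real.norm_eq_abs]
  exact mul_le_of_le_one_left (norm_nonneg _) (Dvs_chi_abs D i _)

theorem dv_step {D : Pre d ι} (hm : ∀ i, MeasurableSet {u | D.L u = i}) {r : ℝ} (h0 : 0 ≤ r) (h1 : r ≤ 1) :
    (∫ v, ent (D.rs (r • v) (Real.sqrt (1 - r ^ 2))) ∂(gam d)) + r ^ 2 / 2 * Ye D ≤ ent D := by
  set s : ℝ := Real.sqrt (1 - r ^ 2) with hs
  have hrs : r ^ 2 + s ^ 2 = 1 := by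
    rw [hs, Real.sq_sqrt (by nlinarith)]; ring
  have hT : Measurable (fun p : E d × E d => r • p.1 + s • p.2) := by fun_prop
  have hp1 : ∀ i, ∫ v, q (D.rs (r • v) s) i ∂(gam d) = q D i := by
    intro i
    have hint : Integrable (fun p : E d × E d => Dvs_chi D i (r • p.1 + s • p.2))
        ((gam d).prod (gam d)) := by
      have := Dvs_chi_mul_int hm i hT (integrable_const (μ := (gam d).prod (gam d)) (1 : ℝ))
      simpa using this
    have e1 : ∫ v, q (D.rs (r • v) s) i ∂(gam d) =
        ∫ p : E d × E d, Dvs_chi D i (r • p.1 + s • p.2) ∂((gam d).prod (gam d)) := by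
      rw [integral_prod _ hint]
      exact integral_congr_ae (Eventually.of_forall fun v => Dvs_q hm r s v i)
    rw [e1, ← Dvs_int_chi hm i]
    have h2 := gau_sum (d := d) hrs
    rw [← h2.map_eq, integral_map h2.measurable.aemeasurable
      (by rw [h2.map_eq]; exact (Dvs_chi_meas hm i).aestronglyMeasurable)]
    rw [h2.map_eq]
  have hp2 : ∀ i k, ∫ v, q (D.rs (r • v) s) i * v k ∂(gam d) = r * mom D i k := by
    intro i k
    have hco1 : Integrable (fun p : E d × E d => p.1 k) ((gam d).prod (gam d)) :=
      (Fib_coord k).comp_fst (gam d)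
    have hco2 : Integrable (fun p : E d × E d => p.2 k) ((gam d).prod (gam d)) :=
      (Fib_coord k).comp_snd (gam d)
    have hint : Integrable (fun p : E d × E d => Dvs_chi D i (r • p.1 + s • p.2) * p.1 k)
        ((gam d).prod (gam d)) := Dvs_chi_mul_int hm i hT hco1
    have e1 : ∫ v, q (D.rs (r • v) s) i * v k ∂(gam d) =
        ∫ p : E d × E d, Dvs_chi D i (r • p.1 + s • p.2) * p.1 k ∂((gam d).prod (gam d)) := by
      rw [integral_prod _ hint]
      refine integral_congr_ae (Eventually.of_forall fun v => ?_)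
      show q (D.rs (r • v) s) i * v k = ∫ w, Dvs_chi D i (r • v + s • w) * v k ∂(gam d)
      rw [integral_mul_const, Dvs_q hm r s v i]
    set F : E d × E d → ℝ := fun p => Dvs_chi D i p.1 * (r * p.1 k - s * p.2 k) with hF
    have hmF : Measurable F := by
      refine Measurable.mul ((Dvs_chi_meas hm i).comp measurable_fst) ?_
      fun_prop
    have e2 : (fun p : E d × E d => Dvs_chi D i (r • p.1 + s • p.2) * p.1 k) =
        fun p => F (r • p.1 + s • p.2, (-s) • p.1 + r • p.2) := by
      funext p
      simp only [hF, PiLp.add_apply, PiLp.smul_apply, smul_eq_mul]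
      congr 1
      linear_combination (-(p.1 k)) * hrs
    have h2 := gau_rot (d := d) hrs
    have e3 : ∫ p : E d × E d, F (r • p.1 + s • p.2, (-s) • p.1 + r • p.2) ∂((gam d).prod (gam d)) =
        ∫ p, F p ∂((gam d).prod (gam d)) := by
      conv_rhs => rw [← h2.map_eq]
      rw [integral_map h2.measurable.aemeasurable hmF.aestronglyMeasurable]
    have i1 : Integrable (fun p : E d × E d => r * (Dvs_chi D i p.1 * p.1 k))
        ((gam d).prod (gam d)) :=
      (Dvs_chi_mul_int hm i measurable_fst hco1).const_mul r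
    have i2 : Integrable (fun p : E d × E d => s * (Dvs_chi D i p.1 * p.2 k))
        ((gam d).prod (gam d)) :=
      (Dvs_chi_mul_int hm i measurable_fst hco2).const_mul s
    have e4 : F = fun p => r * (Dvs_chi D i p.1 * p.1 k) - s * (Dvs_chi D i p.1 * p.2 k) := by
      funext p; simp only [hF]; ring
    have e5 : ∫ p : E d × E d, Dvs_chi D i p.1 * p.1 k ∂((gam d).prod (gam d)) = mom D i k := by
      rw [integral_prod _ (Dvs_chi_mul_int hm i measurable_fst hco1)]
      simp only [integral_const, probReal_univ, one_smul]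
      exact Dvs_int_chi_coord hm i k
    have e6 : ∫ p : E d × E d, Dvs_chi D i p.1 * p.2 k ∂((gam d).prod (gam d)) = 0 := by
      rw [integral_prod _ (Dvs_chi_mul_int hm i measurable_fst hco2)]
      simp only [integral_const_mul, Fib_mean, mul_zero, integral_zero]
    rw [e1, e2, e3, e4, integral_sub i1 i2, integral_const_mul, integral_const_mul, e5, e6]
    ring
  have hqm : ∀ i, Measurable (fun v : E d => q (D.rs (r • v) s) i) := fun i => q_rs_meas hm r s i
  have hvec : ∀ i, ∫ v, (q (D.rs (r • v) s) i) • v ∂(stdGaussian (E d)) =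
      r • (WithLp.toLp 2 (mom D i) : E d) := by
    intro i
    have hid : Integrable (fun v : E d => v) (stdGaussian (E d)) := IsGaussian.integrable_fun_id
    have hqv : Integrable (fun v : E d => q (D.rs (r • v) s) i • v) (stdGaussian (E d)) := by
      refine Integrable.mono hid ((hqm i).aestronglyMeasurable.smul hid.aestronglyMeasurable) ?_
      refine Filter.Eventually.of_forall fun v => ?_
      rw [norm_smul, Real.norm_eq_abs, abs_of_nonneg (q_nonneg _ _)]
      exact mul_le_of_le_one_left (norm_nonneg _) (q_le_one _ _)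
    ext k
    have h3 := (EuclideanSpace.proj k : E d →L[ℝ] ℝ).integral_comp_comm hqv
    have h4 := hp2 i k
    have h5 : (∫ v, (q (D.rs (r • v) s) i) • v ∂(stdGaussian (E d))) k =
        ∫ v, q (D.rs (r • v) s) i * v k ∂(gam d) := h3.symm
    rw [h5, h4]
    simp
  have key := gibbs_step (E := E d) (fun i v => q (D.rs (r • v) s) i) hqm
    (fun i v => q_nonneg _ _) (fun i v => q_le_one _ _) (fun i => q D i) hp1
    (fun i => (WithLp.toLp 2 (mom D i) : E d)) r hvec
  have hY : ∑ i, ‖(WithLp.toLp 2 (mom D i) : E d)‖ ^ 2 / q D i = Ye D := by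
    unfold Ye
    refine Finset.sum_congr rfl fun i _ => ?_
    rw [EuclideanSpace.real_norm_sq_eq]
  rw [hY] at key
  exact key

end Pool.Agent.KXP
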