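import Pool.Agent.KXP.Defs

set_option autoImplicit false
set_option linter.all false

open MeasureTheory ProbabilityTheory Filter Topology
open scoped BigOperators

namespace Pool.Agent.KXP

variable {d : ℕ} {ι : Type} [Fintype ι]

theorem Fib_coord (k : Fin d) : Integrable (fun u : E d => u k) (gam d) := by
  have h : Integrable (fun u : E d => u) (gam d) := by
    unfold gam; exact IsGaussian.integrable_fun_id
  exact (EuclideanSpace.proj k : E d →L[ℝ] ℝ).integrable_comp h

theorem Fib_mean (k : Fin d) : ∫ u : E d, u k ∂(gam d) = 0 := by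
  exact integral_strongDual_stdGaussian (E := E d) (EuclideanSpace.proj k : E d →L[ℝ] ℝ)

theorem Fib_ind {D : Pre d ι} (φ : ι → ℝ) (g : E d → ℝ) :
    (fun u => φ (D.L u) * g u) =
      fun u => ∑ i, Set.indicator {u | D.L u = i} (fun u => φ i * g u) u := by
  classical
  funext u
  rw [Finset.sum_eq_single (D.L u)]
  · simp [Set.indicator]
  · intro i _ hi
    simp [Set.indicator, Ne.symm hi]
  · intro h; exact absurd (Finset.mem_univ _) h

theorem fib_mul {D : Pre d ι} (hm : ∀ i, MeasurableSet {u | D.L u = i}) (φ : ι → ℝ)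
    {g : E d → ℝ} (hg : Integrable g (gam d)) :
    ∫ u, φ (D.L u) * g u ∂(gam d) = ∑ i, (∫ u in {u | D.L u = i}, g u ∂(gam d)) * φ i := by
  rw [Fib_ind, integral_finsetSum]
  · refine Finset.sum_congr rfl fun i _ => ?_
    rw [integral_indicator (hm i), integral_const_mul, mul_comm]
  · intro i _
    exact (hg.const_mul _).indicator (hm i)

theorem fib_int {D : Pre d ι} (hm : ∀ i, MeasurableSet {u | D.L u = i}) (φ : ι → ℝ) :
    ∫ u, φ (D.L u) ∂(gam d) = ∑ i, q D i * φ i := by
  have h := fib_mul hm φ (g := fun _ => (1 : ℝ)) (integrable_const _)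
  simp only [mul_one] at h
  rw [h]
  refine Finset.sum_congr rfl fun i _ => ?_
  congr 1
  simp [q]

theorem fib_mom {D : Pre d ι} (hm : ∀ i, MeasurableSet {u | D.L u = i}) (φ : ι → ℝ) (k : Fin d) :
    ∫ u, φ (D.L u) * u k ∂(gam d) = ∑ i, mom D i k * φ i :=
  fib_mul hm φ (Fib_coord k)

theorem fib_meas {D : Pre d ι} (hm : ∀ i, MeasurableSet {u | D.L u = i}) (φ : ι → ℝ) :
    Measurable (fun u => φ (D.L u)) := by
  have h := Fib_ind (D := D) φ (fun _ => (1 : ℝ))
  simp only [mul_one] at h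
  rw [h]
  exact Finset.measurable_sum _ fun i _ => measurable_const.indicator (hm i)

theorem q_nonneg (D : Pre d ι) (i : ι) : 0 ≤ q D i := measureReal_nonneg

theorem q_le_one (D : Pre d ι) (i : ι) : q D i ≤ 1 := measureReal_le_one

theorem q_sum {D : Pre d ι} (hm : ∀ i, MeasurableSet {u | D.L u = i}) : ∑ i, q D i = 1 := by
  have h := fib_int hm (fun _ => (1 : ℝ))
  simp only [mul_one] at h
  rw [← h]; simp

theorem mom_zero (D : Pre d ι) (i : ι) (k : Fin d) (h : q D i = 0) : mom D i k = 0 := by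
  have h0 : (gam d) {u | D.L u = i} = 0 := by
    unfold q at h
    rwa [measureReal_eq_zero_iff] at h
  unfold mom
  rw [Measure.restrict_eq_zero.2 h0]; simp

theorem mom_sum {D : Pre d ι} (hm : ∀ i, MeasurableSet {u | D.L u = i}) (k : Fin d) :
    ∑ i, mom D i k = 0 := by
  have h := fib_mom hm (fun _ => (1 : ℝ)) k
  simp only [one_mul, mul_one] at h
  rw [← h]; exact Fib_mean k

theorem A_eq {D : Pre d ι} (hm : ∀ i, MeasurableSet {u | D.L u = i}) (a b : Fin d) :
    A D a b = ∫ u, D.P (D.L u) a b ∂(gam d) := by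
  rw [fib_int hm (fun i => D.P i a b)]
  simp [A, Matrix.sum_apply, Matrix.smul_apply]

theorem T_eq {D : Pre d ι} (hm : ∀ i, MeasurableSet {u | D.L u = i}) (k a b : Fin d) :
    T D k a b = ∫ u, D.P (D.L u) a b * u k ∂(gam d) := by
  rw [fib_mom hm (fun i => D.P i a b) k]
  simp [T, Matrix.sum_apply, Matrix.smul_apply]

theorem P_abs_le {D : Pre d ι} (hD : Good D) (i : ι) (a b : Fin d) : |D.P i a b| ≤ 1 := by
  have h1 : ∀ a, ∑ b, D.P i a b ^ 2 = D.P i a a := by
    intro a
    have h := congrFun (congrFun (hD.idem i) a) a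
    rw [Matrix.mul_apply] at h
    rw [← h]
    refine Finset.sum_congr rfl fun b _ => ?_
    rw [hD.sym i b a]; ring
  have h2 : ∀ a b, D.P i a b ^ 2 ≤ D.P i a a := by
    intro a b
    rw [← h1 a]
    exact Finset.single_le_sum (f := fun b => D.P i a b ^ 2) (fun b _ => sq_nonneg _)
      (Finset.mem_univ b)
  have h3 : D.P i a a ≤ 1 := by nlinarith [h2 a a, sq_nonneg (D.P i a a)]
  rw [← sq_le_one_iff_abs_le_one]
  exact (h2 a b).trans h3

theorem X_norm_le {D : Pre d ι} (hD : Good D) (u : E d) : ‖D.X u‖ ≤ ‖D.X 0‖ + ‖u‖ := by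
  have h := hD.lip.dist_le_mul u 0
  rw [dist_eq_norm, dist_zero_right] at h
  have h2 : ‖D.X u‖ ≤ ‖D.X 0‖ + ‖D.X u - D.X 0‖ := by
    have := norm_add_le (D.X 0) (D.X u - D.X 0)
    rwa [add_sub_cancel] at this
  simp at h
  linarith

end Pool.Agent.KXP
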