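import Pool.Agent.KXP.ItZ

/-! KXP ItC: small scales -/

set_option autoImplicit false

open MeasureTheory ProbabilityTheory Filter Topology
open scoped BigOperators

namespace Pool.Agent.KXP

variable {d : ℕ} {ι : Type} [Fintype ι]

/-- the potential vanishes at projections -/
theorem ItC_J_idem (m : ℕ) {B : Matrix (Fin d) (Fin d) ℝ} (h : B * B = B) : J m B = 0 := by
  have h2 : (1 - (2 : ℝ) • B) ^ 2 = 1 := by
    rw [pow_two]
    simp only [sub_mul, mul_sub, one_mul, mul_one, smul_mul_assoc, mul_smul_comm, h]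
    module
  unfold J
  refine Finset.sum_eq_zero fun j _ => ?_
  have e : 2 * j + 2 = 2 * (j + 1) := by ring
  rw [e, pow_mul, h2, one_pow, Matrix.trace_one, Fintype.card_fin, sub_self, zero_div]

omit [Fintype ι] in
open Classical in
/-- the probabilities of the labels at small scales -/
theorem ItC_q_lim {D : Pre d ι} (hm : ∀ i, MeasurableSet {u | D.L u = i}) {v : E d}
    (hv : ∀ᶠ w in 𝓝 v, D.L w = D.L v) (i : ι) :
    Tendsto (fun s : ℝ => q (D.rs (Real.sqrt (1 - s ^ 2) • v) s) i) (𝓝[>] 0)
      (𝓝 (if D.L v = i then 1 else 0)) := by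
  have hset : ∀ (z : E d) (s : ℝ), MeasurableSet {u : E d | D.L (z + s • u) = i} := fun z s =>
    (hm i).preimage ((measurable_const_smul (α := E d) s).const_add z)
  have hq : ∀ s : ℝ, q (D.rs (Real.sqrt (1 - s ^ 2) • v) s) i =
      ∫ u, ({u : E d | D.L (Real.sqrt (1 - s ^ 2) • v + s • u) = i}.indicator
        (1 : E d → ℝ)) u ∂(gam d) := fun s => (integral_indicator_one (hset _ _)).symm
  simp only [hq]
  have hlim : ∫ _u : E d, (if D.L v = i then (1 : ℝ) else 0) ∂(gam d) =
      if D.L v = i then 1 else 0 := by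
    simp
  rw [← hlim]
  refine tendsto_integral_filter_of_dominated_convergence (fun _ => (1 : ℝ)) ?_ ?_
    (integrable_const _) ?_
  · refine Eventually.of_forall fun s => ?_
    exact ((measurable_one.indicator (hset _ _)).aestronglyMeasurable)
  · refine Eventually.of_forall fun s => Eventually.of_forall fun u => ?_
    rw [Set.indicator_apply]
    split_ifs <;> simp
  · refine Eventually.of_forall fun u => ?_
    have hc : Tendsto (fun s : ℝ => Real.sqrt (1 - s ^ 2) • v + s • u) (𝓝[>] 0) (𝓝 v) := by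
      have h1 : Continuous fun s : ℝ => Real.sqrt (1 - s ^ 2) • v + s • u := by fun_prop
      have h2 := h1.tendsto 0
      simp only [ne_eq, OfNat.ofNat_ne_zero, not_false_eq_true, zero_pow, sub_zero,
        Real.sqrt_one, one_smul, zero_smul, add_zero] at h2
      exact h2.mono_left nhdsWithin_le_nhds
    refine tendsto_const_nhds.congr' ?_
    filter_upwards [hc.eventually hv] with s hs
    rw [Set.indicator_apply]
    simp only [Set.mem_ofPred_eq, hs, Pi.one_apply]

/-- ROW ITC -/
theorem small_scale (m : ℕ) {D : Pre d ι} (hD : Good D) :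
    Tendsto (fun s : ℝ => ∫ v, J m (A (D.rs (Real.sqrt (1 - s ^ 2) • v) s)) ∂(gam d)) (𝓝[>] 0) (𝓝 0) := by
  classical
  obtain ⟨C, hC⟩ := ItA_bdd (d := d) (ItA_J_cont m D.P)
  suffices h : Tendsto (fun s : ℝ => ∫ v, J m (A (D.rs (Real.sqrt (1 - s ^ 2) • v) s)) ∂(gam d))
      (𝓝[>] 0) (𝓝 (∫ _v : E d, (0 : ℝ) ∂(gam d))) by rwa [integral_zero] at h
  refine tendsto_integral_filter_of_dominated_convergence (fun _ => C) ?_ ?_
    (integrable_const _) ?_
  · exact Eventually.of_forall fun s =>
      (ItA_int hD.meas (ItA_J_cont m D.P) (Real.sqrt (1 - s ^ 2)) s).aestronglyMeasurable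
  · exact Eventually.of_forall fun s => Eventually.of_forall fun v => hC _
  · have hloc : ∀ᵐ v ∂(gam d), ∀ᶠ w in 𝓝 v, D.L w = D.L v := (gau_ac (d := d)).ae_le hD.loc
    filter_upwards [hloc] with v hv
    have h1 : Tendsto (fun s : ℝ => q (D.rs (Real.sqrt (1 - s ^ 2) • v) s)) (𝓝[>] 0)
        (𝓝 fun i => if D.L v = i then 1 else 0) :=
      tendsto_pi_nhds.2 fun i => ItC_q_lim hD.meas hv i
    have h2 := ((ItA_J_cont m D.P).tendsto _).comp h1
    have h3 : ItA_J m D.P (fun i => if D.L v = i then 1 else 0) = 0 := by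
      unfold ItA_J
      have h4 : ∑ i, (if D.L v = i then (1 : ℝ) else 0) • D.P i = D.P (D.L v) := by
        simp [ite_smul]
      rw [h4]
      exact ItC_J_idem m (hD.idem _)
    rw [h3] at h2
    exact h2

end Pool.Agent.KXP
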