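import Pool.Agent.KXP.ItB
import Pool.Agent.KXP.ItC

/-! KXP ItD: the entropy is at least the potential of the mean projection -/

set_option autoImplicit false

open MeasureTheory ProbabilityTheory Filter Topology
open scoped BigOperators

namespace Pool.Agent.KXP

variable {d : ℕ} {ι : Type} [Fintype ι]

/-- ROW ITD -/
theorem ent_ge (m : ℕ) {D : Pre d ι} (hD : Good D) : J m (A D) ≤ ent D := by
  have h1 := (small_scale m hD).const_add (ent D)
  rw [add_zero] at h1
  refine ge_of_tendsto h1 ?_
  have h2 : Set.Ioo (0 : ℝ) 1 ∈ 𝓝[>] (0 : ℝ) := Ioo_mem_nhdsGT one_pos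
  filter_upwards [h2] with s hs
  exact sigma_bound m hD hs.1 hs.2

end Pool.Agent.KXP
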