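import Pool.Agent.KXP.Defs

/-! KXP, row JB: bounds of the trace potential for a mean of projections. -/

set_option autoImplicit false
set_option linter.unusedSectionVars false

open MeasureTheory ProbabilityTheory Filter Topology
open scoped BigOperators

namespace Pool.Agent.KXP

variable {d : ℕ} {ι : Type} [Fintype ι]

/-- diagonalisation of a real symmetric matrix -/
private theorem JB_spec (B : Matrix (Fin d) (Fin d) ℝ) (hB : ∀ a b, B a b = B b a) :
    ∃ (U : Matrix (Fin d) (Fin d) ℝ) (l : Fin d → ℝ), U.transpose * U = 1 ∧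
      U * U.transpose = 1 ∧ B = U * Matrix.diagonal l * U.transpose := by
  have hH : B.IsHermitian := by
    ext a b
    simp only [Matrix.conjTranspose_apply, star_trivial]
    exact hB b a
  refine ⟨(hH.eigenvectorUnitary : Matrix (Fin d) (Fin d) ℝ), hH.eigenvalues, ?_, ?_, ?_⟩
  · have h := Unitary.coe_star_mul_self hH.eigenvectorUnitary
    rw [Matrix.star_eq_conjTranspose, Matrix.conjTranspose_eq_transpose_of_trivial] at h
    exact h
  · have h := Unitary.coe_mul_star_self hH.eigenvectorUnitary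
    rw [Unitary.coe_star, Matrix.star_eq_conjTranspose, Matrix.conjTranspose_eq_transpose_of_trivial] at h
    exact h
  · have h := hH.spectral_theorem
    rw [Unitary.conjStarAlgAut_apply, Matrix.star_eq_conjTranspose,
      Matrix.conjTranspose_eq_transpose_of_trivial] at h
    exact h

private theorem JB_diag01 (Q : Matrix (Fin d) (Fin d) ℝ) (hs : ∀ a b, Q a b = Q b a)
    (hid : Q * Q = Q) (a : Fin d) : 0 ≤ Q a a ∧ Q a a ≤ 1 := by
  have h : Q a a = ∑ b, Q a b ^ 2 := by
    conv_lhs => rw [← hid, Matrix.mul_apply]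
    refine Finset.sum_congr rfl fun b _ => ?_
    rw [hs b a, sq]
  have h0 : 0 ≤ Q a a := by
    rw [h]
    exact Finset.sum_nonneg fun b _ => sq_nonneg _
  have h2 : Q a a ^ 2 ≤ Q a a := by
    conv_rhs => rw [h]
    exact Finset.single_le_sum (f := fun b => Q a b ^ 2) (fun b _ => sq_nonneg _)
      (Finset.mem_univ a)
  refine ⟨h0, ?_⟩
  by_contra hc
  push Not at hc
  nlinarith

private theorem JB_pow (U : Matrix (Fin d) (Fin d) ℝ) (l : Fin d → ℝ)
    (h1 : U.transpose * U = 1) (h2 : U * U.transpose = 1) (n : ℕ) :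
    (U * Matrix.diagonal l * U.transpose) ^ n =
      U * Matrix.diagonal (fun a => l a ^ n) * U.transpose := by
  induction n with
  | zero =>
    rw [pow_zero]
    simp only [pow_zero]
    rw [Matrix.diagonal_one, Matrix.mul_one, h2]
  | succ n ih =>
    rw [pow_succ, ih]
    calc U * Matrix.diagonal (fun a => l a ^ n) * U.transpose *
          (U * Matrix.diagonal l * U.transpose)
        = U * Matrix.diagonal (fun a => l a ^ n) * (U.transpose * U) * Matrix.diagonal l
            * U.transpose := by simp only [Matrix.mul_assoc]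
      _ = U * (Matrix.diagonal (fun a => l a ^ n) * Matrix.diagonal l) * U.transpose := by
          rw [h1, Matrix.mul_one, Matrix.mul_assoc U]
      _ = _ := by
          rw [Matrix.diagonal_mul_diagonal]
          simp only [pow_succ]

private theorem JB_trace (U : Matrix (Fin d) (Fin d) ℝ) (l : Fin d → ℝ)
    (h1 : U.transpose * U = 1) :
    (U * Matrix.diagonal l * U.transpose).trace = ∑ a, l a := by
  rw [Matrix.trace_mul_comm, ← Matrix.mul_assoc, h1, Matrix.one_mul, Matrix.trace_diagonal]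

private theorem JB_lin (U : Matrix (Fin d) (Fin d) ℝ) (l : Fin d → ℝ)
    (h2 : U * U.transpose = 1) :
    1 - (2 : ℝ) • (U * Matrix.diagonal l * U.transpose) =
      U * Matrix.diagonal (fun a => 1 - 2 * l a) * U.transpose := by
  have h : Matrix.diagonal (fun a => 1 - 2 * l a) =
      (1 : Matrix (Fin d) (Fin d) ℝ) - (2 : ℝ) • Matrix.diagonal l := by
    ext a b
    by_cases hab : a = b
    · subst hab
      simp
    · simp [hab]
  rw [h, Matrix.mul_sub, Matrix.sub_mul, Matrix.mul_one, h2, Matrix.mul_smul, Matrix.smul_mul]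

private theorem JB_low (y : ℝ) (hy : y ^ 2 ≤ 1) (j : ℕ) : 1 - y ^ 2 ≤ 1 - y ^ (2 * j + 2) := by
  have h : y ^ (2 * j + 2) = (y ^ 2) ^ j * y ^ 2 := by ring
  have h1 : (y ^ 2) ^ j ≤ 1 := pow_le_one₀ (sq_nonneg y) hy
  rw [h]
  nlinarith [sq_nonneg y]

private theorem JB_up (y : ℝ) (hy : y ^ 2 ≤ 1) (j : ℕ) :
    1 - y ^ (2 * j + 2) ≤ ((j : ℝ) + 1) * (1 - y ^ 2) := by
  induction j with
  | zero => simp
  | succ j ih =>
    have h : y ^ (2 * (j + 1) + 2) = y ^ (2 * j + 2) * y ^ 2 := by ring
    have h1 : y ^ (2 * j + 2) ≤ 1 := by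
      have := JB_low y hy j
      nlinarith
    have h2 : (0 : ℝ) ≤ y ^ (2 * j + 2) := by
      have : y ^ (2 * j + 2) = (y ^ (j + 1)) ^ 2 := by ring
      rw [this]
      exact sq_nonneg _
    rw [h]
    push_cast
    nlinarith

/-- `J` is at least `4 Jh` times the trace of `B - B^2` and at most `2 (m+1)` times it, for a mean of projections -/
theorem J_bounds (m : ℕ) (w : ι → ℝ) (hw : ∀ i, 0 ≤ w i) (hs : ∑ i, w i = 1)
    (P : ι → Matrix (Fin d) (Fin d) ℝ) (hsym : ∀ i a b, P i a b = P i b a) (hid : ∀ i, P i * P i = P i) :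
    4 * Jh m * ((∑ i, w i • P i) - (∑ i, w i • P i) ^ 2).trace ≤ J m (∑ i, w i • P i) ∧
    J m (∑ i, w i • P i) ≤ 2 * ((m : ℝ) + 1) * ((∑ i, w i • P i) - (∑ i, w i • P i) ^ 2).trace := by
  obtain ⟨U, l, h1, h2, hB⟩ := JB_spec (∑ i, w i • P i) (by
    intro a b
    rw [Matrix.sum_apply, Matrix.sum_apply]
    refine Finset.sum_congr rfl fun i _ => ?_
    rw [Matrix.smul_apply, Matrix.smul_apply, hsym i a b])
  have hl : ∀ a, 0 ≤ l a ∧ l a ≤ 1 := by
    intro a
    have hd : U.transpose * (∑ i, w i • P i) * U = Matrix.diagonal l := by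
      rw [hB]
      calc U.transpose * (U * Matrix.diagonal l * U.transpose) * U
          = (U.transpose * U) * Matrix.diagonal l * (U.transpose * U) := by
            simp only [Matrix.mul_assoc]
        _ = _ := by rw [h1, Matrix.one_mul, Matrix.mul_one]
    have hla : l a = ∑ i, w i * (U.transpose * P i * U) a a := by
      have h3 : (Matrix.diagonal l) a a = l a := Matrix.diagonal_apply_eq l a
      rw [← h3, ← hd, Matrix.mul_sum, Matrix.sum_mul, Matrix.sum_apply]
      refine Finset.sum_congr rfl fun i _ => ?_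
      rw [Matrix.mul_smul, Matrix.smul_mul, Matrix.smul_apply, smul_eq_mul]
    have hQ : ∀ i, 0 ≤ (U.transpose * P i * U) a a ∧ (U.transpose * P i * U) a a ≤ 1 := by
      intro i
      refine JB_diag01 _ ?_ ?_ a
      · intro x y
        have ht : (U.transpose * P i * U).transpose = U.transpose * P i * U := by
          have hp : (P i).transpose = P i := by
            ext x y
            exact hsym i y x
          rw [Matrix.transpose_mul, Matrix.transpose_mul, Matrix.transpose_transpose, hp,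
            Matrix.mul_assoc]
        conv_lhs => rw [← ht]
        rfl
      · calc U.transpose * P i * U * (U.transpose * P i * U)
            = U.transpose * P i * (U * U.transpose) * P i * U := by
              simp only [Matrix.mul_assoc]
          _ = U.transpose * (P i * P i) * U := by
              rw [h2, Matrix.mul_one, Matrix.mul_assoc U.transpose]
          _ = _ := by rw [hid i]
    rw [hla]
    refine ⟨Finset.sum_nonneg fun i _ => mul_nonneg (hw i) (hQ i).1, ?_⟩
    rw [← hs]
    refine Finset.sum_le_sum fun i _ => ?_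
    have := mul_le_mul_of_nonneg_left (hQ i).2 (hw i)
    rwa [mul_one] at this
  have hy : ∀ a, (1 - 2 * l a) ^ 2 ≤ 1 := by
    intro a
    nlinarith [(hl a).1, (hl a).2]
  have htr : ((∑ i, w i • P i) - (∑ i, w i • P i) ^ 2).trace =
      ∑ a, (1 - (1 - 2 * l a) ^ 2) / 4 := by
    rw [hB, Matrix.trace_sub, JB_pow U l h1 h2 2, JB_trace U l h1, JB_trace U _ h1,
      ← Finset.sum_sub_distrib]
    refine Finset.sum_congr rfl fun a _ => ?_
    ring
  have hJ : J m (∑ i, w i • P i) = ∑ j ∈ Finset.range (m + 1),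
      (∑ a, (1 - (1 - 2 * l a) ^ (2 * j + 2))) / ((2 * (j : ℝ) + 1) * (2 * (j : ℝ) + 2)) := by
    unfold J
    refine Finset.sum_congr rfl fun j _ => ?_
    rw [hB, JB_lin U l h2, JB_pow U _ h1 h2, JB_trace U _ h1, Finset.sum_sub_distrib]
    congr 2
    simp
  rw [htr, hJ]
  constructor
  · unfold Jh
    rw [Finset.mul_sum (Finset.range (m + 1)), Finset.sum_mul (Finset.range (m + 1))]
    refine Finset.sum_le_sum fun j _ => ?_
    have hpos : (0 : ℝ) < (2 * (j : ℝ) + 1) * (2 * (j : ℝ) + 2) := by positivity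
    rw [le_div_iff₀ hpos]
    have e : 4 * (1 / ((2 * (j : ℝ) + 1) * (2 * (j : ℝ) + 2))) *
        (∑ a, (1 - (1 - 2 * l a) ^ 2) / 4) * ((2 * (j : ℝ) + 1) * (2 * (j : ℝ) + 2)) =
        ∑ a, (1 - (1 - 2 * l a) ^ 2) := by
      rw [← Finset.sum_div]
      field_simp
    rw [e]
    exact Finset.sum_le_sum fun a _ => JB_low _ (hy a) j
  · have hT : (0 : ℝ) ≤ ∑ a, (1 - (1 - 2 * l a) ^ 2) :=
      Finset.sum_nonneg fun a _ => by linarith [hy a]
    have hb : ∀ j ∈ Finset.range (m + 1),
        (∑ a, (1 - (1 - 2 * l a) ^ (2 * j + 2))) / ((2 * (j : ℝ) + 1) * (2 * (j : ℝ) + 2)) ≤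
          (∑ a, (1 - (1 - 2 * l a) ^ 2)) / 2 := by
      intro j _
      have hpos : (0 : ℝ) < (2 * (j : ℝ) + 1) * (2 * (j : ℝ) + 2) := by positivity
      rw [div_le_iff₀ hpos]
      have h3 : (∑ a, (1 - (1 - 2 * l a) ^ (2 * j + 2))) ≤
          ((j : ℝ) + 1) * ∑ a, (1 - (1 - 2 * l a) ^ 2) := by
        rw [Finset.mul_sum]
        exact Finset.sum_le_sum fun a _ => JB_up _ (hy a) j
      have h4 : (0 : ℝ) ≤ (j : ℝ) * ((j : ℝ) + 1) * ∑ a, (1 - (1 - 2 * l a) ^ 2) := by
        positivity
      nlinarith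
    refine (Finset.sum_le_sum hb).trans ?_
    rw [Finset.sum_const, Finset.card_range, nsmul_eq_mul, ← Finset.sum_div]
    push_cast
    have : ((m : ℝ) + 1) * ((∑ a, (1 - (1 - 2 * l a) ^ 2)) / 2) =
      2 * ((m : ℝ) + 1) * ((∑ a, (1 - (1 - 2 * l a) ^ 2)) / 4) := by ring
    rw [this]

end Pool.Agent.KXP
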