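import Pool.Agent.KXP.Oua
import Pool.Agent.KXP.Ker

/-!
# KXP / Lcx: log-convexity turns a crude bound into a dimension free one; decay
-/

set_option autoImplicit false
set_option linter.unusedSectionVars false

open MeasureTheory ProbabilityTheory Filter Topology
open scoped BigOperators

namespace Pool.Agent.KXP

variable {d : ℕ}

/-- the correlation function -/
noncomputable def lcx_cor (f : E d → ℝ) (t : ℝ) : ℝ := ∫ v, f v * ou t f v ∂(gam d)

theorem lcx_mul {f : E d → ℝ} (hf : MemLp f 2 (gam d)) {a b : ℝ} (ha0 : 0 ≤ a) (ha1 : a ≤ 1)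
    (hb0 : 0 ≤ b) (hb1 : b ≤ 1) :
    lcx_cor f (a * b) = ∫ v, ou b f v * ou a f v ∂(gam d) := by
  rw [ou_self ha0 ha1 hf (ou_memLp hb0 hb1 hf)]
  unfold lcx_cor
  refine integral_congr_ae ?_
  filter_upwards [ou_ou ha0 ha1 hb0 hb1 hf] with v hv
  rw [hv]

theorem lcx_sq {f : E d → ℝ} (hf : MemLp f 2 (gam d)) {a : ℝ} (ha0 : 0 ≤ a) (ha1 : a ≤ 1) :
    lcx_cor f (a ^ 2) = ∫ v, ou a f v ^ 2 ∂(gam d) := by
  rw [pow_two, lcx_mul hf ha0 ha1 ha0 ha1]
  refine integral_congr_ae (Filter.Eventually.of_forall fun v => ?_)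
  simp only [pow_two]

theorem lcx_one (f : E d → ℝ) : lcx_cor f 1 = ∫ v, f v ^ 2 ∂(gam d) := by
  unfold lcx_cor
  refine integral_congr_ae (Filter.Eventually.of_forall fun v => ?_)
  simp only [oua_one, pow_two]

theorem lcx_logconvex {f : E d → ℝ} (hf : MemLp f 2 (gam d)) {a b : ℝ} (ha0 : 0 ≤ a)
    (ha1 : a ≤ 1) (hb0 : 0 ≤ b) (hb1 : b ≤ 1) :
    lcx_cor f (a * b) ^ 2 ≤ lcx_cor f (a ^ 2) * lcx_cor f (b ^ 2) := by
  rw [mul_comm a b, lcx_mul hf hb0 hb1 ha0 ha1, lcx_sq hf ha0 ha1, lcx_sq hf hb0 hb1]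
  exact Ou.cs_integral (ou_memLp ha0 ha1 hf).integrable_sq (ou_memLp hb0 hb1 hf).integrable_sq
    ((ou_memLp ha0 ha1 hf).integrable_mul (ou_memLp hb0 hb1 hf))

theorem lcx_nonneg {f : E d → ℝ} (hf : MemLp f 2 (gam d)) {t : ℝ} (h0 : 0 ≤ t) (h1 : t ≤ 1) :
    0 ≤ lcx_cor f t := by
  have h2 : t = Real.sqrt t ^ 2 := (Real.sq_sqrt h0).symm
  rw [h2, lcx_sq hf (Real.sqrt_nonneg _) (Real.sqrt_le_one.2 h1)]
  exact integral_nonneg fun v => sq_nonneg _

/-- decay of order `m` near `0` (positive arguments) gives decay with constant one -/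
theorem lcx_decay {f : E d → ℝ} (hf : MemLp f 2 (gam d)) {m : ℕ}
    (hs : ∃ C t₀ : ℝ, 0 < t₀ ∧ ∀ t, 0 ≤ t → t ≤ t₀ → lcx_cor f t ≤ C * t ^ m) {t : ℝ}
    (h2 : 0 < t) (h1 : t ≤ 1) : lcx_cor f t ≤ t ^ m * lcx_cor f 1 := by
  obtain ⟨C, t₀, ht₀, hC⟩ := hs
  have h0 : 0 ≤ t := h2.le
  rcases eq_or_lt_of_le h1 with h3 | h3
  · rw [h3, one_pow, one_mul]
  by_contra hcon
  push Not at hcon
  set s := Real.sqrt t with hs
  have hs0 : 0 ≤ s := Real.sqrt_nonneg t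
  have hs1 : s ≤ 1 := Real.sqrt_le_one.2 h1
  have hst : s ^ 2 = t := Real.sq_sqrt h0
  set a : ℕ → ℝ := fun n => lcx_cor f (t ^ n) with ha
  have hpow0 : ∀ n : ℕ, 0 ≤ s ^ n := fun n => pow_nonneg hs0 n
  have hpow1 : ∀ n : ℕ, s ^ n ≤ 1 := fun n => pow_le_one₀ hs0 hs1
  have hlog : ∀ n, a (n + 1) ^ 2 ≤ a n * a (n + 2) := by
    intro n
    have := lcx_logconvex hf (hpow0 n) (hpow1 n) (hpow0 (n + 2)) (hpow1 (n + 2))
    have e1 : s ^ n * s ^ (n + 2) = t ^ (n + 1) := by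
      rw [← hst, ← pow_mul, ← pow_add]; congr 1; ring
    have e2 : (s ^ n) ^ 2 = t ^ n := by rw [← hst, ← pow_mul, ← pow_mul]; congr 1; ring
    have e3 : (s ^ (n + 2)) ^ 2 = t ^ (n + 2) := by
      rw [← hst, ← pow_mul, ← pow_mul]; congr 1; ring
    rw [e1, e2, e3] at this
    exact this
  have ha0' : a 0 = lcx_cor f 1 := by simp [ha]
  have ha1' : a 1 = lcx_cor f t := by simp [ha]
  have h10 : 0 ≤ lcx_cor f 1 := lcx_nonneg hf zero_le_one le_rfl
  have htm : 0 < t ^ m := pow_pos h2 m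
  have hpos1 : 0 < a 1 := by
    rw [ha1']
    exact lt_of_le_of_lt (mul_nonneg htm.le h10) hcon
  have hpos0 : 0 < a 0 := by
    rw [ha0']
    rcases eq_or_lt_of_le h10 with h | h
    · exfalso
      have h4 := hlog 0
      rw [ha0', ← h, zero_mul] at h4
      have := pow_pos hpos1 2
      rw [zero_add] at h4
      linarith
    · exact h
  set q := a 1 / a 0 with hq
  have hq0 : 0 < q := div_pos hpos1 hpos0
  have hqt : t ^ m < q := by
    rw [hq, lt_div_iff₀ hpos0, ha0', ha1']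
    exact hcon
  have hind : ∀ n, 0 < a n ∧ q * a n ≤ a (n + 1) := by
    intro n
    induction n with
    | zero =>
      refine ⟨hpos0, ?_⟩
      rw [hq, zero_add, div_mul_cancel₀ _ hpos0.ne']
    | succ n ih =>
      obtain ⟨i1, i2⟩ := ih
      have i3 : 0 < a (n + 1) := lt_of_lt_of_le (mul_pos hq0 i1) i2
      refine ⟨i3, ?_⟩
      have i4 := hlog n
      have i5 : (q * a (n + 1)) * a n ≤ a (n + 2) * a n := by
        calc (q * a (n + 1)) * a n = (q * a n) * a (n + 1) := by ring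
          _ ≤ a (n + 1) * a (n + 1) := mul_le_mul_of_nonneg_right i2 i3.le
          _ = a (n + 1) ^ 2 := by ring
          _ ≤ a n * a (n + 2) := i4
          _ = a (n + 2) * a n := by ring
      exact le_of_mul_le_mul_right i5 i1
  have hlow : ∀ n, a 0 * q ^ n ≤ a n := by
    intro n
    induction n with
    | zero => simp
    | succ n ih =>
      calc a 0 * q ^ (n + 1) = q * (a 0 * q ^ n) := by ring
        _ ≤ q * a n := mul_le_mul_of_nonneg_left ih hq0.le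
        _ ≤ a (n + 1) := (hind n).2
  have hratio : 1 < q / t ^ m := by rwa [one_lt_div htm]
  have hlim := tendsto_pow_atTop_atTop_of_one_lt hratio
  have hlim2 := tendsto_pow_atTop_nhds_zero_of_lt_one h0 h3
  have ev1 := hlim.eventually_gt_atTop (C / a 0)
  have ev2 : ∀ᶠ n : ℕ in Filter.atTop, t ^ n < t₀ := hlim2.eventually (gt_mem_nhds ht₀)
  obtain ⟨n, hn1, hn2⟩ := (ev1.and ev2).exists
  have h5 := hC (t ^ n) (pow_nonneg h0 n) hn2.le
  have h6 := (hlow n).trans h5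
  rw [← pow_mul, mul_comm n m, pow_mul] at h6
  have h7 : a 0 * (q / t ^ m) ^ n ≤ C := by
    rw [div_pow, ← mul_div_assoc, div_le_iff₀ (pow_pos htm n)]
    exact h6
  rw [div_lt_iff₀ hpos0] at hn1
  linarith

theorem lcx_zero (f : E d → ℝ) (v : E d) : ou 0 f v = ∫ w, f w ∂(gam d) := by simp [ou]

theorem ou_lcx (k : ℕ) {f : E d → ℝ} (hf : MemLp f 2 (gam d))
    (hC : ∃ C : ℝ, ∀ r : ℝ, 0 ≤ r → r ≤ 1 / 2 → ∫ v, ou r f v ^ 2 ∂(gam d) ≤ C * r ^ (2 * k))
    {r : ℝ} (h0 : 0 ≤ r) (h1 : r ≤ 1) :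
    ∫ v, ou r f v ^ 2 ∂(gam d) ≤ r ^ (2 * k) * ∫ u, f u ^ 2 ∂(gam d) := by
  obtain ⟨C, hC⟩ := hC
  rcases Nat.eq_zero_or_pos k with rfl | hk
  · simpa using ou_contr h0 h1 hf
  rcases eq_or_lt_of_le h0 with h2 | h2
  · have h3 := hC 0 le_rfl (by norm_num)
    rw [zero_pow (by omega), mul_zero] at h3
    rw [← h2, zero_pow (by omega), zero_mul]
    exact h3
  · have h3 := lcx_decay hf (m := k) ⟨C, 1 / 4, by norm_num, fun t ht0 ht1 => by
      have h4 : Real.sqrt t ≤ 1 / 2 := by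
        rw [show (1 / 2 : ℝ) = Real.sqrt (1 / 4) by
          rw [show (1 / 4 : ℝ) = (1 / 2) ^ 2 by norm_num, Real.sqrt_sq (by norm_num)]]
        exact Real.sqrt_le_sqrt ht1
      have h5 := hC (Real.sqrt t) (Real.sqrt_nonneg _) h4
      rw [pow_mul, Real.sq_sqrt ht0] at h5
      have h6 := lcx_sq hf (Real.sqrt_nonneg t) (h4.trans (by norm_num))
      rw [Real.sq_sqrt ht0] at h6
      rw [h6]
      exact h5⟩ (pow_pos h2 2) (pow_le_one₀ h0 h1)
    rw [lcx_sq hf h0 h1, lcx_one, ← pow_mul] at h3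
    exact h3

theorem ou_decay {r : ℝ} (h0 : 0 ≤ r) (h1 : r ≤ 1) {f : E d → ℝ} (hf : MemLp f 2 (gam d))
    (hm : ∫ u, f u ∂(gam d) = 0) (hk : ∀ k, ∫ u, f u * u k ∂(gam d) = 0) :
    ∫ v, ou r f v ^ 2 ∂(gam d) ≤ r ^ 4 * ∫ u, f u ^ 2 ∂(gam d) := by
  have hu : ∀ k, MemLp (fun u : E d => u k) 2 (gam d) := by
    intro k
    have h2 : MemLp (id : E d → E d) 2 (gam d) := IsGaussian.memLp_two_id (μ := stdGaussian (E d))
    exact (EuclideanSpace.proj (𝕜 := ℝ) k).comp_memLp' h2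
  have he : ∀ e : E d, ∫ u, f u * inner ℝ e u ∂(gam d) = 0 := by
    intro e
    have e1 : ∀ u : E d, f u * inner ℝ e u = ∑ k, e k * (f u * u k) := by
      intro u
      rw [PiLp.inner_apply, Finset.mul_sum]
      refine Finset.sum_congr rfl fun k _ => ?_
      simp only [RCLike.inner_apply, conj_trivial]
      ring
    simp_rw [e1]
    have hi : ∀ k ∈ (Finset.univ : Finset (Fin d)),
        Integrable (fun u : E d => e k * (f u * u k)) (gam d) := fun k _ =>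
      (hf.integrable_mul (hu k)).const_mul _
    rw [integral_finsetSum _ hi]
    refine Finset.sum_eq_zero fun k _ => ?_
    rw [integral_const_mul, hk k, mul_zero]
  obtain ⟨C, t₀, ht₀, hC0, hC⟩ := small_tau f hf hm he
  rcases eq_or_lt_of_le h0 with h2 | h2
  · rw [← h2]
    simp [lcx_zero, hm]
  · have h3 := lcx_decay hf (m := 2) ⟨C, t₀, ht₀, fun t ht0 ht1 =>
      (le_abs_self _).trans (hC t ht0 ht1)⟩ (pow_pos h2 2) (pow_le_one₀ h0 h1)
    rw [lcx_sq hf h0 h1, lcx_one, ← pow_mul] at h3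
    exact h3

end Pool.Agent.KXP
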