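import Pool.Agent.KXP.OU

/-!
# KXP / OU2: contraction, log-convexity and decay of the Ornstein-Uhlenbeck semigroup
-/

set_option autoImplicit false
set_option linter.unusedSectionVars false

namespace Pool.Agent.KXP.Ou

open MeasureTheory ProbabilityTheory
open scoped RealInnerProductSpace

noncomputable section

variable {E : Type} [NormedAddCommGroup E] [InnerProductSpace ℝ E] [FiniteDimensional ℝ E]
  [MeasurableSpace E] [BorelSpace E]

/-- Jensen for the square -/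
theorem sq_integral_le {α : Type} [MeasurableSpace α] {μ : Measure α} [IsProbabilityMeasure μ]
    {g : α → ℝ} (hg : Integrable g μ) (hg2 : Integrable (fun x => g x ^ 2) μ) :
    (∫ x, g x ∂μ) ^ 2 ≤ ∫ x, g x ^ 2 ∂μ := by
  set c := ∫ x, g x ∂μ with hc
  have h0 : 0 ≤ ∫ x, (g x - c) ^ 2 ∂μ := integral_nonneg fun x => sq_nonneg _
  have e : ∫ x, (g x - c) ^ 2 ∂μ = ∫ x, g x ^ 2 ∂μ - c ^ 2 := by
    have e1 : ∀ x, (g x - c) ^ 2 = g x ^ 2 - 2 * c * g x + c ^ 2 := fun x => by ring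
    simp_rw [e1]
    have i1 : Integrable (fun x => g x ^ 2 - 2 * c * g x) μ := hg2.sub (hg.const_mul _)
    rw [integral_add i1 (integrable_const _), integral_sub hg2 (hg.const_mul _),
      integral_const_mul, ← hc]
    simp
    ring
  linarith

theorem U_sq_le {f : E → ℝ} (hf : PG f) {r : ℝ} (h0 : 0 ≤ r) (h1 : r ≤ 1) (v : E) :
    U r f v ^ 2 ≤ U r (fun u => f u ^ 2) v :=
  sq_integral_le (hf.slice (abs_le_of h0 h1) (sr_le r) v)
    (hf.sq.slice (abs_le_of h0 h1) (sr_le r) v)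

/-- contraction -/
theorem U_contr {f : E → ℝ} (hf : PG f) {r : ℝ} (h0 : 0 ≤ r) (h1 : r ≤ 1) :
    ∫ v, U r f v ^ 2 ∂(gam E) ≤ ∫ v, f v ^ 2 ∂(gam E) := by
  rw [← U_integral hf.sq h0 h1]
  exact integral_mono (hf.U h0 h1).sq.integrable (hf.sq.U h0 h1).integrable
    fun v => U_sq_le hf h0 h1 v

/-- the correlation function -/
def cor (f g : E → ℝ) (t : ℝ) : ℝ := ∫ v, f v * U t g v ∂(gam E)

theorem cor_mul {f g : E → ℝ} (hf : PG f) (hg : PG g) {a b : ℝ} (ha0 : 0 ≤ a) (ha1 : a ≤ 1)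
    (hb0 : 0 ≤ b) (hb1 : b ≤ 1) :
    cor f g (a * b) = ∫ v, U a f v * U b g v ∂(gam E) := by
  unfold cor
  rw [← U_self (hg.U hb0 hb1) hf ha0 ha1]
  refine integral_congr_ae (Filter.Eventually.of_forall fun v => ?_)
  simp only
  rw [U_U hg ha0 ha1 hb0 hb1]

theorem cor_sq {f : E → ℝ} (hf : PG f) {a : ℝ} (ha0 : 0 ≤ a) (ha1 : a ≤ 1) :
    cor f f (a ^ 2) = ∫ v, U a f v ^ 2 ∂(gam E) := by
  rw [pow_two, cor_mul hf hf ha0 ha1 ha0 ha1]
  refine integral_congr_ae (Filter.Eventually.of_forall fun v => ?_)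
  simp only [pow_two]

theorem U_one (f : E → ℝ) (v : E) : U 1 f v = f v := by simp [U]

theorem U_zero (f : E → ℝ) (v : E) : U 0 f v = ∫ w, f w ∂(gam E) := by simp [U]

theorem cor_one (f : E → ℝ) : cor f f 1 = ∫ v, f v ^ 2 ∂(gam E) := by
  unfold cor
  refine integral_congr_ae (Filter.Eventually.of_forall fun v => ?_)
  simp only [U_one, pow_two]

theorem cor_zero (f : E → ℝ) : cor f f 0 = (∫ v, f v ∂(gam E)) ^ 2 := by
  unfold cor
  simp only [U_zero]
  rw [integral_mul_const, pow_two]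

theorem cs_integral {α : Type} [MeasurableSpace α] {μ : Measure α} {f g : α → ℝ}
    (hf : Integrable (fun x => f x ^ 2) μ) (hg : Integrable (fun x => g x ^ 2) μ)
    (hfg : Integrable (fun x => f x * g x) μ) :
    (∫ x, f x * g x ∂μ) ^ 2 ≤ (∫ x, f x ^ 2 ∂μ) * ∫ x, g x ^ 2 ∂μ := by
  have key : ∀ t : ℝ, 0 ≤ (∫ x, g x ^ 2 ∂μ) * (t * t) + (2 * ∫ x, f x * g x ∂μ) * t +
      ∫ x, f x ^ 2 ∂μ := by
    intro t
    have h0 : 0 ≤ ∫ x, (f x + t * g x) ^ 2 ∂μ := integral_nonneg fun x => sq_nonneg _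
    have e : ∫ x, (f x + t * g x) ^ 2 ∂μ = (∫ x, g x ^ 2 ∂μ) * (t * t) +
        (2 * ∫ x, f x * g x ∂μ) * t + ∫ x, f x ^ 2 ∂μ := by
      have e1 : ∀ x, (f x + t * g x) ^ 2 = f x ^ 2 + ((2 * t) * (f x * g x) +
          (t * t) * g x ^ 2) := fun x => by ring
      simp_rw [e1]
      have i1 : Integrable (fun x => 2 * t * (f x * g x)) μ := hfg.const_mul _
      have i2 : Integrable (fun x => t * t * g x ^ 2) μ := hg.const_mul _
      have i3 : Integrable (fun x => 2 * t * (f x * g x) + t * t * g x ^ 2) μ := i1.add i2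
      rw [integral_add hf i3, integral_add i1 i2, integral_const_mul, integral_const_mul]
      ring
    rwa [e] at h0
  have := discrim_le_zero key
  unfold discrim at this
  nlinarith

/-- log-convexity -/
theorem cor_logconvex {f : E → ℝ} (hf : PG f) {a b : ℝ} (ha0 : 0 ≤ a) (ha1 : a ≤ 1)
    (hb0 : 0 ≤ b) (hb1 : b ≤ 1) :
    cor f f (a * b) ^ 2 ≤ cor f f (a ^ 2) * cor f f (b ^ 2) := by
  rw [cor_mul hf hf ha0 ha1 hb0 hb1, cor_sq hf ha0 ha1, cor_sq hf hb0 hb1]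
  exact cs_integral (hf.U ha0 ha1).sq.integrable (hf.U hb0 hb1).sq.integrable
    ((hf.U ha0 ha1).mul (hf.U hb0 hb1)).integrable

theorem cor_nonneg {f : E → ℝ} (hf : PG f) {t : ℝ} (h0 : 0 ≤ t) (h1 : t ≤ 1) :
    0 ≤ cor f f t := by
  have h2 : t = √t ^ 2 := (Real.sq_sqrt h0).symm
  rw [h2, cor_sq hf (Real.sqrt_nonneg _) (Real.sqrt_le_one.2 h1)]
  exact integral_nonneg fun v => sq_nonneg _

/-- decay of order `m` at `0` gives decay with constant one -/
theorem cor_decay {f : E → ℝ} (hf : PG f) {m : ℕ} (hm : 1 ≤ m)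
    (hs : ∃ C t₀ : ℝ, 0 < t₀ ∧ ∀ t, 0 ≤ t → t ≤ t₀ → cor f f t ≤ C * t ^ m) {t : ℝ}
    (h0 : 0 ≤ t) (h1 : t ≤ 1) : cor f f t ≤ t ^ m * cor f f 1 := by
  obtain ⟨C, t₀, ht₀, hC⟩ := hs
  rcases eq_or_lt_of_le h0 with h2 | h2
  · rw [← h2]
    have := hC 0 le_rfl ht₀.le
    rw [zero_pow (by omega), mul_zero] at this
    rw [zero_pow (by omega), zero_mul]
    exact this
  rcases eq_or_lt_of_le h1 with h3 | h3
  · rw [h3, one_pow, one_mul]
  by_contra hcon
  push Not at hcon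
  set s := √t with hs
  have hs0 : 0 ≤ s := Real.sqrt_nonneg t
  have hs1 : s ≤ 1 := Real.sqrt_le_one.2 h1
  have hst : s ^ 2 = t := Real.sq_sqrt h0
  set a : ℕ → ℝ := fun n => cor f f (t ^ n) with ha
  have hpow0 : ∀ n : ℕ, 0 ≤ s ^ n := fun n => pow_nonneg hs0 n
  have hpow1 : ∀ n : ℕ, s ^ n ≤ 1 := fun n => pow_le_one₀ hs0 hs1
  have hlog : ∀ n, a (n + 1) ^ 2 ≤ a n * a (n + 2) := by
    intro n
    have := cor_logconvex hf (hpow0 n) (hpow1 n) (hpow0 (n + 2)) (hpow1 (n + 2))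
    have e1 : s ^ n * s ^ (n + 2) = t ^ (n + 1) := by
      rw [← hst, ← pow_mul, ← pow_add]; congr 1; ring
    have e2 : (s ^ n) ^ 2 = t ^ n := by rw [← hst, ← pow_mul, ← pow_mul]; congr 1; ring
    have e3 : (s ^ (n + 2)) ^ 2 = t ^ (n + 2) := by
      rw [← hst, ← pow_mul, ← pow_mul]; congr 1; ring
    rw [e1, e2, e3] at this
    exact this
  have ha0' : a 0 = cor f f 1 := by simp [ha]
  have ha1' : a 1 = cor f f t := by simp [ha]
  have h10 : 0 ≤ cor f f 1 := cor_nonneg hf zero_le_one le_rfl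
  have htm : 0 < t ^ m := pow_pos h2 m
  have hpos1 : 0 < a 1 := by
    rw [ha1']
    exact lt_of_le_of_lt (mul_nonneg htm.le h10) hcon
  have hpos0 : 0 < a 0 := by
    rw [ha0']
    rcases eq_or_lt_of_le h10 with h | h
    · exfalso
      have h4 := hlog 0
      rw [ha0', ← h, zero_mul] at h4
      have := pow_pos hpos1 2
      rw [zero_add] at h4
      linarith
    · exact h
  set q := a 1 / a 0 with hq
  have hq0 : 0 < q := div_pos hpos1 hpos0
  have hqt : t ^ m < q := by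
    rw [hq, lt_div_iff₀ hpos0, ha0', ha1']
    exact hcon
  have hind : ∀ n, 0 < a n ∧ q * a n ≤ a (n + 1) := by
    intro n
    induction n with
    | zero =>
      refine ⟨hpos0, ?_⟩
      rw [hq, zero_add, div_mul_cancel₀ _ hpos0.ne']
    | succ n ih =>
      obtain ⟨i1, i2⟩ := ih
      have i3 : 0 < a (n + 1) := lt_of_lt_of_le (mul_pos hq0 i1) i2
      refine ⟨i3, ?_⟩
      have i4 := hlog n
      have i5 : (q * a (n + 1)) * a n ≤ a (n + 2) * a n := by
        calc (q * a (n + 1)) * a n = (q * a n) * a (n + 1) := by ring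
          _ ≤ a (n + 1) * a (n + 1) := mul_le_mul_of_nonneg_right i2 i3.le
          _ = a (n + 1) ^ 2 := by ring
          _ ≤ a n * a (n + 2) := i4
          _ = a (n + 2) * a n := by ring
      exact le_of_mul_le_mul_right i5 i1
  have hlow : ∀ n, a 0 * q ^ n ≤ a n := by
    intro n
    induction n with
    | zero => simp
    | succ n ih =>
      calc a 0 * q ^ (n + 1) = q * (a 0 * q ^ n) := by ring
        _ ≤ q * a n := mul_le_mul_of_nonneg_left ih hq0.le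
        _ ≤ a (n + 1) := (hind n).2
  -- contradiction
  have hratio : 1 < q / t ^ m := by rwa [one_lt_div htm]
  have hlim := tendsto_pow_atTop_atTop_of_one_lt hratio
  have hlim2 := tendsto_pow_atTop_nhds_zero_of_lt_one h0 h3
  have ev1 := hlim.eventually_gt_atTop (C / a 0)
  have ev2 : ∀ᶠ n : ℕ in Filter.atTop, t ^ n < t₀ := hlim2.eventually (gt_mem_nhds ht₀)
  obtain ⟨n, hn1, hn2⟩ := (ev1.and ev2).exists
  have h5 := hC (t ^ n) (pow_nonneg h0 n) hn2.le
  have h6 := (hlow n).trans h5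
  rw [← pow_mul, mul_comm n m, pow_mul] at h6
  have h7 : a 0 * (q / t ^ m) ^ n ≤ C := by
    rw [div_pow, ← mul_div_assoc, div_le_iff₀ (pow_pos htm n)]
    exact h6
  rw [div_lt_iff₀ hpos0] at hn1
  linarith

/-- **decay of the semigroup** -/
theorem U_decay {f : E → ℝ} (hf : PG f)
    (hs : ∃ C t₀ : ℝ, 0 < t₀ ∧ ∀ t, 0 ≤ t → t ≤ t₀ → cor f f t ≤ C * t ^ 2) {r : ℝ}
    (h0 : 0 ≤ r) (h1 : r ≤ 1) :
    ∫ v, U r f v ^ 2 ∂(gam E) ≤ r ^ 4 * ∫ v, f v ^ 2 ∂(gam E) := by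
  have := cor_decay hf one_le_two hs (pow_nonneg h0 2) (pow_le_one₀ h0 h1)
  rw [cor_sq hf h0 h1, cor_one, ← pow_mul] at this
  exact this

end

end Pool.Agent.KXP.Ou
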