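import Pool.Agent.KXP.Defs
import Pool.Agent.KXP.OU2

/-!
# KXP / Oua: the Mehler operators on square integrable functions
-/

set_option autoImplicit false
set_option linter.unusedSectionVars false

open MeasureTheory ProbabilityTheory Filter Topology
open scoped BigOperators

namespace Pool.Agent.KXP

variable {d : ℕ}

theorem oua_comb {a b : ℝ} (h : a ^ 2 + b ^ 2 = 1) :
    MeasurePreserving (fun p : E d × E d => a • p.1 + b • p.2) ((gam d).prod (gam d)) (gam d) :=
  Ou.mp_comb h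

theorem oua_slice {α β γ : Type} [MeasurableSpace α] [MeasurableSpace β] [MeasurableSpace γ]
    {μ : Measure α} {ν : Measure β} {ρ : Measure γ} [SFinite μ] [SFinite ν] {F : α × β → γ}
    (hF : MeasurePreserving F (μ.prod ν) ρ) {f : γ → ℝ} (hf : Integrable f ρ) :
    Integrable (fun p => f (F p)) (μ.prod ν) ∧
      (∀ᵐ v ∂μ, Integrable (fun w => f (F (v, w))) ν) ∧
      Integrable (fun v => ∫ w, f (F (v, w)) ∂ν) μ ∧
      ∫ v, ∫ w, f (F (v, w)) ∂ν ∂μ = ∫ y, f y ∂ρ := by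
  have h1 : Integrable (fun p => f (F p)) (μ.prod ν) := hF.integrable_comp_of_integrable hf
  refine ⟨h1, h1.prod_right_ae, h1.integral_prod_left, ?_⟩
  rw [← integral_prod _ h1, Ou.mp_integral hF hf.aestronglyMeasurable]

theorem ou_int {r : ℝ} (h0 : 0 ≤ r) (h1 : r ≤ 1) {f : E d → ℝ} (hf : Integrable f (gam d)) :
    ∫ v, ou r f v ∂(gam d) = ∫ v, f v ∂(gam d) :=
  (oua_slice (oua_comb (Ou.sr_sq h0 h1)) hf).2.2.2

theorem oua_sq_le {r : ℝ} (h0 : 0 ≤ r) (h1 : r ≤ 1) {f : E d → ℝ} (hf : MemLp f 2 (gam d)) :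
    ∀ᵐ v ∂(gam d), ou r f v ^ 2 ≤ ou r (fun u => f u ^ 2) v := by
  have h2 := oua_slice (oua_comb (d := d) (Ou.sr_sq h0 h1)) hf.integrable_sq
  have h3 := oua_slice (oua_comb (d := d) (Ou.sr_sq h0 h1)) (hf.integrable one_le_two)
  filter_upwards [h2.2.1, h3.2.1] with v hv1 hv2
  exact Ou.sq_integral_le hv2 hv1

theorem ou_memLp {r : ℝ} (h0 : 0 ≤ r) (h1 : r ≤ 1) {f : E d → ℝ} (hf : MemLp f 2 (gam d)) :
    MemLp (ou r f) 2 (gam d) := by
  have h2 := oua_slice (oua_comb (d := d) (Ou.sr_sq h0 h1)) hf.integrable_sq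
  have h3 := oua_slice (oua_comb (d := d) (Ou.sr_sq h0 h1)) (hf.integrable one_le_two)
  have hm : AEStronglyMeasurable (ou r f) (gam d) := h3.2.2.1.aestronglyMeasurable
  rw [memLp_two_iff_integrable_sq hm]
  refine h2.2.2.1.mono' (hm.pow 2) ?_
  filter_upwards [oua_sq_le h0 h1 hf] with v hv
  rw [Real.norm_eq_abs, abs_of_nonneg (sq_nonneg _)]
  exact hv

theorem ou_contr {r : ℝ} (h0 : 0 ≤ r) (h1 : r ≤ 1) {f : E d → ℝ} (hf : MemLp f 2 (gam d)) :
    ∫ v, ou r f v ^ 2 ∂(gam d) ≤ ∫ v, f v ^ 2 ∂(gam d) := by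
  rw [← ou_int h0 h1 hf.integrable_sq]
  exact integral_mono_ae (ou_memLp h0 h1 hf).integrable_sq
    (oua_slice (oua_comb (d := d) (Ou.sr_sq h0 h1)) hf.integrable_sq).2.2.1
    (oua_sq_le h0 h1 hf)

theorem oua_pair_int {r : ℝ} (h0 : 0 ≤ r) (h1 : r ≤ 1) {f g : E d → ℝ} (hf : MemLp f 2 (gam d))
    (hg : MemLp g 2 (gam d)) :
    Integrable (fun p : E d × E d => g p.1 * f (r • p.1 + Real.sqrt (1 - r ^ 2) • p.2))
      ((gam d).prod (gam d)) := by
  have h2 : MemLp (fun p : E d × E d => g p.1) 2 ((gam d).prod (gam d)) :=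
    hg.comp_measurePreserving measurePreserving_fst
  have h3 : MemLp (fun p : E d × E d => f (r • p.1 + Real.sqrt (1 - r ^ 2) • p.2)) 2
      ((gam d).prod (gam d)) := hf.comp_measurePreserving (oua_comb (Ou.sr_sq h0 h1))
  exact h2.integrable_mul h3

theorem ou_pair {r : ℝ} (h0 : 0 ≤ r) (h1 : r ≤ 1) {f g : E d → ℝ} (hf : MemLp f 2 (gam d))
    (hg : MemLp g 2 (gam d)) :
    ∫ v, g v * ou r f v ∂(gam d) =
      ∫ p : E d × E d, g p.1 * f (r • p.1 + Real.sqrt (1 - r ^ 2) • p.2) ∂((gam d).prod (gam d)) := by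
  rw [integral_prod _ (oua_pair_int h0 h1 hf hg)]
  refine integral_congr_ae (Filter.Eventually.of_forall fun v => ?_)
  simp only [ou]
  rw [integral_const_mul]

theorem ou_self {r : ℝ} (h0 : 0 ≤ r) (h1 : r ≤ 1) {f g : E d → ℝ} (hf : MemLp f 2 (gam d))
    (hg : MemLp g 2 (gam d)) : ∫ v, g v * ou r f v ∂(gam d) = ∫ v, f v * ou r g v ∂(gam d) := by
  rw [ou_pair h0 h1 hf hg, ou_pair h0 h1 hg hf]
  set s := Real.sqrt (1 - r ^ 2) with hs
  have hrs : r ^ 2 + s ^ 2 = 1 := Ou.sr_sq h0 h1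
  have h3 : MeasurePreserving (fun p : E d × E d => (r • p.1 + s • p.2, s • p.1 + (-r) • p.2))
      ((gam d).prod (gam d)) ((gam d).prod (gam d)) :=
    Ou.mp_rot (a := r) (b := s) (c := s) (e := -r) hrs (by rw [← hrs]; ring) (by ring)
  have h4 := Ou.mp_integral h3 (oua_pair_int h0 h1 hf hg).aestronglyMeasurable
  rw [← h4]
  refine integral_congr_ae (Filter.Eventually.of_forall fun p => ?_)
  simp only
  rw [← hs]
  have e3 : r • (r • p.1 + s • p.2) + s • (s • p.1 + -r • p.2) = p.1 := by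
    have : r • (r • p.1 + s • p.2) + s • (s • p.1 + -r • p.2) = (r ^ 2 + s ^ 2) • p.1 := by
      module
    rw [this, hrs, one_smul]
  rw [e3, mul_comm]

theorem oua_one (f : E d → ℝ) (v : E d) : ou 1 f v = f v := by simp [ou]

theorem ou_ou {r s : ℝ} (hr0 : 0 ≤ r) (hr1 : r ≤ 1) (hs0 : 0 ≤ s) (hs1 : s ≤ 1) {f : E d → ℝ}
    (hf : MemLp f 2 (gam d)) : ou r (ou s f) =ᵐ[gam d] ou (r * s) f := by
  have hr := Ou.sr_sq hr0 hr1
  have hs := Ou.sr_sq hs0 hs1
  set ρ := Real.sqrt (1 - r ^ 2) with hρ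
  set σ := Real.sqrt (1 - s ^ 2) with hσ
  have hρ0 : 0 ≤ ρ := Real.sqrt_nonneg _
  have hσ0 : 0 ≤ σ := Real.sqrt_nonneg _
  have hrs0 : 0 ≤ r * s := mul_nonneg hr0 hs0
  have hrs1 : r * s ≤ 1 := mul_le_one₀ hr1 hs0 hs1
  have ht := Ou.sr_sq hrs0 hrs1
  set t := Real.sqrt (1 - (r * s) ^ 2) with ht'
  have ht0 : 0 ≤ t := Real.sqrt_nonneg _
  have hsum : (s * ρ) ^ 2 + σ ^ 2 = t ^ 2 := by
    have : t ^ 2 = 1 - (r * s) ^ 2 := by linarith
    rw [this]
    have e1 : ρ ^ 2 = 1 - r ^ 2 := by linarith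
    have e2 : σ ^ 2 = 1 - s ^ 2 := by linarith
    rw [mul_pow, e1, e2]
    ring
  by_cases htz : t = 0
  · have h1 : (r * s) ^ 2 = 1 := by rw [htz] at ht; linarith
    have h2 : r * s = 1 := by nlinarith
    have h3 : r = 1 := by nlinarith
    have h4 : s = 1 := by nlinarith
    refine Filter.Eventually.of_forall fun v => ?_
    rw [h2, h3, h4, oua_one, oua_one]
  · have htp : 0 < t := lt_of_le_of_ne ht0 (Ne.symm htz)
    have hab : (s * ρ / t) ^ 2 + (σ / t) ^ 2 = 1 := by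
      rw [div_pow, div_pow, ← add_div, hsum]
      exact div_self (by positivity)
    have h1 := oua_comb (d := d) hab
    have h2 : MeasurePreserving
        (Prod.map id (fun p : E d × E d => (s * ρ / t) • p.1 + (σ / t) • p.2))
        ((gam d).prod ((gam d).prod (gam d))) ((gam d).prod (gam d)) :=
      (MeasurePreserving.id (gam d)).prod h1
    have h3 := (oua_comb (d := d) (Ou.sr_sq hrs0 hrs1)).comp h2
    have h4 := oua_slice h3 (hf.integrable one_le_two)
    have h5 : AEStronglyMeasurable (fun p : E d × E d => f ((r * s) • p.1 + t • p.2))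
        ((gam d).prod (gam d)) :=
      hf.aestronglyMeasurable.comp_measurePreserving (oua_comb (Ou.sr_sq hrs0 hrs1))
    filter_upwards [h4.2.1, h5.prodMk_left] with v hv1 hv2
    have e1 : ou (r * s) f v = ∫ p : E d × E d, f ((r * s) • v + t •
        ((s * ρ / t) • p.1 + (σ / t) • p.2)) ∂((gam d).prod (gam d)) := by
      unfold ou
      rw [← ht']
      exact (Ou.mp_integral h1 hv2).symm
    have hv3 : Integrable (fun p : E d × E d => f ((r * s) • v + t •
        ((s * ρ / t) • p.1 + (σ / t) • p.2))) ((gam d).prod (gam d)) := hv1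
    rw [e1, integral_prod _ hv3]
    unfold ou
    rw [← hρ, ← hσ]
    refine integral_congr_ae (Filter.Eventually.of_forall fun w => ?_)
    simp only
    refine integral_congr_ae (Filter.Eventually.of_forall fun z => ?_)
    simp only
    congr 1
    have e2 : t • ((s * ρ / t) • w + (σ / t) • z) = (s * ρ) • w + σ • z := by
      rw [smul_add, smul_smul, smul_smul, mul_div_cancel₀ _ htz, mul_div_cancel₀ _ htz]
    rw [e2]
    module

theorem ou_meas {r : ℝ} {f : E d → ℝ} (hf : Measurable f) : Measurable (ou r f) := by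
  have hm : Measurable fun p : E d × E d => f (r • p.1 + Real.sqrt (1 - r ^ 2) • p.2) :=
    hf.comp (by fun_prop)
  exact (hm.stronglyMeasurable.integral_prod_right (ν := gam d)).measurable

theorem ou_bdd {r : ℝ} {f : E d → ℝ} {C : ℝ} (hf : ∀ u, |f u| ≤ C) (v : E d) : |ou r f v| ≤ C := by
  have := norm_integral_le_of_norm_le_const (μ := gam d)
    (f := fun w => f (r • v + Real.sqrt (1 - r ^ 2) • w)) (C := C)
    (Filter.Eventually.of_forall fun w => by rw [Real.norm_eq_abs]; exact hf _)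
  simpa [ou] using this

end Pool.Agent.KXP
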