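import Pool.Agent.KXP.Fib
import Pool.Agent.KXP.Rsg
import Pool.Agent.KXP.Gau
import Pool.Agent.KXP.Oua
import Pool.Agent.KXP.JB
import Pool.Agent.KXP.Lcx

/-! KXP: noise stability of the mean projection (row MCB). -/

set_option autoImplicit false

open MeasureTheory ProbabilityTheory Filter Topology
open scoped BigOperators

namespace Pool.Agent.KXP

variable {d : ℕ} {ι : Type} [Fintype ι]

omit [Fintype ι] in
theorem McB_meas {D : Pre d ι} (hm : ∀ i, MeasurableSet {u | D.L u = i}) (z : E d) (s : ℝ) (i : ι) :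
    MeasurableSet {u | (D.rs z s).L u = i} := by
  have h : {u | (D.rs z s).L u = i} = (fun u => z + s • u) ⁻¹' {u | D.L u = i} := rfl
  rw [h]
  exact (by fun_prop : Measurable (fun u : E d => z + s • u)) (hm i)

theorem McB_A {D : Pre d ι} (hm : ∀ i, MeasurableSet {u | D.L u = i}) (r : ℝ) (v : E d)
    (a b : Fin d) :
    A (D.rs (r • v) (Real.sqrt (1 - r ^ 2))) a b = ou r (fun u => D.P (D.L u) a b) v := by
  rw [A_eq (McB_meas hm _ _)]
  rfl

theorem McB_int {f : E d → ℝ} (hf : Measurable f) {C : ℝ} (hb : ∀ u, |f u| ≤ C) :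
    Integrable f (gam d) :=
  Integrable.of_bound hf.aestronglyMeasurable C (Eventually.of_forall (fun u => by
    rw [Real.norm_eq_abs]; exact hb u))

theorem McB_memLp {f : E d → ℝ} (hf : Measurable f) {C : ℝ} (hb : ∀ u, |f u| ≤ C) :
    MemLp f 2 (gam d) :=
  MemLp.of_bound hf.aestronglyMeasurable C (Eventually.of_forall (fun u => by
    rw [Real.norm_eq_abs]; exact hb u))

theorem McB_sq {g : E d → ℝ} (hg : Integrable g (gam d)) (hg2 : Integrable (fun v => g v ^ 2) (gam d))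
    {α : ℝ} (hα : ∫ v, g v ∂(gam d) = α) :
    ∫ v, (g v - α) ^ 2 ∂(gam d) = (∫ v, g v ^ 2 ∂(gam d)) - α ^ 2 := by
  have h : (fun v => (g v - α) ^ 2) = fun v => (g v ^ 2 - 2 * α * g v) + α ^ 2 := by
    funext v; ring
  have h1 : Integrable (fun v => g v ^ 2 - 2 * α * g v) (gam d) := hg2.sub (hg.const_mul _)
  have h2 : ∫ v, (g v ^ 2 - 2 * α * g v) ∂(gam d) = (∫ v, g v ^ 2 ∂(gam d)) - 2 * α * α := by
    rw [integral_sub hg2 (hg.const_mul _), integral_const_mul, hα]
  rw [h, integral_add h1 (integrable_const _), h2]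
  simp
  ring

theorem McB_Jint (m : ℕ) {D : Pre d ι} (hD : Good D) (r : ℝ) :
    Integrable (fun v => J m (A (D.rs (r • v) (Real.sqrt (1 - r ^ 2))))) (gam d) := by
  have hcont : Continuous (fun w : ι → ℝ => J m (∑ i, w i • D.P i)) := by
    have hB : Continuous (fun w : ι → ℝ => ∑ i, w i • D.P i) := by
      refine continuous_finsetSum _ (fun i _ => ?_)
      exact Continuous.smul (continuous_apply i) continuous_const
    unfold J
    refine continuous_finsetSum _ (fun j _ => ?_)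
    refine Continuous.div_const ?_ _
    refine Continuous.sub continuous_const ?_
    refine Continuous.matrix_trace ?_
    refine Continuous.pow ?_ _
    exact Continuous.sub continuous_const (hB.const_smul (2 : ℝ))
  have hmeas : Measurable (fun v => J m (A (D.rs (r • v) (Real.sqrt (1 - r ^ 2))))) := by
    have h : (fun v => J m (A (D.rs (r • v) (Real.sqrt (1 - r ^ 2))))) =
        (fun w : ι → ℝ => J m (∑ i, w i • D.P i)) ∘
          (fun v i => q (D.rs (r • v) (Real.sqrt (1 - r ^ 2))) i) := rfl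
    rw [h]
    exact hcont.measurable.comp
      (measurable_pi_iff.mpr fun i => q_rs_meas hD.meas r (Real.sqrt (1 - r ^ 2)) i)
  obtain ⟨C, hC⟩ := (isCompact_Icc (a := (0 : ι → ℝ)) (b := 1)).exists_bound_of_continuousOn
    hcont.continuousOn
  refine Integrable.of_bound hmeas.aestronglyMeasurable C (Eventually.of_forall (fun v => ?_))
  have h : (fun i => q (D.rs (r • v) (Real.sqrt (1 - r ^ 2))) i) ∈ Set.Icc (0 : ι → ℝ) 1 :=
    ⟨fun i => q_nonneg _ i, fun i => q_le_one _ i⟩
  exact hC _ h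

/-- one entry -/
theorem McB_entry {D : Pre d ι} (hD : Good D) (hI : Iso D) {r : ℝ} (h0 : 0 ≤ r) (h1 : r ≤ 1)
    (a b : Fin d) :
    Integrable (ou r (fun u => D.P (D.L u) a b)) (gam d) ∧
    Integrable (fun v => ou r (fun u => D.P (D.L u) a b) v ^ 2) (gam d) ∧
    (∫ v, ou r (fun u => D.P (D.L u) a b) v ∂(gam d) = A D a b) ∧
    (∫ v, ou r (fun u => D.P (D.L u) a b) v ^ 2 ∂(gam d) ≤
      A D a b ^ 2 + r ^ 4 * ((∫ u, D.P (D.L u) a b ^ 2 ∂(gam d)) - A D a b ^ 2)) := by
  set φ : E d → ℝ := fun u => D.P (D.L u) a b with hφ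
  have hφm : Measurable φ := fib_meas hD.meas (fun i => D.P i a b)
  have hφb : ∀ u, |φ u| ≤ 1 := fun u => P_abs_le hD _ a b
  have hφi : Integrable φ (gam d) := McB_int hφm hφb
  have hoφm : Measurable (ou r φ) := ou_meas hφm
  have hoφb : ∀ v, |ou r φ v| ≤ 1 := fun v => ou_bdd hφb v
  have hoφi : Integrable (ou r φ) (gam d) := McB_int hoφm hoφb
  have hoφ2 : Integrable (fun v => ou r φ v ^ 2) (gam d) := by
    refine McB_int (hoφm.pow_const 2) (C := 1) (fun v => ?_)
    rw [abs_pow]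
    exact pow_le_one₀ (abs_nonneg _) (hoφb v)
  have hφ2 : Integrable (fun v => φ v ^ 2) (gam d) := by
    refine McB_int (hφm.pow_const 2) (C := 1) (fun v => ?_)
    rw [abs_pow]
    exact pow_le_one₀ (abs_nonneg _) (hφb v)
  have hA : ∫ v, φ v ∂(gam d) = A D a b := (A_eq hD.meas a b).symm
  have hoA : ∫ v, ou r φ v ∂(gam d) = A D a b := by rw [ou_int h0 h1 hφi, hA]
  refine ⟨hoφi, hoφ2, hoA, ?_⟩
  set α : ℝ := A D a b with hα
  set f : E d → ℝ := fun u => φ u - α with hf
  have hfm : Measurable f := hφm.sub_const α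
  have hfb : ∀ u, |f u| ≤ 1 + |α| := fun u => (abs_sub _ _).trans (by
    have := hφb u
    linarith)
  have hfi : Integrable f (gam d) := McB_int hfm hfb
  have hfL : MemLp f 2 (gam d) := McB_memLp hfm hfb
  have hf0 : ∫ u, f u ∂(gam d) = 0 := by
    rw [hf, integral_sub hφi (integrable_const _), hA]
    simp
  have hf1 : ∀ k, ∫ u, f u * u k ∂(gam d) = 0 := by
    intro k
    have h := (gau_neg (d := d)).integral_comp (MeasurableEquiv.neg (E d)).measurableEmbedding
      (fun u => f u * u k)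
    have h2 : (fun u : E d => f (-u) * (-u) k) = fun u => -(f u * u k) := by
      funext u
      simp only [hf, hφ, hI.even u, PiLp.neg_apply]
      ring
    have h3 : ∫ u : E d, f (-u) * (-u) k ∂(gam d) = ∫ u, f u * u k ∂(gam d) := h
    rw [h2, integral_neg] at h3
    linarith
  have hdec := ou_decay h0 h1 hfL hf0 hf1
  have hof : ∀ v, ou r f v = ou r φ v - α := by
    intro v
    unfold ou
    have hi : Integrable (fun w : E d => φ (r • v + Real.sqrt (1 - r ^ 2) • w)) (gam d) :=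
      McB_int (hφm.comp (by fun_prop)) (fun w => hφb _)
    simp only [hf]
    rw [integral_sub hi (integrable_const _)]
    simp
  have e1 : ∫ v, ou r f v ^ 2 ∂(gam d) = (∫ v, ou r φ v ^ 2 ∂(gam d)) - α ^ 2 := by
    simp only [hof]
    exact McB_sq hoφi hoφ2 hoA
  have e2 : ∫ v, f v ^ 2 ∂(gam d) = (∫ v, φ v ^ 2 ∂(gam d)) - α ^ 2 := McB_sq hφi hφ2 hA
  rw [e1, e2] at hdec
  linarith

theorem mac_J (m : ℕ) {D : Pre d ι} (hD : Good D) (hI : Iso D) {r : ℝ} (h0 : 0 ≤ r) (h1 : r ≤ 1) :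
    (d : ℝ) * Jh m * (1 - r ^ 4) ≤ ∫ v, J m (A (D.rs (r • v) (Real.sqrt (1 - r ^ 2)))) ∂(gam d) := by
  have hJh : 0 ≤ Jh m := by
    unfold Jh
    positivity
  have hsymm : ∀ v a b, ou r (fun u => D.P (D.L u) a b) v = ou r (fun u => D.P (D.L u) b a) v := by
    intro v a b
    simp only [hD.sym _ a b]
  -- pointwise trace
  have htr : ∀ v, ((A (D.rs (r • v) (Real.sqrt (1 - r ^ 2)))) -
      (A (D.rs (r • v) (Real.sqrt (1 - r ^ 2)))) ^ 2).trace =
      (∑ a, ou r (fun u => D.P (D.L u) a a) v) - ∑ a, ∑ b, ou r (fun u => D.P (D.L u) a b) v ^ 2 := by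
    intro v
    rw [Matrix.trace_sub, pow_two (A (D.rs (r • v) (Real.sqrt (1 - r ^ 2)))), Matrix.trace,
      Matrix.trace]
    congr 1
    · exact Finset.sum_congr rfl (fun a _ => by
        rw [Matrix.diag_apply, McB_A hD.meas])
    · refine Finset.sum_congr rfl (fun a _ => ?_)
      rw [Matrix.diag_apply, Matrix.mul_apply]
      refine Finset.sum_congr rfl (fun b _ => ?_)
      rw [McB_A hD.meas, McB_A hD.meas, hsymm v b a]
      ring
  have hlow : ∀ v, 4 * Jh m * ((∑ a, ou r (fun u => D.P (D.L u) a a) v) -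
      ∑ a, ∑ b, ou r (fun u => D.P (D.L u) a b) v ^ 2) ≤
      J m (A (D.rs (r • v) (Real.sqrt (1 - r ^ 2)))) := by
    intro v
    rw [← htr v]
    exact (J_bounds m (fun i => q (D.rs (r • v) (Real.sqrt (1 - r ^ 2))) i) (fun i => q_nonneg _ i)
      (q_sum (McB_meas hD.meas _ _)) D.P hD.sym hD.idem).1
  have hent := fun a b => McB_entry hD hI h0 h1 a b
  have hI1 : Integrable (fun v => ∑ a, ou r (fun u => D.P (D.L u) a a) v) (gam d) :=
    integrable_finsetSum _ (fun a _ => (hent a a).1)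
  have hI2 : Integrable (fun v => ∑ a, ∑ b, ou r (fun u => D.P (D.L u) a b) v ^ 2) (gam d) :=
    integrable_finsetSum _ (fun a _ => integrable_finsetSum _ (fun b _ => (hent a b).2.1))
  have hmono : ∫ v, 4 * Jh m * ((∑ a, ou r (fun u => D.P (D.L u) a a) v) -
      ∑ a, ∑ b, ou r (fun u => D.P (D.L u) a b) v ^ 2) ∂(gam d) ≤
      ∫ v, J m (A (D.rs (r • v) (Real.sqrt (1 - r ^ 2)))) ∂(gam d) :=
    integral_mono ((hI1.sub hI2).const_mul _) (McB_Jint m hD r) hlow
  refine le_trans ?_ hmono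
  rw [integral_const_mul, integral_sub hI1 hI2,
    integral_finsetSum _ (fun a _ => (hent a a).1),
    integral_finsetSum _ (fun a _ => integrable_finsetSum _ (fun b _ => (hent a b).2.1))]
  have e1 : ∑ a, ∫ v, ou r (fun u => D.P (D.L u) a a) v ∂(gam d) = (d : ℝ) / 2 := by
    rw [Finset.sum_congr rfl (fun a _ => (hent a a).2.2.1), hI.half]
    simp [Matrix.smul_apply]
    ring
  have hA2 : ∑ a, ∑ b, A D a b ^ 2 = (d : ℝ) / 4 := by
    rw [hI.half]
    have : ∀ a b : Fin d, ((1 / 2 : ℝ) • (1 : Matrix (Fin d) (Fin d) ℝ)) a b ^ 2 =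
        if a = b then 1 / 4 else 0 := by
      intro a b
      rw [Matrix.smul_apply, Matrix.one_apply]
      split_ifs <;> norm_num
    simp only [this, Finset.sum_ite_eq, Finset.mem_univ, if_true, Finset.sum_const,
      Finset.card_univ, Fintype.card_fin, nsmul_eq_mul]
    ring
  have hP2 : ∑ a, ∑ b, ∫ u, D.P (D.L u) a b ^ 2 ∂(gam d) = (d : ℝ) / 2 := by
    have hφ2 : ∀ a b, Integrable (fun u => D.P (D.L u) a b ^ 2) (gam d) := by
      intro a b
      refine McB_int ((fib_meas hD.meas (fun i => D.P i a b)).pow_const 2) (C := 1) (fun v => ?_)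
      rw [abs_pow]
      exact pow_le_one₀ (abs_nonneg _) (P_abs_le hD _ a b)
    have hid : ∀ a, ∑ b, ∫ u, D.P (D.L u) a b ^ 2 ∂(gam d) = A D a a := by
      intro a
      rw [← integral_finsetSum _ (fun b _ => hφ2 a b), A_eq hD.meas a a]
      refine integral_congr_ae (Eventually.of_forall (fun u => ?_))
      have h := congrFun (congrFun (hD.idem (D.L u)) a) a
      rw [Matrix.mul_apply] at h
      simp only
      rw [← h]
      refine Finset.sum_congr rfl (fun b _ => ?_)
      rw [hD.sym (D.L u) b a]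
      ring
    rw [Finset.sum_congr rfl (fun a _ => hid a), hI.half]
    simp [Matrix.smul_apply]
    ring
  have e2 : ∑ a, ∫ v, ∑ b, ou r (fun u => D.P (D.L u) a b) v ^ 2 ∂(gam d) ≤
      (d : ℝ) / 4 + r ^ 4 * ((d : ℝ) / 2 - (d : ℝ) / 4) := by
    have h : ∀ a, ∫ v, ∑ b, ou r (fun u => D.P (D.L u) a b) v ^ 2 ∂(gam d) ≤
        ∑ b, (A D a b ^ 2 + r ^ 4 * ((∫ u, D.P (D.L u) a b ^ 2 ∂(gam d)) - A D a b ^ 2)) := by
      intro a
      rw [integral_finsetSum _ (fun b _ => (hent a b).2.1)]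
      exact Finset.sum_le_sum (fun b _ => (hent a b).2.2.2)
    refine (Finset.sum_le_sum (fun a _ => h a)).trans (le_of_eq ?_)
    simp only [Finset.sum_add_distrib, ← Finset.mul_sum, Finset.sum_sub_distrib]
    rw [hA2, hP2]
  rw [e1]
  have h4 : 0 ≤ 4 * Jh m := by positivity
  have := mul_le_mul_of_nonneg_left (sub_le_sub_left e2 ((d : ℝ) / 2)) h4
  refine le_trans (le_of_eq ?_) this
  ring

end Pool.Agent.KXP
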