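import Pool.Agent.KXP.McC0
import Pool.Agent.KXP.ItD
import Pool.Agent.KXP.McB
import Pool.Agent.KXP.Dv2

/-! KXP: row UPE (uses UPD, ITD, MCB, RSG and the series of `log 2`). -/

set_option autoImplicit false

open MeasureTheory ProbabilityTheory Filter Topology
open scoped BigOperators

namespace Pool.Agent.KXP

variable {d : ℕ} {ι : Type} [Fintype ι]

namespace McD

/-- the last step with a general entropy gain `c` -/
theorem gain {D : Pre d ι} (hD : Good D) (hI : Iso D) {t c : ℝ} (h0 : 0 ≤ t) (h1 : t < 1)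
    (hc : (∫ v, ent (D.rs (Real.sqrt t • v) (Real.sqrt (1 - Real.sqrt t ^ 2))) ∂(gam d)) + c ≤ ent D) :
    (d : ℝ) * (Real.log 2 * (1 - t ^ 2)) + c ≤ ent D := by
  set r := Real.sqrt t with hr
  have hr0 : 0 ≤ r := Real.sqrt_nonneg t
  have hr2 : r ^ 2 = t := Real.sq_sqrt h0
  have hr4 : r ^ 4 = t ^ 2 := by rw [← hr2]; ring
  have hr1 : r ≤ 1 := by
    rw [hr]; exact Real.sqrt_le_one.2 h1.le
  have hs : 0 < Real.sqrt (1 - r ^ 2) := by
    rw [hr2]; exact Real.sqrt_pos.2 (by linarith)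
  have key : ∀ m : ℕ, (d : ℝ) * (Jh m * (1 - t ^ 2)) + c ≤ ent D := by
    intro m
    have hi1 : Integrable (fun v : E d => ent (D.rs (r • v) (Real.sqrt (1 - r ^ 2)))) (gam d) :=
      McC.int_q hD.meas r (Real.sqrt (1 - r ^ 2))
        (F := fun x => ∑ i, Real.negMulLog (x i))
        (continuous_finsetSum _ fun i _ => Real.continuous_negMulLog.comp (continuous_apply i))
    have hi2 : Integrable (fun v : E d => J m (A (D.rs (r • v) (Real.sqrt (1 - r ^ 2))))) (gam d) := by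
      have hc : Continuous (fun x : ι → ℝ => J m (∑ i, x i • D.P i)) := by
        have hB : Continuous (fun x : ι → ℝ => ∑ i, x i • D.P i) :=
          continuous_finsetSum _ fun i _ => (continuous_apply i).smul continuous_const
        unfold J
        refine continuous_finsetSum _ fun j _ => ?_
        refine Continuous.div_const ?_ _
        refine continuous_const.sub ?_
        exact ((continuous_const.sub (hB.const_smul (2 : ℝ))).pow _).matrix_trace
      exact McC.int_q hD.meas r (Real.sqrt (1 - r ^ 2)) hc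
    have hle : ∫ v, J m (A (D.rs (r • v) (Real.sqrt (1 - r ^ 2)))) ∂(gam d) ≤
        ∫ v, ent (D.rs (r • v) (Real.sqrt (1 - r ^ 2))) ∂(gam d) :=
      integral_mono hi2 hi1 fun v => ent_ge m (hD.rs (r • v) hs)
    have hj := mac_J m hD hI hr0 hr1
    rw [hr4] at hj
    calc (d : ℝ) * (Jh m * (1 - t ^ 2)) + c
        = (d : ℝ) * Jh m * (1 - t ^ 2) + c := by ring
      _ ≤ _ := by linarith
  have hlim : Tendsto (fun m => (d : ℝ) * (Jh m * (1 - t ^ 2)) + c) atTop
      (𝓝 ((d : ℝ) * (Real.log 2 * (1 - t ^ 2)) + c)) :=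
    ((Jh_tendsto.mul_const _).const_mul _).add_const _
  exact le_of_tendsto' hlim key

end McD

theorem mac_of2 {D : Pre d ι} (hD : Good D) (hI : Iso D) (y : ℝ) (hy0 : 0 ≤ y) (hy1 : y ≤ 1)
    (hy : (d : ℝ) * y ≤ Ye D) {t : ℝ} (h0 : 0 ≤ t) (h1 : t < 1) :
    (d : ℝ) * (Real.log 2 * (1 - t ^ 2) - Real.log (1 - t * y) / 2) ≤ ent D := by
  have hr2 : Real.sqrt t ^ 2 = t := Real.sq_sqrt h0
  have hr1 : Real.sqrt t < 1 := by
    rw [Real.sqrt_lt' one_pos]; simpa using h1
  have hdv := dv_step2 hD.meas (Real.sqrt_nonneg t) hr1 hy0 hy1 hy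
  have h := McD.gain hD hI h0 h1 hdv
  rw [hr2] at h
  calc (d : ℝ) * (Real.log 2 * (1 - t ^ 2) - Real.log (1 - t * y) / 2)
      = (d : ℝ) * (Real.log 2 * (1 - t ^ 2)) + (d : ℝ) * (-Real.log (1 - t * y) / 2) := by ring
    _ ≤ _ := h

end Pool.Agent.KXP
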