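import Pool.Agent.KXP.Fin0
import Pool.Agent.KXP.McD

/-! KXP: assembly. Every centrally symmetric `d`-polytope has at least `2.1 ^ d` nonempty faces. -/

set_option autoImplicit false

open MeasureTheory ProbabilityTheory Filter Topology
open scoped BigOperators

namespace Pool.Agent.KXP

theorem main5 (d : ℕ) (S : Finset (E d)) (hint : (interior (convexHull ℝ (S : Set (E d)))).Nonempty)
    (hsym : ∀ x ∈ convexHull ℝ (S : Set (E d)), -x ∈ convexHull ℝ (S : Set (E d))) {t : ℝ} (h0 : 0 ≤ t)
    (h1 : t < 1) :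
    (faces S).Finite ∧
      Real.exp ((d : ℝ) * (Real.log 2 * (1 - t ^ 2) - Real.log (1 - t * (2 / 3)) / 2)) ≤
        ((faces S).ncard : ℝ) := by
  have hS := Fin_ne S hint
  obtain ⟨M, hG, hI⟩ := exists_iso S hint hsym
  have hgap := gap3 hG hI
  have hY := mac_Y_of hG hI (1 / 12) (by norm_num) (by linarith)
  have hE := mac_of2 hG hI (2 / 3) (by norm_num) (by norm_num) (by linarith) h0 h1
  exact ⟨faces_finite S, Fin_count S hS M hG hE⟩

theorem Fin_num : Real.log 2.1 ≤ Real.log 2 * (1 - (0.3 : ℝ) ^ 2) - Real.log (1 - 0.3 * (2 / 3)) / 2 := by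
  have e1 : Real.log 2.1 = Real.log 2 + Real.log 1.05 := by
    rw [← Real.log_mul (by norm_num) (by norm_num)]; norm_num
  have e2 : Real.log (1 - (0.3 : ℝ) * (2 / 3)) = -Real.log 1.25 := by
    rw [← Real.log_inv]; norm_num
  have e3 : 18 * Real.log 2 + 200 * Real.log 1.05 ≤ 100 * Real.log 1.25 := by
    have : Real.log ((2 : ℝ) ^ 18 * 1.05 ^ 200) ≤ Real.log (1.25 ^ 100) := by
      apply Real.log_le_log (by positivity)
      norm_num
    rw [Real.log_mul (by positivity) (by positivity), Real.log_pow, Real.log_pow, Real.log_pow] at this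
    push_cast at this
    linarith
  rw [e1, e2]
  linarith

/-- **Exponential lower bound for the number of faces of centrally symmetric polytopes.** -/
theorem final (d : ℕ) (S : Finset (E d)) (hint : (interior (convexHull ℝ (S : Set (E d)))).Nonempty)
    (hsym : ∀ x ∈ convexHull ℝ (S : Set (E d)), -x ∈ convexHull ℝ (S : Set (E d))) :
    (faces S).Finite ∧ (2.1 : ℝ) ^ d ≤ ((faces S).ncard : ℝ) := by
  obtain ⟨h1, h2⟩ := main5 d S hint hsym (t := 0.3) (by norm_num) (by norm_num)
  refine ⟨h1, le_trans ?_ h2⟩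
  rw [show (2.1 : ℝ) = Real.exp (Real.log 2.1) by rw [Real.exp_log (by norm_num)], ← Real.exp_nat_mul]
  apply Real.exp_le_exp.2
  exact mul_le_mul_of_nonneg_left Fin_num (Nat.cast_nonneg d)

end Pool.Agent.KXP
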