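import Pool.Agent.KXP.GeA

/-! KXP, row GEB: matrices of orthogonal projections and the affine formula for the nearest point. -/

set_option autoImplicit false

open MeasureTheory ProbabilityTheory Filter Topology
open scoped BigOperators

namespace Pool.Agent.KXP

variable {d : ℕ}

theorem Pmat_mv (W : Submodule ℝ (E d)) (u : E d) : mv (Pmat W) u = W.starProjection u := by
  have hu : u = ∑ b, u b • (EuclideanSpace.single b (1 : ℝ) : E d) := by
    ext a
    simp [Finset.sum_apply, Pi.single_apply]
  ext a
  rw [mv_apply]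
  conv_rhs => rw [hu, map_sum]
  simp only [map_smul]
  rw [WithLp.ofLp_sum, Finset.sum_apply]
  refine Finset.sum_congr rfl fun b _ => ?_
  simp [Pmat, mul_comm]

theorem Pmat_sym (W : Submodule ℝ (E d)) (a b : Fin d) : Pmat W a b = Pmat W b a := by
  have h := Submodule.inner_starProjection_left_eq_right W (EuclideanSpace.single a (1 : ℝ))
    (EuclideanSpace.single b (1 : ℝ))
  have h1 : (inner ℝ (W.starProjection (EuclideanSpace.single a (1 : ℝ))) (EuclideanSpace.single b (1 : ℝ)) : ℝ)
      = Pmat W b a := by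
    rw [real_inner_comm, EuclideanSpace.inner_single_left]; simp [Pmat]
  have h2 : (inner ℝ (EuclideanSpace.single a (1 : ℝ)) (W.starProjection (EuclideanSpace.single b (1 : ℝ))) : ℝ)
      = Pmat W a b := by
    rw [EuclideanSpace.inner_single_left]; simp [Pmat]
  rw [h1, h2] at h
  exact h.symm

theorem Pmat_idem (W : Submodule ℝ (E d)) : Pmat W * Pmat W = Pmat W := by
  ext a b
  have h := congrArg (fun v : E d => v a) (Pmat_mv W (W.starProjection (EuclideanSpace.single b (1 : ℝ))))
  have h2 : W.starProjection (W.starProjection (EuclideanSpace.single b (1 : ℝ))) =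
      W.starProjection (EuclideanSpace.single b (1 : ℝ)) :=
    Submodule.starProjection_eq_self_iff.2 (Submodule.starProjection_apply_mem W _)
  simp only [mv_apply, h2] at h
  rw [Matrix.mul_apply]
  exact h

private theorem GeB_mem (S : Finset (E d)) (hS : S.Nonempty) (M : Matrix (Fin d) (Fin d) ℝ) (u s : E d)
    (hs : s ∈ (lab S M u : Finset (E d))) : near S M u - mv M s ∈ dir S M (lab S M u) := by
  obtain ⟨p, hp, hpe⟩ := near_mem_hull S hS M u
  rw [← hpe]
  have h1 : mv M p ∈ convexHull ℝ (mv M '' ((lab S M u : Finset (E d)) : Set (E d))) := by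
    have := LinearMap.image_convexHull (mvL M) ((lab S M u : Finset (E d)) : Set (E d))
    have h2 : mvL M p ∈ mvL M '' convexHull ℝ ((lab S M u : Finset (E d)) : Set (E d)) :=
      Set.mem_image_of_mem _ hp
    rw [this] at h2
    exact h2
  have h3 := convexHull_subset_affineSpan (𝕜 := ℝ) _ h1
  have h4 : mv M s ∈ affineSpan ℝ (mv M '' ((lab S M u : Finset (E d)) : Set (E d))) :=
    subset_affineSpan ℝ _ (Set.mem_image_of_mem _ hs)
  have h5 := AffineSubspace.vsub_mem_direction h3 h4
  rw [direction_affineSpan] at h5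
  exact h5

private theorem GeB_orth (S : Finset (E d)) (M : Matrix (Fin d) (Fin d) ℝ) (u : E d) :
    u - near S M u ∈ (dir S M (lab S M u))ᗮ := by
  rw [Submodule.mem_orthogonal']
  intro w hw
  unfold dir at hw
  rw [vectorSpan] at hw
  induction hw using Submodule.span_induction with
  | mem x hx =>
    obtain ⟨y, hy, z, hz, rfl⟩ := hx
    obtain ⟨s, hs, rfl⟩ := hy
    obtain ⟨s', hs', rfl⟩ := hz
    have e1 := ((mem_lab S M u s).1 hs).2
    have e2 := ((mem_lab S M u s').1 hs').2
    show inner ℝ (u - near S M u) (mv M s - mv M s') = 0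
    rw [inner_sub_right, e1, e2, sub_self]
  | zero => simp
  | add x y _ _ hx hy => rw [inner_add_right, hx, hy, add_zero]
  | smul a x _ hx => rw [inner_smul_right, hx, mul_zero]

private theorem GeB_cst (S : Finset (E d)) (hS : S.Nonempty) (M : Matrix (Fin d) (Fin d) ℝ) (u : E d) :
    ∃ s ∈ (lab S M u : Finset (E d)), cst S M (lab S M u) =
      mv M s - (dir S M (lab S M u)).starProjection (mv M s) := by
  have h : ∃ s, s ∈ (lab S M u : Finset (E d)) := lab_nonempty S hS M u
  refine ⟨h.choose, h.choose_spec, ?_⟩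
  unfold cst
  rw [dif_pos h]

private theorem GeB_formula (S : Finset (E d)) (hS : S.Nonempty) (M : Matrix (Fin d) (Fin d) ℝ) (u : E d) :
    near S M u = cst S M (lab S M u) + (dir S M (lab S M u)).starProjection u := by
  obtain ⟨s, hs, hc⟩ := GeB_cst S hS M u
  have h1 : (dir S M (lab S M u)).starProjection (near S M u - mv M s) = near S M u - mv M s :=
    Submodule.starProjection_eq_self_iff.2 (GeB_mem S hS M u s hs)
  have h2 : (dir S M (lab S M u)).starProjection (u - near S M u) = 0 :=
    (Submodule.starProjection_apply_eq_zero_iff _).2 (GeB_orth S M u)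
  rw [map_sub] at h1 h2
  rw [hc, sub_eq_zero.1 h2]
  have h3 := h1
  rw [sub_eq_sub_iff_add_eq_add] at h3
  rw [sub_add_eq_add_sub, eq_sub_iff_add_eq, ← h3, add_comm]

theorem near_aff (S : Finset (E d)) (hS : S.Nonempty) (M : Matrix (Fin d) (Fin d) ℝ) (u : E d) (a : Fin d) :
    near S M u a = cst S M (lab S M u) a + ∑ b, Pmat (dir S M (lab S M u)) a b * u b := by
  have h := congrArg (fun v : E d => v a) (GeB_formula S hS M u)
  rw [← mv_apply, Pmat_mv]
  exact h

theorem near_pc (S : Finset (E d)) (hS : S.Nonempty) (M : Matrix (Fin d) (Fin d) ℝ) (u : E d) (a : Fin d) :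
    ∑ b, Pmat (dir S M (lab S M u)) a b * cst S M (lab S M u) b = 0 := by
  rw [← mv_apply, Pmat_mv]
  obtain ⟨s, hs, hc⟩ := GeB_cst S hS M u
  have h2 : (dir S M (lab S M u)).starProjection
      ((dir S M (lab S M u)).starProjection (mv M s)) = (dir S M (lab S M u)).starProjection (mv M s) :=
    Submodule.starProjection_eq_self_iff.2 (Submodule.starProjection_apply_mem _ _)
  rw [hc, map_sub, h2, sub_self]
  rfl

end Pool.Agent.KXP
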