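import Pool.Agent.KXP.GeA

/-! KXP row GE3: the cells of the nearest face are convex and measurable; the label is locally constant
almost everywhere. -/

set_option autoImplicit false

open MeasureTheory ProbabilityTheory Filter Topology
open scoped BigOperators

namespace Pool.Agent.KXP

variable {d : ℕ}

/-- a linear functional constant on the labelled vertices takes that value at the nearest point -/
theorem inner_near_of_lab (S : Finset (E d)) (hS : S.Nonempty) (M : Matrix (Fin d) (Fin d) ℝ) (v : E d)
    (n : E d) (r : ℝ) (h : ∀ s ∈ (lab S M v : Finset (E d)), (inner ℝ n (mv M s) : ℝ) = r) :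
    (inner ℝ n (near S M v) : ℝ) = r := by
  obtain ⟨p, hp, hpv⟩ := near_mem_hull S hS M v
  obtain ⟨w, hw0, hw1, hwp⟩ := Finset.mem_convexHull'.1 hp
  rw [← hpv, ← hwp]
  have : mv M (∑ y ∈ (lab S M v : Finset (E d)), w y • y) =
      ∑ y ∈ (lab S M v : Finset (E d)), w y • mv M y := by
    have := map_sum (mvL M) (fun y => w y • y) (lab S M v : Finset (E d))
    simp only [mvL_apply, mv_smul] at this
    exact this
  rw [this, inner_sum]
  have e : ∀ y ∈ (lab S M v : Finset (E d)), (inner ℝ n (w y • mv M y) : ℝ) = w y * r := by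
    intro y hy
    rw [inner_smul_right, h y hy]
  rw [Finset.sum_congr rfl e, ← Finset.sum_mul, hw1, one_mul]

theorem lab_convex (S : Finset (E d)) (hS : S.Nonempty) (M : Matrix (Fin d) (Fin d) ℝ) (I : S.powerset) :
    Convex ℝ {u | lab S M u = I} := by
  intro u hu v hv a b ha hb hab
  simp only [Set.mem_ofPred_eq] at hu hv ⊢
  rcases ha.eq_or_lt with rfl | ha
  · rw [zero_add] at hab
    subst hab
    simpa using hv
  rcases hb.eq_or_lt with rfl | hb
  · rw [add_zero] at hab
    subst hab
    simpa using hu
  set x := near S M u with hx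
  set y := near S M v with hy
  set n := u - x with hn
  set m := v - y with hm
  have huI : ∀ s, s ∈ (I : Finset (E d)) ↔ s ∈ S ∧ (inner ℝ n (mv M s) : ℝ) = inner ℝ n x := by
    intro s
    rw [← hu]
    exact mem_lab S M u s
  have hvI : ∀ s, s ∈ (I : Finset (E d)) ↔ s ∈ S ∧ (inner ℝ m (mv M s) : ℝ) = inner ℝ m y := by
    intro s
    rw [← hv]
    exact mem_lab S M v s
  have h1 : (inner ℝ n y : ℝ) = inner ℝ n x :=
    inner_near_of_lab S hS M v n _ fun s hs => ((huI s).1 (by rw [← hv]; exact hs)).2
  have h2 : (inner ℝ m x : ℝ) = inner ℝ m y :=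
    inner_near_of_lab S hS M u m _ fun s hs => ((hvI s).1 (by rw [← hu]; exact hs)).2
  have hz : near S M (a • u + b • v) = a • x + b • y := by
    refine near_unique S hS M _ _ ((body_compact S M).2 (near_spec S hS M u).1 (near_spec S hS M v).1
      ha.le hb.le hab) fun p hp => ?_
    have e : a • u + b • v - (a • x + b • y) = a • n + b • m := by
      rw [hn, hm, smul_sub, smul_sub]; abel
    have k1 := near_max S hS M u p hp
    have k2 := near_max S hS M v p hp
    rw [e, inner_add_left, inner_smul_left, inner_smul_left, inner_sub_right, inner_sub_right,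
      inner_add_right, inner_add_right, inner_smul_right, inner_smul_right, inner_smul_right,
      inner_smul_right, h1, h2]
    simp only [conj_trivial]
    have hb' : b = 1 - a := by linarith
    have e1 : a * (inner ℝ n x : ℝ) + b * inner ℝ n x = inner ℝ n x := by rw [hb']; ring
    have e2 : a * (inner ℝ m y : ℝ) + b * inner ℝ m y = inner ℝ m y := by rw [hb']; ring
    rw [e1, e2]
    have k3 : a * ((inner ℝ n p : ℝ) - inner ℝ n x) ≤ 0 :=
      mul_nonpos_of_nonneg_of_nonpos ha.le (by linarith)
    have k4 : b * ((inner ℝ m p : ℝ) - inner ℝ m y) ≤ 0 :=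
      mul_nonpos_of_nonneg_of_nonpos hb.le (by linarith)
    linarith
  apply Subtype.ext
  ext s
  rw [mem_lab, hz]
  have e : a • u + b • v - (a • x + b • y) = a • n + b • m := by
    rw [hn, hm, smul_sub, smul_sub]; abel
  rw [e, inner_add_left, inner_smul_left, inner_smul_left, inner_add_left, inner_smul_left,
    inner_smul_left, inner_add_right, inner_add_right, inner_smul_right, inner_smul_right,
    inner_smul_right, inner_smul_right, h1, h2]
  simp only [conj_trivial]
  have hb' : b = 1 - a := by linarith
  have e1 : a * (inner ℝ n x : ℝ) + b * inner ℝ n x = inner ℝ n x := by rw [hb']; ring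
  have e2 : a * (inner ℝ m y : ℝ) + b * inner ℝ m y = inner ℝ m y := by rw [hb']; ring
  rw [e1, e2]
  constructor
  · rintro ⟨hs, he⟩
    refine (huI s).2 ⟨hs, ?_⟩
    have k1 := near_max S hS M u _ (vert_mem_body S M s hs)
    have k2 := near_max S hS M v _ (vert_mem_body S M s hs)
    have k4 : b * ((inner ℝ m (mv M s) : ℝ) - inner ℝ m y) ≤ 0 :=
      mul_nonpos_of_nonneg_of_nonpos hb.le (by linarith)
    by_contra hne
    have k3 : a * ((inner ℝ n (mv M s) : ℝ) - inner ℝ n x) < 0 :=
      mul_neg_of_pos_of_neg ha (sub_neg.2 (lt_of_le_of_ne k1 hne))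
    nlinarith
  · intro hs
    obtain ⟨h3, h4⟩ := (huI s).1 hs
    obtain ⟨-, h5⟩ := (hvI s).1 hs
    exact ⟨h3, by rw [h4, h5]⟩

theorem lab_meas (S : Finset (E d)) (hS : S.Nonempty) (M : Matrix (Fin d) (Fin d) ℝ) (I : S.powerset) :
    MeasurableSet {u | lab S M u = I} := by
  classical
  have hI : (I : Finset (E d)) ⊆ S := Finset.mem_powerset.1 I.2
  have e : {u | lab S M u = I} = ⋂ s ∈ S, {u | ((inner ℝ (u - near S M u) (mv M s) : ℝ) =
      inner ℝ (u - near S M u) (near S M u)) ↔ s ∈ (I : Finset (E d))} := by
    ext u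
    simp only [Set.mem_ofPred_eq, Set.mem_iInter]
    constructor
    · intro h s hs
      rw [← h, mem_lab]
      exact ⟨fun h => ⟨hs, h⟩, fun h => h.2⟩
    · intro h
      apply Subtype.ext
      ext s
      rw [mem_lab]
      constructor
      · rintro ⟨h1, h2⟩
        exact (h s h1).1 h2
      · intro hs
        exact ⟨hI hs, (h s (hI hs)).2 hs⟩
  rw [e]
  refine S.measurableSet_biInter fun s _ => ?_
  have hc : Continuous (near S M) := (near_lip S hS M).continuous
  have hm : MeasurableSet {u | (inner ℝ (u - near S M u) (mv M s) : ℝ) =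
      inner ℝ (u - near S M u) (near S M u)} := by
    refine IsClosed.measurableSet (isClosed_eq ?_ ?_)
    · exact (continuous_id.sub hc).inner continuous_const
    · exact (continuous_id.sub hc).inner hc
  by_cases hs : s ∈ (I : Finset (E d))
  · simpa only [hs, iff_true] using hm
  · have h2 : {u | ((inner ℝ (u - near S M u) (mv M s) : ℝ) =
        inner ℝ (u - near S M u) (near S M u)) ↔ s ∈ (I : Finset (E d))} =
        {u | (inner ℝ (u - near S M u) (mv M s) : ℝ) =
          inner ℝ (u - near S M u) (near S M u)}ᶜ := by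
      ext u
      simp only [hs, iff_false]
      rfl
    rw [h2]
    exact hm.compl

theorem lab_loc (S : Finset (E d)) (hS : S.Nonempty) (M : Matrix (Fin d) (Fin d) ℝ) :
    ∀ᵐ u ∂(volume : Measure (E d)), ∀ᶠ v in 𝓝 u, lab S M v = lab S M u := by
  have h : ∀ᵐ u ∂(volume : Measure (E d)), ∀ I : S.powerset, u ∉ frontier {u | lab S M u = I} := by
    rw [ae_all_iff]
    intro I
    rw [ae_iff]
    simpa using (lab_convex S hS M I).addHaar_frontier (volume : Measure (E d))
  filter_upwards [h] with u hu
  have h1 : u ∈ {v | lab S M v = lab S M u} := rfl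
  have h2 : u ∈ interior {v | lab S M v = lab S M u} := by
    by_contra hn
    exact hu (lab S M u) ⟨subset_closure h1, hn⟩
  exact mem_interior_iff_mem_nhds.1 h2

end Pool.Agent.KXP
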