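import Pool.Agent.KXP.GeA
import Pool.Agent.KXP.GeB
import Pool.Agent.KXP.GeC

/-! KXP row GED: assembly of the geometric data. -/

set_option autoImplicit false

open MeasureTheory ProbabilityTheory Filter Topology
open scoped BigOperators

namespace Pool.Agent.KXP

variable {d : ℕ}

theorem geo_good (S : Finset (E d)) (hS : S.Nonempty) (M : Matrix (Fin d) (Fin d) ℝ) :
    Good (geo S M) where
  sym _ a b := Pmat_sym _ a b
  idem _ := Pmat_idem _
  meas i := lab_meas S hS M i
  lip := near_lip S hS M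
  loc := lab_loc S hS M
  aff u a := near_aff S hS M u a

private theorem GeD_mv_sum (M : Matrix (Fin d) (Fin d) ℝ) (s : Finset (E d)) (w : E d → ℝ) :
    mv M (∑ y ∈ s, w y • y) = ∑ y ∈ s, w y • mv M y := by
  induction s using Finset.induction_on with
  | empty =>
    ext a
    simp
  | insert x s hx ih =>
    rw [Finset.sum_insert hx, Finset.sum_insert hx, ← ih]
    ext a
    simp only [mv_apply, PiLp.add_apply, PiLp.smul_apply, smul_eq_mul, mul_add,
      Finset.sum_add_distrib, Finset.mul_sum]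
    congr 1
    refine Finset.sum_congr rfl fun b _ => ?_
    ring

private theorem GeD_mv_neg (M : Matrix (Fin d) (Fin d) ℝ) (x : E d) : mv M (-x) = -mv M x := by
  ext a
  simp only [mv_apply, PiLp.neg_apply, mul_neg, Finset.sum_neg_distrib]

/-- The points of the body with maximal scalar product with the normal. -/
private theorem GeD_face (S : Finset (E d)) (hS : S.Nonempty) (M : Matrix (Fin d) (Fin d) ℝ) (u x : E d)
    (hx : x ∈ convexHull ℝ (S : Set (E d)))
    (h : inner ℝ (u - near S M u) (mv M x) = inner ℝ (u - near S M u) (near S M u)) :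
    mv M x ∈ convexHull ℝ (mv M '' (((lab S M u : S.powerset) : Finset (E d)) : Set (E d))) := by
  classical
  obtain ⟨w, hw0, hw1, rfl⟩ := Finset.mem_convexHull'.1 hx
  set n : E d := u - near S M u with hn
  set c : ℝ := inner ℝ n (near S M u) with hc
  have hle : ∀ s ∈ S, inner ℝ n (mv M s) ≤ c := by
    intro s hs
    have h1 := (near_spec S hS M u).2 (mv M s) ⟨s, subset_convexHull ℝ _ hs, rfl⟩
    rw [inner_sub_right] at h1
    linarith
  have hsum : ∑ y ∈ S, w y * (c - inner ℝ n (mv M y)) = 0 := by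
    have h2 : inner ℝ n (mv M (∑ y ∈ S, w y • y)) = ∑ y ∈ S, w y * inner ℝ n (mv M y) := by
      rw [GeD_mv_sum, inner_sum]
      refine Finset.sum_congr rfl fun y _ => ?_
      rw [inner_smul_right]
    rw [h2] at h
    have h3 : ∑ y ∈ S, w y * (c - inner ℝ n (mv M y)) =
        (∑ y ∈ S, w y) * c - ∑ y ∈ S, w y * inner ℝ n (mv M y) := by
      rw [Finset.sum_mul, ← Finset.sum_sub_distrib]
      refine Finset.sum_congr rfl fun y _ => ?_
      ring
    rw [h3, hw1, h]
    ring
  have hz : ∀ y ∈ S, w y * (c - inner ℝ n (mv M y)) = 0 :=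
    (Finset.sum_eq_zero_iff_of_nonneg
      (fun y hy => mul_nonneg (hw0 y hy) (by linarith [hle y hy]))).1 hsum
  have hlab : ((lab S M u : S.powerset) : Finset (E d)) =
      S.filter (fun s => inner ℝ n (mv M s) = c) := rfl
  have hout : ∀ y ∈ S, y ∉ S.filter (fun s => inner ℝ n (mv M s) = c) → w y = 0 := by
    intro y hy hny
    have h4 : inner ℝ n (mv M y) ≠ c := fun h5 => hny (Finset.mem_filter.2 ⟨hy, h5⟩)
    rcases mul_eq_zero.1 (hz y hy) with h5 | h5
    · exact h5
    · exact absurd (by linarith) h4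
  rw [GeD_mv_sum, hlab]
  have e1 : ∑ y ∈ S, w y • mv M y =
      ∑ y ∈ S.filter (fun s => inner ℝ n (mv M s) = c), w y • mv M y := by
    symm
    refine Finset.sum_subset (Finset.filter_subset _ _) ?_
    intro y hy hny
    rw [hout y hy hny, zero_smul]
  have e2 : ∑ y ∈ S.filter (fun s => inner ℝ n (mv M s) = c), w y = 1 := by
    rw [← hw1]
    exact Finset.sum_subset (Finset.filter_subset _ _) hout
  rw [e1]
  refine (convex_convexHull ℝ _).sum_mem (fun y hy => hw0 y (Finset.filter_subset _ _ hy)) e2 ?_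
  intro y hy
  exact subset_convexHull ℝ _ ⟨y, hy, rfl⟩

private theorem GeD_dir_le (S : Finset (E d)) (hS : S.Nonempty)
    (hsym : ∀ x ∈ convexHull ℝ (S : Set (E d)), -x ∈ convexHull ℝ (S : Set (E d)))
    (M : Matrix (Fin d) (Fin d) ℝ) (u : E d) :
    dir S M (lab S M (-u)) ≤ dir S M (lab S M u) := by
  classical
  have hodd := near_odd S hS hsym M u
  have key : ∀ s ∈ ((lab S M (-u) : S.powerset) : Finset (E d)), -mv M s ∈
      convexHull ℝ (mv M '' (((lab S M u : S.powerset) : Finset (E d)) : Set (E d))) := by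
    intro s hs
    have hs' : s ∈ S.filter (fun s => inner ℝ (-u - near S M (-u)) (mv M s) =
      inner ℝ (-u - near S M (-u)) (near S M (-u))) := hs
    obtain ⟨hsS, h1⟩ := Finset.mem_filter.1 hs'
    rw [hodd] at h1
    have h2 : (-u - -near S M u : E d) = -(u - near S M u) := by abel
    rw [h2, inner_neg_left, inner_neg_neg] at h1
    rw [← GeD_mv_neg]
    refine GeD_face S hS M u (-s) (hsym s (subset_convexHull ℝ _ hsS)) ?_
    rw [GeD_mv_neg, inner_neg_right, h1]
  have hspan : vectorSpan ℝ (convexHull ℝ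
      (mv M '' (((lab S M u : S.powerset) : Finset (E d)) : Set (E d)))) =
      dir S M (lab S M u) := by
    rw [← direction_affineSpan, affineSpan_convexHull, direction_affineSpan]
    rfl
  rw [← hspan]
  show vectorSpan ℝ (mv M '' (((lab S M (-u) : S.powerset) : Finset (E d)) : Set (E d))) ≤ _
  rw [vectorSpan_def, Submodule.span_le]
  rintro _ ⟨_, ⟨s, hs, rfl⟩, _, ⟨t, ht, rfl⟩, rfl⟩
  have h3 := vsub_mem_vectorSpan ℝ (key t ht) (key s hs)
  have h4 : (-mv M t -ᵥ -mv M s : E d) = mv M s -ᵥ mv M t := by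
    rw [vsub_eq_sub, vsub_eq_sub]
    abel
  rw [h4] at h3
  exact h3

theorem geo_even (S : Finset (E d)) (hS : S.Nonempty) (hsym : ∀ x ∈ convexHull ℝ (S : Set (E d)),
    -x ∈ convexHull ℝ (S : Set (E d))) (M : Matrix (Fin d) (Fin d) ℝ) (u : E d) :
    (geo S M).P ((geo S M).L (-u)) = (geo S M).P ((geo S M).L u) := by
  have h1 := GeD_dir_le S hS hsym M u
  have h2 := GeD_dir_le S hS hsym M (-u)
  rw [neg_neg] at h2
  show Pmat (dir S M (lab S M (-u))) = Pmat (dir S M (lab S M u))
  rw [le_antisymm h1 h2]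

end Pool.Agent.KXP
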