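import Pool.Agent.KXP.GeA

set_option autoImplicit false

open MeasureTheory ProbabilityTheory Filter Topology
open scoped BigOperators

namespace Pool.Agent.KXP

variable {d : ℕ} {ι : Type} [Fintype ι]

/-- an exposed face is the convex hull of the points of `S` on it -/
theorem GeE_hull (S : Finset (E d)) (F : Set (E d)) (hF : F ∈ faces S) :
    F = convexHull ℝ {x | x ∈ S ∧ x ∈ F} := by
  classical
  obtain ⟨hne, hex⟩ := hF
  obtain ⟨l, hl⟩ := hex hne
  apply Set.Subset.antisymm
  · intro x hx
    have hx' := hx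
    rw [hl] at hx'
    obtain ⟨hxc, hxm⟩ := hx'
    obtain ⟨w, hw0, hw1, hwx⟩ := Finset.mem_convexHull'.1 hxc
    have hsub : ∀ s ∈ S, l s ≤ l x := fun s hs => hxm s (subset_convexHull ℝ _ hs)
    have hsum : ∑ s ∈ S, w s * (l x - l s) = 0 := by
      have h1 : l x = ∑ s ∈ S, w s * l s := by
        rw [← hwx, map_sum]
        exact Finset.sum_congr rfl fun s _ => by rw [map_smul, smul_eq_mul]
      have h2 : ∑ s ∈ S, w s * (l x - l s) = (∑ s ∈ S, w s) * l x - ∑ s ∈ S, w s * l s := by
        rw [Finset.sum_mul, ← Finset.sum_sub_distrib]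
        exact Finset.sum_congr rfl fun s _ => by ring
      rw [h2, hw1, ← h1]; ring
    have hz : ∀ s ∈ S, w s * (l x - l s) = 0 :=
      (Finset.sum_eq_zero_iff_of_nonneg (fun s hs =>
        mul_nonneg (hw0 s hs) (sub_nonneg.2 (hsub s hs)))).1 hsum
    have hmem : ∀ s ∈ S, w s ≠ 0 → s ∈ {x | x ∈ S ∧ x ∈ F} := by
      intro s hs hws
      have : l s = l x := by
        have := (mul_eq_zero.1 (hz s hs)).resolve_left hws
        linarith
      refine ⟨hs, ?_⟩
      rw [hl]
      exact ⟨subset_convexHull ℝ _ hs, fun y hy => this ▸ hxm y hy⟩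
    have hsum1 : ∑ s ∈ S.filter (fun s => w s ≠ 0), w s = 1 := by
      rw [Finset.sum_filter_ne_zero]; exact hw1
    have hx2 : ∑ s ∈ S.filter (fun s => w s ≠ 0), w s • s = x := by
      rw [← hwx]
      refine Finset.sum_subset (Finset.filter_subset _ _) fun s hs hns => ?_
      have : w s = 0 := by
        by_contra h
        exact hns (Finset.mem_filter.2 ⟨hs, h⟩)
      rw [this, zero_smul]
    rw [← hx2]
    refine (convex_convexHull ℝ _).sum_mem (fun s hs => hw0 s (Finset.mem_filter.1 hs).1) hsum1
      (fun s hs => subset_convexHull ℝ _ (hmem s (Finset.mem_filter.1 hs).1 (Finset.mem_filter.1 hs).2))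
  · refine convexHull_min (fun x hx => hx.2) ?_
    exact hex.convex (convex_convexHull ℝ _)

theorem faces_finite (S : Finset (E d)) : (faces S).Finite := by
  classical
  have hinj : Set.InjOn (fun F : Set (E d) => S.filter (fun x => x ∈ F)) (faces S) := by
    intro F hF G hG hFG
    rw [GeE_hull S F hF, GeE_hull S G hG]
    congr 1
    ext x
    have : x ∈ S.filter (fun x => x ∈ F) ↔ x ∈ S.filter (fun x => x ∈ G) := by
      simp only at hFG
      rw [hFG]
    simpa [Finset.mem_filter] using this
  refine Set.Finite.of_finite_image (Set.Finite.subset (S.powerset.finite_toSet) ?_) hinj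
  rintro _ ⟨F, _, rfl⟩
  exact Finset.mem_coe.2 (Finset.mem_powerset.2 (Finset.filter_subset _ _))

theorem lab_card (S : Finset (E d)) (hS : S.Nonempty) (M : Matrix (Fin d) (Fin d) ℝ) :
    (Set.range (lab S M)).ncard ≤ (faces S).ncard := by
  classical
  have hsub : Set.range (lab S M) ⊆
      (fun F : Set (E d) => (⟨S.filter (fun x => x ∈ F),
        Finset.mem_powerset.2 (Finset.filter_subset _ _)⟩ : S.powerset)) '' (faces S) := by
    rintro _ ⟨u, rfl⟩
    obtain ⟨hmem, hsp⟩ := near_spec S hS M u
    obtain ⟨p0, hp0, hp0x⟩ := hmem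
    set n : E d := u - near S M u with hn
    -- the linear functional
    let L0 : E d →ₗ[ℝ] ℝ :=
      { toFun := fun p => inner ℝ n (mv M p)
        map_add' := by
          intro p q
          rw [← inner_add_right]
          congr 1
          ext a
          simp [mul_add, Finset.sum_add_distrib]
        map_smul' := by
          intro c p
          rw [RingHom.id_apply, smul_eq_mul, ← inner_smul_right (𝕜 := ℝ)]
          congr 1
          ext a
          simp only [mv_apply, PiLp.smul_apply, smul_eq_mul]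
          rw [Finset.mul_sum]
          exact Finset.sum_congr rfl fun b _ => by ring }
    let l : E d →L[ℝ] ℝ := LinearMap.toContinuousLinearMap L0
    have hl : ∀ p, l p = inner ℝ n (mv M p) := fun p => rfl
    have hmax : ∀ q ∈ convexHull ℝ (S : Set (E d)), l q ≤ l p0 := by
      intro q hq
      have := hsp (mv M q) ⟨q, hq, rfl⟩
      rw [inner_sub_right] at this
      rw [hl, hl, hp0x]
      linarith
    obtain ⟨F, hF⟩ : ∃ F : Set (E d), F = {p ∈ convexHull ℝ (S : Set (E d)) |
      ∀ q ∈ convexHull ℝ (S : Set (E d)), l q ≤ l p} := ⟨_, rfl⟩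
    have hpF : p0 ∈ F := by rw [hF]; exact ⟨hp0, hmax⟩
    refine ⟨F, ⟨⟨p0, hpF⟩, fun _ => ⟨l, hF⟩⟩, ?_⟩
    apply Subtype.ext
    simp only [lab]
    ext s
    rw [Finset.mem_filter, Finset.mem_filter]
    refine and_congr_right fun hs => ?_
    rw [hF, Set.mem_ofPred_eq]
    have hsc : s ∈ convexHull ℝ (S : Set (E d)) := subset_convexHull ℝ _ hs
    constructor
    · rintro ⟨_, h⟩
      have h1 := h p0 hp0
      have h2 := hmax s hsc
      have h3 : l s = l p0 := le_antisymm h2 h1
      rw [hl, hl, hp0x] at h3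
      exact h3
    · intro h
      refine ⟨hsc, fun q hq => ?_⟩
      have h1 := hmax q hq
      have : l s = l p0 := by rw [hl, hl, hp0x]; exact h
      rw [this]; exact h1
  calc (Set.range (lab S M)).ncard ≤ _ := Set.ncard_le_ncard hsub ((faces_finite S).image _)
    _ ≤ _ := Set.ncard_image_le (faces_finite S)

end Pool.Agent.KXP
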