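import Pool.Agent.KXP.Defs
import Pool.Agent.KXP.Gau
import Pool.Agent.KXP.Fib

/-! KXP row MC1: explained variance -/

set_option autoImplicit false

open MeasureTheory ProbabilityTheory Filter Topology
open scoped BigOperators

namespace Pool.Agent.KXP

variable {d : ℕ} {ι : Type} [Fintype ι]

private theorem McA_abs_le (u : E d) (a : Fin d) : |u a| ≤ ‖u‖ := by
  simpa using PiLp.norm_apply_le u a

/-- functions of at most quadratic growth are integrable -/
private theorem McA_int {f : E d → ℝ} (hf : AEStronglyMeasurable f (gam d)) {C : ℝ}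
    (h : ∀ u, |f u| ≤ (C + ‖u‖) ^ 2) : Integrable f (gam d) := by
  have h1 : Integrable (fun u : E d => (C + ‖u‖) ^ 2) (gam d) := by
    have e : (fun u : E d => (C + ‖u‖) ^ 2) = fun u => C ^ 2 + 2 * C * ‖u‖ ^ 1 + ‖u‖ ^ 2 := by
      funext u; ring
    rw [e]
    exact ((integrable_const _).add ((gau_pow 1).const_mul _)).add (gau_pow 2)
  refine h1.mono' hf (Eventually.of_forall fun u => ?_)
  rw [Real.norm_eq_abs]
  exact h u

omit [Fintype ι] in
private theorem McA_Xmeas {D : Pre d ι} (hD : Good D) (a : Fin d) :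
    Continuous (fun u => D.X u a) := by
  have h1 : Continuous D.X := hD.lip.continuous
  fun_prop

/-- the pointwise identity -/
private theorem McA_point {D : Pre d ι} (hD : Good D) (hI : Iso D) (u : E d) :
    ∑ a, D.X u a * (u a - D.X u a) =
      ∑ a, D.c (D.L u) a * u a - ∑ a, D.c (D.L u) a ^ 2 := by
  set i := D.L u with hi
  set Pu : Fin d → ℝ := fun a => ∑ b, D.P i a b * u b with hPu
  have hX : ∀ a, D.X u a = D.c i a + Pu a := fun a => hD.aff u a
  have h1 : ∑ a, D.c i a * Pu a = 0 := by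
    calc ∑ a, D.c i a * Pu a = ∑ a, ∑ b, D.c i a * (D.P i a b * u b) := by
          refine Finset.sum_congr rfl fun a _ => ?_
          rw [hPu, Finset.mul_sum]
      _ = ∑ b, ∑ a, D.c i a * (D.P i a b * u b) := Finset.sum_comm
      _ = ∑ b, u b * ∑ a, D.P i b a * D.c i a := by
          refine Finset.sum_congr rfl fun b _ => ?_
          rw [Finset.mul_sum]
          refine Finset.sum_congr rfl fun a _ => ?_
          rw [hD.sym i a b]
          ring
      _ = 0 := by
          refine Finset.sum_eq_zero fun b _ => ?_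
          rw [hi, hI.pc u b, mul_zero]
  have h2 : ∑ a, Pu a * u a = ∑ a, Pu a ^ 2 := by
    have hid : ∀ a b, ∑ e, D.P i e a * D.P i e b = D.P i a b := by
      intro a b
      have := congrFun (congrFun (hD.idem i) a) b
      rw [Matrix.mul_apply] at this
      rw [← this]
      refine Finset.sum_congr rfl fun e _ => ?_
      rw [hD.sym i e a]
    calc ∑ a, Pu a * u a = ∑ a, ∑ b, D.P i a b * u b * u a := by
          refine Finset.sum_congr rfl fun a _ => ?_
          rw [hPu, Finset.sum_mul]
      _ = ∑ a, ∑ b, ∑ e, D.P i e a * D.P i e b * u b * u a := by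
          refine Finset.sum_congr rfl fun a _ => Finset.sum_congr rfl fun b _ => ?_
          rw [← hid a b, Finset.sum_mul, Finset.sum_mul]
      _ = ∑ e, ∑ a, ∑ b, D.P i e a * D.P i e b * u b * u a := by
          rw [show (∑ a, ∑ b, ∑ e, D.P i e a * D.P i e b * u b * u a) =
            ∑ a, ∑ e, ∑ b, D.P i e a * D.P i e b * u b * u a from
            Finset.sum_congr rfl fun a _ => Finset.sum_comm]
          exact Finset.sum_comm
      _ = ∑ e, Pu e ^ 2 := by
          refine Finset.sum_congr rfl fun e _ => ?_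
          rw [hPu, sq, Finset.sum_mul_sum]
          refine Finset.sum_congr rfl fun a _ => Finset.sum_congr rfl fun b _ => ?_
          ring
  calc ∑ a, D.X u a * (u a - D.X u a)
      = ∑ a, (D.c i a * u a - D.c i a ^ 2 - 2 * (D.c i a * Pu a) + (Pu a * u a - Pu a ^ 2)) := by
        refine Finset.sum_congr rfl fun a _ => ?_
        rw [hX a]
        ring
    _ = ∑ a, D.c i a * u a - ∑ a, D.c i a ^ 2 := by
        rw [Finset.sum_add_distrib, Finset.sum_sub_distrib, Finset.sum_sub_distrib,
          Finset.sum_sub_distrib, ← Finset.mul_sum, h1, h2]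
        ring

theorem mac_Y_of {D : Pre d ι} (hD : Good D) (hI : Iso D) (η : ℝ) (hη : η ≤ 1 / 4)
    (hg : ∑ a, ∫ u, (D.X u a - u a / 2) ^ 2 ∂(gam d) ≤ η * d) : (d : ℝ) * (1 - 4 * η) ≤ Ye D := by
  -- integrability
  have hXc := fun a => McA_Xmeas hD a
  have hua : ∀ a : Fin d, Continuous (fun u : E d => u a) := fun a => by fun_prop
  have hXb : ∀ u a, |D.X u a| ≤ ‖D.X 0‖ + ‖u‖ := fun u a =>
    (McA_abs_le _ a).trans (X_norm_le hD u)
  have hub : ∀ (u : E d) (a : Fin d), |u a| ≤ ‖D.X 0‖ + ‖u‖ := fun u a =>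
    (McA_abs_le u a).trans (by linarith [norm_nonneg (D.X 0)])
  have hprod : ∀ {x y z : ℝ}, |x| ≤ z → |y| ≤ z → |x * y| ≤ z ^ 2 := by
    intro x y z hx hy
    rw [abs_mul, sq]
    exact mul_le_mul hx hy (abs_nonneg _) ((abs_nonneg _).trans hx)
  have i1 : ∀ a, Integrable (fun u => D.X u a * D.X u a) (gam d) := fun a =>
    McA_int ((hXc a).mul (hXc a)).aestronglyMeasurable fun u => hprod (hXb u a) (hXb u a)
  have i2 : ∀ a, Integrable (fun u => D.X u a * u a) (gam d) := fun a =>
    McA_int ((hXc a).mul (hua a)).aestronglyMeasurable fun u => hprod (hXb u a) (hub u a)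
  have i3 : ∀ a : Fin d, Integrable (fun u : E d => u a * u a) (gam d) := fun a =>
    McA_int ((hua a).mul (hua a)).aestronglyMeasurable fun u => hprod (hub u a) (hub u a)
  have i4 : ∀ a, Integrable (fun u => D.X u a * (u a - D.X u a)) (gam d) := fun a => by
    refine ((i2 a).sub (i1 a)).congr (Eventually.of_forall fun u => ?_)
    simp only [Pi.sub_apply]
    ring
  -- the value of `B`
  set B : ℝ := ∑ a, ∫ u, D.X u a * (u a - D.X u a) ∂(gam d) with hB
  have hBd : B = (d : ℝ) / 4 - ∑ a, ∫ u, (D.X u a - u a / 2) ^ 2 ∂(gam d) := by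
    have h1 : ∀ a, ∫ u, (D.X u a - u a / 2) ^ 2 ∂(gam d) =
        1 / 4 - ∫ u, D.X u a * (u a - D.X u a) ∂(gam d) := by
      intro a
      have h2 : (fun u => (D.X u a - u a / 2) ^ 2) =
          fun u => 1 / 4 * (u a * u a) - D.X u a * (u a - D.X u a) := by
        funext u; ring
      rw [h2, integral_sub ((i3 a).const_mul _) (i4 a), integral_const_mul, gau_cov a a, if_pos rfl,
        mul_one]
    rw [hB, Finset.sum_congr rfl fun a _ => h1 a, Finset.sum_sub_distrib, Finset.sum_const,
      Finset.card_univ, Fintype.card_fin, nsmul_eq_mul]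
    ring
  -- the formula for `B` through the cells
  set p : ℝ := ∑ i, q D i * ∑ a, D.c i a ^ 2 with hp
  set Q : ℝ := ∑ i, ∑ a, mom D i a * D.c i a with hQ
  have hBQ : B = Q - p := by
    have hbd : ∀ a, ∃ C : ℝ, ∀ i, |D.c i a| ≤ C := fun a =>
      ⟨∑ i, |D.c i a|, fun i => Finset.single_le_sum (f := fun i => |D.c i a|)
        (fun _ _ => abs_nonneg _) (Finset.mem_univ i)⟩
    have j1 : ∀ a, Integrable (fun u => D.c (D.L u) a * u a) (gam d) := by
      intro a
      obtain ⟨C, hC⟩ := hbd a
      have hm := fib_meas hD.meas (fun i => D.c i a)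
      have h0 : Integrable (fun u : E d => u a) (gam d) := by
        refine McA_int (C := 1) (hua a).aestronglyMeasurable fun u => ?_
        nlinarith [McA_abs_le u a, norm_nonneg u, sq_nonneg (‖u‖)]
      refine (h0.bdd_mul (c := C) hm.aestronglyMeasurable
        (Eventually.of_forall fun u => ?_))
      rw [Real.norm_eq_abs]
      exact hC _
    have j2 : ∀ a, Integrable (fun u => D.c (D.L u) a ^ 2) (gam d) := by
      intro a
      obtain ⟨C, hC⟩ := hbd a
      have hm := fib_meas hD.meas (fun i => D.c i a ^ 2)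
      refine Integrable.of_bound hm.aestronglyMeasurable (C ^ 2) (Eventually.of_forall fun u => ?_)
      rw [Real.norm_eq_abs, abs_of_nonneg (sq_nonneg _), ← sq_abs]
      exact pow_le_pow_left₀ (abs_nonneg _) (hC _) 2
    rw [hB, ← integral_finsetSum _ fun a _ => i4 a]
    rw [integral_congr_ae (Eventually.of_forall fun u => McA_point hD hI u)]
    rw [integral_sub (integrable_finsetSum _ fun a _ => j1 a)
      (integrable_finsetSum _ fun a _ => j2 a), integral_finsetSum _ fun a _ => j1 a,
      integral_finsetSum _ fun a _ => j2 a]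
    have e1 : ∀ a, ∫ u, D.c (D.L u) a * u a ∂(gam d) = ∑ i, mom D i a * D.c i a := fun a =>
      fib_mom hD.meas (fun i => D.c i a) a
    have e2 : ∀ a, ∫ u, D.c (D.L u) a ^ 2 ∂(gam d) = ∑ i, q D i * D.c i a ^ 2 := fun a =>
      fib_int hD.meas (fun i => D.c i a ^ 2)
    rw [Finset.sum_congr rfl fun a _ => e1 a, Finset.sum_congr rfl fun a _ => e2 a, hQ, hp,
      Finset.sum_comm]
    congr 1
    rw [Finset.sum_comm]
    exact Finset.sum_congr rfl fun i _ => (Finset.mul_sum _ _ _).symm
  have hp0 : 0 ≤ p := Finset.sum_nonneg fun i _ =>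
    mul_nonneg (q_nonneg D i) (Finset.sum_nonneg fun a _ => sq_nonneg _)
  have hY0 : 0 ≤ Ye D := Finset.sum_nonneg fun i _ =>
    div_nonneg (Finset.sum_nonneg fun a _ => sq_nonneg _) (q_nonneg D i)
  -- Cauchy-Schwarz
  have hCS : Q ^ 2 ≤ Ye D * p := by
    have e0 : Q = ∑ x : ι × Fin d, (mom D x.1 x.2 / Real.sqrt (q D x.1)) *
        (Real.sqrt (q D x.1) * D.c x.1 x.2) := by
      rw [hQ, Fintype.sum_prod_type]
      refine Finset.sum_congr rfl fun i _ => Finset.sum_congr rfl fun a _ => ?_
      by_cases h : q D i = 0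
      · rw [mom_zero D i a h]
        simp
      · have h1 : Real.sqrt (q D i) ≠ 0 :=
          (Real.sqrt_pos.2 (lt_of_le_of_ne (q_nonneg D i) (Ne.symm h))).ne'
        field_simp
    have e1 : Ye D = ∑ x : ι × Fin d, (mom D x.1 x.2 / Real.sqrt (q D x.1)) ^ 2 := by
      rw [Ye, Fintype.sum_prod_type]
      refine Finset.sum_congr rfl fun i _ => ?_
      rw [Finset.sum_div]
      refine Finset.sum_congr rfl fun a _ => ?_
      rw [div_pow, Real.sq_sqrt (q_nonneg D i)]
    have e2 : p = ∑ x : ι × Fin d, (Real.sqrt (q D x.1) * D.c x.1 x.2) ^ 2 := by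
      rw [hp, Fintype.sum_prod_type]
      refine Finset.sum_congr rfl fun i _ => ?_
      rw [Finset.mul_sum]
      refine Finset.sum_congr rfl fun a _ => ?_
      rw [mul_pow, Real.sq_sqrt (q_nonneg D i)]
    rw [e0, e1, e2]
    exact Finset.sum_mul_sq_le_sq_mul_sq _ _ _
  have hB0 : (d : ℝ) * (1 / 4 - η) ≤ B := by
    rw [hBd]
    linarith
  have hQp : Q = p + B := by linarith
  have hBnn : 0 ≤ B := le_trans (mul_nonneg (Nat.cast_nonneg d) (by linarith)) hB0
  rcases hp0.eq_or_lt with h | h
  · have h1 : Q ^ 2 ≤ 0 := by rw [← h, mul_zero] at hCS; exact hCS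
    have h2 : Q = 0 := by nlinarith [sq_nonneg Q]
    have h3 : B = 0 := by linarith
    nlinarith
  · have h1 : 4 * B * p ≤ Ye D * p := by
      rw [hQp] at hCS
      nlinarith [sq_nonneg (p - B)]
    have h2 : 4 * B ≤ Ye D := le_of_mul_le_mul_right h1 h
    linarith

end Pool.Agent.KXP
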