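import Pool.Agent.KXP.McC0
import Pool.Agent.KXP.ItD
import Pool.Agent.KXP.McB

/-! KXP: row MCC (uses DVS, ITD, MCB, RSG and the series of `log 2`). -/

set_option autoImplicit false

open MeasureTheory ProbabilityTheory Filter Topology
open scoped BigOperators

namespace Pool.Agent.KXP

variable {d : ℕ} {ι : Type} [Fintype ι]

theorem mac_of {D : Pre d ι} (hD : Good D) (hI : Iso D) (y : ℝ) (hy : (d : ℝ) * y ≤ Ye D) {t : ℝ}
    (h0 : 0 ≤ t) (h1 : t < 1) : (d : ℝ) * (Real.log 2 * (1 - t ^ 2) + t / 2 * y) ≤ ent D :=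
  McC.mac_of0 hD (fun m _ hD' => ent_ge m hD') (fun m _ h0' h1' => mac_J m hD hI h0' h1') y hy h0 h1

end Pool.Agent.KXP
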