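import Pool.Agent.KXP.Den

/-! KXP, row STB: Gaussian integration by parts for Lipschitz functions. -/

set_option autoImplicit false

open MeasureTheory ProbabilityTheory Filter Topology
open scoped BigOperators

namespace Pool.Agent.KXP

variable {d : ℕ}

/-- exponential times polynomial weights are integrable -/
theorem stb_int (n : ℕ) : Integrable (fun u : E d => (1 + ‖u‖) ^ n * Real.exp ‖u‖) (gam d) := by
  have : IsGaussian (gam d) := by unfold gam; infer_instance
  obtain ⟨C, hC, hI⟩ := IsGaussian.exists_integrable_exp_sq (gam d)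
  have h2 : Integrable (fun u : E d => ((n.factorial : ℝ) * Real.exp (1 + C⁻¹)) * Real.exp (C * ‖u‖ ^ 2)) (gam d) :=
    hI.const_mul _
  refine h2.mono' ?_ (Eventually.of_forall fun u => ?_)
  · exact (by fun_prop : Continuous fun u : E d => (1 + ‖u‖) ^ n * Real.exp ‖u‖).aestronglyMeasurable
  · have hx : 0 ≤ ‖u‖ := norm_nonneg u
    rw [Real.norm_eq_abs, abs_of_nonneg (by positivity)]
    have h3 : (1 + ‖u‖) ^ n ≤ n.factorial * Real.exp (1 + ‖u‖) := by
      have := Real.pow_div_factorial_le_exp (1 + ‖u‖) (by positivity) n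
      rw [div_le_iff₀ (by positivity)] at this
      linarith
    have h4 : 2 * ‖u‖ ≤ C⁻¹ + C * ‖u‖ ^ 2 := by
      have h5 : 0 ≤ C⁻¹ * (C * ‖u‖ - 1) ^ 2 := by positivity
      have h6 : C⁻¹ * (C * ‖u‖ - 1) ^ 2 = C * ‖u‖ ^ 2 - 2 * ‖u‖ + C⁻¹ := by
        field_simp
        ring
      linarith
    calc (1 + ‖u‖) ^ n * Real.exp ‖u‖ ≤ (n.factorial * Real.exp (1 + ‖u‖)) * Real.exp ‖u‖ := by gcongr
      _ = n.factorial * Real.exp (1 + 2 * ‖u‖) := by rw [mul_assoc, ← Real.exp_add]; ring_nf
      _ ≤ n.factorial * Real.exp ((1 + C⁻¹) + C * ‖u‖ ^ 2) :=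
          mul_le_mul_of_nonneg_left (Real.exp_le_exp.2 (by linarith)) (by positivity)
      _ = _ := by rw [Real.exp_add]; ring

/-- Cameron-Martin shift along a coordinate -/
theorem stb_shift (F : E d → ℝ) (b : Fin d) (h : ℝ) :
    ∫ u, F (u + h • EuclideanSpace.single b (1 : ℝ)) ∂(gam d) =
      ∫ u, F u * Real.exp (h * u b - h ^ 2 / 2) ∂(gam d) := by
  rw [gau_den, gau_den]
  set e : E d := EuclideanSpace.single b (1 : ℝ) with he
  have h1 := integral_add_right_eq_self (μ := (volume : Measure (E d)))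
    (fun u => F u * ((2 * Real.pi) ^ (-(d : ℝ) / 2) * Real.exp (-‖u - h • e‖ ^ 2 / 2))) (h • e)
  simp only [add_sub_cancel_right] at h1
  rw [h1]
  refine integral_congr_ae (Eventually.of_forall fun u => ?_)
  have h2 : ‖u - h • e‖ ^ 2 = ‖u‖ ^ 2 - 2 * (h * u b) + h ^ 2 := by
    rw [norm_sub_sq_real, inner_smul_right, norm_smul]
    simp [he, EuclideanSpace.inner_single_right]
  simp only [h2]
  have h3 : -(‖u‖ ^ 2 - 2 * (h * u b) + h ^ 2) / 2 = -‖u‖ ^ 2 / 2 + (h * u b - h ^ 2 / 2) := by ring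
  rw [h3, Real.exp_add]
  ring

theorem stb_coord_le (u : E d) (a : Fin d) : |u a| ≤ ‖u‖ := by
  have := PiLp.norm_apply_le u a
  simpa using this

/-- the common form: weight `w` affine in the shifted direction -/
theorem stb_main {f g w : E d → ℝ} {K : NNReal} (hf : LipschitzWith K f) (b : Fin d) (c : ℝ)
    (hw : Continuous w) (hwb : ∀ u, |w u| ≤ 1 + ‖u‖) (hc : |c| ≤ 1)
    (hws : ∀ u (h : ℝ), w (u + h • EuclideanSpace.single b (1 : ℝ)) = w u + h * c)
    (hg : ∀ᵐ u ∂(gam d), HasLineDerivAt ℝ f (g u) u (EuclideanSpace.single b (1 : ℝ))) :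
    ∫ u, g u * w u ∂(gam d) = ∫ u, f u * (u b * w u - c) ∂(gam d) := by
  set e : E d := EuclideanSpace.single b (1 : ℝ) with he
  have hne : ‖e‖ = 1 := by simp [he]
  have hfc : Continuous f := hf.continuous
  -- growth of f
  have hfg : ∀ u, |f u| ≤ (|f 0| + K) * (1 + ‖u‖) := by
    intro u
    have h1 := hf.dist_le_mul u 0
    rw [Real.dist_eq, dist_zero_right] at h1
    have h2 : |f u| ≤ |f 0| + K * ‖u‖ := by
      have := abs_sub_abs_le_abs_sub (f u) (f 0)
      linarith
    have h3 : 0 ≤ ‖u‖ := norm_nonneg u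
    have h4 : 0 ≤ |f 0| := abs_nonneg _
    have h5 : 0 ≤ (K : ℝ) := K.coe_nonneg
    nlinarith [mul_nonneg h4 h3]
  -- left side
  have hL : HasDerivAt (fun h : ℝ => ∫ u, f (u + h • e) * w u ∂(gam d)) (∫ u, g u * w u ∂(gam d)) 0 := by
    have key := hasDerivAt_integral_of_dominated_loc_of_lip (μ := gam d) (𝕜 := ℝ) (E := ℝ)
      (F := fun (h : ℝ) (u : E d) => f (u + h • e) * w u) (F' := fun u => g u * w u) (x₀ := (0 : ℝ))
      (s := Set.univ) (bound := fun u => K * (1 + ‖u‖)) Filter.univ_mem ?_ ?_ ?_ ?_ ?_ ?_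
    · exact key.2
    · refine Eventually.of_forall fun h => ?_
      exact (by fun_prop : Continuous fun u : E d => f (u + h • e) * w u).aestronglyMeasurable
    · simp only [zero_smul, add_zero]
      refine ((stb_int (d := d) 2).const_mul (|f 0| + K)).mono'
        (by fun_prop : Continuous fun u : E d => f u * w u).aestronglyMeasurable
        (Eventually.of_forall fun u => ?_)
      have h1 : 1 ≤ Real.exp ‖u‖ := Real.one_le_exp (norm_nonneg u)
      rw [Real.norm_eq_abs, abs_mul]
      calc |f u| * |w u| ≤ ((|f 0| + K) * (1 + ‖u‖)) * (1 + ‖u‖) := by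
            gcongr
            · exact hfg u
            · exact hwb u
        _ = (|f 0| + K) * ((1 + ‖u‖) ^ 2 * 1) := by ring
        _ ≤ (|f 0| + K) * ((1 + ‖u‖) ^ 2 * Real.exp ‖u‖) := by gcongr
    · -- measurability of the derivative
      have h1 : Measurable (fun u => lineDeriv ℝ f u e) := measurable_lineDeriv hfc
      have h2 : (fun u => lineDeriv ℝ f u e * w u) =ᵐ[gam d] fun u => g u * w u := by
        filter_upwards [hg] with u hu
        rw [hu.lineDeriv]
      exact ((h1.mul hw.measurable).aestronglyMeasurable).congr h2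
    · refine Eventually.of_forall fun u => ?_
      rw [lipschitzOnWith_univ]
      refine LipschitzWith.of_dist_le_mul fun x y => ?_
      rw [Real.dist_eq, Real.dist_eq]
      have h1 := hf.dist_le_mul (u + x • e) (u + y • e)
      rw [Real.dist_eq, dist_add_left, dist_eq_norm, ← sub_smul, norm_smul, hne, mul_one,
        Real.norm_eq_abs] at h1
      rw [← sub_mul, abs_mul, Real.coe_nnabs, abs_of_nonneg (by positivity : (0 : ℝ) ≤ K * (1 + ‖u‖))]
      calc |f (u + x • e) - f (u + y • e)| * |w u| ≤ (K * |x - y|) * (1 + ‖u‖) := by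
            gcongr
            exact hwb u
        _ = _ := by ring
    · refine ((stb_int (d := d) 1).const_mul (K : ℝ)).mono'
        (by fun_prop : Continuous fun u : E d => (K : ℝ) * (1 + ‖u‖)).aestronglyMeasurable
        (Eventually.of_forall fun u => ?_)
      have h1 : 1 ≤ Real.exp ‖u‖ := Real.one_le_exp (norm_nonneg u)
      rw [Real.norm_eq_abs, abs_of_nonneg (by positivity), pow_one]
      calc (K : ℝ) * (1 + ‖u‖) = K * ((1 + ‖u‖) * 1) := by ring
        _ ≤ K * ((1 + ‖u‖) * Real.exp ‖u‖) := by gcongr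
    · filter_upwards [hg] with u hu
      have h1 : HasDerivAt (fun t : ℝ => f (u + t • e)) (g u) 0 := hu
      exact h1.mul_const (w u)
  -- right side
  have hR : HasDerivAt (fun h : ℝ => ∫ u, (f u * (w u - h * c)) * Real.exp (h * u b - h ^ 2 / 2) ∂(gam d))
      (∫ u, f u * (u b * w u - c) ∂(gam d)) 0 := by
    have key := hasDerivAt_integral_of_dominated_loc_of_deriv_le (μ := gam d) (𝕜 := ℝ) (E := ℝ)
      (F := fun (h : ℝ) (u : E d) => (f u * (w u - h * c)) * Real.exp (h * u b - h ^ 2 / 2))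
      (F' := fun (h : ℝ) (u : E d) => (f u * (-c)) * Real.exp (h * u b - h ^ 2 / 2) +
        (f u * (w u - h * c)) * (Real.exp (h * u b - h ^ 2 / 2) * (u b - h))) (x₀ := (0 : ℝ))
      (s := Metric.ball (0 : ℝ) 1) (bound := fun u => (|f 0| + K) * 5 * ((1 + ‖u‖) ^ 3 * Real.exp ‖u‖))
      (Metric.ball_mem_nhds _ one_pos) ?_ ?_ ?_ ?_ ?_ ?_
    · have h2 := key.2
      have h3 : ∫ u, ((f u * (-c)) * Real.exp (0 * u b - 0 ^ 2 / 2) +
        (f u * (w u - 0 * c)) * (Real.exp (0 * u b - 0 ^ 2 / 2) * (u b - 0))) ∂(gam d) =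
          ∫ u, f u * (u b * w u - c) ∂(gam d) := by
        refine integral_congr_ae (Eventually.of_forall fun u => ?_)
        simp
        ring
      rw [← h3]
      exact h2
    · refine Eventually.of_forall fun h => ?_
      exact (by fun_prop : Continuous fun u : E d => (f u * (w u - h * c)) *
        Real.exp (h * u b - h ^ 2 / 2)).aestronglyMeasurable
    · simp only [zero_mul, sub_zero]
      refine ((stb_int (d := d) 2).const_mul (|f 0| + K)).mono'
        (by fun_prop : Continuous fun u : E d => f u * w u * Real.exp (0 - 0 ^ 2 / 2)).aestronglyMeasurable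
        (Eventually.of_forall fun u => ?_)
      have h1 : 1 ≤ Real.exp ‖u‖ := Real.one_le_exp (norm_nonneg u)
      rw [Real.norm_eq_abs, abs_mul, abs_mul]
      have h0 : |Real.exp (0 - 0 ^ 2 / 2)| = 1 := by simp
      rw [h0, mul_one]
      calc |f u| * |w u| ≤ ((|f 0| + K) * (1 + ‖u‖)) * (1 + ‖u‖) := by
            gcongr
            · exact hfg u
            · exact hwb u
        _ = (|f 0| + K) * ((1 + ‖u‖) ^ 2 * 1) := by ring
        _ ≤ (|f 0| + K) * ((1 + ‖u‖) ^ 2 * Real.exp ‖u‖) := by gcongr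
    · exact (by fun_prop : Continuous fun u : E d => (f u * (-c)) * Real.exp (0 * u b - 0 ^ 2 / 2) +
        (f u * (w u - 0 * c)) * (Real.exp (0 * u b - 0 ^ 2 / 2) * (u b - 0))).aestronglyMeasurable
    · refine Eventually.of_forall fun u h hh => ?_
      have hh1 : |h| < 1 := by simpa using hh
      have hub : |u b| ≤ ‖u‖ := stb_coord_le u b
      have hu0 : 0 ≤ ‖u‖ := norm_nonneg u
      have hex : Real.exp (h * u b - h ^ 2 / 2) ≤ Real.exp ‖u‖ := by
        apply Real.exp_le_exp.2
        have h1 : h * u b ≤ |h| * |u b| := by rw [← abs_mul]; exact le_abs_self _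
        have h2 : |h| * |u b| ≤ 1 * ‖u‖ := by gcongr
        nlinarith [sq_nonneg h]
      have hpos : 0 < Real.exp (h * u b - h ^ 2 / 2) := Real.exp_pos _
      have hf0 : 0 ≤ |f 0| + K := by positivity
      have hwc : |w u - h * c| ≤ 2 * (1 + ‖u‖) := by
        calc |w u - h * c| ≤ |w u| + |h * c| := abs_sub _ _
          _ ≤ (1 + ‖u‖) + 1 * 1 := by
            rw [abs_mul]
            gcongr
            exact hwb u
          _ ≤ _ := by linarith
      have hubh : |u b - h| ≤ 1 + ‖u‖ := by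
        calc |u b - h| ≤ |u b| + |h| := abs_sub _ _
          _ ≤ _ := by linarith
      rw [Real.norm_eq_abs]
      have hA : |(f u * (-c)) * Real.exp (h * u b - h ^ 2 / 2)| ≤
          ((|f 0| + K) * (1 + ‖u‖)) * 1 * Real.exp ‖u‖ := by
        rw [abs_mul, abs_mul, abs_neg, abs_of_pos hpos]
        gcongr
        exact hfg u
      have hB : |(f u * (w u - h * c)) * (Real.exp (h * u b - h ^ 2 / 2) * (u b - h))| ≤
          (((|f 0| + K) * (1 + ‖u‖)) * (2 * (1 + ‖u‖))) * (Real.exp ‖u‖ * (1 + ‖u‖)) := by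
        rw [abs_mul, abs_mul, abs_mul, abs_of_pos hpos]
        gcongr
        exact hfg u
      refine (abs_add_le _ _).trans ((add_le_add hA hB).trans ?_)
      have h1 : (1 + ‖u‖) ≤ (1 + ‖u‖) ^ 3 := by
        have : (1 : ℝ) ≤ 1 + ‖u‖ := by linarith
        calc (1 + ‖u‖) = (1 + ‖u‖) ^ 1 := (pow_one _).symm
          _ ≤ _ := pow_le_pow_right₀ this (by norm_num)
      calc ((|f 0| + K) * (1 + ‖u‖)) * 1 * Real.exp ‖u‖ +
          (((|f 0| + K) * (1 + ‖u‖)) * (2 * (1 + ‖u‖))) * (Real.exp ‖u‖ * (1 + ‖u‖))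
          = (|f 0| + K) * ((1 + ‖u‖) + 2 * (1 + ‖u‖) ^ 3) * Real.exp ‖u‖ := by ring
        _ ≤ (|f 0| + K) * ((1 + ‖u‖) ^ 3 + 2 * (1 + ‖u‖) ^ 3) * Real.exp ‖u‖ := by gcongr
        _ ≤ (|f 0| + K) * 5 * ((1 + ‖u‖) ^ 3 * Real.exp ‖u‖) := by
          have : 0 ≤ (|f 0| + K) * ((1 + ‖u‖) ^ 3 * Real.exp ‖u‖) := by positivity
          nlinarith
    · exact (stb_int (d := d) 3).const_mul _
    · refine Eventually.of_forall fun u h _ => ?_
      have h1 : HasDerivAt (fun h : ℝ => f u * (w u - h * c)) (f u * (-c)) h := by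
        have : HasDerivAt (fun h : ℝ => w u - h * c) (-c) h := by
          simpa using ((hasDerivAt_id h).mul_const c).const_sub (w u)
        exact this.const_mul (f u)
      have h2 : HasDerivAt (fun h : ℝ => Real.exp (h * u b - h ^ 2 / 2))
          (Real.exp (h * u b - h ^ 2 / 2) * (u b - h)) h := by
        have : HasDerivAt (fun h : ℝ => h * u b - h ^ 2 / 2) (u b - h) h := by
          have h3 : HasDerivAt (fun h : ℝ => h * u b) (u b) h := by
            simpa using (hasDerivAt_id h).mul_const (u b)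
          have h4 : HasDerivAt (fun h : ℝ => h ^ 2 / 2) h h := by
            have := (hasDerivAt_pow 2 h).div_const 2
            simpa using this
          exact h3.sub h4
        exact this.exp
      exact h1.mul h2
  -- equality of the two functions of h
  have heq : (fun h : ℝ => ∫ u, f (u + h • e) * w u ∂(gam d)) =
      fun h : ℝ => ∫ u, (f u * (w u - h * c)) * Real.exp (h * u b - h ^ 2 / 2) ∂(gam d) := by
    funext h
    have h1 := stb_shift (fun u => f u * (w u - h * c)) b h
    rw [← h1]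
    refine integral_congr_ae (Eventually.of_forall fun u => ?_)
    simp only
    rw [← he, hws]
    ring
  rw [heq] at hL
  exact hL.unique hR

theorem stb_ac : gam d ≪ (volume : Measure (E d)) := by
  refine Measure.AbsolutelyContinuous.mk fun s hs h0 => ?_
  have h1 := gau_den (d := d) (s.indicator fun _ => 1)
  rw [integral_indicator_const _ hs] at h1
  have h2 : ∫ u, s.indicator (fun _ => (1 : ℝ)) u *
      ((2 * Real.pi) ^ (-(d : ℝ) / 2) * Real.exp (-‖u‖ ^ 2 / 2)) = 0 := by
    refine integral_eq_zero_of_ae ?_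
    have h3 : ∀ᵐ u ∂(volume : Measure (E d)), u ∉ s := measure_eq_zero_iff_ae_notMem.1 h0
    filter_upwards [h3] with u hu
    simp [hu]
  rw [h2] at h1
  simpa [measureReal_eq_zero_iff] using h1

theorem lip_ibp {f g : E d → ℝ} {K : NNReal} (hf : LipschitzWith K f) (b : Fin d)
    (hg : ∀ᵐ u ∂(volume : Measure (E d)), HasLineDerivAt ℝ f (g u) u (EuclideanSpace.single b (1 : ℝ))) :
    (∫ u, g u ∂(gam d) = ∫ u, f u * u b ∂(gam d)) ∧
    ∀ k, ∫ u, g u * u k ∂(gam d) = ∫ u, f u * (u b * u k - if b = k then 1 else 0) ∂(gam d) := by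
  have hg' := (stb_ac (d := d)).ae_le hg
  constructor
  · have h := stb_main (w := fun _ => 1) hf b 0 continuous_const (fun u => by
      have := norm_nonneg u
      rw [abs_one]; linarith) (by simp) (fun u h => by simp) hg'
    simpa using h
  · intro k
    refine stb_main (w := fun u => u k) hf b (if b = k then 1 else 0) (by fun_prop)
      (fun u => (stb_coord_le u k).trans (by linarith)) (by split_ifs <;> simp) (fun u h => ?_) hg'
    by_cases hbk : b = k
    · subst hbk; simp
    · simp [hbk, Ne.symm hbk]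

end Pool.Agent.KXP
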