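import Pool.Agent.KXP.StA
import Pool.Agent.KXP.StB

/-! KXP row STC: Stein identities for the map `X`. -/

set_option autoImplicit false

open MeasureTheory ProbabilityTheory Filter Topology
open scoped BigOperators

namespace Pool.Agent.KXP

variable {d : ℕ} {ι : Type} [Fintype ι]

omit [Fintype ι] in
private theorem StC_lip {D : Pre d ι} (hD : Good D) (a : Fin d) :
    LipschitzWith 1 (fun v => D.X v a) := by
  refine LipschitzWith.of_dist_le_mul fun u v => ?_
  refine le_trans ?_ (hD.lip.dist_le_mul u v)
  rw [Real.dist_eq, dist_eq_norm]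
  exact PiLp.norm_apply_le (D.X u - D.X v) a

theorem stein0 {D : Pre d ι} (hD : Good D) (a b : Fin d) :
    ∫ u, D.P (D.L u) a b ∂(gam d) = ∫ u, D.X u a * u b ∂(gam d) :=
  (lip_ibp (f := fun v => D.X v a) (g := fun u => D.P (D.L u) a b) (StC_lip hD a) b
    (by filter_upwards [der_ae hD] with u hu using hu a b)).1

theorem stein1 {D : Pre d ι} (hD : Good D) (a b k : Fin d) :
    ∫ u, D.P (D.L u) a b * u k ∂(gam d) =
      ∫ u, D.X u a * (u b * u k - if b = k then 1 else 0) ∂(gam d) :=
  (lip_ibp (f := fun v => D.X v a) (g := fun u => D.P (D.L u) a b) (StC_lip hD a) b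
    (by filter_upwards [der_ae hD] with u hu using hu a b)).2 k

end Pool.Agent.KXP
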