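import Pool.Agent.KXP.Gau

set_option autoImplicit false

open MeasureTheory ProbabilityTheory Filter Topology
open scoped BigOperators

namespace Pool.Agent.KXP

variable {d : ℕ} {ι : Type} [Fintype ι]

theorem Gro_proj (P : Matrix (Fin d) (Fin d) ℝ) (hs : ∀ a b, P a b = P b a) (hid : P * P = P)
    (h : Fin d → ℝ) :
    ∑ a, (∑ b, P a b * h b - h a / 2) ^ 2 = (∑ a, h a ^ 2) / 4 := by
  have h1 : ∑ a, (∑ b, P a b * h b) ^ 2 = ∑ a, (∑ b, P a b * h b) * h a := by
    have e1 : ∀ a, (∑ b, P a b * h b) ^ 2 = ∑ b, ∑ c, (h b * h c) * (P b a * P a c) := by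
      intro a
      rw [sq, Finset.sum_mul_sum]
      refine Finset.sum_congr rfl fun b _ => Finset.sum_congr rfl fun c _ => ?_
      rw [hs b a]; ring
    simp_rw [e1]
    rw [Finset.sum_comm]
    refine Finset.sum_congr rfl fun b _ => ?_
    rw [Finset.sum_comm, Finset.sum_mul]
    refine Finset.sum_congr rfl fun c _ => ?_
    rw [← Finset.mul_sum]
    have : ∑ a, P b a * P a c = P b c := by
      conv_rhs => rw [← hid]
      rw [Matrix.mul_apply]
    rw [this]; ring
  have h2 : ∀ a, (∑ b, P a b * h b - h a / 2) ^ 2 =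
      (∑ b, P a b * h b) ^ 2 - (∑ b, P a b * h b) * h a + h a ^ 2 / 4 := by intro a; ring
  simp_rw [h2]
  rw [Finset.sum_add_distrib, Finset.sum_sub_distrib, h1, Finset.sum_div]
  ring

omit [Fintype ι] in
/-- slope of the coordinate function on a line -/
theorem Gro_der {D : Pre d ι} (hD : Good D) (z h e : E d) (t : ℝ)
    (ht : ∀ᶠ v in 𝓝 (z + t • h), D.L v = D.L (z + t • h)) :
    HasDerivAt (fun s : ℝ => ∑ a, e a * (D.X (z + s • h) a - (1 / 2) * (z + s • h) a))
      (∑ a, e a * (∑ b, D.P (D.L (z + t • h)) a b * h b - h a / 2)) t := by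
  set i := D.L (z + t • h) with hi
  have hc : Continuous (fun s : ℝ => z + s • h) := by fun_prop
  have hev : ∀ᶠ s in 𝓝 t, D.L (z + s • h) = i := (hc.continuousAt (x := t)).eventually ht
  have key : HasDerivAt (fun s : ℝ => ∑ a, e a * ((D.c i a + ∑ b, D.P i a b * (z b + s * h b))
      - (1 / 2) * (z a + s * h a)))
      (∑ a, e a * (∑ b, D.P i a b * h b - h a / 2)) t := by
    have h3 : ∀ s : ℝ, (∑ a, e a * ((D.c i a + ∑ b, D.P i a b * (z b + s * h b))
      - (1 / 2) * (z a + s * h a))) = (∑ a, e a * ((D.c i a + ∑ b, D.P i a b * z b)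
      - (1 / 2) * z a)) + s * (∑ a, e a * (∑ b, D.P i a b * h b - h a / 2)) := by
      intro s
      rw [Finset.mul_sum, ← Finset.sum_add_distrib]
      refine Finset.sum_congr rfl fun a _ => ?_
      have : ∑ b, D.P i a b * (z b + s * h b) = ∑ b, D.P i a b * z b + s * ∑ b, D.P i a b * h b := by
        rw [Finset.mul_sum, ← Finset.sum_add_distrib]
        exact Finset.sum_congr rfl fun b _ => by ring
      rw [this]; ring
    have h4 : (fun s : ℝ => ∑ a, e a * ((D.c i a + ∑ b, D.P i a b * (z b + s * h b))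
      - (1 / 2) * (z a + s * h a))) = fun s => (∑ a, e a * ((D.c i a + ∑ b, D.P i a b * z b)
      - (1 / 2) * z a)) + s * (∑ a, e a * (∑ b, D.P i a b * h b - h a / 2)) := funext h3
    rw [h4]
    simpa using ((hasDerivAt_id t).mul_const (∑ a, e a * (∑ b, D.P i a b * h b - h a / 2))).const_add
      (∑ a, e a * ((D.c i a + ∑ b, D.P i a b * z b) - (1 / 2) * z a))
  refine key.congr_of_eventuallyEq ?_
  filter_upwards [hev] with s hs
  refine Finset.sum_congr rfl fun a _ => ?_
  rw [hD.aff (z + s • h) a, hs]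
  simp [PiLp.add_apply, PiLp.smul_apply]

omit [Fintype ι] in
theorem Gro_slope {D : Pre d ι} (hD : Good D) (i : ι) (h e : E d) :
    |∑ a, e a * (∑ b, D.P i a b * h b - h a / 2)| ≤ ‖e‖ * (‖h‖ / 2) := by
  have h1 : (∑ a, e a * (∑ b, D.P i a b * h b - h a / 2)) ^ 2 ≤
      (∑ a, e a ^ 2) * ∑ a, (∑ b, D.P i a b * h b - h a / 2) ^ 2 :=
    Finset.sum_mul_sq_le_sq_mul_sq _ _ _
  rw [Gro_proj (D.P i) (hD.sym i) (hD.idem i) (fun a => h a)] at h1
  have he : ∑ a, e a ^ 2 = ‖e‖ ^ 2 := by
    rw [EuclideanSpace.norm_sq_eq]; simp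
  have hh : ∑ a, h a ^ 2 = ‖h‖ ^ 2 := by
    rw [EuclideanSpace.norm_sq_eq]; simp
  rw [he, hh] at h1
  apply abs_le_of_sq_le_sq _ (by positivity)
  calc _ ≤ _ := h1
    _ = _ := by ring

omit [Fintype ι] in
/-- `X - u/2` is `1/2`-Lipschitz -/
theorem Gro_half {D : Pre d ι} (hD : Good D) (z h : E d) :
    ‖(D.X (z + h) - (1 / 2 : ℝ) • (z + h)) - (D.X z - (1 / 2 : ℝ) • z)‖ ≤ ‖h‖ / 2 := by
  -- almost every z, almost every t
  have hae : ∀ᵐ z ∂(volume : Measure (E d)), ∀ᵐ t ∂(volume : Measure ℝ),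
      ∀ᶠ v in 𝓝 (z + t • h), D.L v = D.L (z + t • h) := by
    obtain ⟨N, hN1, hN2, hN3⟩ := exists_measurable_superset_of_null (hD.loc)
    have hprod : ∀ᵐ p ∂((volume : Measure (E d)).prod (volume : Measure ℝ)), p.1 + p.2 • h ∉ N := by
      have hmeas : MeasurableSet {p : E d × ℝ | p.1 + p.2 • h ∈ N} := by
        have : Measurable (fun p : E d × ℝ => p.1 + p.2 • h) := by fun_prop
        exact this hN2
      rw [ae_iff]
      simp only [not_not]
      rw [Measure.prod_apply_symm hmeas]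
      rw [lintegral_eq_zero_iff' (by
        exact (measurable_measure_prodMk_right hmeas).aemeasurable)]
      refine Eventually.of_forall fun t => ?_
      have : (fun x : E d => (x, t)) ⁻¹' {p : E d × ℝ | p.1 + p.2 • h ∈ N} = (fun x => x + t • h) ⁻¹' N := rfl
      change (volume : Measure (E d)) ((fun x : E d => (x, t)) ⁻¹' {p : E d × ℝ | p.1 + p.2 • h ∈ N}) = 0
      rw [this, measure_preimage_add_right]
      exact hN3
    have := Measure.ae_ae_of_ae_prod hprod
    filter_upwards [this] with z hz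
    filter_upwards [hz] with t ht
    by_contra hcon
    exact ht (hN1 hcon)
  have hmain : ∀ᵐ z ∂(volume : Measure (E d)),
      ‖(D.X (z + h) - (1 / 2 : ℝ) • (z + h)) - (D.X z - (1 / 2 : ℝ) • z)‖ ≤ ‖h‖ / 2 := by
    filter_upwards [hae] with z hz
    set e : E d := (D.X (z + h) - (1 / 2 : ℝ) • (z + h)) - (D.X z - (1 / 2 : ℝ) • z) with he
    set φ : ℝ → ℝ := fun s => ∑ a, e a * (D.X (z + s • h) a - (1 / 2) * (z + s • h) a) with hφ
    have hLip : ∃ K : NNReal, LipschitzWith K φ := by
      have h1 : ∀ a : Fin d, ∃ K : NNReal, LipschitzWith K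
          (fun s : ℝ => e a * (D.X (z + s • h) a - (1 / 2) * (z + s • h) a)) := by
        intro a
        have hl : LipschitzWith (‖h‖₊) (fun s : ℝ => z + s • h) := by
          refine LipschitzWith.of_dist_le_mul fun s t => ?_
          rw [dist_add_left, dist_eq_norm, ← sub_smul, norm_smul, Real.dist_eq]
          simp [mul_comm]
        have hx : LipschitzWith (1 * ‖h‖₊) (fun s : ℝ => D.X (z + s • h)) := hD.lip.comp hl
        have hp : LipschitzWith 1 (fun v : E d => v a) := by
          refine LipschitzWith.of_dist_le_mul fun s t => ?_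
          rw [NNReal.coe_one, one_mul, Real.dist_eq, dist_eq_norm]
          have := PiLp.norm_apply_le (s - t) a
          simpa using this
        have h2 : LipschitzWith (1 * (1 * ‖h‖₊)) (fun s : ℝ => D.X (z + s • h) a) := hp.comp hx
        have h3 : LipschitzWith (1 * ‖h‖₊) (fun s : ℝ => (z + s • h) a) := hp.comp hl
        refine ⟨_, (?_ : LipschitzWith (‖e a‖₊ * (1 * (1 * ‖h‖₊) + ‖(1/2 : ℝ)‖₊ * (1 * ‖h‖₊))) _)⟩
        have h4 : LipschitzWith (‖(1/2 : ℝ)‖₊ * (1 * ‖h‖₊)) (fun s : ℝ => (1/2 : ℝ) * (z + s • h) a) := by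
          refine LipschitzWith.of_dist_le_mul fun s t => ?_
          rw [Real.dist_eq, ← mul_sub, abs_mul]
          have := h3.dist_le_mul s t
          rw [Real.dist_eq] at this
          calc |(1/2 : ℝ)| * |(z + s • h) a - (z + t • h) a| ≤ |(1/2 : ℝ)| * (((1 * ‖h‖₊ : NNReal) : ℝ) * dist s t) := by
                gcongr
            _ = _ := by push_cast; simp; ring
        have h5 := h2.sub h4
        refine LipschitzWith.of_dist_le_mul fun s t => ?_
        rw [Real.dist_eq, ← mul_sub, abs_mul]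
        have := h5.dist_le_mul s t
        rw [Real.dist_eq] at this
        calc |e a| * _ ≤ |e a| * (((1 * (1 * ‖h‖₊) + ‖(1/2 : ℝ)‖₊ * (1 * ‖h‖₊) : NNReal) : ℝ) * dist s t) := by
              gcongr
          _ = _ := by push_cast; simp; ring
      choose K hK using h1
      refine ⟨∑ a, K a, ?_⟩
      refine LipschitzWith.of_dist_le_mul fun s t => ?_
      rw [Real.dist_eq, hφ]
      simp only
      rw [← Finset.sum_sub_distrib]
      refine (Finset.abs_sum_le_sum_abs _ _).trans ?_
      rw [NNReal.coe_sum, Finset.sum_mul]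
      refine Finset.sum_le_sum fun a _ => ?_
      have := (hK a).dist_le_mul s t
      rwa [Real.dist_eq] at this
    obtain ⟨K, hK⟩ := hLip
    have hac : AbsolutelyContinuousOnInterval φ 0 1 := (hK.lipschitzOnWith).absolutelyContinuousOnInterval
    have hftc := hac.integral_deriv_eq_sub
    have hbd : ‖∫ x in (0:ℝ)..1, deriv φ x‖ ≤ (‖e‖ * (‖h‖ / 2)) * |(1:ℝ) - 0| := by
      refine intervalIntegral.norm_integral_le_of_norm_le_const_ae ?_
      filter_upwards [hz] with t ht _
      rw [(Gro_der hD z h e t ht).deriv, Real.norm_eq_abs]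
      exact Gro_slope hD _ h e
    rw [hftc] at hbd
    have h10 : φ 1 - φ 0 = ‖e‖ ^ 2 := by
      rw [EuclideanSpace.norm_sq_eq, hφ]
      simp only
      rw [← Finset.sum_sub_distrib]
      refine Finset.sum_congr rfl fun a _ => ?_
      have : e a = (D.X (z + h) a - (1 / 2) * (z + h) a) - (D.X z a - (1 / 2) * z a) := by
        rw [he]; simp; ring
      rw [Real.norm_eq_abs, sq_abs, ← mul_sub]
      simp only [one_smul, zero_smul, add_zero]
      rw [← this]; ring
    rw [h10] at hbd
    simp only [sub_zero, abs_one, mul_one, norm_pow, norm_norm] at hbd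
    by_cases hz0 : ‖e‖ = 0
    · rw [hz0]; positivity
    · have hpos : 0 < ‖e‖ := lt_of_le_of_ne (norm_nonneg _) (Ne.symm hz0)
      nlinarith
  -- continuity
  have hcl : IsClosed {z : E d | ‖(D.X (z + h) - (1 / 2 : ℝ) • (z + h)) - (D.X z - (1 / 2 : ℝ) • z)‖ ≤ ‖h‖ / 2} := by
    have hX : Continuous D.X := hD.lip.continuous
    exact isClosed_le (by fun_prop) (by fun_prop)
  have hd : Dense {z : E d | ‖(D.X (z + h) - (1 / 2 : ℝ) • (z + h)) - (D.X z - (1 / 2 : ℝ) • z)‖ ≤ ‖h‖ / 2} :=
    Measure.dense_of_ae hmain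
  have := hd.closure_eq
  rw [hcl.closure_eq] at this
  exact (Set.eq_univ_iff_forall.1 this) z

theorem gap_rot {D : Pre d ι} (hD : Good D) (t : ℝ) :
    ∑ a, ∫ p : E d × E d, ((D.X p.1 a - p.1 a / 2) -
        (D.X (Real.cos t • p.1 + Real.sin t • p.2) a - (Real.cos t • p.1 + Real.sin t • p.2) a / 2)) ^ 2
        ∂((gam d).prod (gam d)) ≤ t ^ 2 * ((d : ℝ) / 4) := by
  set R : E d × E d → E d := fun p => Real.cos t • p.1 + Real.sin t • p.2 with hR
  -- pointwise
  have hpt : ∀ p : E d × E d, ∑ a, ((D.X p.1 a - p.1 a / 2) - (D.X (R p) a - (R p) a / 2)) ^ 2 ≤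
      ‖p.1 - R p‖ ^ 2 / 4 := by
    intro p
    have h1 := Gro_half hD (R p) (p.1 - R p)
    rw [add_sub_cancel] at h1
    have h2 : ∑ a, ((D.X p.1 a - p.1 a / 2) - (D.X (R p) a - (R p) a / 2)) ^ 2 =
        ‖(D.X p.1 - (1 / 2 : ℝ) • p.1) - (D.X (R p) - (1 / 2 : ℝ) • R p)‖ ^ 2 := by
      rw [EuclideanSpace.norm_sq_eq]
      refine Finset.sum_congr rfl fun a _ => ?_
      rw [Real.norm_eq_abs, sq_abs]
      simp only [PiLp.sub_apply, PiLp.smul_apply, smul_eq_mul]
      ring
    rw [h2]
    have := norm_nonneg ((D.X p.1 - (1 / 2 : ℝ) • p.1) - (D.X (R p) - (1 / 2 : ℝ) • R p))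
    nlinarith
  -- integral of the right side
  have hdi : Integrable (fun p : E d × E d => ‖p.1 - R p‖ ^ 2) ((gam d).prod (gam d)) ∧
      ∫ p : E d × E d, ‖p.1 - R p‖ ^ 2 ∂((gam d).prod (gam d)) = (2 - 2 * Real.cos t) * d := by
    set ρ := Real.sqrt (2 - 2 * Real.cos t) with hρ
    have hnn : 0 ≤ 2 - 2 * Real.cos t := by have := Real.cos_le_one t; linarith
    have hρ2 : ρ ^ 2 = 2 - 2 * Real.cos t := Real.sq_sqrt hnn
    have hn2 : Integrable (fun u : E d => ‖u‖ ^ 2) (gam d) := gau_pow 2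
    have hi2 : ∫ u : E d, ‖u‖ ^ 2 ∂(gam d) = d := by
      have : (fun u : E d => ‖u‖ ^ 2) = fun u => ∑ a, u a * u a := by
        funext u
        rw [EuclideanSpace.norm_sq_eq]
        exact Finset.sum_congr rfl fun a _ => by rw [Real.norm_eq_abs, sq_abs, sq]
      rw [this, integral_finsetSum]
      · simp [gau_cov]
      · intro a _
        refine hn2.mono' ?_ (Eventually.of_forall fun u => ?_)
        · exact (by fun_prop : Continuous fun u : E d => u a * u a).aestronglyMeasurable
        · rw [Real.norm_eq_abs, abs_mul, ← sq]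
          have := PiLp.norm_apply_le u a
          rw [Real.norm_eq_abs] at this
          gcongr
    by_cases hz : ρ = 0
    · have hc : Real.cos t = 1 := by rw [hz] at hρ2; nlinarith
      have hs : Real.sin t = 0 := by
        have := Real.sin_sq_add_cos_sq t
        rw [hc] at this
        nlinarith
      have : ∀ p : E d × E d, ‖p.1 - R p‖ ^ 2 = 0 := by
        intro p; simp [hR, hc, hs]
      constructor
      · simp_rw [this]; exact integrable_zero _ _ _
      · simp_rw [this]; simp [hc]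
    · have hpos : 0 < ρ := lt_of_le_of_ne (Real.sqrt_nonneg _) (Ne.symm hz)
      have hab : ((1 - Real.cos t) / ρ) ^ 2 + (-Real.sin t / ρ) ^ 2 = 1 := by
        have := Real.sin_sq_add_cos_sq t
        rw [div_pow, div_pow, ← add_div, hρ2, div_eq_one_iff_eq]
        · nlinarith
        · rw [← hρ2]; positivity
      have hmp := gau_sum (d := d) hab
      have hR2 : ∀ p : E d × E d, ‖p.1 - R p‖ ^ 2 =
          ρ ^ 2 * ‖((1 - Real.cos t) / ρ) • p.1 + (-Real.sin t / ρ) • p.2‖ ^ 2 := by
        intro p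
        have : p.1 - R p = ρ • (((1 - Real.cos t) / ρ) • p.1 + (-Real.sin t / ρ) • p.2) := by
          rw [smul_add, smul_smul, smul_smul, mul_div_cancel₀ _ hz, mul_div_cancel₀ _ hz, hR]
          simp only
          rw [sub_smul, one_smul, neg_smul]
          abel
        rw [this, norm_smul, mul_pow, Real.norm_eq_abs, sq_abs]
      have hfn : AEStronglyMeasurable (fun u : E d => ‖u‖ ^ 2) (gam d) := hn2.aestronglyMeasurable
      have hint : Integrable (fun p : E d × E d =>
          ‖((1 - Real.cos t) / ρ) • p.1 + (-Real.sin t / ρ) • p.2‖ ^ 2) ((gam d).prod (gam d)) :=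
        (hmp.integrable_comp hfn).2 hn2
      have hval : ∫ p : E d × E d, ‖((1 - Real.cos t) / ρ) • p.1 + (-Real.sin t / ρ) • p.2‖ ^ 2
          ∂((gam d).prod (gam d)) = d := by
        rw [← hi2]
        conv_rhs => rw [← hmp.map_eq]
        rw [integral_map hmp.measurable.aemeasurable (by rw [hmp.map_eq]; exact hfn)]
      constructor
      · simp_rw [hR2]; exact hint.const_mul _
      · simp_rw [hR2]
        rw [integral_const_mul, hval, hρ2]
  -- sum and integral
  have hcX : Continuous D.X := hD.lip.continuous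
  have hcR : Continuous R := by rw [hR]; fun_prop
  have hint : ∀ a : Fin d, Integrable (fun p : E d × E d =>
      ((D.X p.1 a - p.1 a / 2) - (D.X (R p) a - (R p) a / 2)) ^ 2) ((gam d).prod (gam d)) := by
    intro a
    refine (hdi.1.div_const 4).mono' ?_ (Eventually.of_forall fun p => ?_)
    · exact (by fun_prop : Continuous (fun p : E d × E d =>
        ((D.X p.1 a - p.1 a / 2) - (D.X (R p) a - (R p) a / 2)) ^ 2)).aestronglyMeasurable
    · rw [Real.norm_eq_abs, abs_of_nonneg (sq_nonneg _)]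
      refine le_trans ?_ (hpt p)
      exact Finset.single_le_sum (f := fun a => ((D.X p.1 a - p.1 a / 2) - (D.X (R p) a - (R p) a / 2)) ^ 2)
        (fun _ _ => sq_nonneg _) (Finset.mem_univ a)
  calc _ = ∫ p : E d × E d, ∑ a, ((D.X p.1 a - p.1 a / 2) - (D.X (R p) a - (R p) a / 2)) ^ 2
        ∂((gam d).prod (gam d)) := (integral_finsetSum _ (fun a _ => hint a)).symm
    _ ≤ ∫ p : E d × E d, ‖p.1 - R p‖ ^ 2 / 4 ∂((gam d).prod (gam d)) :=
        integral_mono (integrable_finsetSum _ (fun a _ => hint a)) (hdi.1.div_const 4) hpt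
    _ = (2 - 2 * Real.cos t) * d / 4 := by rw [integral_div, hdi.2]
    _ ≤ _ := by
        have h1 : 1 - t ^ 2 / 2 ≤ Real.cos t := Real.one_sub_sq_div_two_le_cos
        have h2 : (0:ℝ) ≤ d := Nat.cast_nonneg d
        nlinarith

end Pool.Agent.KXP
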