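import Pool.Agent.KXP.Gau
import Pool.Agent.KXP.Oua
import Pool.Agent.KXP.Lcx

/-! KXP row UPA: the Gaussian Poincare inequality. -/

set_option autoImplicit false

open MeasureTheory ProbabilityTheory Filter Topology
open scoped BigOperators

namespace Pool.Agent.KXP

variable {d : ℕ} {ι : Type} [Fintype ι]

private theorem UpA_norm {g : Fin d → E d → ℝ} {K : ℝ} (hK : ∀ b u, |g b u| ≤ K) (u : E d) :
    ‖∑ b, (g b u) • (EuclideanSpace.proj b : E d →L[ℝ] ℝ)‖ ≤ d * K := by
  have h1 : ∀ b : Fin d, ‖(EuclideanSpace.proj b : E d →L[ℝ] ℝ)‖ ≤ 1 := by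
    intro b
    refine ContinuousLinearMap.opNorm_le_bound _ zero_le_one fun x => ?_
    rw [one_mul]
    exact PiLp.norm_apply_le x b
  calc ‖∑ b, (g b u) • (EuclideanSpace.proj b : E d →L[ℝ] ℝ)‖
      ≤ ∑ b : Fin d, ‖(g b u) • (EuclideanSpace.proj b : E d →L[ℝ] ℝ)‖ := norm_sum_le _ _
    _ ≤ ∑ _b : Fin d, K := by
        refine Finset.sum_le_sum fun b _ => ?_
        rw [norm_smul, Real.norm_eq_abs]
        have h2 := hK b u
        have h3 := h1 b
        have h4 := abs_nonneg (g b u)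
        have h5 := norm_nonneg (EuclideanSpace.proj b : E d →L[ℝ] ℝ)
        nlinarith
    _ = d * K := by simp

private theorem UpA_lip {f : E d → ℝ} {g : Fin d → E d → ℝ} (hf : ∀ u, HasFDerivAt f
      (∑ b, (g b u) • (EuclideanSpace.proj b : E d →L[ℝ] ℝ)) u) {K : ℝ} (hK : ∀ b u, |g b u| ≤ K)
    (u v : E d) : |f v - f u| ≤ (d * K) * ‖v - u‖ := by
  have := Convex.norm_image_sub_le_of_norm_hasFDerivWithin_le (𝕜 := ℝ) (f := f) (s := Set.univ)
    (C := d * K) (f' := fun u => ∑ b, (g b u) • (EuclideanSpace.proj b : E d →L[ℝ] ℝ))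
    (fun x _ => (hf x).hasFDerivWithinAt)
    (fun x _ => UpA_norm hK x) convex_univ (Set.mem_univ u) (Set.mem_univ v)
  simpa [Real.norm_eq_abs] using this

private theorem UpA_memLp {f : E d → ℝ} {L : ℝ} (hL : 0 ≤ L) (hc : Continuous f)
    (hf : ∀ u v, |f v - f u| ≤ L * ‖v - u‖) : MemLp f 2 (gam d) := by
  rw [memLp_two_iff_integrable_sq hc.aestronglyMeasurable]
  refine Integrable.mono' (g := fun u => 2 * f 0 ^ 2 + 2 * L ^ 2 * ‖u‖ ^ 2) ?_
    (hc.pow 2).aestronglyMeasurable (ae_of_all _ fun u => ?_)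
  · exact (integrable_const _).add ((gau_pow 2).const_mul _)
  · have h := hf 0 u
    rw [sub_zero] at h
    have h1 := abs_le.1 h
    rw [Real.norm_eq_abs, abs_pow, sq_abs]
    have h2 : 0 ≤ L * ‖u‖ := by positivity
    nlinarith [sq_nonneg (f 0 - (f u - f 0)), sq_nonneg (L * ‖u‖ - (f u - f 0))]

private theorem UpA_C {f : E d → ℝ} {L : ℝ} (hL : 0 ≤ L) (hc : Continuous f)
    (hlip : ∀ u v, |f v - f u| ≤ L * ‖v - u‖) (hm : ∫ u, f u ∂(gam d) = 0) :
    ∃ C : ℝ, ∀ r : ℝ, 0 ≤ r → r ≤ 1 / 2 → ∫ v, ou r f v ^ 2 ∂(gam d) ≤ C * r ^ (2 * 1) := by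
  have hf : MemLp f 2 (gam d) := UpA_memLp hL hc hlip
  set c : Fin d → ℝ := fun k => ∫ u, f u * u k ∂(gam d) with hcd
  set s : E d → ℝ := fun v => ∑ k, v k * c k with hs
  have hsm : MemLp s 2 (gam d) := by
    refine memLp_finsetSum _ fun k _ => ?_
    exact (Gau_memLp k).mul_const _
  have hsi : Integrable s (gam d) := hsm.integrable (by norm_num)
  have hfi : Integrable f (gam d) := hf.integrable (by norm_num)
  have hs0 : ∫ v, s v ∂(gam d) = 0 := by
    rw [hs]
    rw [integral_finsetSum _ fun k _ => ((Gau_memLp k).integrable (by norm_num)).mul_const _]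
    refine Finset.sum_eq_zero fun k _ => ?_
    rw [integral_mul_const, gau_mean, zero_mul]
  have hsk : ∀ k, ∫ v, s v * v k ∂(gam d) = c k := by
    intro k
    have e : ∀ v : E d, s v * v k = ∑ j, c j * (v j * v k) := by
      intro v
      rw [hs]
      simp only
      rw [Finset.sum_mul]
      refine Finset.sum_congr rfl fun j _ => ?_
      ring
    simp_rw [e]
    have hjk : ∀ j, Integrable (fun v : E d => c j * (v j * v k)) (gam d) := fun j =>
      ((Gau_memLp j).integrable_mul (Gau_memLp k)).const_mul (c j)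
    rw [integral_finsetSum _ fun j _ => hjk j]
    simp_rw [integral_const_mul, gau_cov]
    simp
  have hh : MemLp (fun v => f v - s v) 2 (gam d) := hf.sub hsm
  have hh0 : ∫ v, (f v - s v) ∂(gam d) = 0 := by
    rw [integral_sub hfi hsi, hm, hs0, sub_zero]
  have hhk : ∀ k, ∫ v, (f v - s v) * v k ∂(gam d) = 0 := by
    intro k
    have e : ∀ v : E d, (f v - s v) * v k = f v * v k - s v * v k := fun v => by ring
    simp_rw [e]
    have e1 : ∫ v, f v * v k ∂(gam d) = c k := rfl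
    have e2 := hsk k
    have e3 : ∫ v, (f v * v k - s v * v k) ∂(gam d) =
        (∫ v, f v * v k ∂(gam d)) - ∫ v, s v * v k ∂(gam d) :=
      integral_sub (hf.integrable_mul (Gau_memLp k)) (hsm.integrable_mul (Gau_memLp k))
    rw [e3, e1, e2, sub_self]
  have hou : ∀ r v, ou r f v = r * s v + ou r (fun v => f v - s v) v := by
    intro r v
    set σ : ℝ := Real.sqrt (1 - r ^ 2) with hσ
    have hσ0 : 0 ≤ σ := Real.sqrt_nonneg _
    have hi1 : Integrable (fun w : E d => f (r • v + σ • w)) (gam d) := by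
      refine Integrable.mono' (g := fun w => |f 0| + L * (‖r • v‖ + σ * ‖w‖)) ?_
        (by fun_prop : Continuous fun w : E d => f (r • v + σ • w)).aestronglyMeasurable
        (ae_of_all _ fun w => ?_)
      · refine (integrable_const _).add (Integrable.const_mul ?_ _)
        refine (integrable_const _).add (Integrable.const_mul ?_ _)
        simpa using gau_pow (d := d) 1
      · have h1 := hlip 0 (r • v + σ • w)
        rw [sub_zero] at h1
        have h2 : ‖r • v + σ • w‖ ≤ ‖r • v‖ + σ * ‖w‖ := by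
          refine (norm_add_le _ _).trans ?_
          rw [norm_smul σ w, Real.norm_eq_abs σ, abs_of_nonneg hσ0]
        have h3 : |f (r • v + σ • w) - f 0| ≤ L * (‖r • v‖ + σ * ‖w‖) :=
          h1.trans (mul_le_mul_of_nonneg_left h2 hL)
        rw [Real.norm_eq_abs]
        have h4 : |f (r • v + σ • w)| ≤ |f (r • v + σ • w) - f 0| + |f 0| := by
          have := abs_add_le (f (r • v + σ • w) - f 0) (f 0)
          rwa [sub_add_cancel] at this
        linarith
    have e : ∀ w, s (r • v + σ • w) = r * s v + σ * s w := by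
      intro w
      rw [hs]
      simp only
      rw [Finset.mul_sum, Finset.mul_sum, ← Finset.sum_add_distrib]
      refine Finset.sum_congr rfl fun k _ => ?_
      simp only [PiLp.add_apply, PiLp.smul_apply, smul_eq_mul]
      ring
    have hi2 : Integrable (fun w : E d => s (r • v + σ • w)) (gam d) := by
      simp_rw [e]
      exact (integrable_const _).add (hsi.const_mul _)
    have e3 : ou r (fun v => f v - s v) v = ou r f v - ∫ w, s (r • v + σ • w) ∂(gam d) := by
      unfold ou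
      exact integral_sub hi1 hi2
    have e4 : ∫ w, s (r • v + σ • w) ∂(gam d) = r * s v := by
      simp_rw [e]
      rw [integral_add (integrable_const _) (hsi.const_mul _)]
      have e5 : ∫ w, σ * s w ∂(gam d) = 0 := by
        rw [integral_const_mul, hs0, mul_zero]
      rw [e5]
      simp
    rw [e3, e4]
    ring
  refine ⟨2 * (∫ v, s v ^ 2 ∂(gam d)) + 2 * ∫ v, (f v - s v) ^ 2 ∂(gam d), fun r h0 h1 => ?_⟩
  have ho : MemLp (ou r f) 2 (gam d) := ou_memLp h0 (by linarith) hf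
  have ho2 : MemLp (ou r (fun v => f v - s v)) 2 (gam d) := ou_memLp h0 (by linarith) hh
  have h3 : ∫ v, ou r f v ^ 2 ∂(gam d) ≤
      ∫ v, (2 * r ^ 2 * s v ^ 2 + 2 * ou r (fun v => f v - s v) v ^ 2) ∂(gam d) := by
    refine integral_mono ho.integrable_sq ((hsm.integrable_sq.const_mul _).add
      (ho2.integrable_sq.const_mul 2)) fun v => ?_
    dsimp only
    rw [hou r v]
    nlinarith [sq_nonneg (r * s v - ou r (fun v => f v - s v) v)]
  rw [integral_add (hsm.integrable_sq.const_mul _) (ho2.integrable_sq.const_mul 2),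
    integral_const_mul, integral_const_mul] at h3
  have h2 := ou_decay h0 (by linarith : r ≤ 1) hh hh0 hhk
  have hr2 : r ^ 2 ≤ 1 := by nlinarith
  have h4 : r ^ 4 ≤ r ^ 2 := by nlinarith [mul_nonneg (sq_nonneg r) (sub_nonneg.2 hr2)]
  have h5 : r ^ 4 * ∫ v, (f v - s v) ^ 2 ∂(gam d) ≤ r ^ 2 * ∫ v, (f v - s v) ^ 2 ∂(gam d) :=
    mul_le_mul_of_nonneg_right h4 (integral_nonneg fun v => sq_nonneg _)
  rw [mul_one]
  nlinarith

/-- one step: `2 (1 - cos t) ∫ f ^ 2 ≤ E (f (u_t) - f u) ^ 2` -/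
private theorem UpA_step {f : E d → ℝ} {L : ℝ} (hL : 0 ≤ L) (hfc : Continuous f)
    (hlip : ∀ u v, |f v - f u| ≤ L * ‖v - u‖) (hf : MemLp f 2 (gam d))
    (hm : ∫ u, f u ∂(gam d) = 0) {t : ℝ} (h0 : 0 ≤ t) (h1 : t ≤ 1) :
    2 * (1 - Real.cos t) * ∫ u, f u ^ 2 ∂(gam d) ≤
      ∫ p : E d × E d, (f (Real.cos t • p.1 + Real.sin t • p.2) - f p.1) ^ 2
        ∂((gam d).prod (gam d)) := by
  have hpi := Real.pi_gt_three
  have hcos : 0 < Real.cos t := Real.cos_pos_of_mem_Ioo ⟨by linarith, by linarith⟩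
  have hcos1 : Real.cos t ≤ 1 := Real.cos_le_one t
  have hsin : Real.sqrt (1 - Real.cos t ^ 2) = Real.sin t := by
    rw [← Real.abs_sin_eq_sqrt_one_sub_cos_sq, abs_of_nonneg]
    exact Real.sin_nonneg_of_nonneg_of_le_pi h0 (by linarith)
  have hmp := gau_sum (d := d) (α := Real.cos t) (β := Real.sin t) (Real.cos_sq_add_sin_sq t)
  have hft : MemLp (fun p : E d × E d => f (Real.cos t • p.1 + Real.sin t • p.2)) 2
      ((gam d).prod (gam d)) := hf.comp_measurePreserving hmp
  have hf1 : MemLp (fun p : E d × E d => f p.1) 2 ((gam d).prod (gam d)) :=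
    hf.comp_measurePreserving measurePreserving_fst
  have hi : Integrable (fun p : E d × E d => f p.1 * f (Real.cos t • p.1 + Real.sin t • p.2))
      ((gam d).prod (gam d)) := hf1.integrable_mul hft
  have e1 : ∫ p : E d × E d, (f (Real.cos t • p.1 + Real.sin t • p.2)) ^ 2 ∂((gam d).prod (gam d)) =
      ∫ u, f u ^ 2 ∂(gam d) := by
    have h := integral_map (μ := (gam d).prod (gam d)) (f := fun u => f u ^ 2)
      hmp.measurable.aemeasurable (by
        rw [hmp.map_eq]
        exact hf.integrable_sq.aestronglyMeasurable)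
    rw [hmp.map_eq] at h
    exact h.symm
  have e2 : ∫ p : E d × E d, (f p.1) ^ 2 ∂((gam d).prod (gam d)) = ∫ u, f u ^ 2 ∂(gam d) := by
    have h := integral_map (μ := (gam d).prod (gam d)) (φ := Prod.fst) (f := fun u => f u ^ 2)
      measurable_fst.aemeasurable (by
        rw [(measurePreserving_fst (μ := gam d) (ν := gam d)).map_eq]
        exact hf.integrable_sq.aestronglyMeasurable)
    rw [(measurePreserving_fst (μ := gam d) (ν := gam d)).map_eq] at h
    exact h.symm
  have e3 := ou_pair (r := Real.cos t) hcos.le hcos1 hf hf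
  rw [hsin] at e3
  have e4 : ∫ p : E d × E d, (f (Real.cos t • p.1 + Real.sin t • p.2) - f p.1) ^ 2
        ∂((gam d).prod (gam d)) = 2 * ∫ u, f u ^ 2 ∂(gam d) -
        2 * ∫ v, f v * ou (Real.cos t) f v ∂(gam d) := by
    rw [e3]
    have : (fun p : E d × E d => (f (Real.cos t • p.1 + Real.sin t • p.2) - f p.1) ^ 2) =
        fun p => ((f (Real.cos t • p.1 + Real.sin t • p.2)) ^ 2 + (f p.1) ^ 2) -
          2 * (f p.1 * f (Real.cos t • p.1 + Real.sin t • p.2)) := by
      funext p; ring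
    rw [this]
    refine (integral_sub (hft.integrable_sq.add hf1.integrable_sq) (hi.const_mul 2)).trans ?_
    have e6 : ∫ p : E d × E d, ((f (Real.cos t • p.1 + Real.sin t • p.2)) ^ 2 + (f p.1) ^ 2)
        ∂((gam d).prod (gam d)) = (∫ p : E d × E d, (f (Real.cos t • p.1 + Real.sin t • p.2)) ^ 2
          ∂((gam d).prod (gam d))) + ∫ p : E d × E d, (f p.1) ^ 2 ∂((gam d).prod (gam d)) :=
      integral_add hft.integrable_sq hf1.integrable_sq
    have e7 : ∫ p : E d × E d, 2 * (f p.1 * f (Real.cos t • p.1 + Real.sin t • p.2))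
        ∂((gam d).prod (gam d)) = 2 * ∫ p : E d × E d,
          (f p.1 * f (Real.cos t • p.1 + Real.sin t • p.2)) ∂((gam d).prod (gam d)) :=
      integral_const_mul _ _
    rw [e7]
    refine (congrArg (fun x => x - 2 * ∫ p : E d × E d,
          (f p.1 * f (Real.cos t • p.1 + Real.sin t • p.2)) ∂((gam d).prod (gam d))) e6).trans ?_
    rw [e1, e2]
    ring
  have e5 : ∫ v, f v * ou (Real.cos t) f v ∂(gam d) ≤ Real.cos t * ∫ u, f u ^ 2 ∂(gam d) := by
    have ho : MemLp (ou (Real.cos t) f) 2 (gam d) := ou_memLp hcos.le hcos1 hf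
    have h3 := ou_lcx 1 hf (UpA_C hL hfc hlip hm) hcos.le hcos1
    have h4 : ∫ v, f v * ou (Real.cos t) f v ∂(gam d) ≤
        ∫ v, ((Real.cos t / 2) * f v ^ 2 + (1 / (2 * Real.cos t)) * ou (Real.cos t) f v ^ 2)
          ∂(gam d) := by
      refine integral_mono (hf.integrable_mul ho) ((hf.integrable_sq.const_mul _).add
        (ho.integrable_sq.const_mul _)) fun v => ?_
      dsimp only
      have h5 : 0 ≤ (1 / (2 * Real.cos t)) * (Real.cos t * f v - ou (Real.cos t) f v) ^ 2 := by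
        positivity
      have h6 : (1 / (2 * Real.cos t)) * (Real.cos t * f v - ou (Real.cos t) f v) ^ 2 =
          (Real.cos t / 2) * f v ^ 2 + (1 / (2 * Real.cos t)) * ou (Real.cos t) f v ^ 2 -
            f v * ou (Real.cos t) f v := by
        field_simp
        ring
      linarith
    rw [integral_add (hf.integrable_sq.const_mul _) (ho.integrable_sq.const_mul _),
      integral_const_mul, integral_const_mul] at h4
    have h7 : (1 / (2 * Real.cos t)) * ∫ v, ou (Real.cos t) f v ^ 2 ∂(gam d) ≤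
        (1 / (2 * Real.cos t)) * (Real.cos t ^ (2 * 1) * ∫ u, f u ^ 2 ∂(gam d)) :=
      mul_le_mul_of_nonneg_left h3 (by positivity)
    have h8 : (1 / (2 * Real.cos t)) * (Real.cos t ^ (2 * 1) * ∫ u, f u ^ 2 ∂(gam d)) =
        (Real.cos t / 2) * ∫ u, f u ^ 2 ∂(gam d) := by
      field_simp
    linarith
  rw [e4]
  linarith

private theorem UpA_dir {g : Fin d → E d → ℝ} (hg : ∀ b, Continuous (g b))
    {K : ℝ} (hK : ∀ b u, |g b u| ≤ K) :
    ∫ p : E d × E d, (∑ b, g b p.1 * p.2 b) ^ 2 ∂((gam d).prod (gam d)) =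
      ∑ b, ∫ u, g b u ^ 2 ∂(gam d) := by
  have hb : ∀ b, MemLp (g b) 2 (gam d) := fun b =>
    MemLp.of_bound (hg b).aestronglyMeasurable K (ae_of_all _ fun u => by
      rw [Real.norm_eq_abs]; exact hK b u)
  have e : ∀ p : E d × E d, (∑ b, g b p.1 * p.2 b) ^ 2 =
      ∑ b, ∑ c, (g b p.1 * g c p.1) * (p.2 b * p.2 c) := by
    intro p
    rw [sq, Finset.sum_mul_sum]
    refine Finset.sum_congr rfl fun b _ => Finset.sum_congr rfl fun c _ => ?_
    ring
  have hint : ∀ b c, Integrable (fun p : E d × E d => (g b p.1 * g c p.1) * (p.2 b * p.2 c))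
      ((gam d).prod (gam d)) := fun b c =>
    Integrable.mul_prod (f := fun u => g b u * g c u) (g := fun w : E d => w b * w c)
      ((hb b).integrable_mul (hb c)) ((Gau_memLp b).integrable_mul (Gau_memLp c))
  simp_rw [e]
  rw [integral_finsetSum _ fun b _ => integrable_finsetSum _ fun c _ => hint b c]
  refine Finset.sum_congr rfl fun b _ => ?_
  rw [integral_finsetSum _ fun c _ => hint b c]
  have e2 : ∀ c, ∫ p : E d × E d, (g b p.1 * g c p.1) * (p.2 b * p.2 c) ∂((gam d).prod (gam d)) =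
      (∫ u, g b u * g c u ∂(gam d)) * (if b = c then 1 else 0) := by
    intro c
    have := integral_prod_mul (μ := gam d) (ν := gam d) (fun u => g b u * g c u)
      (fun w : E d => w b * w c)
    rw [this, gau_cov]
  simp_rw [e2]
  simp [sq]

private theorem UpA_lim {f : E d → ℝ} {g : Fin d → E d → ℝ} (hf : ∀ u, HasFDerivAt f
      (∑ b, (g b u) • (EuclideanSpace.proj b : E d →L[ℝ] ℝ)) u) {K : ℝ} (hK : ∀ b u, |g b u| ≤ K) :
    Tendsto (fun t : ℝ => ∫ p : E d × E d,
        (t⁻¹ * (f (Real.cos t • p.1 + Real.sin t • p.2) - f p.1)) ^ 2 ∂((gam d).prod (gam d)))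
      (𝓝[>] 0) (𝓝 (∫ p : E d × E d, (∑ b, g b p.1 * p.2 b) ^ 2 ∂((gam d).prod (gam d)))) := by
  have hfc : Continuous f := continuous_iff_continuousAt.2 fun u => (hf u).continuousAt
  refine tendsto_integral_filter_of_dominated_convergence
    (fun p => 2 * (d * K) ^ 2 * (‖p.1‖ ^ 2 + ‖p.2‖ ^ 2)) ?_ ?_ ?_ ?_
  · refine Eventually.of_forall fun t => ?_
    have : Continuous fun p : E d × E d =>
        (t⁻¹ * (f (Real.cos t • p.1 + Real.sin t • p.2) - f p.1)) ^ 2 := by fun_prop
    exact this.aestronglyMeasurable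
  · have h1 : ∀ᶠ t : ℝ in 𝓝[>] 0, t ∈ Set.Ioc (0 : ℝ) 1 :=
      Ioc_mem_nhdsGT zero_lt_one
    filter_upwards [h1] with t ht
    refine ae_of_all _ fun p => ?_
    have h2 := UpA_lip hf hK p.1 (Real.cos t • p.1 + Real.sin t • p.2)
    have h3 : ‖Real.cos t • p.1 + Real.sin t • p.2 - p.1‖ ≤ t * (‖p.1‖ + ‖p.2‖) := by
      have e : Real.cos t • p.1 + Real.sin t • p.2 - p.1 =
          (Real.cos t - 1) • p.1 + Real.sin t • p.2 := by
        rw [sub_smul, one_smul]; abel
      rw [e]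
      refine (norm_add_le _ _).trans ?_
      rw [norm_smul, norm_smul, Real.norm_eq_abs, Real.norm_eq_abs]
      have h4 : |Real.cos t - 1| ≤ t := by
        have := Real.one_sub_sq_div_two_le_cos (x := t)
        have h5 := Real.cos_le_one t
        rw [abs_le]
        constructor
        · nlinarith [ht.1, ht.2]
        · linarith [ht.1]
      have h6 : |Real.sin t| ≤ t := by
        have := Real.abs_sin_le_abs (x := t)
        rwa [abs_of_pos ht.1] at this
      have := norm_nonneg p.1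
      have := norm_nonneg p.2
      nlinarith
    have hL : 0 ≤ (d : ℝ) * K := by
      rcases Nat.eq_zero_or_pos d with h | h
      · simp [h]
      · have : 0 ≤ K := (abs_nonneg _).trans (hK ⟨0, h⟩ 0)
        positivity
    have h7 : |f (Real.cos t • p.1 + Real.sin t • p.2) - f p.1| ≤
        (d * K) * (t * (‖p.1‖ + ‖p.2‖)) := h2.trans (mul_le_mul_of_nonneg_left h3 hL)
    have h8 : |t⁻¹ * (f (Real.cos t • p.1 + Real.sin t • p.2) - f p.1)| ≤
        (d * K) * (‖p.1‖ + ‖p.2‖) := by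
      rw [abs_mul, abs_of_pos (inv_pos.2 ht.1)]
      have : t⁻¹ * ((d * K) * (t * (‖p.1‖ + ‖p.2‖))) = (d * K) * (‖p.1‖ + ‖p.2‖) := by
        have := ht.1.ne'
        field_simp
      rw [← this]
      exact mul_le_mul_of_nonneg_left h7 (inv_pos.2 ht.1).le
    rw [Real.norm_eq_abs, abs_pow, sq_abs]
    have h9 := sq_le_sq' (by linarith [(abs_le.1 h8).1]) (abs_le.1 h8).2
    refine h9.trans ?_
    rw [mul_pow]
    have h10 : 0 ≤ ((d : ℝ) * K) ^ 2 := sq_nonneg _
    nlinarith [mul_nonneg h10 (sq_nonneg (‖p.1‖ - ‖p.2‖))]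
  · refine Integrable.const_mul ?_ _
    exact ((gau_pow 2).comp_fst _).add ((gau_pow 2).comp_snd _)
  · refine ae_of_all _ fun p => ?_
    refine Tendsto.pow ?_ 2
    have hc : HasDerivAt (fun t : ℝ => Real.cos t • p.1 + Real.sin t • p.2) p.2 0 := by
      have h1 := (Real.hasDerivAt_cos 0).smul_const p.1
      have h2 := (Real.hasDerivAt_sin 0).smul_const p.2
      have h3 : HasDerivAt (fun t : ℝ => Real.cos t • p.1 + Real.sin t • p.2)
          ((-Real.sin 0) • p.1 + Real.cos 0 • p.2) 0 := h1.add h2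
      simpa using h3
    have hd : HasDerivAt (fun t : ℝ => f (Real.cos t • p.1 + Real.sin t • p.2))
        (∑ b, g b p.1 * p.2 b) 0 := by
      have h0 : HasFDerivAt f (∑ b, (g b p.1) • (EuclideanSpace.proj b : E d →L[ℝ] ℝ))
          (Real.cos 0 • p.1 + Real.sin 0 • p.2) := by
        simpa using hf p.1
      have h4 := h0.comp_hasDerivAt (0 : ℝ) hc
      have e : (∑ b, (g b p.1) • (EuclideanSpace.proj b : E d →L[ℝ] ℝ)) p.2 =
          ∑ b, g b p.1 * p.2 b := by
        rw [_root_.sum_apply]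
        rfl
      rw [e] at h4
      exact h4
    have h5 := (hasDerivAt_iff_tendsto_slope.1 hd).mono_left
      (nhdsWithin_mono (0 : ℝ) (s := Set.Ioi 0) (t := {0}ᶜ) fun x hx => by
        simp only [Set.mem_compl_iff, Set.mem_singleton_iff]
        exact ne_of_gt hx)
    refine h5.congr' ?_
    refine Eventually.of_forall fun t => ?_
    simp [slope_def_field, div_eq_inv_mul]

/-- ROW UP1 (UpA.lean): Poincare inequality for C1 functions with bounded gradient (uses LCX with k = 1, KR3) -/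
theorem poinc {f : E d → ℝ} {g : Fin d → E d → ℝ} (hf : ∀ u, HasFDerivAt f
      (∑ b, (g b u) • (EuclideanSpace.proj b : E d →L[ℝ] ℝ)) u) (hg : ∀ b, Continuous (g b))
    {K : ℝ} (hK : ∀ b u, |g b u| ≤ K) (h0 : ∫ u, f u ∂(gam d) = 0) :
    ∫ u, f u ^ 2 ∂(gam d) ≤ ∑ b, ∫ u, g b u ^ 2 ∂(gam d) := by
  have hfc : Continuous f := continuous_iff_continuousAt.2 fun u => (hf u).continuousAt
  have hL : 0 ≤ (d : ℝ) * K := by
    rcases Nat.eq_zero_or_pos d with h | h
    · simp [h]
    · have : 0 ≤ K := (abs_nonneg _).trans (hK ⟨0, h⟩ 0)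
      positivity
  have hf2 : MemLp f 2 (gam d) := UpA_memLp hL hfc (UpA_lip hf hK)
  rw [← UpA_dir hg hK]
  have hlim := UpA_lim hf hK
  have hF : 0 ≤ ∫ u, f u ^ 2 ∂(gam d) := integral_nonneg fun u => sq_nonneg _
  have hl2 : Tendsto (fun t : ℝ => (1 - t ^ 2 * (5 / 48)) * ∫ u, f u ^ 2 ∂(gam d)) (𝓝[>] 0)
      (𝓝 (∫ u, f u ^ 2 ∂(gam d))) := by
    have hc : Continuous (fun t : ℝ => (1 - t ^ 2 * (5 / 48)) * ∫ u, f u ^ 2 ∂(gam d)) := by
      fun_prop
    have h := (hc.tendsto 0).mono_left (nhdsWithin_le_nhds (s := Set.Ioi 0))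
    simpa using h
  refine le_of_tendsto_of_tendsto hl2 hlim ?_
  have h1 : ∀ᶠ t : ℝ in 𝓝[>] 0, t ∈ Set.Ioc (0 : ℝ) 1 := Ioc_mem_nhdsGT zero_lt_one
  filter_upwards [h1] with t ht
  have h2 := UpA_step hL hfc (UpA_lip hf hK) hf2 h0 ht.1.le ht.2
  have h3 : ∫ p : E d × E d, (t⁻¹ * (f (Real.cos t • p.1 + Real.sin t • p.2) - f p.1)) ^ 2
      ∂((gam d).prod (gam d)) = (t⁻¹) ^ 2 * ∫ p : E d × E d,
        (f (Real.cos t • p.1 + Real.sin t • p.2) - f p.1) ^ 2 ∂((gam d).prod (gam d)) := by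
    rw [← integral_const_mul]
    refine integral_congr_ae (ae_of_all _ fun p => ?_)
    ring
  rw [h3]
  have h4 : t ^ 2 * (1 - t ^ 2 * (5 / 48)) ≤ 2 * (1 - Real.cos t) := by
    have h5 := Real.cos_bound (x := t) (by rw [abs_of_pos ht.1]; exact ht.2)
    rw [abs_of_pos ht.1] at h5
    have h6 := (abs_le.1 h5).2
    nlinarith
  have h7 : (1 - t ^ 2 * (5 / 48)) * ∫ u, f u ^ 2 ∂(gam d) =
      (t⁻¹) ^ 2 * ((t ^ 2 * (1 - t ^ 2 * (5 / 48))) * ∫ u, f u ^ 2 ∂(gam d)) := by
    have := ht.1.ne'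
    field_simp
  rw [h7]
  refine mul_le_mul_of_nonneg_left ?_ (sq_nonneg _)
  exact (mul_le_mul_of_nonneg_right h4 hF).trans h2

end Pool.Agent.KXP
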