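import Pool.Agent.KXP.Fib
import Pool.Agent.KXP.Ker

/-! KXP row UPB: the Mehler operator commutes with the derivative, for the map `X`. -/

set_option autoImplicit false

open MeasureTheory ProbabilityTheory Filter Topology
open scoped BigOperators

namespace Pool.Agent.KXP

variable {d : ℕ} {ι : Type} [Fintype ι]

theorem UpB_ac : gam d ≪ (volume : Measure (E d)) := by
  unfold gam
  rw [stdGaussian_eq]
  exact withDensity_absolutelyContinuous _ _

theorem UpB_ae {p : E d → Prop} (h : ∀ᵐ u ∂(volume : Measure (E d)), p u) (z : E d) {s : ℝ}
    (hs : s ≠ 0) : ∀ᵐ w ∂(gam d), p (z + s • w) := by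
  refine UpB_ac.ae_le ?_
  have q1 : Measure.QuasiMeasurePreserving (fun w : E d => s • w) volume volume :=
    Measure.quasiMeasurePreserving_smul volume hs
  have q2 : MeasurePreserving (fun w : E d => z + w) volume volume :=
    measurePreserving_add_left volume z
  exact (q2.quasiMeasurePreserving.comp q1).ae h

theorem UpB_norm_int : Integrable (fun w : E d => ‖w‖) (gam d) := by
  unfold gam
  exact (IsGaussian.integrable_id (μ := stdGaussian (E d))).norm

/-- the row of the projection as a functional -/
noncomputable def UpB_L (D : Pre d ι) (a : Fin d) (i : ι) : E d →L[ℝ] ℝ :=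
  ∑ b, (D.P i a b) • (EuclideanSpace.proj b : E d →L[ℝ] ℝ)

omit [Fintype ι] in
theorem UpB_L_apply (D : Pre d ι) (a : Fin d) (i : ι) (u : E d) :
    UpB_L D a i u = ∑ b, D.P i a b * u b := by
  simp [UpB_L]

theorem ou_deriv {D : Pre d ι} (hD : Good D) (a : Fin d) {r : ℝ} (h0 : 0 < r) (h1 : r < 1) :
    (∀ v, HasFDerivAt (ou r (fun u => D.X u a))
      (∑ b, (r * ou r (fun u => D.P (D.L u) a b) v) • (EuclideanSpace.proj b : E d →L[ℝ] ℝ)) v) ∧
    ∀ b, Continuous (ou r (fun u => D.P (D.L u) a b)) := by
  have hs : Real.sqrt (1 - r ^ 2) ≠ 0 := by
    apply ne_of_gt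
    apply Real.sqrt_pos.2
    nlinarith
  set s := Real.sqrt (1 - r ^ 2) with hsdef
  have hXc : Continuous D.X := hD.lip.continuous
  have hXa : Continuous (fun u => D.X u a) :=
    (EuclideanSpace.proj a : E d →L[ℝ] ℝ).continuous.comp hXc
  constructor
  · intro v
    have hF : HasFDerivAt (fun x => ∫ w, D.X (r • x + s • w) a ∂(gam d))
        (∫ w, r • UpB_L D a (D.L (r • v + s • w)) ∂(gam d)) v := by
      refine (hasFDerivAt_integral_of_dominated_loc_of_lip' (s := Set.univ) (bound := fun _ => r)
        Filter.univ_mem ?_ ?_ ?_ ?_ (integrable_const r) ?_).2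
      · intro x _
        exact (hXa.comp (continuous_const.add (continuous_const_smul s))).aestronglyMeasurable
      · have hm : AEStronglyMeasurable (fun w => D.X (r • v + s • w) a) (gam d) :=
          (hXa.comp (continuous_const.add (continuous_const_smul s))).aestronglyMeasurable
        have hb : Integrable (fun w : E d => (‖D.X 0‖ + ‖r • v‖) + |s| * ‖w‖) (gam d) :=
          (integrable_const _).add (UpB_norm_int.const_mul _)
        refine hb.mono' hm (Filter.Eventually.of_forall fun w => ?_)
        have e1 : ‖D.X (r • v + s • w) a‖ ≤ ‖D.X (r • v + s • w)‖ := PiLp.norm_apply_le _ _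
        have e2 := X_norm_le hD (r • v + s • w)
        have e3 : ‖r • v + s • w‖ ≤ ‖r • v‖ + |s| * ‖w‖ := by
          refine (norm_add_le _ _).trans ?_
          rw [norm_smul s w, Real.norm_eq_abs]
        linarith
      · refine Measurable.aestronglyMeasurable ?_
        have e : (fun w => r • UpB_L D a (D.L (r • v + s • w))) = fun w =>
            r • ∑ b, (D.P (D.L (r • v + s • w)) a b) • (EuclideanSpace.proj b : E d →L[ℝ] ℝ) := rfl
        rw [e]
        refine Measurable.const_smul ?_ r
        refine Finset.measurable_sum _ fun b _ => ?_
        refine Measurable.smul_const ?_ _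
        exact (fib_meas hD.meas (fun i => D.P i a b)).comp
          (measurable_const.add (measurable_const_smul s))
      · refine Filter.Eventually.of_forall fun w x _ => ?_
        have e1 : ‖D.X (r • x + s • w) a - D.X (r • v + s • w) a‖ ≤
            ‖D.X (r • x + s • w) - D.X (r • v + s • w)‖ := by
          have := PiLp.norm_apply_le (D.X (r • x + s • w) - D.X (r • v + s • w)) a
          simpa using this
        have e2 := hD.lip.dist_le_mul (r • x + s • w) (r • v + s • w)
        rw [dist_eq_norm, dist_eq_norm, NNReal.coe_one, one_mul] at e2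
        have e3 : r • x + s • w - (r • v + s • w) = r • (x - v) := by
          rw [smul_sub]; abel
        rw [e3, norm_smul, Real.norm_eq_abs, abs_of_pos h0] at e2
        exact e1.trans e2
      · filter_upwards [UpB_ae hD.loc (r • v) hs] with w hw
        set i := D.L (r • v + s • w) with hi
        have hg : HasFDerivAt (fun x : E d => (D.c i a + UpB_L D a i (s • w)) + (r • UpB_L D a i) x)
            (r • UpB_L D a i) v := ((r • UpB_L D a i).hasFDerivAt).const_add _
        refine hg.congr_of_eventuallyEq ?_
        have ht : Tendsto (fun x : E d => r • x + s • w) (𝓝 v) (𝓝 (r • v + s • w)) :=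
          ((continuous_const_smul r).add continuous_const).tendsto v
        filter_upwards [ht.eventually hw] with x hx
        rw [hD.aff, hx, ← UpB_L_apply, map_add, map_smul]
        simp only [_root_.smul_apply]
        ring
    have hint : ∀ b, Integrable (fun w => D.P (D.L (r • v + s • w)) a b) (gam d) := by
      intro b
      refine (integrable_const (1 : ℝ)).mono' ?_ (Filter.Eventually.of_forall fun w => ?_)
      · exact ((fib_meas hD.meas (fun i => D.P i a b)).comp
          (measurable_const.add (measurable_const_smul s))).aestronglyMeasurable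
      · exact P_abs_le hD _ a b
    have e : (∫ w, r • UpB_L D a (D.L (r • v + s • w)) ∂(gam d)) =
        ∑ b, (r * ou r (fun u => D.P (D.L u) a b) v) • (EuclideanSpace.proj b : E d →L[ℝ] ℝ) := by
      have e1 : (fun w => r • UpB_L D a (D.L (r • v + s • w))) = fun w =>
          ∑ b, (r * D.P (D.L (r • v + s • w)) a b) • (EuclideanSpace.proj b : E d →L[ℝ] ℝ) := by
        funext w
        simp only [UpB_L, Finset.smul_sum, smul_smul]
      rw [e1, integral_finsetSum]
      · refine Finset.sum_congr rfl fun b _ => ?_
        rw [integral_smul_const, integral_const_mul]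
        rfl
      · intro b _
        exact ((hint b).const_mul r).smul_const _
    rw [← e]
    exact hF
  · intro b
    rw [continuous_iff_continuousAt]
    intro v
    unfold ou
    refine continuousAt_of_dominated (bound := fun _ => (1 : ℝ)) ?_ ?_ (integrable_const _) ?_
    · refine Filter.Eventually.of_forall fun x => ?_
      exact ((fib_meas hD.meas (fun i => D.P i a b)).comp
          (measurable_const.add (measurable_const_smul s))).aestronglyMeasurable
    · exact Filter.Eventually.of_forall fun x => Filter.Eventually.of_forall fun w =>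
        P_abs_le hD _ a b
    · filter_upwards [UpB_ae hD.loc (r • v) hs] with w hw
      have ht : Tendsto (fun x : E d => r • x + s • w) (𝓝 v) (𝓝 (r • v + s • w)) :=
        ((continuous_const_smul r).add continuous_const).tendsto v
      have he : (fun x : E d => D.P (D.L (r • x + s • w)) a b) =ᶠ[𝓝 v]
          fun _ => D.P (D.L (r • v + s • w)) a b := by
        filter_upwards [ht.eventually hw] with x hx
        rw [hx]
      exact continuousAt_const.congr he.symm

end Pool.Agent.KXP
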