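import Pool.Agent.KXP.Gau
import Pool.Agent.KXP.Fib
import Pool.Agent.KXP.Oua
import Pool.Agent.KXP.Lcx
import Pool.Agent.KXP.Gro
import Pool.Agent.KXP.UpA
import Pool.Agent.KXP.UpB

/-! KXP row UPC: gap of degree 3 -/

set_option autoImplicit false

open MeasureTheory ProbabilityTheory Filter Topology
open scoped BigOperators

namespace Pool.Agent.KXP

variable {d : ℕ} {ι : Type} [Fintype ι]

/-- the odd function -/
private noncomputable def UpC_f (D : Pre d ι) (a : Fin d) (u : E d) : ℝ := D.X u a - u a / 2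

/-- the even function of mean zero -/
private noncomputable def UpC_h (D : Pre d ι) (a b : Fin d) (u : E d) : ℝ :=
  D.P (D.L u) a b - (if a = b then 1 / 2 else 0)

private theorem UpC_coord_cont (a : Fin d) : Continuous (fun u : E d => u a) :=
  (EuclideanSpace.proj a : E d →L[ℝ] ℝ).continuous

private theorem UpC_coord_le (u : E d) (a : Fin d) : |u a| ≤ ‖u‖ := by
  have := PiLp.norm_apply_le u a
  rwa [Real.norm_eq_abs] at this

omit [Fintype ι] in
private theorem UpC_X_cont {D : Pre d ι} (hD : Good D) (a : Fin d) :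
    Continuous (fun u => D.X u a) := (UpC_coord_cont a).comp hD.lip.continuous

omit [Fintype ι] in
private theorem UpC_f_cont {D : Pre d ι} (hD : Good D) (a : Fin d) : Continuous (UpC_f D a) :=
  (UpC_X_cont hD a).sub ((UpC_coord_cont a).div_const 2)

private theorem UpC_X_le {D : Pre d ι} (hD : Good D) (a : Fin d) (u : E d) :
    |D.X u a| ≤ ‖D.X 0‖ + ‖u‖ := (UpC_coord_le _ a).trans (X_norm_le hD u)

private theorem UpC_f_memLp {D : Pre d ι} (hD : Good D) (a : Fin d) :
    MemLp (UpC_f D a) 2 (gam d) := by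
  rw [memLp_two_iff_integrable_sq (UpC_f_cont hD a).aestronglyMeasurable]
  have hb : Integrable (fun u : E d => 2 * ‖D.X 0‖ ^ 2 + 8 * ‖u‖ ^ 2) (gam d) :=
    (integrable_const _).add ((gau_pow 2).const_mul 8)
  refine hb.mono' ((UpC_f_cont hD a).pow 2).aestronglyMeasurable (Eventually.of_forall fun u => ?_)
  rw [Real.norm_eq_abs, abs_of_nonneg (sq_nonneg _)]
  have h1 : |UpC_f D a u| ≤ ‖D.X 0‖ + 2 * ‖u‖ := by
    unfold UpC_f
    have h2 := UpC_X_le hD a u
    have h3 := UpC_coord_le u a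
    have h4 := abs_sub (D.X u a) (u a / 2)
    rw [abs_div, abs_two] at h4
    have h5 := norm_nonneg u
    linarith
  have h6 : UpC_f D a u ^ 2 ≤ (‖D.X 0‖ + 2 * ‖u‖) ^ 2 := sq_le_sq' (by
    have := neg_abs_le (UpC_f D a u); linarith) (by
    have := le_abs_self (UpC_f D a u); linarith)
  nlinarith [sq_nonneg (‖D.X 0‖ - 2 * ‖u‖)]

private theorem UpC_int_neg (φ : E d → ℝ) : ∫ u, φ (-u) ∂(gam d) = ∫ u, φ u ∂(gam d) :=
  gau_neg.integral_comp (MeasurableEquiv.neg (E d)).measurableEmbedding φ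

private theorem UpC_f_odd {D : Pre d ι} (hI : Iso D) (a : Fin d) (u : E d) :
    UpC_f D a (-u) = -UpC_f D a u := by
  have h := congrArg (fun x : E d => x a) (hI.odd u)
  have h' : D.X (-u) a = -(D.X u a) := h
  show D.X (-u) a - (-u) a / 2 = -(D.X u a - u a / 2)
  rw [h', PiLp.neg_apply]
  ring

private theorem UpC_f_int {D : Pre d ι} (hI : Iso D) (a : Fin d) :
    ∫ u, UpC_f D a u ∂(gam d) = 0 := by
  have h := UpC_int_neg (UpC_f D a)
  simp only [UpC_f_odd hI a] at h
  rw [integral_neg] at h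
  linarith

private theorem UpC_P_meas {D : Pre d ι} (hD : Good D) (a b : Fin d) :
    Measurable (fun u => D.P (D.L u) a b) := fib_meas hD.meas (fun i => D.P i a b)

private theorem UpC_h_meas {D : Pre d ι} (hD : Good D) (a b : Fin d) :
    Measurable (UpC_h D a b) := (UpC_P_meas hD a b).sub_const _

private theorem UpC_P_int {D : Pre d ι} (hD : Good D) (a b : Fin d) :
    Integrable (fun u => D.P (D.L u) a b) (gam d) :=
  Integrable.of_bound (UpC_P_meas hD a b).aestronglyMeasurable 1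
    (Eventually.of_forall fun u => by rw [Real.norm_eq_abs]; exact P_abs_le hD _ a b)

private theorem UpC_h_le {D : Pre d ι} (hD : Good D) (a b : Fin d) (u : E d) :
    |UpC_h D a b u| ≤ 2 := by
  have h1 := P_abs_le hD (D.L u) a b
  have h2 := abs_le.1 h1
  unfold UpC_h
  rw [abs_le]
  split_ifs <;> constructor <;> linarith

private theorem UpC_h_memLp {D : Pre d ι} (hD : Good D) (a b : Fin d) :
    MemLp (UpC_h D a b) 2 (gam d) :=
  MemLp.of_bound (UpC_h_meas hD a b).aestronglyMeasurable 2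
    (Eventually.of_forall fun u => by rw [Real.norm_eq_abs]; exact UpC_h_le hD a b u)

private theorem UpC_h_mean {D : Pre d ι} (hD : Good D) (hI : Iso D) (a b : Fin d) :
    ∫ u, UpC_h D a b u ∂(gam d) = 0 := by
  have h1 := A_eq hD.meas a b
  rw [hI.half] at h1
  simp only [UpC_h]
  rw [integral_sub (UpC_P_int hD a b) (integrable_const _), ← h1, integral_const]
  simp only [Matrix.smul_apply, Matrix.one_apply, smul_eq_mul, probReal_univ, one_mul]
  split_ifs <;> norm_num

private theorem UpC_h_even {D : Pre d ι} (hI : Iso D) (a b : Fin d) (u : E d) :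
    UpC_h D a b (-u) = UpC_h D a b u := by
  simp only [UpC_h, hI.even]

private theorem UpC_h_mom {D : Pre d ι} (hI : Iso D) (a b k : Fin d) :
    ∫ u, UpC_h D a b u * u k ∂(gam d) = 0 := by
  have h := UpC_int_neg (fun u : E d => UpC_h D a b u * u k)
  simp only [UpC_h_even hI a b, PiLp.neg_apply, mul_neg] at h
  rw [integral_neg] at h
  linarith

private theorem UpC_h_dec {D : Pre d ι} (hD : Good D) (hI : Iso D) (a b : Fin d) {r : ℝ}
    (h0 : 0 ≤ r) (h1 : r ≤ 1) : ∫ v, ou r (UpC_h D a b) v ^ 2 ∂(gam d) ≤ r ^ 4 * 4 := by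
  refine (ou_decay h0 h1 (UpC_h_memLp hD a b) (UpC_h_mean hD hI a b)
    (UpC_h_mom hI a b)).trans (mul_le_mul_of_nonneg_left ?_ (by positivity))
  have h2 : ∫ u, UpC_h D a b u ^ 2 ∂(gam d) ≤ ∫ _u : E d, (4 : ℝ) ∂(gam d) := by
    refine integral_mono_of_nonneg (Eventually.of_forall fun u => sq_nonneg _)
      (integrable_const _) (Eventually.of_forall fun u => ?_)
    have h3 := abs_le.1 (UpC_h_le hD a b u)
    show UpC_h D a b u ^ 2 ≤ 4
    nlinarith
  rw [integral_const, probReal_univ, one_smul] at h2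
  exact h2

/-- the affine image of an integrable function of at most linear growth -/
private theorem UpC_X_aff {D : Pre d ι} (hD : Good D) (a : Fin d) (r s : ℝ) (v : E d) :
    Integrable (fun w => D.X (r • v + s • w) a) (gam d) := by
  have hc : Continuous (fun w : E d => D.X (r • v + s • w) a) :=
    (UpC_X_cont hD a).comp (continuous_const.add (continuous_id.const_smul s))
  have hb : Integrable (fun w : E d => (‖D.X 0‖ + ‖r • v‖) + |s| * ‖w‖ ^ 1) (gam d) :=
    (integrable_const _).add ((gau_pow 1).const_mul _)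
  refine hb.mono' hc.aestronglyMeasurable (Eventually.of_forall fun w => ?_)
  rw [Real.norm_eq_abs]
  refine (UpC_X_le hD a _).trans ?_
  have := norm_add_le (r • v) (s • w)
  rw [norm_smul s w, Real.norm_eq_abs] at this
  rw [pow_one]
  linarith

private theorem UpC_coord_aff (a : Fin d) (r s : ℝ) (v : E d) :
    Integrable (fun w : E d => (r • v + s • w) a / 2) (gam d) := by
  have hc : Continuous (fun w : E d => (r • v + s • w) a / 2) :=
    ((UpC_coord_cont a).comp (continuous_const.add (continuous_id.const_smul s))).div_const 2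
  have hb : Integrable (fun w : E d => (‖r • v‖) + |s| * ‖w‖ ^ 1) (gam d) :=
    (integrable_const _).add ((gau_pow 1).const_mul _)
  refine hb.mono' hc.aestronglyMeasurable (Eventually.of_forall fun w => ?_)
  rw [Real.norm_eq_abs, abs_div, abs_two]
  have h1 := UpC_coord_le (r • v + s • w) a
  have := norm_add_le (r • v) (s • w)
  rw [norm_smul s w, Real.norm_eq_abs] at this
  rw [pow_one]
  have h2 := abs_nonneg ((r • v + s • w) a)
  linarith

private theorem UpC_coord_int (a : Fin d) : Integrable (fun w : E d => w a) (gam d) := by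
  have h := (UpC_coord_aff a 0 1 (0 : E d)).const_mul 2
  refine h.congr (Eventually.of_forall fun w => ?_)
  simp only [smul_zero, one_smul, zero_add]
  ring

private theorem UpC_ou_f {D : Pre d ι} (hD : Good D) (a : Fin d) (r : ℝ) (v : E d) :
    ou r (UpC_f D a) v = ou r (fun u => D.X u a) v - r * v a / 2 := by
  unfold ou
  simp only [UpC_f]
  rw [integral_sub (UpC_X_aff hD a r _ v) (UpC_coord_aff a r _ v)]
  congr 1
  have h1 : ∀ w : E d, (r • v + Real.sqrt (1 - r ^ 2) • w) a / 2 =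
      r * v a / 2 + (Real.sqrt (1 - r ^ 2) / 2) * w a := by
    intro w
    simp only [PiLp.add_apply, PiLp.smul_apply, smul_eq_mul]
    ring
  simp only [h1]
  rw [integral_add (integrable_const _) ((UpC_coord_int a).const_mul _), integral_const,
    integral_const_mul, gau_mean, mul_zero, add_zero, probReal_univ, one_smul]

private theorem UpC_ou_h {D : Pre d ι} (hD : Good D) (a b : Fin d) (r : ℝ) (v : E d) :
    ou r (UpC_h D a b) v = ou r (fun u => D.P (D.L u) a b) v - (if a = b then 1 / 2 else 0) := by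
  unfold ou
  simp only [UpC_h]
  have hm : Measurable (fun w : E d => D.P (D.L (r • v + Real.sqrt (1 - r ^ 2) • w)) a b) :=
    (UpC_P_meas hD a b).comp (by fun_prop)
  have hi : Integrable (fun w : E d => D.P (D.L (r • v + Real.sqrt (1 - r ^ 2) • w)) a b)
      (gam d) :=
    Integrable.of_bound hm.aestronglyMeasurable 1
      (Eventually.of_forall fun w => by rw [Real.norm_eq_abs]; exact P_abs_le hD _ a b)
  rw [integral_sub hi (integrable_const _), integral_const, probReal_univ, one_smul]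

private theorem UpC_deriv {D : Pre d ι} (hD : Good D) (a : Fin d) {r : ℝ} (h0 : 0 < r)
    (h1 : r < 1) (v : E d) :
    HasFDerivAt (ou r (UpC_f D a))
      (∑ b, (r * ou r (UpC_h D a b) v) • (EuclideanSpace.proj b : E d →L[ℝ] ℝ)) v := by
  have h2 := (ou_deriv hD a h0 h1).1 v
  have h3 : HasFDerivAt (fun v : E d => r * v a / 2)
      ((r / 2) • (EuclideanSpace.proj a : E d →L[ℝ] ℝ)) v := by
    have h4 := ((EuclideanSpace.proj a : E d →L[ℝ] ℝ).hasFDerivAt (x := v)).const_mul (r / 2)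
    refine h4.congr_of_eventuallyEq (Eventually.of_forall fun w => ?_)
    show r * w a / 2 = r / 2 * w a
    ring
  have h5 := h2.sub h3
  have h6 : (ou r (UpC_f D a)) = fun v => ou r (fun u => D.X u a) v - r * v a / 2 :=
    funext fun v => UpC_ou_f hD a r v
  rw [h6]
  refine h5.congr_fderiv ?_
  have h7 : ∀ b, (r * ou r (UpC_h D a b) v) • (EuclideanSpace.proj b : E d →L[ℝ] ℝ) =
      (r * ou r (fun u => D.P (D.L u) a b) v) • (EuclideanSpace.proj b : E d →L[ℝ] ℝ) -
        (if a = b then (r / 2) • (EuclideanSpace.proj b : E d →L[ℝ] ℝ) else 0) := by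
    intro b
    rw [UpC_ou_h hD a b r v]
    split_ifs
    · rw [← sub_smul]
      congr 1
      ring
    · rw [sub_zero, sub_zero]
  rw [Finset.sum_congr rfl (fun b _ => h7 b), Finset.sum_sub_distrib, Finset.sum_ite_eq,
    if_pos (Finset.mem_univ _)]

private theorem UpC_six {D : Pre d ι} (hD : Good D) (hI : Iso D) (a : Fin d) {r : ℝ}
    (h0 : 0 ≤ r) (h1 : r ≤ 1 / 2) :
    ∫ v, ou r (UpC_f D a) v ^ 2 ∂(gam d) ≤ (4 * d) * r ^ (2 * 3) := by
  rcases h0.eq_or_lt with h2 | h2
  · subst h2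
    have h3 : ∀ v, ou 0 (UpC_f D a) v = 0 := by
      intro v
      unfold ou
      simp only [zero_smul, zero_add, ne_eq, OfNat.ofNat_ne_zero, not_false_eq_true, zero_pow,
        sub_zero, Real.sqrt_one, one_smul]
      exact UpC_f_int hI a
    simp only [h3]
    simp
  · have h3 : r < 1 := by linarith
    have hP := poinc (f := ou r (UpC_f D a)) (g := fun b v => r * ou r (UpC_h D a b) v)
      (fun v => UpC_deriv hD a h2 h3 v) (fun b => by
        have h4 := (ou_deriv hD a h2 h3).2 b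
        have h5 : (fun v => r * ou r (UpC_h D a b) v) =
            fun v => r * (ou r (fun u => D.P (D.L u) a b) v - (if a = b then 1 / 2 else 0)) :=
          funext fun v => by rw [UpC_ou_h hD a b r v]
        rw [h5]
        exact continuous_const.mul (h4.sub continuous_const)) (K := 2) (fun b v => by
        have h4 := ou_bdd (r := r) (UpC_h_le hD a b) v
        rw [abs_mul, abs_of_pos h2]
        have h5 := abs_nonneg (ou r (UpC_h D a b) v)
        nlinarith) (by
        rw [ou_int h0 h3.le ((UpC_f_memLp hD a).integrable (by norm_num))]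
        exact UpC_f_int hI a)
    refine hP.trans ?_
    have h6 : ∀ b : Fin d, ∫ v, (r * ou r (UpC_h D a b) v) ^ 2 ∂(gam d) ≤ 4 * r ^ (2 * 3) := by
      intro b
      have h7 := UpC_h_dec hD hI a b h0 h3.le
      simp only [mul_pow]
      rw [integral_const_mul]
      calc r ^ 2 * ∫ v, ou r (UpC_h D a b) v ^ 2 ∂(gam d) ≤ r ^ 2 * (r ^ 4 * 4) :=
            mul_le_mul_of_nonneg_left h7 (sq_nonneg r)
        _ = 4 * r ^ (2 * 3) := by ring
    refine (Finset.sum_le_sum fun b _ => h6 b).trans ?_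
    rw [Finset.sum_const, Finset.card_univ, Fintype.card_fin, nsmul_eq_mul]
    linarith

private theorem UpC_lcx {D : Pre d ι} (hD : Good D) (hI : Iso D) (a : Fin d) {r : ℝ}
    (h0 : 0 ≤ r) (h1 : r ≤ 1) :
    ∫ v, ou r (UpC_f D a) v ^ 2 ∂(gam d) ≤ r ^ (2 * 3) * ∫ u, UpC_f D a u ^ 2 ∂(gam d) :=
  ou_lcx 3 (UpC_f_memLp hD a) ⟨4 * d, fun r h h' => UpC_six hD hI a h h'⟩ h0 h1

/-- the inner product with the Mehler average -/
private theorem UpC_pair {D : Pre d ι} (hD : Good D) (hI : Iso D) (a : Fin d) {r : ℝ}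
    (h0 : 0 ≤ r) (h1 : r ≤ 1) :
    ∫ v, UpC_f D a v * ou r (UpC_f D a) v ∂(gam d) ≤ r ^ 3 * ∫ u, UpC_f D a u ^ 2 ∂(gam d) := by
  have hf := UpC_f_memLp hD a
  have hg := ou_memLp h0 h1 hf
  have hf2 : Integrable (fun v => UpC_f D a v ^ 2) (gam d) := hf.integrable_sq
  have hg2 : Integrable (fun v => ou r (UpC_f D a) v ^ 2) (gam d) := hg.integrable_sq
  have hfg : Integrable (fun v => UpC_f D a v * ou r (UpC_f D a) v) (gam d) := hf.integrable_mul hg
  set I := ∫ u, UpC_f D a u ^ 2 ∂(gam d) with hIdef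
  have hI0 : 0 ≤ I := integral_nonneg fun _ => sq_nonneg _
  have hlc := UpC_lcx hD hI a h0 h1
  rcases h0.eq_or_lt with h2 | h2
  · -- r = 0
    have h3 : ∀ v, ou r (UpC_f D a) v = 0 := by
      intro v
      rw [← h2]
      unfold ou
      simp only [zero_smul, zero_add, ne_eq, OfNat.ofNat_ne_zero, not_false_eq_true, zero_pow,
        sub_zero, Real.sqrt_one, one_smul]
      exact UpC_f_int hI a
    simp only [h3, mul_zero, integral_zero]
    positivity
  · -- 2 r^3 f g ≤ r^6 f^2 + g^2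
    have h3 : ∫ v, 2 * r ^ 3 * (UpC_f D a v * ou r (UpC_f D a) v) ∂(gam d) ≤
        ∫ v, (r ^ 6 * UpC_f D a v ^ 2 + ou r (UpC_f D a) v ^ 2) ∂(gam d) := by
      refine integral_mono (hfg.const_mul _) ((hf2.const_mul _).add hg2) fun v => ?_
      show 2 * r ^ 3 * (UpC_f D a v * ou r (UpC_f D a) v) ≤
        r ^ 6 * UpC_f D a v ^ 2 + ou r (UpC_f D a) v ^ 2
      nlinarith [sq_nonneg (r ^ 3 * UpC_f D a v - ou r (UpC_f D a) v)]
    rw [integral_const_mul, integral_add (hf2.const_mul _) hg2, integral_const_mul, ← hIdef] at h3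
    have h4 : 0 < 2 * r ^ 3 := by positivity
    have h5 : 2 * r ^ 3 * ∫ v, UpC_f D a v * ou r (UpC_f D a) v ∂(gam d) ≤
        2 * r ^ 3 * (r ^ 3 * I) := by
      have h6 : r ^ (2 * 3) = r ^ 6 := by norm_num
      rw [h6] at hlc
      nlinarith
    exact le_of_mul_le_mul_left h5 h4

private theorem UpC_rot {D : Pre d ι} (hD : Good D) (hI : Iso D) (a : Fin d) {t : ℝ}
    (h0 : 0 ≤ t) (h1 : t ≤ 1) :
    2 * (1 - Real.cos t ^ 3) * ∫ u, UpC_f D a u ^ 2 ∂(gam d) ≤
      ∫ p : E d × E d, (UpC_f D a p.1 - UpC_f D a (Real.cos t • p.1 + Real.sin t • p.2)) ^ 2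
        ∂((gam d).prod (gam d)) := by
  have hpi := Real.pi_gt_three
  have hc0 : 0 ≤ Real.cos t := Real.cos_nonneg_of_neg_pi_div_two_le_of_le (by linarith) (by linarith)
  have hc1 : Real.cos t ≤ 1 := Real.cos_le_one t
  have hs0 : 0 ≤ Real.sin t := Real.sin_nonneg_of_nonneg_of_le_pi h0 (by linarith)
  have hsq : Real.sqrt (1 - Real.cos t ^ 2) = Real.sin t := by
    rw [← Real.sin_sq, Real.sqrt_sq hs0]
  have hf := UpC_f_memLp hD a
  have hf2 : Integrable (fun v => UpC_f D a v ^ 2) (gam d) := hf.integrable_sq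
  have hmp := gau_sum (d := d) (α := Real.cos t) (β := Real.sin t) (by
    rw [add_comm]; exact Real.sin_sq_add_cos_sq t)
  have hfst : MeasurePreserving (Prod.fst : E d × E d → E d) ((gam d).prod (gam d)) (gam d) :=
    measurePreserving_fst
  have i1 : Integrable (fun p : E d × E d => UpC_f D a p.1 ^ 2) ((gam d).prod (gam d)) :=
    hfst.integrable_comp_of_integrable hf2
  have i2 : Integrable (fun p : E d × E d =>
      UpC_f D a (Real.cos t • p.1 + Real.sin t • p.2) ^ 2) ((gam d).prod (gam d)) :=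
    hmp.integrable_comp_of_integrable hf2
  have m1 : MemLp (fun p : E d × E d => UpC_f D a p.1) 2 ((gam d).prod (gam d)) :=
    hf.comp_measurePreserving hfst
  have m2 : MemLp (fun p : E d × E d =>
      UpC_f D a (Real.cos t • p.1 + Real.sin t • p.2)) 2 ((gam d).prod (gam d)) :=
    hf.comp_measurePreserving hmp
  have i3 : Integrable (fun p : E d × E d => UpC_f D a p.1 *
      UpC_f D a (Real.cos t • p.1 + Real.sin t • p.2)) ((gam d).prod (gam d)) :=
    m1.integrable_mul m2
  have e1 : ∫ p : E d × E d, UpC_f D a p.1 ^ 2 ∂((gam d).prod (gam d)) =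
      ∫ u, UpC_f D a u ^ 2 ∂(gam d) := by
    have h := integral_map (μ := (gam d).prod (gam d)) (φ := (Prod.fst : E d × E d → E d))
      measurable_fst.aemeasurable (f := fun u => UpC_f D a u ^ 2)
      ((UpC_f_cont hD a).pow 2).aestronglyMeasurable
    rw [hfst.map_eq] at h
    exact h.symm
  have e2 : ∫ p : E d × E d, UpC_f D a (Real.cos t • p.1 + Real.sin t • p.2) ^ 2
      ∂((gam d).prod (gam d)) = ∫ u, UpC_f D a u ^ 2 ∂(gam d) := by
    have h := integral_map (μ := (gam d).prod (gam d))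
      (φ := fun p : E d × E d => Real.cos t • p.1 + Real.sin t • p.2)
      hmp.measurable.aemeasurable (f := fun u => UpC_f D a u ^ 2)
      ((UpC_f_cont hD a).pow 2).aestronglyMeasurable
    rw [hmp.map_eq] at h
    exact h.symm
  have e3 : ∫ p : E d × E d, UpC_f D a p.1 * UpC_f D a (Real.cos t • p.1 + Real.sin t • p.2)
      ∂((gam d).prod (gam d)) = ∫ v, UpC_f D a v * ou (Real.cos t) (UpC_f D a) v ∂(gam d) := by
    have h := ou_pair hc0 hc1 hf hf
    rw [hsq] at h
    exact h.symm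
  have e4 := UpC_pair hD hI a hc0 hc1
  have e5 : ∫ p : E d × E d, (UpC_f D a p.1 -
      UpC_f D a (Real.cos t • p.1 + Real.sin t • p.2)) ^ 2 ∂((gam d).prod (gam d)) =
      ∫ u, UpC_f D a u ^ 2 ∂(gam d) + ∫ u, UpC_f D a u ^ 2 ∂(gam d) -
        2 * ∫ v, UpC_f D a v * ou (Real.cos t) (UpC_f D a) v ∂(gam d) := by
    rw [← e3, ← integral_const_mul]
    nth_rewrite 1 [← e1]
    have i12 : Integrable (fun p : E d × E d => UpC_f D a p.1 ^ 2 +
        UpC_f D a (Real.cos t • p.1 + Real.sin t • p.2) ^ 2) ((gam d).prod (gam d)) := i1.add i2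
    rw [← e2, ← integral_add i1 i2, ← integral_sub i12 (i3.const_mul 2)]
    refine integral_congr_ae (Eventually.of_forall fun p => ?_)
    show (UpC_f D a p.1 - UpC_f D a (Real.cos t • p.1 + Real.sin t • p.2)) ^ 2 =
      UpC_f D a p.1 ^ 2 + UpC_f D a (Real.cos t • p.1 + Real.sin t • p.2) ^ 2 -
        2 * (UpC_f D a p.1 * UpC_f D a (Real.cos t • p.1 + Real.sin t • p.2))
    ring
  rw [e5]
  linarith

/-- ROW UP3 (UpC.lean): gap of degree 3 (uses UP1, UP2, LCX with k = 3, GRO) -/
theorem gap3 {D : Pre d ι} (hD : Good D) (hI : Iso D) :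
    ∑ a, ∫ u, (D.X u a - u a / 2) ^ 2 ∂(gam d) ≤ (d : ℝ) / 12 := by
  set S := ∑ a, ∫ u, (D.X u a - u a / 2) ^ 2 ∂(gam d) with hS
  have hS0 : 0 ≤ S := Finset.sum_nonneg fun a _ => integral_nonneg fun _ => sq_nonneg _
  have hS' : S = ∑ a, ∫ u, UpC_f D a u ^ 2 ∂(gam d) := rfl
  have key : ∀ t : ℝ, 0 < t → t ≤ 1 → (3 - 4 * t ^ 2) * S ≤ (d : ℝ) / 4 := by
    intro t ht ht1
    have h1 : 2 * (1 - Real.cos t ^ 3) * S ≤ t ^ 2 * ((d : ℝ) / 4) := by
      refine le_trans ?_ (gap_rot hD t)
      rw [hS', Finset.mul_sum]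
      exact Finset.sum_le_sum fun a _ => UpC_rot hD hI a ht.le ht1
    have h2 := Real.cos_bound (x := t) (by rw [abs_of_pos ht]; exact ht1)
    have h3 := (abs_le.1 h2).2
    rw [abs_of_pos ht] at h3
    have hpi := Real.pi_gt_three
    have hc0 : 0 ≤ Real.cos t :=
      Real.cos_nonneg_of_neg_pi_div_two_le_of_le (by linarith) (by linarith)
    have ht2 : t ^ 2 ≤ 1 := by nlinarith
    have h4 : Real.cos t ≤ 1 - t ^ 2 / 2 + t ^ 4 * (5 / 96) := by linarith
    set s := t ^ 2 with hs
    have hs0 : 0 < s := by positivity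
    have h4' : Real.cos t ≤ 1 - s / 2 + s ^ 2 * (5 / 96) := by
      have : t ^ 4 = s ^ 2 := by rw [hs]; ring
      rw [← this]; exact h4
    have h5 : Real.cos t ^ 3 ≤ (1 - s / 2 + s ^ 2 * (5 / 96)) ^ 3 :=
      pow_le_pow_left₀ hc0 h4' 3
    have h6 : (1 - s / 2 + s ^ 2 * (5 / 96)) ^ 3 ≤ 1 - 3 * s / 2 + 2 * s ^ 2 := by
      have ha : 0 ≤ 1 - s / 2 + s ^ 2 * (5 / 96) := hc0.trans h4'
      have hb : 1 - s / 2 + s ^ 2 * (5 / 96) ≤ 1 - s / 2 + s / 10 * s := by nlinarith
      have hc : (1 - s / 2 + s ^ 2 * (5 / 96)) ^ 3 ≤ (1 - s / 2 + s / 10 * s) ^ 3 :=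
        pow_le_pow_left₀ ha hb 3
      refine hc.trans ?_
      nlinarith [mul_nonneg hs0.le hs0.le, mul_nonneg (mul_nonneg hs0.le hs0.le) hs0.le,
        mul_nonneg (mul_nonneg hs0.le hs0.le) (sub_nonneg.2 ht2),
        mul_nonneg (mul_nonneg (mul_nonneg hs0.le hs0.le) hs0.le) (sub_nonneg.2 ht2)]
    have h7 : (3 * s - 4 * s ^ 2) * S ≤ 2 * (1 - Real.cos t ^ 3) * S :=
      mul_le_mul_of_nonneg_right (by linarith) hS0
    have h8 : s * ((3 - 4 * s) * S) ≤ s * ((d : ℝ) / 4) := by
      have : s * ((3 - 4 * s) * S) = (3 * s - 4 * s ^ 2) * S := by ring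
      rw [this]
      exact h7.trans h1
    exact le_of_mul_le_mul_left h8 hs0
  have h3 : 3 * S ≤ (d : ℝ) / 4 := by
    refine le_of_forall_pos_le_add fun ε hε => ?_
    have hpos : 0 < min 1 (ε / (4 * S + 1)) := lt_min one_pos (by positivity)
    have hle1 : min 1 (ε / (4 * S + 1)) ≤ 1 := min_le_left _ _
    have h1 := key _ hpos hle1
    have h2 : (min 1 (ε / (4 * S + 1))) ^ 2 ≤ ε / (4 * S + 1) := by
      calc (min 1 (ε / (4 * S + 1))) ^ 2 = min 1 (ε / (4 * S + 1)) * min 1 (ε / (4 * S + 1)) := by ring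
        _ ≤ 1 * (ε / (4 * S + 1)) := mul_le_mul hle1 (min_le_right _ _) hpos.le zero_le_one
        _ = ε / (4 * S + 1) := one_mul _
    have h4 : 4 * (min 1 (ε / (4 * S + 1))) ^ 2 * S ≤ ε := by
      calc 4 * (min 1 (ε / (4 * S + 1))) ^ 2 * S ≤ 4 * (ε / (4 * S + 1)) * S := by gcongr
        _ = ε * (4 * S / (4 * S + 1)) := by ring
        _ ≤ ε * 1 := by
            refine mul_le_mul_of_nonneg_left ?_ hε.le
            rw [div_le_one (by positivity)]
            linarith
        _ = ε := mul_one _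
    have h5 : (3 - 4 * (min 1 (ε / (4 * S + 1))) ^ 2) * S =
        3 * S - 4 * (min 1 (ε / (4 * S + 1))) ^ 2 * S := by ring
    linarith
  linarith

end Pool.Agent.KXP
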