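import Pool.Agent.KXP.Iso2
import Pool.Agent.KXP.StC
import Pool.Agent.KXP.GeD
import Pool.Agent.KXP.GeE
import Pool.Agent.KXP.Cnt
import Pool.Agent.KXP.McA
import Pool.Agent.KXP.McC
import Pool.Agent.KXP.UpC

/-! KXP: isotropic position and the first form of the theorem (constant 2.08). -/

set_option autoImplicit false

open MeasureTheory ProbabilityTheory Filter Topology
open scoped BigOperators

namespace Pool.Agent.KXP

variable {d : ℕ}

theorem Fin_ne (S : Finset (E d)) (hint : (interior (convexHull ℝ (S : Set (E d)))).Nonempty) :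
    S.Nonempty := by
  obtain ⟨x, hx⟩ := hint
  have h := interior_subset hx
  by_contra hS
  rw [Finset.not_nonempty_iff_eq_empty] at hS
  subst hS
  simp at h

/-- some isotropic position exists -/
theorem exists_iso (S : Finset (E d)) (hint : (interior (convexHull ℝ (S : Set (E d)))).Nonempty)
    (hsym : ∀ x ∈ convexHull ℝ (S : Set (E d)), -x ∈ convexHull ℝ (S : Set (E d))) :
    ∃ M : Matrix (Fin d) (Fin d) ℝ, Good (geo S M) ∧ Iso (geo S M) := by
  have hS := Fin_ne S hint
  obtain ⟨M, hM⟩ := exists_half S hint hsym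
    (fun M a b => (A_eq (geo_good S hS M).meas a b).trans (stein0 (geo_good S hS M) a b))
    (fun M a b => by
      simp only [A, Matrix.sum_apply, Matrix.smul_apply]
      exact Finset.sum_congr rfl fun i _ => by rw [(geo_good S hS M).sym i a b])
  exact ⟨M, geo_good S hS M, ⟨fun u => near_odd S hS hsym M u, fun u => geo_even S hS hsym M u,
    fun u a => near_pc S hS M u a, hM⟩⟩

/-- from an entropy bound in isotropic position to the number of faces -/
theorem Fin_count (S : Finset (E d)) (hS : S.Nonempty) (M : Matrix (Fin d) (Fin d) ℝ)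
    (hG : Good (geo S M)) {x : ℝ} (hx : x ≤ ent (geo S M)) : Real.exp x ≤ ((faces S).ncard : ℝ) := by
  have hC := ent_le_log (geo S M) hG.meas
  have hn := lab_card S hS M
  have hpos : 0 < (Set.range (geo S M).L).ncard := by
    rw [Set.ncard_pos (Set.toFinite _)]
    exact Set.range_nonempty _
  have h2 : Real.exp x ≤ ((Set.range (geo S M).L).ncard : ℝ) := by
    rw [← Real.exp_log (Nat.cast_pos.2 hpos : (0 : ℝ) < ((Set.range (geo S M).L).ncard : ℝ))]
    exact Real.exp_le_exp.2 (hx.trans hC)
  refine h2.trans ?_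
  exact_mod_cast hn

theorem main4 (d : ℕ) (S : Finset (E d)) (hint : (interior (convexHull ℝ (S : Set (E d)))).Nonempty)
    (hsym : ∀ x ∈ convexHull ℝ (S : Set (E d)), -x ∈ convexHull ℝ (S : Set (E d))) {t : ℝ} (h0 : 0 ≤ t)
    (h1 : t < 1) :
    (faces S).Finite ∧
      Real.exp ((d : ℝ) * (Real.log 2 * (1 - t ^ 2) + t / 3)) ≤ ((faces S).ncard : ℝ) := by
  have hS := Fin_ne S hint
  obtain ⟨M, hG, hI⟩ := exists_iso S hint hsym
  have hgap := gap3 hG hI
  have hY := mac_Y_of hG hI (1 / 12) (by norm_num) (by linarith)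
  have hE := mac_of hG hI (2 / 3) (by linarith) h0 h1
  refine ⟨faces_finite S, Fin_count S hS M hG ?_⟩
  refine le_trans (le_of_eq ?_) hE
  ring

/-- exponential lower bound, first form -/
theorem final0 (d : ℕ) (S : Finset (E d)) (hint : (interior (convexHull ℝ (S : Set (E d)))).Nonempty)
    (hsym : ∀ x ∈ convexHull ℝ (S : Set (E d)), -x ∈ convexHull ℝ (S : Set (E d))) :
    (faces S).Finite ∧ (2.08 : ℝ) ^ d ≤ ((faces S).ncard : ℝ) := by
  obtain ⟨h1, h2⟩ := main4 d S hint hsym (t := 0.24) (by norm_num) (by norm_num)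
  refine ⟨h1, le_trans ?_ h2⟩
  rw [show (2.08 : ℝ) = Real.exp (Real.log 2.08) by rw [Real.exp_log (by norm_num)], ← Real.exp_nat_mul]
  apply Real.exp_le_exp.2
  refine mul_le_mul_of_nonneg_left ?_ (Nat.cast_nonneg d)
  have e1 : Real.log 2.08 = Real.log 2 + Real.log 1.04 := by
    rw [← Real.log_mul (by norm_num) (by norm_num)]; norm_num
  have e2 : Real.log 1.04 ≤ 1.04 - 1 := Real.log_le_sub_one_of_pos (by norm_num)
  have e3 := Real.log_two_lt_d9
  rw [e1]
  nlinarith

end Pool.Agent.KXP
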