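import Pool.Agent.KXP.Gau
import Pool.Agent.KXP.Fib
import Pool.Agent.KXP.StC
import Pool.Agent.KXP.Oua
import Pool.Agent.KXP.Lcx
import Pool.Agent.KXP.Gro

/-! KXP row GAP: the degree two spectral gap for the map `X - u/2`. -/

set_option autoImplicit false

open MeasureTheory ProbabilityTheory Filter Topology
open scoped BigOperators

namespace Pool.Agent.KXP

variable {d : ℕ} {ι : Type} [Fintype ι]

namespace GAP

omit [Fintype ι] in
theorem cont {D : Pre d ι} (hD : Good D) (a : Fin d) :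
    Continuous (fun u : E d => D.X u a - u a / 2) := by
  have h1 : Continuous D.X := hD.lip.continuous
  have h2 : Continuous (fun u : E d => u a) := by fun_prop
  have h3 : Continuous (fun u : E d => D.X u a) := by fun_prop
  exact h3.sub (h2.div_const 2)

theorem norm_memLp (d : ℕ) : MemLp (fun u : E d => ‖u‖) 2 (gam d) :=
  (memLp_two_iff_integrable_sq continuous_norm.aestronglyMeasurable).2 (gau_pow 2)

omit [Fintype ι] in
theorem X_le {D : Pre d ι} (hD : Good D) (u : E d) : ‖D.X u‖ ≤ ‖D.X 0‖ + ‖u‖ := by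
  have h := hD.lip.dist_le_mul u 0
  rw [dist_eq_norm, dist_zero_right, NNReal.coe_one, one_mul] at h
  have h2 := norm_sub_norm_le (D.X u) (D.X 0)
  linarith

omit [Fintype ι] in
theorem memf {D : Pre d ι} (hD : Good D) (a : Fin d) :
    MemLp (fun u : E d => D.X u a - u a / 2) 2 (gam d) := by
  have c1 : MemLp (fun _ : E d => ‖D.X 0‖) 2 (gam d) := memLp_const _
  have c2 : MemLp (fun u : E d => (3 / 2 : ℝ) * ‖u‖) 2 (gam d) := (norm_memLp d).const_mul (3 / 2 : ℝ)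
  have h1 : MemLp (fun u : E d => ‖D.X 0‖ + (3 / 2 : ℝ) * ‖u‖) 2 (gam d) := c1.add c2
  refine h1.of_le (cont hD a).aestronglyMeasurable (ae_of_all _ fun u => ?_)
  have h2 : |D.X u a| ≤ ‖D.X u‖ := PiLp.norm_apply_le (D.X u) a
  have h3 : |u a| ≤ ‖u‖ := PiLp.norm_apply_le u a
  have h4 := X_le hD u
  have h5 : |D.X u a - u a / 2| ≤ |D.X u a| + |u a / 2| := abs_sub _ _
  have h6 : |u a / 2| = |u a| / 2 := by rw [abs_div, abs_of_pos (by norm_num : (0 : ℝ) < 2)]
  rw [Real.norm_eq_abs, Real.norm_eq_abs,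
    abs_of_nonneg (by positivity : (0 : ℝ) ≤ ‖D.X 0‖ + (3 / 2) * ‖u‖)]
  linarith [norm_nonneg u]

theorem coord_memLp (a : Fin d) : MemLp (fun u : E d => u a) 2 (gam d) := by
  refine (norm_memLp d).of_le (by fun_prop : Continuous (fun u : E d => u a)).aestronglyMeasurable
    (ae_of_all _ fun u => ?_)
  rw [norm_norm]
  exact PiLp.norm_apply_le u a

omit [Fintype ι] in
theorem X_memLp {D : Pre d ι} (hD : Good D) (a : Fin d) :
    MemLp (fun u : E d => D.X u a) 2 (gam d) := by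
  have h := (memf hD a).add ((coord_memLp (d := d) a).const_mul (1 / 2))
  refine h.congr_norm ?_ (ae_of_all _ fun u => ?_)
  · have h1 : Continuous D.X := hD.lip.continuous
    exact (by fun_prop : Continuous (fun u : E d => D.X u a)).aestronglyMeasurable
  · simp only [Pi.add_apply]
    congr 1
    ring

/-- the inequality for one function: rotation by an angle -/
theorem one {f : E d → ℝ} (hf : MemLp f 2 (gam d)) (hm : ∫ u, f u ∂(gam d) = 0)
    (hk : ∀ k, ∫ u, f u * u k ∂(gam d) = 0) {r : ℝ} (h0 : 0 < r) (h1 : r ≤ 1) :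
    2 * (1 - r ^ 2) * ∫ u, f u ^ 2 ∂(gam d) ≤
      ∫ p : E d × E d, (f p.1 - f (r • p.1 + Real.sqrt (1 - r ^ 2) • p.2)) ^ 2
        ∂((gam d).prod (gam d)) := by
  have hr : 0 ≤ 1 - r ^ 2 := by nlinarith
  have hs : r ^ 2 + Real.sqrt (1 - r ^ 2) ^ 2 = 1 := by rw [Real.sq_sqrt hr]; ring
  have hmp := gau_sum (d := d) hs
  have hfst : MeasurePreserving (Prod.fst : E d × E d → E d) ((gam d).prod (gam d)) (gam d) :=
    measurePreserving_fst
  have g1 : MemLp (fun p : E d × E d => f p.1) 2 ((gam d).prod (gam d)) :=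
    hf.comp_measurePreserving hfst
  have g2 : MemLp (fun p : E d × E d => f (r • p.1 + Real.sqrt (1 - r ^ 2) • p.2)) 2
      ((gam d).prod (gam d)) := hf.comp_measurePreserving hmp
  have e1 : ∫ p : E d × E d, f p.1 ^ 2 ∂((gam d).prod (gam d)) = ∫ u, f u ^ 2 ∂(gam d) := by
    have h : AEStronglyMeasurable (fun u => f u ^ 2) (gam d) := hf.1.pow 2
    rw [← hfst.map_eq] at h
    conv_rhs => rw [← hfst.map_eq]
    rw [integral_map hfst.aemeasurable h]
  have e2 : ∫ p : E d × E d, f (r • p.1 + Real.sqrt (1 - r ^ 2) • p.2) ^ 2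
      ∂((gam d).prod (gam d)) = ∫ u, f u ^ 2 ∂(gam d) := by
    have h : AEStronglyMeasurable (fun u => f u ^ 2) (gam d) := hf.1.pow 2
    rw [← hmp.map_eq] at h
    conv_rhs => rw [← hmp.map_eq]
    rw [integral_map hmp.aemeasurable h]
  have e3 := ou_pair h0.le h1 hf hf
  have e4 := ou_decay h0.le h1 hf hm hk
  have m2 := ou_memLp h0.le h1 hf
  have i1 : Integrable (fun p : E d × E d => f p.1 ^ 2) ((gam d).prod (gam d)) := g1.integrable_sq
  have i2 : Integrable (fun p : E d × E d => f (r • p.1 + Real.sqrt (1 - r ^ 2) • p.2) ^ 2)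
      ((gam d).prod (gam d)) := g2.integrable_sq
  have i3 : Integrable (fun p : E d × E d =>
      f p.1 * f (r • p.1 + Real.sqrt (1 - r ^ 2) • p.2)) ((gam d).prod (gam d)) :=
    g1.integrable_mul g2
  have i12 : Integrable (fun p : E d × E d =>
      f p.1 ^ 2 + f (r • p.1 + Real.sqrt (1 - r ^ 2) • p.2) ^ 2) ((gam d).prod (gam d)) := i1.add i2
  have i4 : Integrable (fun p : E d × E d =>
      2 * (f p.1 * f (r • p.1 + Real.sqrt (1 - r ^ 2) • p.2))) ((gam d).prod (gam d)) :=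
    i3.const_mul 2
  have e5 : ∫ p : E d × E d, (f p.1 - f (r • p.1 + Real.sqrt (1 - r ^ 2) • p.2)) ^ 2
        ∂((gam d).prod (gam d)) =
      2 * ∫ u, f u ^ 2 ∂(gam d) - 2 * ∫ v, f v * ou r f v ∂(gam d) := by
    have h : ∀ p : E d × E d, (f p.1 - f (r • p.1 + Real.sqrt (1 - r ^ 2) • p.2)) ^ 2 =
        (f p.1 ^ 2 + f (r • p.1 + Real.sqrt (1 - r ^ 2) • p.2) ^ 2) -
          2 * (f p.1 * f (r • p.1 + Real.sqrt (1 - r ^ 2) • p.2)) := fun p => by ring
    simp only [h]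
    rw [integral_sub i12 i4, integral_add i1 i2, integral_const_mul, e1, e2, e3]
    ring
  have j1 : Integrable (fun v => f v ^ 2) (gam d) := hf.integrable_sq
  have j2 : Integrable (fun v => ou r f v ^ 2) (gam d) := m2.integrable_sq
  have j3 : Integrable (fun v => f v * ou r f v) (gam d) := hf.integrable_mul m2
  have hr2 : 0 < r ^ 2 := by positivity
  have e6 : 2 * r ^ 2 * ∫ v, f v * ou r f v ∂(gam d) ≤
      r ^ 4 * ∫ v, f v ^ 2 ∂(gam d) + ∫ v, ou r f v ^ 2 ∂(gam d) := by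
    rw [← integral_const_mul, ← integral_const_mul, ← integral_add (j1.const_mul _) j2]
    refine integral_mono (j3.const_mul _) ((j1.const_mul _).add j2) fun v => ?_
    have hv := sq_nonneg (r ^ 2 * f v - ou r f v)
    have hv2 : (r ^ 2 * f v - ou r f v) ^ 2 = r ^ 4 * f v ^ 2 + ou r f v ^ 2 - 2 * r ^ 2 * (f v * ou r f v) := by ring
    show 2 * r ^ 2 * (f v * ou r f v) ≤ r ^ 4 * f v ^ 2 + ou r f v ^ 2
    linarith
  have e7 : ∫ v, f v * ou r f v ∂(gam d) ≤ r ^ 2 * ∫ v, f v ^ 2 ∂(gam d) := by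
    have h : 2 * r ^ 2 * ∫ v, f v * ou r f v ∂(gam d) ≤
        2 * r ^ 2 * (r ^ 2 * ∫ v, f v ^ 2 ∂(gam d)) := by
      calc _ ≤ _ := e6
        _ ≤ r ^ 4 * ∫ v, f v ^ 2 ∂(gam d) + r ^ 4 * ∫ v, f v ^ 2 ∂(gam d) := by linarith
        _ = _ := by ring
    exact le_of_mul_le_mul_left h (by positivity)
  rw [e5]
  linarith

end GAP

theorem gap {D : Pre d ι} (hD : Good D) (h0 : ∀ a, ∫ u, D.X u a ∂(gam d) = 0)
    (hh : A D = (1 / 2 : ℝ) • (1 : Matrix (Fin d) (Fin d) ℝ)) :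
    ∑ a, ∫ u, (D.X u a - u a / 2) ^ 2 ∂(gam d) ≤ (d : ℝ) / 8 := by
  have hXi : ∀ a, Integrable (fun u : E d => D.X u a) (gam d) := fun a =>
    (GAP.X_memLp hD a).integrable (by norm_num)
  have hui : ∀ a, Integrable (fun u : E d => u a) (gam d) := fun a =>
    (GAP.coord_memLp (d := d) a).integrable (by norm_num)
  have hm : ∀ a, ∫ u, (D.X u a - u a / 2) ∂(gam d) = 0 := by
    intro a
    rw [integral_sub (hXi a) ((hui a).div_const 2), h0, integral_div, gau_mean]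
    norm_num
  have hk : ∀ a k, ∫ u, (D.X u a - u a / 2) * u k ∂(gam d) = 0 := by
    intro a k
    have h1 : ∀ u : E d, (D.X u a - u a / 2) * u k = D.X u a * u k - 1 / 2 * (u a * u k) :=
      fun u => by ring
    simp only [h1]
    have q1 : Integrable (fun u : E d => D.X u a * u k) (gam d) :=
      (GAP.X_memLp hD a).integrable_mul (GAP.coord_memLp (d := d) k)
    have q2 : Integrable (fun u : E d => 1 / 2 * (u a * u k)) (gam d) :=
      ((GAP.coord_memLp (d := d) a).integrable_mul (GAP.coord_memLp (d := d) k)).const_mul _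
    rw [integral_sub q1 q2, integral_const_mul, gau_cov, ← stein0 hD a k, ← A_eq hD.meas a k, hh]
    rw [Matrix.smul_apply, Matrix.one_apply, smul_eq_mul]
    ring
  set S : ℝ := ∑ a, ∫ u, (D.X u a - u a / 2) ^ 2 ∂(gam d) with hS
  have hS0 : 0 ≤ S := Finset.sum_nonneg fun a _ => integral_nonneg fun u => sq_nonneg _
  have key : ∀ t : ℝ, 0 < t → t ≤ 1 → (1 - t ^ 2 / 4) ^ 2 * S ≤ (d : ℝ) / 8 := by
    intro t ht0 ht1
    have hpi : t < Real.pi / 2 := lt_of_le_of_lt ht1 (by linarith [Real.pi_gt_three])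
    have hc0 : 0 < Real.cos t := Real.cos_pos_of_mem_Ioo ⟨by linarith, hpi⟩
    have hsn : 0 ≤ Real.sin t := Real.sin_nonneg_of_nonneg_of_le_pi ht0.le (by linarith)
    have hsq : Real.sqrt (1 - Real.cos t ^ 2) = Real.sin t := by
      rw [← Real.abs_sin_eq_sqrt_one_sub_cos_sq, abs_of_nonneg hsn]
    have h1 := gap_rot hD t
    have h2 : 2 * (1 - Real.cos t ^ 2) * S ≤ t ^ 2 * ((d : ℝ) / 4) := by
      refine le_trans ?_ h1
      rw [hS, Finset.mul_sum]
      refine Finset.sum_le_sum fun a _ => ?_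
      have h3 := GAP.one (GAP.memf hD a) (hm a) (hk a) hc0 (Real.cos_le_one t)
      rw [hsq] at h3
      exact h3
    have h4 : 1 - Real.cos t ^ 2 = Real.sin t ^ 2 := by
      have := Real.sin_sq_add_cos_sq t
      linarith
    rw [h4] at h2
    have h5 : t - t ^ 3 / 4 ≤ Real.sin t := by
      have := Real.sin_gt_sub_cube ht0
      linarith [pow_pos ht0 3]
    have h6 : 0 ≤ t - t ^ 3 / 4 := by nlinarith [mul_pos ht0 ht0, pow_pos ht0 3]
    have h7 : (t - t ^ 3 / 4) ^ 2 ≤ Real.sin t ^ 2 := pow_le_pow_left₀ h6 h5 2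
    have h8 : (t - t ^ 3 / 4) ^ 2 * S ≤ Real.sin t ^ 2 * S := mul_le_mul_of_nonneg_right h7 hS0
    have h9 : t ^ 2 * ((1 - t ^ 2 / 4) ^ 2 * S) ≤ t ^ 2 * ((d : ℝ) / 8) := by
      have h10 : t ^ 2 * ((1 - t ^ 2 / 4) ^ 2 * S) = (t - t ^ 3 / 4) ^ 2 * S := by ring
      rw [h10]
      linarith
    exact le_of_mul_le_mul_left h9 (by positivity)
  have hlim : Tendsto (fun t : ℝ => (1 - t ^ 2 / 4) ^ 2 * S) (𝓝[>] 0) (𝓝 ((1 - (0:ℝ) ^ 2 / 4) ^ 2 * S)) := by
    have : Continuous (fun t : ℝ => (1 - t ^ 2 / 4) ^ 2 * S) := by fun_prop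
    exact (this.tendsto 0).mono_left nhdsWithin_le_nhds
  have hfin : (1 - (0:ℝ) ^ 2 / 4) ^ 2 * S ≤ (d : ℝ) / 8 := by
    refine le_of_tendsto hlim ?_
    have hmem : Set.Ioc (0 : ℝ) 1 ∈ 𝓝[>] (0 : ℝ) := Ioc_mem_nhdsGT one_pos
    filter_upwards [hmem] with t ht
    exact key t ht.1 ht.2
  have he : (1 - (0:ℝ) ^ 2 / 4) ^ 2 * S = S := by norm_num
  rwa [he] at hfin

end Pool.Agent.KXP
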