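import Pool.Agent.KXP.Defs

/-! KXP row GE1: the nearest point map of a polytope. -/

set_option autoImplicit false

open MeasureTheory ProbabilityTheory Filter Topology
open scoped BigOperators

namespace Pool.Agent.KXP

variable {d : ℕ}

theorem mv_add (M : Matrix (Fin d) (Fin d) ℝ) (u v : E d) : mv M (u + v) = mv M u + mv M v := by
  ext a
  simp [mv_apply, mul_add, Finset.sum_add_distrib]

theorem mv_smul (M : Matrix (Fin d) (Fin d) ℝ) (r : ℝ) (v : E d) : mv M (r • v) = r • mv M v := by
  ext a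
  simp only [mv_apply, PiLp.smul_apply, smul_eq_mul, Finset.mul_sum]
  exact Finset.sum_congr rfl fun b _ => by ring

/-- `mv M` as a linear map -/
noncomputable def mvL (M : Matrix (Fin d) (Fin d) ℝ) : E d →ₗ[ℝ] E d where
  toFun := mv M
  map_add' := mv_add M
  map_smul' := mv_smul M

@[simp] theorem mvL_apply (M : Matrix (Fin d) (Fin d) ℝ) (u : E d) : mvL M u = mv M u := rfl

theorem mv_neg (M : Matrix (Fin d) (Fin d) ℝ) (v : E d) : mv M (-v) = -mv M v :=
  (mvL M).map_neg v

theorem mv_continuous (M : Matrix (Fin d) (Fin d) ℝ) : Continuous (mv M) :=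
  (mvL M).continuous_of_finiteDimensional

theorem body_compact (S : Finset (E d)) (M : Matrix (Fin d) (Fin d) ℝ) :
    IsCompact (body S M) ∧ Convex ℝ (body S M) := by
  refine ⟨?_, ?_⟩
  · exact (Set.Finite.isCompact_convexHull (𝕜 := ℝ) S.finite_toSet).image (mv_continuous M)
  · exact (convex_convexHull ℝ (S : Set (E d))).linear_image (mvL M)

theorem body_nonempty (S : Finset (E d)) (hS : S.Nonempty) (M : Matrix (Fin d) (Fin d) ℝ) :
    (body S M).Nonempty := by
  obtain ⟨s, hs⟩ := hS
  exact ⟨mv M s, s, subset_convexHull ℝ _ hs, rfl⟩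

theorem near_spec (S : Finset (E d)) (hS : S.Nonempty) (M : Matrix (Fin d) (Fin d) ℝ) (u : E d) :
    near S M u ∈ body S M ∧ ∀ p ∈ body S M, inner ℝ (u - near S M u) (p - near S M u) ≤ 0 := by
  have h : ∃ x ∈ body S M, ∀ p ∈ body S M, inner ℝ (u - x) (p - x) ≤ 0 := by
    obtain ⟨x, hx, hx2⟩ := exists_norm_eq_iInf_of_complete_convex (body_nonempty S hS M)
      (body_compact S M).1.isComplete (body_compact S M).2 u
    exact ⟨x, hx, (norm_eq_iInf_iff_real_inner_le_zero (body_compact S M).2 hx).1 hx2⟩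
  have e : near S M u = h.choose := by
    rw [near, dif_pos h]
  rw [e]
  exact h.choose_spec

theorem near_unique (S : Finset (E d)) (hS : S.Nonempty) (M : Matrix (Fin d) (Fin d) ℝ) (u x : E d)
    (hx : x ∈ body S M) (h : ∀ p ∈ body S M, inner ℝ (u - x) (p - x) ≤ 0) : near S M u = x := by
  obtain ⟨h1, h2⟩ := near_spec S hS M u
  have a1 := h2 x hx
  have a2 := h _ h1
  have e : inner ℝ (near S M u - x) (near S M u - x) =
      inner ℝ (u - near S M u) (x - near S M u) + inner ℝ (u - x) (near S M u - x) := by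
    simp only [inner_sub_left, inner_sub_right]
    ring
  have e2 : inner ℝ (near S M u - x) (near S M u - x) ≤ (0 : ℝ) := by rw [e]; linarith
  rw [real_inner_self_eq_norm_sq] at e2
  have e3 : ‖near S M u - x‖ = 0 := by nlinarith [norm_nonneg (near S M u - x)]
  exact sub_eq_zero.1 (norm_eq_zero.1 e3)

theorem near_lip (S : Finset (E d)) (hS : S.Nonempty) (M : Matrix (Fin d) (Fin d) ℝ) :
    LipschitzWith 1 (near S M) := by
  refine LipschitzWith.of_dist_le_mul fun u v => ?_
  obtain ⟨h1, h2⟩ := near_spec S hS M u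
  obtain ⟨h3, h4⟩ := near_spec S hS M v
  have a1 := h2 _ h3
  have a2 := h4 _ h1
  rw [NNReal.coe_one, one_mul, dist_eq_norm, dist_eq_norm]
  have e : inner ℝ (near S M u - near S M v) (near S M u - near S M v) =
      inner ℝ (u - v) (near S M u - near S M v) +
      (inner ℝ (u - near S M u) (near S M v - near S M u) +
        inner ℝ (v - near S M v) (near S M u - near S M v)) := by
    simp only [inner_sub_left, inner_sub_right]
    ring
  have e2 : ‖near S M u - near S M v‖ ^ 2 ≤ ‖u - v‖ * ‖near S M u - near S M v‖ := by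
    rw [← real_inner_self_eq_norm_sq, e]
    have := real_inner_le_norm (u - v) (near S M u - near S M v)
    linarith
  by_cases h0 : ‖near S M u - near S M v‖ = 0
  · rw [h0]; exact norm_nonneg _
  · have hp : 0 < ‖near S M u - near S M v‖ := lt_of_le_of_ne (norm_nonneg _) (Ne.symm h0)
    rw [sq] at e2
    exact le_of_mul_le_mul_right e2 hp

theorem near_odd (S : Finset (E d)) (hS : S.Nonempty) (hsym : ∀ x ∈ convexHull ℝ (S : Set (E d)),
    -x ∈ convexHull ℝ (S : Set (E d))) (M : Matrix (Fin d) (Fin d) ℝ) (u : E d) :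
    near S M (-u) = -near S M u := by
  have hb : ∀ x ∈ body S M, -x ∈ body S M := by
    rintro _ ⟨y, hy, rfl⟩
    exact ⟨-y, hsym y hy, mv_neg M y⟩
  obtain ⟨h1, h2⟩ := near_spec S hS M u
  refine near_unique S hS M (-u) _ (hb _ h1) fun p hp => ?_
  have := h2 _ (hb p hp)
  have e : inner ℝ (-u - -near S M u) (p - -near S M u) = (inner ℝ (u - near S M u) (-p - near S M u) : ℝ) := by
    have e1 : -u - -near S M u = -(u - near S M u) := by abel
    have e2 : p - -near S M u = -(-p - near S M u) := by abel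
    rw [e1, e2, inner_neg_neg]
  rw [e]
  exact this

/-- the maximum of the normal over the body -/
theorem near_max (S : Finset (E d)) (hS : S.Nonempty) (M : Matrix (Fin d) (Fin d) ℝ) (u : E d)
    (p : E d) (hp : p ∈ body S M) :
    (inner ℝ (u - near S M u) p : ℝ) ≤ inner ℝ (u - near S M u) (near S M u) := by
  have := (near_spec S hS M u).2 p hp
  rw [inner_sub_right] at this
  linarith

theorem vert_mem_body (S : Finset (E d)) (M : Matrix (Fin d) (Fin d) ℝ) (s : E d) (hs : s ∈ S) :
    mv M s ∈ body S M := ⟨s, subset_convexHull ℝ _ hs, rfl⟩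

theorem mem_lab (S : Finset (E d)) (M : Matrix (Fin d) (Fin d) ℝ) (u s : E d) :
    s ∈ (lab S M u : Finset (E d)) ↔
      s ∈ S ∧ (inner ℝ (u - near S M u) (mv M s) : ℝ) = inner ℝ (u - near S M u) (near S M u) := by
  simp only [lab, Finset.mem_filter]

/-- the nearest point lies in the hull of the labelled vertices -/
theorem near_mem_hull (S : Finset (E d)) (hS : S.Nonempty) (M : Matrix (Fin d) (Fin d) ℝ) (u : E d) :
    ∃ p ∈ convexHull ℝ ((lab S M u : Finset (E d)) : Set (E d)), mv M p = near S M u := by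
  obtain ⟨p, hp, hpu⟩ := (near_spec S hS M u).1
  refine ⟨p, ?_, hpu⟩
  obtain ⟨w, hw0, hw1, hwp⟩ := Finset.mem_convexHull'.1 hp
  set n := u - near S M u with hn
  have e1 : ∑ y ∈ S, w y * (inner ℝ n (near S M u) - inner ℝ n (mv M y) : ℝ) = 0 := by
    have e2 : (inner ℝ n (near S M u) : ℝ) = ∑ y ∈ S, w y * (inner ℝ n (mv M y) : ℝ) := by
      rw [← hpu, ← hwp]
      have : mv M (∑ y ∈ S, w y • y) = ∑ y ∈ S, w y • mv M y := by
        have := map_sum (mvL M) (fun y => w y • y) S
        simp only [mvL_apply, mv_smul] at this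
        exact this
      rw [this, inner_sum]
      exact Finset.sum_congr rfl fun y _ => by rw [inner_smul_right]
    simp only [mul_sub, Finset.sum_sub_distrib, ← Finset.sum_mul, hw1, one_mul]
    rw [← e2, sub_self]
  have e3 : ∀ y ∈ S, w y * (inner ℝ n (near S M u) - inner ℝ n (mv M y) : ℝ) = 0 := by
    refine (Finset.sum_eq_zero_iff_of_nonneg fun y hy => ?_).1 e1
    refine mul_nonneg (hw0 y hy) (sub_nonneg.2 (near_max S hS M u _ (vert_mem_body S M y hy)))
  have e4 : ∀ y ∈ S, y ∉ (lab S M u : Finset (E d)) → w y = 0 := by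
    intro y hy hny
    rcases mul_eq_zero.1 (e3 y hy) with h | h
    · exact h
    · exact absurd ((mem_lab S M u y).2 ⟨hy, (sub_eq_zero.1 h).symm⟩) hny
  have hsub : (lab S M u : Finset (E d)) ⊆ S := Finset.mem_powerset.1 (lab S M u).2
  refine Finset.mem_convexHull'.2 ⟨w, fun y hy => hw0 y (hsub hy), ?_, ?_⟩
  · rw [← hw1]
    exact Finset.sum_subset hsub fun y hy hny => e4 y hy hny
  · rw [← hwp]
    exact Finset.sum_subset hsub fun y hy hny => by rw [e4 y hy hny, zero_smul]

theorem lab_nonempty (S : Finset (E d)) (hS : S.Nonempty) (M : Matrix (Fin d) (Fin d) ℝ) (u : E d) :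
    (lab S M u : Finset (E d)).Nonempty := by
  obtain ⟨p, hp, -⟩ := near_mem_hull S hS M u
  have : (convexHull ℝ ((lab S M u : Finset (E d)) : Set (E d))).Nonempty := ⟨p, hp⟩
  exact_mod_cast convexHull_nonempty_iff.1 this

end Pool.Agent.KXP
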