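import Pool.Agent.KXP.Defs
import Pool.Agent.BRW.BFIX

/-!
# Isotropic position

For every convex body `P` of `ℝ^d` with `0` in its interior there is a symmetric positive definite
linear map `T` such that the nearest point map `x` of `T P` satisfies
`∫ (x_a u_b + x_b u_a) = δ_ab` for a probability measure with identity covariance matrix and finite
third moment (for instance the standard Gaussian measure).  Brouwer's fixed point theorem is
applied to a vector field on the space of matrices (`T` is the exponential of a symmetric matrix).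
-/

set_option autoImplicit false

open MeasureTheory Set Filter Topology
open scoped RealInnerProductSpace

namespace Pool.Agent.KXP.Isop

section Brouwer

/-- Brouwer: a vector field which points outward on a sphere has a zero. -/
theorem exists_zero_eucl {n : ℕ} {F : EuclideanSpace ℝ (Fin n) → EuclideanSpace ℝ (Fin n)}
    (hF : Continuous F) {R : ℝ} (hR : 0 < R) (hout : ∀ x, ‖x‖ = R → 0 < ⟪F x, x⟫) :
    ∃ x, F x = 0 := by
  by_contra hne
  push Not at hne
  obtain ⟨y, hy, hfy⟩ := BRW.brouwer (f := fun y => -((R / ‖F y‖) • F y)) hR.le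
    (by
      refine Continuous.continuousOn ?_
      refine (Continuous.smul (Continuous.div continuous_const hF.norm fun y => ?_) hF).neg
      exact norm_ne_zero_iff.mpr (hne _))
    (by
      intro y _
      rw [mem_closedBall_zero_iff, norm_neg, norm_smul, norm_div, norm_norm, Real.norm_eq_abs,
        abs_of_pos hR, div_mul_cancel₀ _ (norm_ne_zero_iff.mpr (hne _))])
  have hnorm : ‖y‖ = R := by
    rw [← hfy, norm_neg, norm_smul, norm_div, norm_norm, Real.norm_eq_abs,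
        abs_of_pos hR, div_mul_cancel₀ _ (norm_ne_zero_iff.mpr (hne _))]
  have h1 := hout y hnorm
  have h2 : ⟪F y, y⟫ = ⟪F y, -((R / ‖F y‖) • F y)⟫ := by rw [hfy]
  rw [inner_neg_right, inner_smul_right, real_inner_self_eq_norm_sq] at h2
  have h3 : 0 < R / ‖F y‖ * ‖F y‖ ^ 2 := by
    have := norm_pos_iff.mpr (hne y)
    positivity
  linarith

theorem exists_zero {V : Type*} [NormedAddCommGroup V] [InnerProductSpace ℝ V]
    [FiniteDimensional ℝ V] {F : V → V} (hF : Continuous F) {R : ℝ} (hR : 0 < R)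
    (hout : ∀ x, ‖x‖ = R → 0 < ⟪F x, x⟫) : ∃ x, F x = 0 := by
  let e := (stdOrthonormalBasis ℝ V).repr
  obtain ⟨y, hy⟩ := exists_zero_eucl (F := fun y => e (F (e.symm y)))
    (e.continuous.comp (hF.comp e.symm.continuous)) hR (by
      intro y hy
      have h := hout (e.symm y) (by rw [e.symm.norm_map, hy])
      have h2 : ⟪e (F (e.symm y)), y⟫ = ⟪F (e.symm y), e.symm y⟫ := by
        conv_lhs => rw [← e.apply_symm_apply y]
        rw [e.inner_map_map, e.symm_apply_apply]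
      rw [h2]
      exact h)
  exact ⟨e.symm y, by simpa using hy⟩

end Brouwer

section Near

variable {H : Type*} [NormedAddCommGroup H] [InnerProductSpace ℝ H]

theorem near_inner {K : Set H} {u x : H} (h0 : (0 : H) ∈ K)
    (h2 : ∀ q ∈ K, ⟪u - x, q - x⟫ ≤ 0) : 0 ≤ ⟪u - x, x⟫ := by
  have := h2 0 h0
  rw [zero_sub, inner_neg_right] at this
  linarith

theorem near_sq {K : Set H} {u x : H} (h0 : (0 : H) ∈ K)
    (h2 : ∀ q ∈ K, ⟪u - x, q - x⟫ ≤ 0) : ‖u - x‖ ^ 2 + ‖x‖ ^ 2 ≤ ‖u‖ ^ 2 := by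
  have h := near_inner h0 h2
  have h3 : ‖u‖ ^ 2 = ‖(u - x) + x‖ ^ 2 := by simp
  rw [h3, norm_add_sq_real]
  linarith

theorem near_norm {K : Set H} {u x : H} (h0 : (0 : H) ∈ K)
    (h2 : ∀ q ∈ K, ⟪u - x, q - x⟫ ≤ 0) : ‖x‖ ≤ ‖u‖ := by
  have h := near_sq h0 h2
  have := sq_nonneg ‖u - x‖
  exact le_of_sq_le_sq (by linarith) (norm_nonneg u)

theorem near_norm' {K : Set H} {u x : H} (h0 : (0 : H) ∈ K)
    (h2 : ∀ q ∈ K, ⟪u - x, q - x⟫ ≤ 0) : ‖u - x‖ ≤ ‖u‖ := by
  have h := near_sq h0 h2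
  have := sq_nonneg ‖x‖
  exact le_of_sq_le_sq (by linarith) (norm_nonneg u)

theorem near_lip {K : Set H} {u u' x x' : H} (hx : x ∈ K) (hx' : x' ∈ K)
    (h2 : ∀ q ∈ K, ⟪u - x, q - x⟫ ≤ 0) (h2' : ∀ q ∈ K, ⟪u' - x', q - x'⟫ ≤ 0) :
    ‖x - x'‖ ≤ ‖u - u'‖ := by
  have h3 := h2 x' hx'
  have h4 := h2' x hx
  have h5 : ‖x - x'‖ ^ 2 ≤ ⟪u - u', x - x'⟫ := by
    have e1 : ⟪u - u', x - x'⟫ = ⟪x - x', x - x'⟫ - ⟪u - x, x' - x⟫ - ⟪u' - x', x - x'⟫ := by
      simp only [inner_sub_left, inner_sub_right]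
      ring
    rw [real_inner_self_eq_norm_sq] at e1
    linarith
  have h6 := real_inner_le_norm (u - u') (x - x')
  rcases (norm_nonneg (x - x')).eq_or_lt with h | h
  · rw [← h]; exact norm_nonneg _
  · have h7 : ‖x - x'‖ * ‖x - x'‖ ≤ ‖u - u'‖ * ‖x - x'‖ := by nlinarith
    exact le_of_mul_le_mul_right h7 h

theorem near_cmp {K K' : Set H} {u x x' q q' : H} {ε : ℝ} (h0 : (0 : H) ∈ K) (h0' : (0 : H) ∈ K')
    (h2 : ∀ q ∈ K, ⟪u - x, q - x⟫ ≤ 0) (h2' : ∀ q ∈ K', ⟪u - x', q - x'⟫ ≤ 0)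
    (hq : q ∈ K) (hqx : ‖x' - q‖ ≤ ε) (hq' : q' ∈ K') (hqx' : ‖x - q'‖ ≤ ε) :
    ‖x - x'‖ ^ 2 ≤ 2 * ‖u‖ * ε := by
  have h3 := h2 q hq
  have h4 := h2' q' hq'
  have a1 : ⟪u - x, x' - q⟫ ≤ ‖u‖ * ε :=
    (real_inner_le_norm _ _).trans (mul_le_mul (near_norm' h0 h2) hqx (norm_nonneg _)
      (norm_nonneg _))
  have a2 : ⟪u - x', x - q'⟫ ≤ ‖u‖ * ε :=
    (real_inner_le_norm _ _).trans (mul_le_mul (near_norm' h0' h2') hqx' (norm_nonneg _)
      (norm_nonneg _))
  have e1 : ⟪x - x', x - x'⟫ = ⟪u - x, q - x⟫ + ⟪u - x, x' - q⟫ + ⟪u - x', q' - x'⟫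
      + ⟪u - x', x - q'⟫ := by
    simp only [inner_sub_left, inner_sub_right]
    ring_nf
  rw [real_inner_self_eq_norm_sq] at e1
  linarith

end Near

/-- the Euclidean space of `d × d` matrices -/
abbrev V (d : ℕ) := EuclideanSpace ℝ (Fin d × Fin d)
/-- linear maps -/
abbrev Op (d : ℕ) := E d →L[ℝ] E d

variable {d : ℕ}

section Outer

/-- the matrix `a bᵀ` -/
noncomputable def outer (a b : E d) : V d := WithLp.toLp 2 fun p => a p.1 * b p.2
/-- the identity matrix -/
noncomputable def idv : V d := WithLp.toLp 2 fun p => if p.1 = p.2 then 1 else 0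
/-- the transposed matrix -/
noncomputable def tp (X : V d) : V d := WithLp.toLp 2 fun p => X (p.2, p.1)

@[simp] theorem outer_apply (a b : E d) (p : Fin d × Fin d) : outer a b p = a p.1 * b p.2 := rfl
@[simp] theorem idv_apply (p : Fin d × Fin d) :
    (idv : V d) p = if p.1 = p.2 then 1 else 0 := rfl
@[simp] theorem tp_apply (X : V d) (p : Fin d × Fin d) : tp X p = X (p.2, p.1) := rfl

theorem inner_eq_sum (A B : V d) : ⟪A, B⟫ = ∑ p, A p * B p := by
  rw [PiLp.inner_apply]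
  refine Finset.sum_congr rfl fun p _ => ?_
  simp [mul_comm]

theorem innerE_eq_sum (A B : E d) : ⟪A, B⟫ = ∑ p, A p * B p := by
  rw [PiLp.inner_apply]
  refine Finset.sum_congr rfl fun p _ => ?_
  simp [mul_comm]

theorem inner_outer (a b c e : E d) : ⟪outer a b, outer c e⟫ = ⟪a, c⟫ * ⟪b, e⟫ := by
  rw [inner_eq_sum, innerE_eq_sum, innerE_eq_sum, Finset.sum_mul_sum, Fintype.sum_prod_type]
  refine Finset.sum_congr rfl fun i _ => Finset.sum_congr rfl fun j _ => ?_
  simp only [outer_apply]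
  ring

theorem norm_outer (a b : E d) : ‖outer a b‖ = ‖a‖ * ‖b‖ := by
  have h : ‖outer a b‖ ^ 2 = (‖a‖ * ‖b‖) ^ 2 := by
    rw [← real_inner_self_eq_norm_sq, inner_outer, real_inner_self_eq_norm_sq,
      real_inner_self_eq_norm_sq]
    ring
  exact (pow_left_inj₀ (norm_nonneg _) (by positivity) two_ne_zero).mp h

theorem inner_idv_outer (w : E d) : ⟪(idv : V d), outer w w⟫ = ‖w‖ ^ 2 := by
  rw [inner_eq_sum, Fintype.sum_prod_type, ← real_inner_self_eq_norm_sq, innerE_eq_sum]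
  refine Finset.sum_congr rfl fun i _ => ?_
  rw [Finset.sum_eq_single i]
  · simp
  · intro j _ hj
    simp [Ne.symm hj]
  · intro h
    exact absurd (Finset.mem_univ i) h

theorem tp_tp (X : V d) : tp (tp X) = X := by
  ext p
  simp

theorem inner_tp (A B : V d) : ⟪tp A, tp B⟫ = ⟪A, B⟫ := by
  rw [inner_eq_sum, inner_eq_sum, ← Equiv.sum_comp (Equiv.prodComm (Fin d) (Fin d))]
  refine Finset.sum_congr rfl fun p _ => ?_
  simp

theorem continuous_tp : Continuous (tp : V d → V d) := by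
  unfold tp
  fun_prop

theorem continuous_outer {X : Type*} [TopologicalSpace X] {f g : X → E d} (hf : Continuous f)
    (hg : Continuous g) : Continuous fun z => outer (f z) (g z) := by
  unfold outer
  fun_prop

end Outer

section Operators

/-- the symmetric operator of `X + Xᵀ` -/
noncomputable def symOp (X : V d) : Op d :=
  Matrix.toEuclideanCLM (𝕜 := ℝ) (n := Fin d) (Matrix.of fun a b => X (a, b) + X (b, a))

theorem symOp_single (X : V d) (a b : Fin d) :
    symOp X (EuclideanSpace.single b 1) a = X (a, b) + X (b, a) := by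
  unfold symOp
  rw [Matrix.ofLp_toEuclideanCLM]
  simp

theorem symOp_symm (X : V d) (v w : E d) : ⟪symOp X v, w⟫ = ⟪v, symOp X w⟫ := by
  unfold symOp
  rw [real_inner_comm, Matrix.inner_toEuclideanCLM, Matrix.inner_toEuclideanCLM,
    Matrix.dotProduct_mulVec, dotProduct_comm, ← Matrix.mulVec_transpose]
  congr 2
  ext a b
  simp [add_comm]

theorem continuous_symOp : Continuous (symOp : V d → Op d) := by
  let L : V d →ₗ[ℝ] Op d :=
    { toFun := symOp
      map_add' := by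
        intro X Y
        unfold symOp
        rw [← map_add]
        congr 1
        ext a b
        simp
        ring
      map_smul' := by
        intro c X
        unfold symOp
        rw [RingHom.id_apply, ← map_smul]
        congr 1
        ext a b
        simp
        ring }
  exact L.continuous_of_finiteDimensional

/-- the exponential of a symmetric operator -/
noncomputable def TT (X : V d) : Op d := NormedSpace.exp (symOp X)

theorem continuous_TT : Continuous (TT : V d → Op d) := by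
  let _ : NormedAlgebra ℚ (Op d) := NormedAlgebra.restrictScalars ℚ ℝ (Op d)
  exact NormedSpace.exp_continuous.comp continuous_symOp

theorem exp_eigen {A : Op d} {w : E d} {s : ℝ} (h : A w = s • w) :
    NormedSpace.exp A w = Real.exp s • w := by
  have h1 := NormedSpace.exp_series_hasSum_exp' (𝕂 := ℝ) A
  have h2 : HasSum (fun n : ℕ => ((n.factorial : ℝ)⁻¹ • A ^ n) w) (NormedSpace.exp A w) :=
    h1.mapL (ContinuousLinearMap.apply ℝ (E d) w)
  have h3 : ∀ n : ℕ, (A ^ n) w = s ^ n • w := by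
    intro n
    induction n with
    | zero => simp
    | succ n ih => rw [pow_succ', mul_apply_eq_comp, ih, map_smul, h, smul_smul,
        pow_succ]
  have h4 := NormedSpace.exp_series_hasSum_exp' (𝕂 := ℝ) s
  have h5 : HasSum (fun n : ℕ => ((n.factorial : ℝ)⁻¹ • s ^ n) • w) (Real.exp s • w) := by
    rw [Real.exp_eq_exp_ℝ]
    exact h4.smul_const w
  refine h2.unique (h5.congr_fun fun n => ?_)
  simp [h3, smul_smul]

theorem TT_symm (X : V d) (v w : E d) : ⟪TT X v, w⟫ = ⟪v, TT X w⟫ := by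
  have h : IsSelfAdjoint (symOp X) := by
    rw [ContinuousLinearMap.isSelfAdjoint_iff_isSymmetric]
    exact fun v w => symOp_symm X v w
  have h2 : IsSelfAdjoint (TT X) := by
    unfold TT
    rw [IsSelfAdjoint, NormedSpace.star_exp, h.star_eq]
  rw [ContinuousLinearMap.isSelfAdjoint_iff_isSymmetric] at h2
  exact h2 v w

theorem TT_pos (X : V d) {v : E d} (hv : v ≠ 0) : 0 < ⟪TT X v, v⟫ := by
  let _ : NormedAlgebra ℚ (Op d) := NormedAlgebra.restrictScalars ℚ ℝ (Op d)
  have h0 : symOp X = symOp ((1 / 2 : ℝ) • X) + symOp ((1 / 2 : ℝ) • X) := by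
    unfold symOp
    rw [← map_add]
    congr 1
    ext a b
    simp
    ring
  have h1 : TT X = TT ((1 / 2 : ℝ) • X) * TT ((1 / 2 : ℝ) • X) := by
    unfold TT
    rw [← NormedSpace.exp_add_of_commute (Commute.refl _), ← h0]
  have h2 : TT ((1 / 2 : ℝ) • X) v ≠ 0 := by
    intro h
    have hu : IsUnit (TT ((1 / 2 : ℝ) • X)) := NormedSpace.isUnit_exp _
    obtain ⟨B, hB⟩ := hu.exists_left_inv
    have h3 : (B * TT ((1 / 2 : ℝ) • X)) v = v := by rw [hB]; rfl
    rw [mul_apply_eq_comp, h, map_zero] at h3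
    exact hv h3.symm
  rw [h1, mul_apply_eq_comp, TT_symm, real_inner_self_eq_norm_sq]
  have := norm_pos_iff.mpr h2
  positivity

/-- Spectral decomposition of the matrix `X + Xᵀ`. -/
theorem exists_spectral (X : V d) : ∃ (w : OrthonormalBasis (Fin d) ℝ (E d)) (s : Fin d → ℝ),
    (∀ i, symOp X (w i) = s i • w i) ∧ X + tp X = ∑ i, s i • outer (w i) (w i) := by
  have hs : (symOp X : E d →ₗ[ℝ] E d).IsSymmetric := fun v w => symOp_symm X v w
  have hn : Module.finrank ℝ (E d) = d := finrank_euclideanSpace_fin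
  refine ⟨hs.eigenvectorBasis hn, hs.eigenvalues hn, fun i => ?_, ?_⟩
  · exact hs.apply_eigenvectorBasis hn i
  · set w := hs.eigenvectorBasis hn with hw
    set s := hs.eigenvalues hn with hs'
    have h1 : ∀ i, symOp X (w i) = s i • w i := fun i => hs.apply_eigenvectorBasis hn i
    ext p
    obtain ⟨a, b⟩ := p
    have h2 : (X + tp X) (a, b) = symOp X (EuclideanSpace.single b 1) a := by
      rw [symOp_single]
      simp
    rw [h2]
    have h3 : (EuclideanSpace.single b (1 : ℝ) : E d) = ∑ i, (w i b) • w i := by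
      rw [← w.sum_repr (EuclideanSpace.single b (1 : ℝ))]
      refine Finset.sum_congr rfl fun i _ => ?_
      congr 1
      rw [w.repr_apply_apply]
      simp [EuclideanSpace.inner_single_right]
    rw [h3, map_sum]
    simp only [map_smul, h1]
    simp [Finset.sum_apply]
    refine Finset.sum_congr rfl fun i _ => ?_
    ring

end Operators

section Main

variable {P : Set (E d)} {ρ R : ℝ} {μ : Measure (E d)} [IsProbabilityMeasure μ]
  {x : Op d → E d → E d}

/-- the field before integration -/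
noncomputable def gg (x : Op d → E d → E d) (X : V d) (u : E d) : V d :=
  (1 / 2 : ℝ) • (outer (x (TT X) u) u + outer u (x (TT X) u)) - (1 / 2 : ℝ) • idv

/-- the data: bodies, nearest points -/
structure Near (P : Set (E d)) (ρ R : ℝ) (x : Op d → E d → E d) : Prop where
  rpos : 0 < ρ
  ball : ∀ v : E d, ‖v‖ ≤ ρ → v ∈ P
  bdd : ∀ p ∈ P, ‖p‖ ≤ R
  mem : ∀ X : V d, ∀ u, ∃ p ∈ P, TT X p = x (TT X) u
  near : ∀ X : V d, ∀ u, ∀ p ∈ P, ⟪u - x (TT X) u, TT X p - x (TT X) u⟫ ≤ 0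

namespace Near

variable (hx : Near P ρ R x)
include hx

theorem zero_mem : (0 : E d) ∈ P := hx.ball 0 (by rw [norm_zero]; exact hx.rpos.le)

theorem Rnonneg : 0 ≤ R := by
  have := hx.bdd 0 hx.zero_mem
  rwa [norm_zero] at this

theorem zero_mem' (X : V d) : (0 : E d) ∈ TT X '' P := ⟨0, hx.zero_mem, map_zero _⟩

theorem mem' (X : V d) (u : E d) : x (TT X) u ∈ TT X '' P := hx.mem X u

theorem near' (X : V d) (u : E d) : ∀ q ∈ TT X '' P, ⟪u - x (TT X) u, q - x (TT X) u⟫ ≤ 0 := by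
  rintro _ ⟨p, hp, rfl⟩
  exact hx.near X u p hp

theorem norm_le (X : V d) (u : E d) : ‖x (TT X) u‖ ≤ ‖u‖ :=
  near_norm (hx.zero_mem' X) (hx.near' X u)

theorem norm_le' (X : V d) (u : E d) : ‖u - x (TT X) u‖ ≤ ‖u‖ :=
  near_norm' (hx.zero_mem' X) (hx.near' X u)

theorem lip (X : V d) : LipschitzWith 1 (x (TT X)) := by
  refine LipschitzWith.of_dist_le_mul fun u v => ?_
  rw [NNReal.coe_one, one_mul, dist_eq_norm, dist_eq_norm]
  exact near_lip (hx.mem' X u) (hx.mem' X v) (hx.near' X u) (hx.near' X v)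

theorem cmp (X Y : V d) (u : E d) :
    ‖x (TT X) u - x (TT Y) u‖ ^ 2 ≤ 2 * ‖u‖ * (‖TT X - TT Y‖ * R) := by
  obtain ⟨p, hp, hpx⟩ := hx.mem X u
  obtain ⟨q, hq, hqx⟩ := hx.mem Y u
  refine near_cmp (q := TT X q) (q' := TT Y p) (hx.zero_mem' X) (hx.zero_mem' Y)
    (hx.near' X u) (hx.near' Y u) ⟨q, hq, rfl⟩ ?_ ⟨p, hp, rfl⟩ ?_
  · rw [← hqx]
    have h : TT Y q - TT X q = -((TT X - TT Y) q) := by
      simp
    rw [h, norm_neg]
    exact ((TT X - TT Y).le_opNorm q).trans
      (mul_le_mul_of_nonneg_left (hx.bdd q hq) (norm_nonneg _))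
  · rw [← hpx]
    have h : TT X p - TT Y p = (TT X - TT Y) p := by
      simp
    rw [h]
    exact ((TT X - TT Y).le_opNorm p).trans
      (mul_le_mul_of_nonneg_left (hx.bdd p hp) (norm_nonneg _))

theorem continuous_x (u : E d) : Continuous fun X : V d => x (TT X) u := by
  rw [continuous_iff_continuousAt]
  intro Y
  rw [ContinuousAt, tendsto_iff_norm_sub_tendsto_zero]
  have h1 : Tendsto (fun X : V d => Real.sqrt (2 * ‖u‖ * (‖TT X - TT Y‖ * R))) (𝓝 Y) (𝓝 0) := by
    have h2 : Continuous fun X : V d => Real.sqrt (2 * ‖u‖ * (‖TT X - TT Y‖ * R)) := by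
      have := continuous_TT (d := d)
      fun_prop
    have h3 := h2.tendsto Y
    simpa using h3
  refine squeeze_zero (fun _ => norm_nonneg _) (fun X => ?_) h1
  exact Real.le_sqrt_of_sq_le (hx.cmp X Y u)

theorem continuous_gg (X : V d) : Continuous (gg x X) := by
  unfold gg
  have h1 := continuous_outer (hx.lip X).continuous continuous_id
  have h2 := continuous_outer continuous_id (hx.lip X).continuous
  exact ((h1.add h2).const_smul (1 / 2 : ℝ)).sub continuous_const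

theorem continuous_gg' (u : E d) : Continuous fun X : V d => gg x X u := by
  unfold gg
  have h1 := continuous_outer (hx.continuous_x u) (continuous_const (y := u))
  have h2 := continuous_outer (continuous_const (y := u)) (hx.continuous_x u)
  exact ((h1.add h2).const_smul (1 / 2 : ℝ)).sub continuous_const

theorem norm_gg_le (X : V d) (u : E d) : ‖gg x X u‖ ≤ ‖u‖ ^ 2 + ‖(idv : V d)‖ := by
  unfold gg
  have h1 : ‖outer (x (TT X) u) u‖ ≤ ‖u‖ ^ 2 := by
    rw [norm_outer, sq]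
    exact mul_le_mul_of_nonneg_right (hx.norm_le X u) (norm_nonneg _)
  have h2 : ‖outer u (x (TT X) u)‖ ≤ ‖u‖ ^ 2 := by
    rw [norm_outer, sq]
    exact mul_le_mul_of_nonneg_left (hx.norm_le X u) (norm_nonneg _)
  have h3 : ‖(1 / 2 : ℝ) • (outer (x (TT X) u) u + outer u (x (TT X) u))‖ ≤ ‖u‖ ^ 2 := by
    rw [norm_smul, Real.norm_eq_abs, abs_of_pos (by norm_num : (0 : ℝ) < 1 / 2)]
    have := norm_add_le (outer (x (TT X) u) u) (outer u (x (TT X) u))
    linarith
  have h4 : ‖(1 / 2 : ℝ) • (idv : V d)‖ ≤ ‖(idv : V d)‖ := by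
    rw [norm_smul, Real.norm_eq_abs, abs_of_pos (by norm_num : (0 : ℝ) < 1 / 2)]
    have := norm_nonneg (idv : V d)
    linarith
  exact (norm_sub_le _ _).trans (add_le_add h3 h4)

end Near

/-- moments -/
structure Mom (μ : Measure (E d)) : Prop where
  int3 : Integrable (fun u : E d => ‖u‖ ^ 3) μ
  cov : ∀ w : E d, ∫ u, ⟪u, w⟫ ^ 2 ∂μ = ‖w‖ ^ 2

theorem Mom.int2 (h : Mom μ) : Integrable (fun u : E d => ‖u‖ ^ 2) μ := by
  refine Integrable.mono' ((integrable_const (1 : ℝ)).add h.int3) (by fun_prop) ?_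
  refine Eventually.of_forall fun u => ?_
  rw [Real.norm_eq_abs, abs_of_nonneg (by positivity)]
  have h0 := norm_nonneg u
  show ‖u‖ ^ 2 ≤ 1 + ‖u‖ ^ 3
  nlinarith [mul_nonneg h0 (sq_nonneg (‖u‖ - 1))]

theorem Mom.int1 (h : Mom μ) : Integrable (fun u : E d => ‖u‖) μ := by
  refine Integrable.mono' ((integrable_const (1 : ℝ)).add h.int2) (by fun_prop) ?_
  refine Eventually.of_forall fun u => ?_
  rw [Real.norm_eq_abs, abs_of_nonneg (by positivity)]
  have h0 := norm_nonneg u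
  show ‖u‖ ≤ 1 + ‖u‖ ^ 2
  nlinarith [sq_nonneg (‖u‖ - 1)]

theorem integrable_gg (hx : Near P ρ R x) (hm : Mom μ) (X : V d) : Integrable (gg x X) μ := by
  refine Integrable.mono' (hm.int2.add (integrable_const ‖(idv : V d)‖))
    (hx.continuous_gg X).aestronglyMeasurable (Eventually.of_forall fun u => ?_)
  exact hx.norm_gg_le X u

/-- the symmetric part of the moment matrix minus one half -/
noncomputable def GG (x : Op d → E d → E d) (μ : Measure (E d)) (X : V d) : V d :=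
  ∫ u, gg x X u ∂μ

theorem continuous_GG (hx : Near P ρ R x) (hm : Mom μ) : Continuous (GG x μ) := by
  unfold GG
  refine continuous_of_dominated (bound := fun u => ‖u‖ ^ 2 + ‖(idv : V d)‖)
    (fun X => (hx.continuous_gg X).aestronglyMeasurable)
    (fun X => Eventually.of_forall fun u => hx.norm_gg_le X u)
    (hm.int2.add (integrable_const _)) (Eventually.of_forall fun u => hx.continuous_gg' u)

theorem GG_apply (hx : Near P ρ R x) (hm : Mom μ) (X : V d) (p : Fin d × Fin d) :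
    GG x μ X p = ∫ u, gg x X u p ∂μ := by
  unfold GG
  exact ((EuclideanSpace.proj (𝕜 := ℝ) p).integral_comp_comm (integrable_gg hx hm X)).symm

theorem tp_GG (hx : Near P ρ R x) (hm : Mom μ) (X : V d) : tp (GG x μ X) = GG x μ X := by
  ext p
  rw [tp_apply, GG_apply hx hm, GG_apply hx hm]
  congr 1
  ext u
  simp only [gg, PiLp.sub_apply, PiLp.smul_apply, PiLp.add_apply, outer_apply, idv_apply,
    smul_eq_mul, eq_comm (a := p.2)]
  ring

theorem inner_GG_outer (hx : Near P ρ R x) (hm : Mom μ) (X : V d) {w : E d} (hw : ‖w‖ = 1) :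
    ⟪GG x μ X, outer w w⟫ = ∫ u, ⟪x (TT X) u, w⟫ * ⟪u, w⟫ ∂μ - 1 / 2 := by
  have hi : Integrable (fun u => ⟪x (TT X) u, w⟫ * ⟪u, w⟫) μ := by
    refine Integrable.mono' hm.int2 ?_ (Eventually.of_forall fun u => ?_)
    · have := (hx.lip X).continuous
      fun_prop
    · rw [norm_mul, sq, Real.norm_eq_abs, Real.norm_eq_abs]
      have h1 := abs_real_inner_le_norm (x (TT X) u) w
      have h2 := abs_real_inner_le_norm u w
      rw [hw, mul_one] at h1 h2
      exact mul_le_mul (h1.trans (hx.norm_le X u)) h2 (abs_nonneg _) (norm_nonneg _)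
  have h1 : ⟪GG x μ X, outer w w⟫ = ∫ u, ⟪gg x X u, outer w w⟫ ∂μ := by
    rw [real_inner_comm]
    unfold GG
    rw [← integral_inner (integrable_gg hx hm X)]
    congr 1
    ext u
    rw [real_inner_comm]
  rw [h1]
  have h2 : ∀ u, ⟪gg x X u, outer w w⟫ = ⟪x (TT X) u, w⟫ * ⟪u, w⟫ - 1 / 2 := by
    intro u
    unfold gg
    rw [inner_sub_left, real_inner_smul_left, real_inner_smul_left, inner_add_left, inner_outer,
      inner_outer, inner_idv_outer, hw]
    ring
  simp only [h2]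
  rw [integral_sub hi (integrable_const _)]
  simp

theorem integrable_xw (hx : Near P ρ R x) (hm : Mom μ) (X : V d) {w : E d} (hw : ‖w‖ = 1) :
    Integrable (fun u => ⟪x (TT X) u, w⟫ * ⟪u, w⟫) μ := by
  refine Integrable.mono' hm.int2 ?_ (Eventually.of_forall fun u => ?_)
  · have := (hx.lip X).continuous
    fun_prop
  · rw [norm_mul, sq, Real.norm_eq_abs, Real.norm_eq_abs]
    have h1 := abs_real_inner_le_norm (x (TT X) u) w
    have h2 := abs_real_inner_le_norm u w
    rw [hw, mul_one] at h1 h2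
    exact mul_le_mul (h1.trans (hx.norm_le X u)) h2 (abs_nonneg _) (norm_nonneg _)

/-- The constant of the two estimates. -/
noncomputable def CC (μ : Measure (E d)) (ρ R : ℝ) : ℝ :=
  (∫ u, ‖u‖ ^ 3 ∂μ) / ρ + R * ∫ u, ‖u‖ ∂μ

omit [IsProbabilityMeasure μ] in
theorem CC_nonneg (hx : Near P ρ R x) : 0 ≤ CC μ ρ R := by
  unfold CC
  have h1 : 0 ≤ ∫ u, ‖u‖ ^ 3 ∂μ := integral_nonneg fun u => by positivity
  have h2 : 0 ≤ ∫ u, ‖u‖ ∂μ := integral_nonneg fun u => by positivity
  have h3 := hx.rpos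
  have h4 := hx.Rnonneg
  positivity

/-- large eigenvalues -/
theorem bound_pos (hx : Near P ρ R x) (hm : Mom μ) (X : V d) {w : E d} (hw : ‖w‖ = 1) {s : ℝ}
    (hs : symOp X w = s • w) (h0 : 0 ≤ s) :
    |s| / 2 - CC μ ρ R ≤ s * (∫ u, ⟪x (TT X) u, w⟫ * ⟪u, w⟫ ∂μ - 1 / 2) := by
  have hT : TT X w = Real.exp s • w := exp_eigen hs
  have hρ := hx.rpos
  have he := Real.exp_pos s
  have hse : s ≤ Real.exp s := by
    have := Real.add_one_le_exp s
    linarith
  -- the pointwise bound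
  have h1 : ∀ u, |⟪u - x (TT X) u, w⟫| ≤ ‖u‖ ^ 2 / (ρ * Real.exp s) := by
    intro u
    rw [le_div_iff₀ (by positivity)]
    have hnx : ⟪u - x (TT X) u, x (TT X) u⟫ ≤ ‖u‖ ^ 2 := by
      rw [sq]
      exact (real_inner_le_norm _ _).trans (mul_le_mul (hx.norm_le' X u) (hx.norm_le X u)
        (norm_nonneg _) (norm_nonneg _))
    have h2 := hx.near X u (ρ • w) (hx.ball _ (by
      rw [norm_smul, hw, mul_one, Real.norm_eq_abs, abs_of_pos hρ]))
    have h3 := hx.near X u (-(ρ • w)) (hx.ball _ (by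
      rw [norm_neg, norm_smul, hw, mul_one, Real.norm_eq_abs, abs_of_pos hρ]))
    rw [map_smul, hT, inner_sub_right, real_inner_smul_right, real_inner_smul_right] at h2
    rw [map_neg, map_smul, hT, inner_sub_right, inner_neg_right, real_inner_smul_right,
      real_inner_smul_right] at h3
    rcases abs_cases ⟪u - x (TT X) u, w⟫ with ⟨h, _⟩ | ⟨h, _⟩ <;> rw [h] <;> linarith
  have h2 : 1 - (∫ u, ‖u‖ ^ 3 ∂μ) / (ρ * Real.exp s)
      ≤ ∫ u, ⟪x (TT X) u, w⟫ * ⟪u, w⟫ ∂μ := by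
    have hc := hm.cov w
    rw [hw, one_pow] at hc
    have hi2 : Integrable (fun u : E d => ⟪u, w⟫ ^ 2) μ := by
      refine Integrable.mono' hm.int2 (by fun_prop) (Eventually.of_forall fun u => ?_)
      rw [Real.norm_eq_abs, abs_of_nonneg (sq_nonneg _)]
      have h2 := abs_real_inner_le_norm u w
      rw [hw, mul_one] at h2
      exact sq_le_sq' (by linarith [(abs_le.mp h2).1]) (abs_le.mp h2).2
    have hi3 : Integrable (fun u : E d => ‖u‖ ^ 3 / (ρ * Real.exp s)) μ := hm.int3.div_const _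
    rw [← hc, ← integral_div, ← integral_sub hi2 hi3]
    refine integral_mono (hi2.sub hi3) (integrable_xw hx hm X hw) fun u => ?_
    have h4 := h1 u
    have h5 := abs_real_inner_le_norm u w
    rw [hw, mul_one] at h5
    have h6 : ⟪u - x (TT X) u, w⟫ * ⟪u, w⟫ ≤ ‖u‖ ^ 3 / (ρ * Real.exp s) := by
      have h7 : ⟪u - x (TT X) u, w⟫ * ⟪u, w⟫ ≤ |⟪u - x (TT X) u, w⟫| * |⟪u, w⟫| := by
        rw [← abs_mul]; exact le_abs_self _
      have h8 : |⟪u - x (TT X) u, w⟫| * |⟪u, w⟫| ≤ ‖u‖ ^ 2 / (ρ * Real.exp s) * ‖u‖ :=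
        mul_le_mul h4 h5 (abs_nonneg _) (by positivity)
      have h9 : ‖u‖ ^ 2 / (ρ * Real.exp s) * ‖u‖ = ‖u‖ ^ 3 / (ρ * Real.exp s) := by ring
      linarith
    have h10 : ⟪u, w⟫ ^ 2 - ⟪x (TT X) u, w⟫ * ⟪u, w⟫ = ⟪u - x (TT X) u, w⟫ * ⟪u, w⟫ := by
      rw [inner_sub_left]; ring
    show ⟪u, w⟫ ^ 2 - ‖u‖ ^ 3 / (ρ * Real.exp s) ≤ ⟪x (TT X) u, w⟫ * ⟪u, w⟫
    linarith
  have h3 : 0 ≤ ∫ u, ‖u‖ ^ 3 ∂μ := integral_nonneg fun u => by positivity
  have h4 : 0 ≤ R * ∫ u, ‖u‖ ∂μ := mul_nonneg hx.Rnonneg (integral_nonneg fun u => norm_nonneg u)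
  have h5 : s * ((∫ u, ‖u‖ ^ 3 ∂μ) / (ρ * Real.exp s)) ≤ (∫ u, ‖u‖ ^ 3 ∂μ) / ρ := by
    rw [mul_div_assoc', div_le_div_iff₀ (by positivity) hρ]
    have := mul_le_mul_of_nonneg_left hse (mul_nonneg h3 hρ.le)
    linarith
  have h6 := mul_le_mul_of_nonneg_left h2 h0
  unfold CC
  rw [abs_of_nonneg h0]
  linarith

/-- small eigenvalues -/
theorem bound_neg (hx : Near P ρ R x) (hm : Mom μ) (X : V d) {w : E d} (hw : ‖w‖ = 1) {s : ℝ}
    (hs : symOp X w = s • w) (h0 : s ≤ 0) :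
    |s| / 2 - CC μ ρ R ≤ s * (∫ u, ⟪x (TT X) u, w⟫ * ⟪u, w⟫ ∂μ - 1 / 2) := by
  have hT : TT X w = Real.exp s • w := exp_eigen hs
  have hρ := hx.rpos
  have hR := hx.Rnonneg
  have he := Real.exp_pos s
  have hse : -s * Real.exp s ≤ 1 := by
    have h1 := Real.add_one_le_exp (-s)
    have h2 : -s ≤ Real.exp (-s) := by linarith
    have h3 := mul_le_mul_of_nonneg_right h2 he.le
    rwa [← Real.exp_add, neg_add_cancel, Real.exp_zero] at h3
  have h1 : ∀ u, |⟪x (TT X) u, w⟫| ≤ R * Real.exp s := by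
    intro u
    obtain ⟨p, hp, hpx⟩ := hx.mem X u
    rw [← hpx, TT_symm, hT, real_inner_smul_right, abs_mul, abs_of_pos he, mul_comm R]
    refine mul_le_mul_of_nonneg_left ?_ he.le
    have h5 := abs_real_inner_le_norm p w
    rw [hw, mul_one] at h5
    exact h5.trans (hx.bdd p hp)
  have h2 : ∫ u, ⟪x (TT X) u, w⟫ * ⟪u, w⟫ ∂μ ≤ R * Real.exp s * ∫ u, ‖u‖ ∂μ := by
    rw [← integral_const_mul]
    refine integral_mono (integrable_xw hx hm X hw) (hm.int1.const_mul _) fun u => ?_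
    have h5 := abs_real_inner_le_norm u w
    rw [hw, mul_one] at h5
    have h7 : ⟪x (TT X) u, w⟫ * ⟪u, w⟫ ≤ |⟪x (TT X) u, w⟫| * |⟪u, w⟫| := by
      rw [← abs_mul]; exact le_abs_self _
    have h8 : |⟪x (TT X) u, w⟫| * |⟪u, w⟫| ≤ R * Real.exp s * ‖u‖ :=
      mul_le_mul (h1 u) h5 (abs_nonneg _) (mul_nonneg hR he.le)
    show ⟪x (TT X) u, w⟫ * ⟪u, w⟫ ≤ R * Real.exp s * ‖u‖
    linarith
  have h3 : 0 ≤ ∫ u, ‖u‖ ^ 3 ∂μ := integral_nonneg fun u => by positivity
  have h4 : 0 ≤ ∫ u, ‖u‖ ∂μ := integral_nonneg fun u => by positivity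
  have h5 : 0 ≤ (∫ u, ‖u‖ ^ 3 ∂μ) / ρ := div_nonneg h3 hρ.le
  have h6 := mul_le_mul_of_nonneg_left h2 (neg_nonneg.mpr h0)
  have h7 := mul_le_mul_of_nonneg_right hse (mul_nonneg hR h4)
  unfold CC
  rw [abs_of_nonpos h0]
  linarith

theorem bound (hx : Near P ρ R x) (hm : Mom μ) (X : V d) {w : E d} (hw : ‖w‖ = 1) {s : ℝ}
    (hs : symOp X w = s • w) :
    |s| / 2 - CC μ ρ R ≤ s * (∫ u, ⟪x (TT X) u, w⟫ * ⟪u, w⟫ ∂μ - 1 / 2) := by
  rcases le_total 0 s with h | h
  · exact bound_pos hx hm X hw hs h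
  · exact bound_neg hx hm X hw hs h

theorem inner_GG (hx : Near P ρ R x) (hm : Mom μ) (X : V d) :
    ‖X + tp X‖ / 4 - d * CC μ ρ R / 2 ≤ ⟪GG x μ X, X⟫ := by
  obtain ⟨w, s, hws, hS⟩ := exists_spectral X
  have hw : ∀ i, ‖w i‖ = 1 := fun i => w.norm_eq_one i
  have h1 : ⟪GG x μ X, X⟫ = (1 / 2) * ⟪GG x μ X, X + tp X⟫ := by
    have h2 : ⟪GG x μ X, tp X⟫ = ⟪GG x μ X, X⟫ := by
      conv_lhs => rw [← tp_GG hx hm X]
      rw [inner_tp]
    rw [inner_add_right, h2]
    ring
  have h2 : ‖X + tp X‖ ≤ ∑ i, |s i| := by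
    rw [hS]
    refine (norm_sum_le _ _).trans (Finset.sum_le_sum fun i _ => ?_)
    rw [norm_smul, norm_outer, hw i, Real.norm_eq_abs]
    simp
  have h3 : ∑ i, (|s i| / 2 - CC μ ρ R) ≤ ⟪GG x μ X, X + tp X⟫ := by
    rw [hS, inner_sum]
    refine Finset.sum_le_sum fun i _ => ?_
    rw [real_inner_smul_right, inner_GG_outer hx hm X (hw i)]
    exact bound hx hm X (hw i) (hws i)
  rw [Finset.sum_sub_distrib, Finset.sum_const, Finset.card_univ, Fintype.card_fin, nsmul_eq_mul,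
    ← Finset.sum_div] at h3
  rw [h1]
  linarith

/-- **Isotropic position**, for the exponentials of symmetric matrices. -/
theorem exists_isotropic_aux (hx : Near P ρ R x) (hm : Mom μ) :
    ∃ X : V d, GG x μ X = 0 := by
  have hC := CC_nonneg (μ := μ) hx
  set r : ℝ := d * CC μ ρ R + 2 with hr
  have hrpos : 0 < r := by positivity
  obtain ⟨X, hX⟩ := exists_zero (F := fun X : V d => GG x μ X + (X - tp X))
    ((continuous_GG hx hm).add (continuous_id.sub continuous_tp)) hrpos (by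
      intro X hX
      have h1 := inner_GG hx hm X
      have h2 : ⟪X - tp X, X⟫ = ‖X - tp X‖ ^ 2 / 2 := by
        rw [← real_inner_self_eq_norm_sq]
        have h3 : ⟪tp X, tp X⟫ = ⟪X, X⟫ := inner_tp X X
        have h4 : ⟪tp X, X⟫ = ⟪X, tp X⟫ := real_inner_comm _ _
        simp only [inner_sub_left, inner_sub_right]
        rw [h3, h4]
        ring
      have h3 : 2 * ‖X‖ ≤ ‖X + tp X‖ + ‖X - tp X‖ := by
        have h4 : (2 : ℝ) • X = (X + tp X) + (X - tp X) := by
          rw [two_smul]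
          abel
        have h5 := norm_add_le (X + tp X) (X - tp X)
        rw [← h4, norm_smul] at h5
        simpa using h5
      rw [inner_add_left, h2]
      rw [hX] at h3
      nlinarith [sq_nonneg (‖X - tp X‖ - 1 / 4)])
  -- the two parts vanish
  refine ⟨X, ?_⟩
  have hX' : GG x μ X + (X - tp X) = 0 := hX
  have h1 : tp (GG x μ X + (X - tp X)) = tp 0 := by rw [hX']
  have h2 : GG x μ X + (tp X - X) = 0 := by
    have h3 : tp (GG x μ X + (X - tp X)) = GG x μ X + (tp X - X) := by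
      conv_rhs => rw [← tp_GG hx hm X]
      ext p
      simp
    rw [← h3, h1]
    ext p
    simp
  have h3 : (2 : ℝ) • GG x μ X = 0 := by
    have : (2 : ℝ) • GG x μ X = (GG x μ X + (X - tp X)) + (GG x μ X + (tp X - X)) := by
      rw [two_smul]; abel
    rw [this, hX', h2, add_zero]
  exact (smul_eq_zero.mp h3).resolve_left two_ne_zero

end Main

end Pool.Agent.KXP.Isop
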