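import Pool.Agent.KXP.Iso
import Pool.Agent.KXP.GeA
import Pool.Agent.KXP.Gau

/-!
# Isotropic position of a centrally symmetric polytope
-/

set_option autoImplicit false

open MeasureTheory ProbabilityTheory Filter Topology
open scoped BigOperators RealInnerProductSpace

namespace Pool.Agent.KXP

namespace Isop

variable {d : ℕ}

/-- the matrix of an operator -/
noncomputable def matOf (T : Op d) : Matrix (Fin d) (Fin d) ℝ :=
  fun a b => T (EuclideanSpace.single b (1 : ℝ)) a

theorem mv_matOf (T : Op d) (u : E d) : mv (matOf T) u = T u := by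
  have h : u = ∑ b, u b • EuclideanSpace.single b (1 : ℝ) := by
    ext a
    simp [Finset.sum_apply, Pi.single_apply]
  ext a
  rw [mv_apply]
  conv_rhs => rw [h, map_sum]
  simp only [map_smul, matOf]
  simp [mul_comm]

theorem mom_gam : Mom (gam d) where
  int3 := gau_pow 3
  cov w := by
    have hi : ∀ a b : Fin d, Integrable (fun u : E d => u a * u b) (gam d) := fun a b =>
      (Gau_memLp a).integrable_mul (Gau_memLp b)
    have h1 : ∀ u : E d, ⟪u, w⟫ ^ 2 = ∑ a, ∑ b, (w a * w b) * (u a * u b) := by
      intro u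
      rw [innerE_eq_sum, sq, Finset.sum_mul_sum]
      refine Finset.sum_congr rfl fun a _ => Finset.sum_congr rfl fun b _ => ?_
      ring
    simp only [h1]
    rw [integral_finsetSum _ fun a _ => integrable_finsetSum _ fun b _ => (hi a b).const_mul _]
    rw [← real_inner_self_eq_norm_sq, innerE_eq_sum]
    refine Finset.sum_congr rfl fun a _ => ?_
    rw [integral_finsetSum _ fun b _ => (hi a b).const_mul _]
    simp only [integral_const_mul, gau_cov]
    simp

theorem near_data (S : Finset (E d)) (hint : (interior (convexHull ℝ (S : Set (E d)))).Nonempty)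
    (hsym : ∀ x ∈ convexHull ℝ (S : Set (E d)), -x ∈ convexHull ℝ (S : Set (E d))) :
    ∃ ρ R : ℝ, Near (convexHull ℝ (S : Set (E d))) ρ R (fun T u => near S (matOf T) u) := by
  have hne : S.Nonempty := by
    obtain ⟨y, hy⟩ := hint
    have h1 := interior_subset hy
    rw [← Finset.coe_nonempty]
    exact (convexHull_nonempty_iff).mp ⟨y, h1⟩
  set K : Set (E d) := convexHull ℝ (S : Set (E d)) with hK
  have hconv : Convex ℝ K := convex_convexHull ℝ _
  have h0 : (0 : E d) ∈ interior K := by
    obtain ⟨y, hy⟩ := hint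
    have hneg : -y ∈ interior K := by
      have h1 : (Homeomorph.neg (E d)) '' interior K ⊆ interior K := by
        rw [Homeomorph.image_interior]
        refine interior_mono ?_
        rintro _ ⟨z, hz, rfl⟩
        exact hsym z hz
      exact h1 ⟨y, hy, rfl⟩
    have h2 := hconv.interior.midpoint_mem hy hneg
    rwa [midpoint_self_neg] at h2
  obtain ⟨ε, hε, hball⟩ := Metric.isOpen_iff.mp isOpen_interior 0 h0
  have hcomp : IsCompact K := S.finite_toSet.isCompact_convexHull ℝ
  obtain ⟨R, hR⟩ := hcomp.isBounded.exists_norm_le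
  refine ⟨ε / 2, R, ?_⟩
  have hspec := fun (X : V d) (u : E d) => near_spec S hne (matOf (TT X)) u
  refine ⟨by positivity, fun v hv => ?_, hR, fun X u => ?_, fun X u p hp => ?_⟩
  · refine interior_subset (hball ?_)
    rw [mem_ball_zero_iff]
    linarith
  · obtain ⟨p, hp, hpx⟩ := (hspec X u).1
    exact ⟨p, hp, by rw [← mv_matOf]; exact hpx⟩
  · refine (hspec X u).2 _ ⟨p, hp, ?_⟩
    rw [mv_matOf]

end Isop

variable {d : ℕ}

/-- **Isotropic position**: for some matrix `M` the symmetric part of `∫ X_a u_b` is one half of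
the identity matrix, `X` the nearest point map of `M (conv S)`. -/
theorem exists_iso_near (S : Finset (E d))
    (hint : (interior (convexHull ℝ (S : Set (E d)))).Nonempty)
    (hsym : ∀ x ∈ convexHull ℝ (S : Set (E d)), -x ∈ convexHull ℝ (S : Set (E d))) :
    ∃ M : Matrix (Fin d) (Fin d) ℝ, ∀ a b,
      (∫ u, near S M u a * u b ∂(gam d)) + (∫ u, near S M u b * u a ∂(gam d)) =
        if a = b then 1 else 0 := by
  obtain ⟨ρ, R, hx⟩ := Isop.near_data S hint hsym
  have hm : Isop.Mom (gam d) := Isop.mom_gam
  obtain ⟨X, hX⟩ := Isop.exists_isotropic_aux hx hm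
  refine ⟨Isop.matOf (Isop.TT X), fun a b => ?_⟩
  have h1 : Isop.GG (fun T u => near S (Isop.matOf T) u) (gam d) X (a, b) = 0 := by
    rw [hX]; rfl
  rw [Isop.GG_apply hx hm] at h1
  have hc : Continuous (near S (Isop.matOf (Isop.TT X))) := (hx.lip X).continuous
  have hi : ∀ a b : Fin d, Integrable (fun u : E d => near S (Isop.matOf (Isop.TT X)) u a * u b)
      (gam d) := by
    intro a b
    refine Integrable.mono' hm.int2 ?_ (Eventually.of_forall fun u => ?_)
    · have h2 : Continuous fun u : E d => near S (Isop.matOf (Isop.TT X)) u a :=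
        (EuclideanSpace.proj (𝕜 := ℝ) a).continuous.comp hc
      have h3 : Continuous fun u : E d => u b := (EuclideanSpace.proj (𝕜 := ℝ) b).continuous
      exact (h2.mul h3).aestronglyMeasurable
    · rw [norm_mul, sq]
      exact mul_le_mul ((PiLp.norm_apply_le _ a).trans (hx.norm_le X u)) (PiLp.norm_apply_le _ b)
        (norm_nonneg _) (norm_nonneg _)
  have h2 : ∀ u : E d, Isop.gg (fun T u => near S (Isop.matOf T) u) X u (a, b) =
      (1 / 2) * (near S (Isop.matOf (Isop.TT X)) u a * u b
        + near S (Isop.matOf (Isop.TT X)) u b * u a) - (1 / 2) * (if a = b then 1 else 0) := by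
    intro u
    simp only [Isop.gg, PiLp.sub_apply, PiLp.smul_apply, PiLp.add_apply, Isop.outer_apply,
      Isop.idv_apply, smul_eq_mul]
    ring
  simp only [h2] at h1
  have h3 : Integrable (fun u : E d => (1 / 2 : ℝ) * (near S (Isop.matOf (Isop.TT X)) u a * u b
      + near S (Isop.matOf (Isop.TT X)) u b * u a)) (gam d) :=
    ((hi a b).add (hi b a)).const_mul _
  rw [integral_sub h3 (integrable_const _),
    integral_const_mul, integral_add (hi a b) (hi b a)] at h1
  simp only [integral_const, probReal_univ, smul_eq_mul] at h1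
  linarith

/-- The form used in the row FIN: `hst` is the Stein identity, `hs` the symmetry of the mean
projection. -/
theorem exists_half (S : Finset (E d))
    (hint : (interior (convexHull ℝ (S : Set (E d)))).Nonempty)
    (hsym : ∀ x ∈ convexHull ℝ (S : Set (E d)), -x ∈ convexHull ℝ (S : Set (E d)))
    (hst : ∀ (M : Matrix (Fin d) (Fin d) ℝ) (a b : Fin d),
      A (geo S M) a b = ∫ u, near S M u a * u b ∂(gam d))
    (hs : ∀ (M : Matrix (Fin d) (Fin d) ℝ) (a b : Fin d), A (geo S M) a b = A (geo S M) b a) :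
    ∃ M : Matrix (Fin d) (Fin d) ℝ,
      A (geo S M) = (1 / 2 : ℝ) • (1 : Matrix (Fin d) (Fin d) ℝ) := by
  obtain ⟨M, hM⟩ := exists_iso_near S hint hsym
  refine ⟨M, ?_⟩
  ext a b
  have h1 := hM a b
  rw [← hst, ← hst, hs M b a] at h1
  rw [Matrix.smul_apply, Matrix.one_apply, smul_eq_mul]
  linarith

end Pool.Agent.KXP
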