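import Pool.Agent.KXP.StC
import Pool.Agent.KXP.Fib

/-! KXP row SYM: the symmetric tensor. -/

set_option autoImplicit false

open MeasureTheory ProbabilityTheory Filter Topology
open scoped BigOperators

namespace Pool.Agent.KXP

variable {d : ℕ} {ι : Type} [Fintype ι]

theorem T_symm {D : Pre d ι} (hD : Good D) (k a b : Fin d) : T D k a b = T D k b a := by
  rw [T_eq hD.meas, T_eq hD.meas]
  refine integral_congr_ae (Eventually.of_forall fun u => ?_)
  simp only [hD.sym (D.L u) a b]

theorem T_swap {D : Pre d ι} (hD : Good D) (k a b : Fin d) : T D k a b = T D b a k := by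
  rw [T_eq hD.meas, T_eq hD.meas, stein1 hD, stein1 hD]
  refine integral_congr_ae (Eventually.of_forall fun u => ?_)
  simp only
  by_cases h : b = k
  · subst h; rfl
  · rw [if_neg h, if_neg (fun h' => h h'.symm)]
    ring

end Pool.Agent.KXP
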