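import Pool.Agent.KXP.LnC
import Pool.Agent.KXP.Sym
import Pool.Agent.KXP.Fib

/-! KXP row LOC: the local inequality for the data. -/

set_option autoImplicit false

open MeasureTheory ProbabilityTheory Filter Topology
open scoped BigOperators

namespace Pool.Agent.KXP

variable {d : ℕ} {ι : Type} [Fintype ι]

theorem Loc_T_apply (D : Pre d ι) (k a b : Fin d) : T D k a b = ∑ i, mom D i k * D.P i a b := by
  unfold T
  rw [Matrix.sum_apply]
  rfl

theorem LL_le_Ye (m : ℕ) {D : Pre d ι} (hD : Good D) : LL m (A D) (T D) ≤ Ye D := by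
  have h := lin_ineq m (q D) (q_nonneg D) (q_sum hD.meas) D.P hD.sym hD.idem (mom D)
    (fun i k hi => mom_zero D i k hi) (mom_sum hD.meas) (fun a b k => by
      rw [← Loc_T_apply, ← Loc_T_apply, T_swap hD])
  exact h

end Pool.Agent.KXP
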