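import Mathlib

/-! # KXP / TrTaylor: second order Taylor formula for traces of powers of matrices -/

set_option autoImplicit false
set_option linter.all false

open Matrix Finset

namespace Pool.Agent.KXP

noncomputable section

variable {d : ℕ}

/-- sum of the absolute values of the entries -/
def nn (K : Matrix (Fin d) (Fin d) ℝ) : ℝ := ∑ a, ∑ b, |K a b|

/-- trace of the truncated binary entropy -/
def trJ (m : ℕ) (A : Matrix (Fin d) (Fin d) ℝ) : ℝ :=
  ∑ j ∈ range (m + 1), ((d : ℝ) - ((1 - (2 : ℝ) • A) ^ (2 * j + 2)).trace) /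
    ((2 * j + 1) * (2 * j + 2))

theorem nn_nonneg (K : Matrix (Fin d) (Fin d) ℝ) : 0 ≤ nn K :=
  Finset.sum_nonneg fun _ _ => Finset.sum_nonneg fun _ _ => abs_nonneg _

theorem nn_add (A B : Matrix (Fin d) (Fin d) ℝ) : nn (A + B) ≤ nn A + nn B := by
  unfold nn
  rw [← Finset.sum_add_distrib]
  refine Finset.sum_le_sum fun a _ => ?_
  rw [← Finset.sum_add_distrib]
  refine Finset.sum_le_sum fun b _ => ?_
  rw [Matrix.add_apply]
  exact abs_add_le _ _

theorem nn_smul (c : ℝ) (A : Matrix (Fin d) (Fin d) ℝ) : nn (c • A) = |c| * nn A := by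
  unfold nn
  rw [Finset.mul_sum]
  refine Finset.sum_congr rfl fun a _ => ?_
  rw [Finset.mul_sum]
  refine Finset.sum_congr rfl fun b _ => ?_
  rw [Matrix.smul_apply, smul_eq_mul, abs_mul]

theorem nn_mul (A B : Matrix (Fin d) (Fin d) ℝ) : nn (A * B) ≤ nn A * nn B := by
  have h1 : nn (A * B) ≤ ∑ a, ∑ b, ∑ k, |A a k| * |B k b| := by
    unfold nn
    refine Finset.sum_le_sum fun a _ => Finset.sum_le_sum fun b _ => ?_
    rw [Matrix.mul_apply]
    refine (Finset.abs_sum_le_sum_abs _ _).trans ?_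
    refine Finset.sum_le_sum fun k _ => ?_
    rw [abs_mul]
  refine h1.trans ?_
  have h2 : ∑ a, ∑ b, ∑ k, |A a k| * |B k b| = ∑ a, ∑ k, |A a k| * ∑ b, |B k b| := by
    refine Finset.sum_congr rfl fun a _ => ?_
    rw [Finset.sum_comm]
    refine Finset.sum_congr rfl fun k _ => ?_
    rw [Finset.mul_sum]
  rw [h2]
  unfold nn
  rw [Finset.sum_mul]
  refine Finset.sum_le_sum fun a _ => ?_
  rw [Finset.sum_mul]
  refine Finset.sum_le_sum fun k _ => ?_
  refine mul_le_mul_of_nonneg_left ?_ (abs_nonneg _)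
  exact Finset.single_le_sum (f := fun k => ∑ b, |B k b|)
    (fun i _ => Finset.sum_nonneg fun _ _ => abs_nonneg _) (Finset.mem_univ k)

theorem abs_trace_le (A : Matrix (Fin d) (Fin d) ℝ) : |A.trace| ≤ nn A := by
  unfold nn
  rw [Matrix.trace]
  refine (Finset.abs_sum_le_sum_abs _ _).trans ?_
  refine Finset.sum_le_sum fun a _ => ?_
  rw [Matrix.diag_apply]
  exact Finset.single_le_sum (f := fun b => |A a b|) (fun i _ => abs_nonneg _)
    (Finset.mem_univ a)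

theorem nn_one : nn (1 : Matrix (Fin d) (Fin d) ℝ) = d := by
  unfold nn
  have : ∀ a : Fin d, ∑ b, |(1 : Matrix (Fin d) (Fin d) ℝ) a b| = 1 := by
    intro a
    rw [Finset.sum_eq_single a]
    · simp
    · intro b _ hb
      rw [Matrix.one_apply_ne (Ne.symm hb), abs_zero]
    · intro h
      exact absurd (Finset.mem_univ a) h
  simp [this]

theorem nn_le_of_entries {A : Matrix (Fin d) (Fin d) ℝ} (h : ∀ a b, |A a b| ≤ 1) :
    nn A ≤ (d : ℝ) * d := by
  unfold nn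
  calc ∑ a, ∑ b, |A a b| ≤ ∑ _a : Fin d, ∑ _b : Fin d, (1 : ℝ) :=
        Finset.sum_le_sum fun a _ => Finset.sum_le_sum fun b _ => h a b
    _ = (d : ℝ) * d := by simp

/-- first order part of `(Y + K) ^ n` -/
def Dn (Y K : Matrix (Fin d) (Fin d) ℝ) : ℕ → Matrix (Fin d) (Fin d) ℝ
  | 0 => 0
  | n + 1 => Y * Dn Y K n + K * Y ^ n

/-- second order part of `(Y + K) ^ n` -/
def En (Y K : Matrix (Fin d) (Fin d) ℝ) : ℕ → Matrix (Fin d) (Fin d) ℝ
  | 0 => 0
  | n + 1 => Y * En Y K n + K * Dn Y K n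

/-- the rest -/
def Rn (Y K : Matrix (Fin d) (Fin d) ℝ) : ℕ → Matrix (Fin d) (Fin d) ℝ
  | 0 => 0
  | n + 1 => (Y + K) * Rn Y K n + K * En Y K n

theorem pow_eq (Y K : Matrix (Fin d) (Fin d) ℝ) (n : ℕ) :
    (Y + K) ^ n = Y ^ n + Dn Y K n + En Y K n + Rn Y K n := by
  induction n with
  | zero => simp [Dn, En, Rn]
  | succ n ih =>
    rw [pow_succ', ih, Dn, En, Rn, pow_succ' Y n]
    noncomm_ring

theorem Dn_eq (Y K : Matrix (Fin d) (Fin d) ℝ) (n : ℕ) :
    Dn Y K n = ∑ i ∈ range n, Y ^ i * K * Y ^ (n - 1 - i) := by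
  induction n with
  | zero => simp [Dn]
  | succ n ih =>
    rw [Dn, ih, Finset.sum_range_succ', Finset.mul_sum]
    congr 1
    · refine Finset.sum_congr rfl fun i hi => ?_
      have hi' := Finset.mem_range.1 hi
      rw [pow_succ' Y i, show n + 1 - 1 - (i + 1) = n - 1 - i by omega]
      simp only [Matrix.mul_assoc]
    · simp

theorem En_eq (Y K : Matrix (Fin d) (Fin d) ℝ) (n : ℕ) :
    En Y K n = ∑ i ∈ range n, Y ^ i * K * Dn Y K (n - 1 - i) := by
  induction n with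
  | zero => simp [En]
  | succ n ih =>
    rw [En, ih, Finset.sum_range_succ', Finset.mul_sum]
    congr 1
    · refine Finset.sum_congr rfl fun i hi => ?_
      have hi' := Finset.mem_range.1 hi
      rw [pow_succ' Y i, show n + 1 - 1 - (i + 1) = n - 1 - i by omega]
      simp only [Matrix.mul_assoc]
    · simp

theorem trace_Dn (Y K : Matrix (Fin d) (Fin d) ℝ) (n : ℕ) :
    (Dn Y K (n + 1)).trace = (n + 1 : ℝ) * (Y ^ n * K).trace := by
  rw [Dn_eq, Matrix.trace_sum]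
  have : ∀ i ∈ range (n + 1), (Y ^ i * K * Y ^ (n + 1 - 1 - i)).trace = (Y ^ n * K).trace := by
    intro i hi
    have hi' := Finset.mem_range.1 hi
    rw [Matrix.trace_mul_comm, ← Matrix.mul_assoc, ← pow_add,
      show n + 1 - 1 - i + i = n by omega]
  rw [Finset.sum_congr rfl this]
  simp

/-- the quadratic traces -/
def qt (Y K : Matrix (Fin d) (Fin d) ℝ) (n j : ℕ) : ℝ := (Y ^ j * K * (Y ^ (n - j) * K)).trace

theorem qt_symm (Y K : Matrix (Fin d) (Fin d) ℝ) {n j : ℕ} (hj : j ≤ n) :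
    qt Y K n (n - j) = qt Y K n j := by
  unfold qt
  rw [Matrix.trace_mul_comm, show n - (n - j) = j by omega]

theorem sum_tri (g : ℕ → ℝ) (n : ℕ) :
    ∑ i ∈ range n, ∑ j ∈ range i, g j = ∑ j ∈ range n, ((n : ℝ) - 1 - j) * g j := by
  induction n with
  | zero => simp
  | succ n ih =>
    rw [Finset.sum_range_succ, ih, Finset.sum_range_succ, ← Finset.sum_add_distrib]
    push_cast
    have : ((n : ℝ) + 1 - 1 - n) * g n = 0 := by ring
    rw [this, add_zero]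
    refine Finset.sum_congr rfl fun j _ => ?_
    ring

theorem trace_En (Y K : Matrix (Fin d) (Fin d) ℝ) (n : ℕ) :
    2 * (En Y K (n + 2)).trace = (n + 2 : ℝ) * ∑ j ∈ range (n + 1), qt Y K n j := by
  have h1 : (En Y K (n + 2)).trace =
      ∑ i ∈ range (n + 2), ∑ j ∈ range (n + 2 - 1 - i), qt Y K n j := by
    rw [En_eq, Matrix.trace_sum]
    refine Finset.sum_congr rfl fun i hi => ?_
    have hi' := Finset.mem_range.1 hi
    rw [Dn_eq, Finset.mul_sum, Matrix.trace_sum]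
    refine Finset.sum_congr rfl fun j hj => ?_
    have hj' := Finset.mem_range.1 hj
    unfold qt
    rw [show Y ^ i * K * (Y ^ j * K * Y ^ (n + 2 - 1 - i - 1 - j)) =
      (Y ^ i * K * (Y ^ j * K)) * Y ^ (n + 2 - 1 - i - 1 - j) by
        simp only [Matrix.mul_assoc]]
    rw [Matrix.trace_mul_comm]
    rw [show Y ^ (n + 2 - 1 - i - 1 - j) * (Y ^ i * K * (Y ^ j * K)) =
      (Y ^ (n + 2 - 1 - i - 1 - j) * Y ^ i) * K * (Y ^ j * K) by
        simp only [Matrix.mul_assoc]]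
    rw [← pow_add, show n + 2 - 1 - i - 1 - j + i = n - j by omega, Matrix.trace_mul_comm]
  have h2 : ∑ i ∈ range (n + 2), ∑ j ∈ range (n + 2 - 1 - i), qt Y K n j =
      ∑ i ∈ range (n + 2), ∑ j ∈ range i, qt Y K n j :=
    Finset.sum_range_reflect (fun i => ∑ j ∈ range i, qt Y K n j) (n + 2)
  rw [h1, h2, sum_tri, Finset.sum_range_succ]
  have h3 : (((n + 2 : ℕ) : ℝ) - 1 - ((n + 1 : ℕ) : ℝ)) * qt Y K n (n + 1) = 0 := by
    push_cast; ring
  rw [h3, add_zero]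
  have h4 : ∑ j ∈ range (n + 1), (((n + 2 : ℕ) : ℝ) - 1 - (j : ℝ)) * qt Y K n j =
      ∑ j ∈ range (n + 1), ((j : ℝ) + 1) * qt Y K n j := by
    rw [← Finset.sum_range_reflect]
    refine Finset.sum_congr rfl fun j hj => ?_
    have hj' := Finset.mem_range.1 hj
    rw [show n + 1 - 1 - j = n - j by omega, qt_symm Y K (by omega : j ≤ n),
      Nat.cast_sub (by omega : j ≤ n)]
    push_cast
    ring
  calc 2 * ∑ j ∈ range (n + 1), (((n + 2 : ℕ) : ℝ) - 1 - (j : ℝ)) * qt Y K n j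
      = ∑ j ∈ range (n + 1), (((n + 2 : ℕ) : ℝ) - 1 - (j : ℝ)) * qt Y K n j +
        ∑ j ∈ range (n + 1), ((j : ℝ) + 1) * qt Y K n j := by rw [← h4]; ring
    _ = (n + 2 : ℝ) * ∑ j ∈ range (n + 1), qt Y K n j := by
        rw [← Finset.sum_add_distrib, Finset.mul_sum]
        refine Finset.sum_congr rfl fun j _ => ?_
        push_cast
        ring

theorem bounds (Y K : Matrix (Fin d) (Fin d) ℝ) {D : ℝ} (hY : nn Y ≤ D) (hK : nn (Y + K) ≤ D)
    (n : ℕ) :
    nn (Y ^ n) ≤ (D + 1) ^ n * d ∧ nn (Dn Y K n) ≤ (D + 1) ^ n * d * nn K ∧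
      nn (En Y K n) ≤ (D + 1) ^ n * d * nn K ^ 2 ∧ nn (Rn Y K n) ≤ (D + 1) ^ n * d * nn K ^ 3 := by
  have hD : 0 ≤ D := (nn_nonneg Y).trans hY
  have hk := nn_nonneg K
  have h0 : nn (0 : Matrix (Fin d) (Fin d) ℝ) = 0 := by simp [nn]
  induction n with
  | zero =>
    refine ⟨?_, ?_, ?_, ?_⟩
    · rw [pow_zero, nn_one]; simp
    · rw [Dn, h0]; positivity
    · rw [En, h0]; positivity
    · rw [Rn, h0]; positivity
  | succ n ih =>
    obtain ⟨i1, i2, i3, i4⟩ := ih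
    have hC : 0 ≤ (D + 1) ^ n * d := by positivity
    refine ⟨?_, ?_, ?_, ?_⟩
    · rw [pow_succ']
      calc nn (Y * Y ^ n) ≤ nn Y * nn (Y ^ n) := nn_mul _ _
        _ ≤ D * ((D + 1) ^ n * d) := mul_le_mul hY i1 (nn_nonneg _) hD
        _ ≤ (D + 1) ^ (n + 1) * d := by rw [pow_succ]; nlinarith
    · rw [Dn]
      calc nn (Y * Dn Y K n + K * Y ^ n) ≤ nn (Y * Dn Y K n) + nn (K * Y ^ n) := nn_add _ _
        _ ≤ nn Y * nn (Dn Y K n) + nn K * nn (Y ^ n) := add_le_add (nn_mul _ _) (nn_mul _ _)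
        _ ≤ D * ((D + 1) ^ n * d * nn K) + nn K * ((D + 1) ^ n * d) := by
            gcongr
            exact nn_nonneg _
        _ = (D + 1) ^ (n + 1) * d * nn K := by rw [pow_succ]; ring
    · rw [En]
      calc nn (Y * En Y K n + K * Dn Y K n) ≤ nn (Y * En Y K n) + nn (K * Dn Y K n) :=
            nn_add _ _
        _ ≤ nn Y * nn (En Y K n) + nn K * nn (Dn Y K n) := add_le_add (nn_mul _ _) (nn_mul _ _)
        _ ≤ D * ((D + 1) ^ n * d * nn K ^ 2) + nn K * ((D + 1) ^ n * d * nn K) := by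
            gcongr
            exact nn_nonneg _
        _ = (D + 1) ^ (n + 1) * d * nn K ^ 2 := by rw [pow_succ]; ring
    · rw [Rn]
      calc nn ((Y + K) * Rn Y K n + K * En Y K n)
          ≤ nn ((Y + K) * Rn Y K n) + nn (K * En Y K n) := nn_add _ _
        _ ≤ nn (Y + K) * nn (Rn Y K n) + nn K * nn (En Y K n) :=
            add_le_add (nn_mul _ _) (nn_mul _ _)
        _ ≤ D * ((D + 1) ^ n * d * nn K ^ 3) + nn K * ((D + 1) ^ n * d * nn K ^ 2) := by
            gcongr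
            exact nn_nonneg _
        _ = (D + 1) ^ (n + 1) * d * nn K ^ 3 := by rw [pow_succ]; ring

/-- **Second order Taylor formula for the trace of a power.** -/
theorem trace_pow_taylor (Y K : Matrix (Fin d) (Fin d) ℝ) {D : ℝ} (hY : nn Y ≤ D)
    (hK : nn (Y + K) ≤ D) (n : ℕ) :
    |((Y + K) ^ (n + 2)).trace - (Y ^ (n + 2)).trace - (n + 2 : ℝ) * (Y ^ (n + 1) * K).trace -
      ((n + 2 : ℝ) / 2) * ∑ j ∈ range (n + 1), qt Y K n j| ≤ (D + 1) ^ (n + 2) * d * nn K ^ 3 := by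
  have h1 := pow_eq Y K (n + 2)
  have h2 := trace_Dn Y K (n + 1)
  have h3 := trace_En Y K n
  have h4 := (bounds Y K hY hK (n + 2)).2.2.2
  have h5 := abs_trace_le (Rn Y K (n + 2))
  rw [h1, Matrix.trace_add, Matrix.trace_add, Matrix.trace_add, h2]
  push_cast
  have h6 : (Y ^ (n + 2)).trace + ((n : ℝ) + 1 + 1) * (Y ^ (n + 1) * K).trace +
      (En Y K (n + 2)).trace + (Rn Y K (n + 2)).trace - (Y ^ (n + 2)).trace -
      ((n : ℝ) + 2) * (Y ^ (n + 1) * K).trace -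
      ((n : ℝ) + 2) / 2 * ∑ j ∈ range (n + 1), qt Y K n j = (Rn Y K (n + 2)).trace := by
    have : (En Y K (n + 2)).trace = ((n : ℝ) + 2) / 2 * ∑ j ∈ range (n + 1), qt Y K n j := by
      linarith
    rw [this]; ring
  rw [h6]
  exact h5.trans h4

/-- **Second order Taylor formula for the truncated entropy.** -/
theorem trJ_taylor (d m : ℕ) : ∃ C : ℝ, 0 ≤ C ∧ ∀ A H : Matrix (Fin d) (Fin d) ℝ,
    (∀ a b, |(1 - (2 : ℝ) • A) a b| ≤ 1) → (∀ a b, |(1 - (2 : ℝ) • (A + H)) a b| ≤ 1) →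
    |trJ m (A + H) - trJ m A -
        ∑ j ∈ range (m + 1), (2 / (2 * j + 1) : ℝ) * ((1 - (2 : ℝ) • A) ^ (2 * j + 1) * H).trace +
        ∑ j ∈ range (m + 1), (2 / (2 * j + 1) : ℝ) *
          ∑ i ∈ range (2 * j + 1), ((1 - (2 : ℝ) • A) ^ i * H *
            ((1 - (2 : ℝ) • A) ^ (2 * j - i) * H)).trace| ≤ C * nn H ^ 3 := by
  refine ⟨∑ j ∈ range (m + 1), (((d : ℝ) * d + 1) ^ (2 * j + 2) * d * 8), by positivity, ?_⟩
  intro A H hA hAH
  set Y : Matrix (Fin d) (Fin d) ℝ := 1 - (2 : ℝ) • A with hYdef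
  have hY : nn Y ≤ (d : ℝ) * d := nn_le_of_entries hA
  have hYK : (1 : Matrix (Fin d) (Fin d) ℝ) - (2 : ℝ) • (A + H) = Y + (-2 : ℝ) • H := by
    rw [hYdef, smul_add, neg_smul]; abel
  have hK : nn (Y + (-2 : ℝ) • H) ≤ (d : ℝ) * d := by
    rw [← hYK]; exact nn_le_of_entries hAH
  have key : ∀ j : ℕ, |((Y + (-2 : ℝ) • H) ^ (2 * j + 2)).trace - (Y ^ (2 * j + 2)).trace +
      (2 * (2 * j + 2) : ℝ) * (Y ^ (2 * j + 1) * H).trace -
      (2 * (2 * j + 2) : ℝ) * ∑ i ∈ range (2 * j + 1), (Y ^ i * H *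
            (Y ^ (2 * j - i) * H)).trace| ≤ ((d : ℝ) * d + 1) ^ (2 * j + 2) * d * 8 * nn H ^ 3 := by
    intro j
    have h := trace_pow_taylor Y ((-2 : ℝ) • H) hY hK (2 * j)
    rw [nn_smul] at h
    have e1 : (Y ^ (2 * j + 1) * (-2 : ℝ) • H).trace = -2 * (Y ^ (2 * j + 1) * H).trace := by
      rw [Matrix.mul_smul, Matrix.trace_smul, smul_eq_mul]
    have e2 : ∀ i, qt Y ((-2 : ℝ) • H) (2 * j) i =
        4 * (Y ^ i * H * (Y ^ (2 * j - i) * H)).trace := by
      intro i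
      unfold qt
      rw [Matrix.mul_smul, Matrix.mul_smul, Matrix.smul_mul, Matrix.mul_smul, smul_smul,
        Matrix.trace_smul, smul_eq_mul]
      norm_num
    rw [e1, Finset.sum_congr rfl (fun i _ => e2 i), ← Finset.mul_sum] at h
    push_cast at h
    have e3 : |(-2 : ℝ)| = 2 := by norm_num
    rw [e3] at h
    refine le_trans (le_of_eq ?_) (h.trans (le_of_eq ?_))
    · congr 1
      ring
    · ring
  have hsum : trJ m (A + H) - trJ m A -
        ∑ j ∈ range (m + 1), (2 / (2 * j + 1) : ℝ) * (Y ^ (2 * j + 1) * H).trace +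
        ∑ j ∈ range (m + 1), (2 / (2 * j + 1) : ℝ) *
          ∑ i ∈ range (2 * j + 1), (Y ^ i * H * (Y ^ (2 * j - i) * H)).trace =
      ∑ j ∈ range (m + 1), (-(1 / ((2 * j + 1) * (2 * j + 2))) : ℝ) *
        (((Y + (-2 : ℝ) • H) ^ (2 * j + 2)).trace - (Y ^ (2 * j + 2)).trace +
      (2 * (2 * j + 2) : ℝ) * (Y ^ (2 * j + 1) * H).trace -
      (2 * (2 * j + 2) : ℝ) * ∑ i ∈ range (2 * j + 1), (Y ^ i * H *
            (Y ^ (2 * j - i) * H)).trace) := by
    unfold trJ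
    rw [hYK, ← hYdef, ← Finset.sum_sub_distrib, ← Finset.sum_sub_distrib,
      ← Finset.sum_add_distrib]
    refine Finset.sum_congr rfl fun j _ => ?_
    have h1 : (2 * (j : ℝ) + 1) ≠ 0 := by positivity
    have h2 : (2 * (j : ℝ) + 2) ≠ 0 := by positivity
    field_simp
    ring
  rw [hsum]
  refine (Finset.abs_sum_le_sum_abs _ _).trans ?_
  rw [Finset.sum_mul]
  refine Finset.sum_le_sum fun j _ => ?_
  rw [abs_mul, abs_neg, abs_of_nonneg (by positivity)]
  have h1 : (1 / ((2 * (j : ℝ) + 1) * (2 * j + 2))) ≤ 1 := by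
    rw [div_le_one (by positivity)]
    nlinarith [(Nat.cast_nonneg j : (0 : ℝ) ≤ j)]
  calc _ ≤ 1 * |((Y + (-2 : ℝ) • H) ^ (2 * j + 2)).trace - (Y ^ (2 * j + 2)).trace +
      (2 * (2 * j + 2) : ℝ) * (Y ^ (2 * j + 1) * H).trace -
      (2 * (2 * j + 2) : ℝ) * ∑ i ∈ range (2 * j + 1), (Y ^ i * H *
            (Y ^ (2 * j - i) * H)).trace| := mul_le_mul_of_nonneg_right h1 (abs_nonneg _)
    _ ≤ _ := by rw [one_mul]; exact key j

end

end Pool.Agent.KXP
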