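import Pool.Agent.KXP.Defs
import Pool.Agent.KXP.TrTaylor

/-! # KXP / JT: Taylor estimate for the trace potential -/

set_option autoImplicit false
set_option linter.all false

open Matrix Finset

namespace Pool.Agent.KXP

theorem JT.abs_entry {d : ℕ} (B : Matrix (Fin d) (Fin d) ℝ) (hB : ∀ a b, |B a b| ≤ 1) (a b : Fin d) :
    |(1 - (2 : ℝ) • B) a b| ≤ 3 := by
  have h := abs_le.1 (hB a b)
  rw [Matrix.sub_apply, Matrix.smul_apply, smul_eq_mul, abs_le]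
  by_cases hab : a = b
  · subst hab
    rw [Matrix.one_apply_eq]
    constructor <;> linarith [h.1, h.2]
  · rw [Matrix.one_apply_ne hab]
    constructor <;> linarith [h.1, h.2]

theorem JT.nn_le {d : ℕ} (B : Matrix (Fin d) (Fin d) ℝ) (hB : ∀ a b, |B a b| ≤ 1) :
    nn (1 - (2 : ℝ) • B) ≤ 3 * ((d : ℝ) * d) := by
  unfold nn
  calc ∑ a, ∑ b, |(1 - (2 : ℝ) • B) a b| ≤ ∑ _a : Fin d, ∑ _b : Fin d, (3 : ℝ) :=
        Finset.sum_le_sum fun a _ => Finset.sum_le_sum fun b _ => JT.abs_entry B hB a b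
    _ = 3 * ((d : ℝ) * d) := by simp; ring

theorem J_taylor (d m : ℕ) : ∃ C : ℝ, 0 ≤ C ∧ ∀ B H : Matrix (Fin d) (Fin d) ℝ,
    (∀ a b, B a b = B b a) → (∀ a b, H a b = H b a) →
    (∀ a b, |B a b| ≤ 1) → (∀ a b, |B a b + H a b| ≤ 1) →
    J m B + 2 * (∑ j ∈ Finset.range (m + 1), (1 / (2 * (j : ℝ) + 1)) *
        ((1 - (2 : ℝ) • B) ^ (2 * j + 1) * H).trace)
      - 1 / 2 * (∑ j ∈ Finset.range (m + 1), (4 / (2 * (j : ℝ) + 1)) * ∑ l ∈ Finset.range (2 * j + 1),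
        ((1 - (2 : ℝ) • B) ^ l * H * (1 - (2 : ℝ) • B) ^ (2 * j - l) * H).trace)
      - C * (∑ a, ∑ b, |H a b|) ^ 3 ≤ J m (B + H) := by
  refine ⟨∑ j ∈ range (m + 1), ((3 * ((d : ℝ) * d) + 1) ^ (2 * j + 2) * d * 8), by positivity, ?_⟩
  intro A H _ _ hA hAH
  set Y : Matrix (Fin d) (Fin d) ℝ := 1 - (2 : ℝ) • A with hYdef
  have hY : nn Y ≤ 3 * ((d : ℝ) * d) := JT.nn_le A hA
  have hYK : (1 : Matrix (Fin d) (Fin d) ℝ) - (2 : ℝ) • (A + H) = Y + (-2 : ℝ) • H := by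
    rw [hYdef, smul_add, neg_smul]; abel
  have hK : nn (Y + (-2 : ℝ) • H) ≤ 3 * ((d : ℝ) * d) := by
    rw [← hYK]; exact JT.nn_le (A + H) (by intro a b; rw [Matrix.add_apply]; exact hAH a b)
  have key : ∀ j : ℕ, |((Y + (-2 : ℝ) • H) ^ (2 * j + 2)).trace - (Y ^ (2 * j + 2)).trace +
      (2 * (2 * j + 2) : ℝ) * (Y ^ (2 * j + 1) * H).trace -
      (2 * (2 * j + 2) : ℝ) * ∑ i ∈ range (2 * j + 1), (Y ^ i * H *
            (Y ^ (2 * j - i) * H)).trace| ≤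
        (3 * ((d : ℝ) * d) + 1) ^ (2 * j + 2) * d * 8 * nn H ^ 3 := by
    intro j
    have h := trace_pow_taylor Y ((-2 : ℝ) • H) hY hK (2 * j)
    rw [nn_smul] at h
    have e1 : (Y ^ (2 * j + 1) * (-2 : ℝ) • H).trace = -2 * (Y ^ (2 * j + 1) * H).trace := by
      rw [Matrix.mul_smul, Matrix.trace_smul, smul_eq_mul]
    have e2 : ∀ i, qt Y ((-2 : ℝ) • H) (2 * j) i =
        4 * (Y ^ i * H * (Y ^ (2 * j - i) * H)).trace := by
      intro i
      unfold qt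
      rw [Matrix.mul_smul, Matrix.mul_smul, Matrix.smul_mul, Matrix.mul_smul, smul_smul,
        Matrix.trace_smul, smul_eq_mul]
      norm_num
    rw [e1, Finset.sum_congr rfl (fun i _ => e2 i), ← Finset.mul_sum] at h
    push_cast at h
    have e3 : |(-2 : ℝ)| = 2 := by norm_num
    rw [e3] at h
    refine le_trans (le_of_eq ?_) (h.trans (le_of_eq ?_))
    · congr 1
      ring
    · ring
  have hsum : J m (A + H) - J m A -
        2 * (∑ j ∈ range (m + 1), (1 / (2 * (j : ℝ) + 1)) * (Y ^ (2 * j + 1) * H).trace) +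
        1 / 2 * (∑ j ∈ range (m + 1), (4 / (2 * (j : ℝ) + 1)) *
          ∑ l ∈ range (2 * j + 1), (Y ^ l * H * Y ^ (2 * j - l) * H).trace) =
      ∑ j ∈ range (m + 1), (-(1 / ((2 * j + 1) * (2 * j + 2))) : ℝ) *
        (((Y + (-2 : ℝ) • H) ^ (2 * j + 2)).trace - (Y ^ (2 * j + 2)).trace +
      (2 * (2 * j + 2) : ℝ) * (Y ^ (2 * j + 1) * H).trace -
      (2 * (2 * j + 2) : ℝ) * ∑ i ∈ range (2 * j + 1), (Y ^ i * H *
            (Y ^ (2 * j - i) * H)).trace) := by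
    unfold J
    rw [hYK, ← hYdef, Finset.mul_sum, Finset.mul_sum, ← Finset.sum_sub_distrib,
      ← Finset.sum_sub_distrib, ← Finset.sum_add_distrib]
    refine Finset.sum_congr rfl fun j _ => ?_
    have h1 : (2 * (j : ℝ) + 1) ≠ 0 := by positivity
    have h2 : (2 * (j : ℝ) + 2) ≠ 0 := by positivity
    simp only [Matrix.mul_assoc]
    field_simp
    ring
  have hfin : |J m (A + H) - J m A -
        2 * (∑ j ∈ range (m + 1), (1 / (2 * (j : ℝ) + 1)) * (Y ^ (2 * j + 1) * H).trace) +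
        1 / 2 * (∑ j ∈ range (m + 1), (4 / (2 * (j : ℝ) + 1)) *
          ∑ l ∈ range (2 * j + 1), (Y ^ l * H * Y ^ (2 * j - l) * H).trace)| ≤
      (∑ j ∈ range (m + 1), ((3 * ((d : ℝ) * d) + 1) ^ (2 * j + 2) * d * 8)) * nn H ^ 3 := by
    rw [hsum]
    refine (Finset.abs_sum_le_sum_abs _ _).trans ?_
    rw [Finset.sum_mul]
    refine Finset.sum_le_sum fun j _ => ?_
    rw [abs_mul, abs_neg, abs_of_nonneg (by positivity)]
    have h1 : (1 / ((2 * (j : ℝ) + 1) * (2 * j + 2))) ≤ 1 := by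
      rw [div_le_one (by positivity)]
      nlinarith [(Nat.cast_nonneg j : (0 : ℝ) ≤ j)]
    calc _ ≤ 1 * |((Y + (-2 : ℝ) • H) ^ (2 * j + 2)).trace - (Y ^ (2 * j + 2)).trace +
        (2 * (2 * j + 2) : ℝ) * (Y ^ (2 * j + 1) * H).trace -
        (2 * (2 * j + 2) : ℝ) * ∑ i ∈ range (2 * j + 1), (Y ^ i * H *
              (Y ^ (2 * j - i) * H)).trace| := mul_le_mul_of_nonneg_right h1 (abs_nonneg _)
      _ ≤ _ := by rw [one_mul]; exact key j
  have h3 := (abs_le.1 hfin).1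
  have h4 : nn H = ∑ a, ∑ b, |H a b| := rfl
  rw [h4] at h3
  linarith

end Pool.Agent.KXP
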