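import Pool.Agent.KXP.PotCov
import Pool.Agent.KXP.OU2
import Pool.Agent.KXP.Ker
import Pool.Agent.KXP.Fib
import Pool.Agent.KXP.JT

/-!
# KXP / Pot: one step for the trace potential
-/

set_option autoImplicit false
set_option linter.unusedSectionVars false

open MeasureTheory ProbabilityTheory Filter Topology
open scoped BigOperators RealInnerProductSpace

namespace Pool.Agent.KXP

open Ou hiding gam
open PotCov


variable {d : ℕ} {ι : Type} [Fintype ι]

namespace Pot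

theorem Pot_memLp {f : E d → ℝ} (hf : PG f) : MemLp f 2 (stdGaussian (E d)) :=
  (memLp_two_iff_integrable_sq hf.meas.aestronglyMeasurable).2 hf.sq.integrable

/-- the spectral estimate -/
theorem specHyp (d : ℕ) : SpecHyp (E d) := by
  intro f hf h0 h1 r hr0 hr1
  refine U_decay hf ?_ hr0 hr1
  obtain ⟨C, τ, hτ, -, h⟩ := small_tau f (Pot_memLp hf) h0 h1
  exact ⟨C, τ, hτ, fun t ht0 ht1 => (le_abs_self _).trans (h t ht0 ht1)⟩

/-! ### matrices with entries of polynomial growth -/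

/-- all entries of polynomial growth -/
def PGM (M : E d → Matrix (Fin d) (Fin d) ℝ) : Prop := ∀ a b, PG fun v => M v a b

theorem PGM.mul {M N : E d → Matrix (Fin d) (Fin d) ℝ} (hM : PGM M) (hN : PGM N) :
    PGM fun v => M v * N v := fun a b => by
  simp only [Matrix.mul_apply]
  exact PG.sum _ fun c _ => (hM a c).mul (hN c b)

theorem PGM.const (M : Matrix (Fin d) (Fin d) ℝ) : PGM fun _ : E d => M := fun _ _ => PG.const _

theorem PGM.sub {M N : E d → Matrix (Fin d) (Fin d) ℝ} (hM : PGM M) (hN : PGM N) :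
    PGM fun v => M v - N v := fun a b => by
  simp only [Matrix.sub_apply]
  exact (hM a b).sub (hN a b)

theorem PGM.smul (c : ℝ) {M : E d → Matrix (Fin d) (Fin d) ℝ} (hM : PGM M) :
    PGM fun v => c • M v := fun a b => by
  simp only [Matrix.smul_apply, smul_eq_mul]
  exact (hM a b).smul c

theorem PGM.pow {M : E d → Matrix (Fin d) (Fin d) ℝ} (hM : PGM M) (n : ℕ) :
    PGM fun v => M v ^ n := by
  induction n with
  | zero => simpa using PGM.const (1 : Matrix (Fin d) (Fin d) ℝ)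
  | succ n ih =>
    simp only [pow_succ]
    exact ih.mul hM

theorem PGM.trace {M : E d → Matrix (Fin d) (Fin d) ℝ} (hM : PGM M) :
    PG fun v => (M v).trace := by
  simp only [Matrix.trace, Matrix.diag_apply]
  exact PG.sum _ fun a _ => hM a a

theorem PGM.J (m : ℕ) {M : E d → Matrix (Fin d) (Fin d) ℝ} (hM : PGM M) :
    PG fun v => J m (M v) := by
  unfold KXP.J
  refine PG.sum _ fun j _ => ?_
  have h := (((PGM.const (1 : Matrix (Fin d) (Fin d) ℝ)).sub (hM.smul 2)).pow (2 * j + 2)).trace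
  have h2 := ((PG.const (F := E d) (d : ℝ)).sub h).smul
    ((2 * (j : ℝ) + 1) * (2 * (j : ℝ) + 2))⁻¹
  simpa only [div_eq_inv_mul] using h2

/-! ### expansion of the quadratic form -/

theorem Pot_trace4 (Y Z H K : Matrix (Fin d) (Fin d) ℝ) :
    (Y * H * Z * K).trace = ∑ e, ∑ c, ∑ b, ∑ a, (Y e a * Z b c) * (H a b * K c e) := by
  simp only [Matrix.trace, Matrix.diag_apply, Matrix.mul_apply, Finset.sum_mul]
  refine Finset.sum_congr rfl fun e _ => Finset.sum_congr rfl fun c _ =>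
    Finset.sum_congr rfl fun b _ => Finset.sum_congr rfl fun a _ => ?_
  ring

/-- coefficients of the quadratic form -/
noncomputable def Pot_G (m : ℕ) (Y : Matrix (Fin d) (Fin d) ℝ) (e c b a : Fin d) : ℝ :=
  ∑ j ∈ Finset.range (m + 1), (4 / (2 * (j : ℝ) + 1)) * ∑ l ∈ Finset.range (2 * j + 1),
    (Y ^ l) e a * (Y ^ (2 * j - l)) b c

/-- the quadratic form of the Taylor formula -/
noncomputable def Pot_Q (m : ℕ) (Y H : Matrix (Fin d) (Fin d) ℝ) : ℝ :=
  ∑ j ∈ Finset.range (m + 1), (4 / (2 * (j : ℝ) + 1)) * ∑ l ∈ Finset.range (2 * j + 1),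
    (Y ^ l * H * Y ^ (2 * j - l) * H).trace

theorem Pot_quad (m : ℕ) (Y H : Matrix (Fin d) (Fin d) ℝ) :
    Pot_Q m Y H = ∑ e, ∑ c, ∑ b, ∑ a, Pot_G m Y e c b a * (H a b * H c e) := by
  unfold Pot_Q
  simp only [Pot_trace4, Finset.mul_sum, Pot_G, Finset.sum_mul]
  have step : ∀ F : ℕ → ℕ → Fin d → Fin d → Fin d → Fin d → ℝ,
      ∑ j ∈ Finset.range (m + 1), ∑ l ∈ Finset.range (2 * j + 1), ∑ e, ∑ c, ∑ b, ∑ a, F j l e c b a =
      ∑ e, ∑ c, ∑ b, ∑ a, ∑ j ∈ Finset.range (m + 1), ∑ l ∈ Finset.range (2 * j + 1),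
        F j l e c b a := by
    intro F
    have c1 : ∀ j, ∑ l ∈ Finset.range (2 * j + 1), ∑ e, ∑ c, ∑ b, ∑ a, F j l e c b a =
        ∑ e, ∑ c, ∑ b, ∑ a, ∑ l ∈ Finset.range (2 * j + 1), F j l e c b a := by
      intro j
      rw [Finset.sum_comm]
      refine Finset.sum_congr rfl fun e _ => ?_
      rw [Finset.sum_comm]
      refine Finset.sum_congr rfl fun c _ => ?_
      rw [Finset.sum_comm]
      refine Finset.sum_congr rfl fun b _ => ?_
      rw [Finset.sum_comm]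
    simp_rw [c1]
    rw [Finset.sum_comm]
    refine Finset.sum_congr rfl fun e _ => ?_
    rw [Finset.sum_comm]
    refine Finset.sum_congr rfl fun c _ => ?_
    rw [Finset.sum_comm]
    refine Finset.sum_congr rfl fun b _ => ?_
    rw [Finset.sum_comm]
  rw [step]
  refine Finset.sum_congr rfl fun e _ => Finset.sum_congr rfl fun c _ =>
    Finset.sum_congr rfl fun b _ => Finset.sum_congr rfl fun a _ =>
    Finset.sum_congr rfl fun j _ => Finset.sum_congr rfl fun l _ => ?_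
  ring

theorem Pot_pow_le {Y : Matrix (Fin d) (Fin d) ℝ} {K : ℝ} (hK : 0 ≤ K) (h : ∀ a b, |Y a b| ≤ K)
    (l : ℕ) (a b : Fin d) : |(Y ^ l) a b| ≤ (K * d + 1) ^ l := by
  induction l generalizing a b with
  | zero =>
    rw [pow_zero, pow_zero, Matrix.one_apply]
    split_ifs <;> simp
  | succ l ih =>
    rw [pow_succ, Matrix.mul_apply]
    refine (Finset.abs_sum_le_sum_abs _ _).trans ?_
    calc ∑ c, |(Y ^ l) a c * Y c b| ≤ ∑ _c : Fin d, (K * d + 1) ^ l * K := by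
          refine Finset.sum_le_sum fun c _ => ?_
          rw [abs_mul]
          exact mul_le_mul (ih a c) (h c b) (abs_nonneg _) (by positivity)
      _ = (K * d + 1) ^ l * (K * d) := by simp; ring
      _ ≤ (K * d + 1) ^ (l + 1) := by
          rw [pow_succ]
          exact mul_le_mul_of_nonneg_left (by linarith) (by positivity)

/-- bound for the coefficients -/
noncomputable def Pot_CG (d m : ℕ) : ℝ :=
  ∑ j ∈ Finset.range (m + 1), (4 / (2 * (j : ℝ) + 1)) * ((2 * j + 1) * (3 * (d : ℝ) + 1) ^ (2 * j))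

theorem Pot_CG_nonneg (d m : ℕ) : 0 ≤ Pot_CG d m :=
  Finset.sum_nonneg fun j _ => by positivity

theorem Pot_G_le (m : ℕ) {Y : Matrix (Fin d) (Fin d) ℝ} (h : ∀ a b, |Y a b| ≤ 3)
    (e c b a : Fin d) : |Pot_G m Y e c b a| ≤ Pot_CG d m := by
  unfold Pot_G Pot_CG
  refine (Finset.abs_sum_le_sum_abs _ _).trans (Finset.sum_le_sum fun j _ => ?_)
  rw [abs_mul, abs_of_nonneg (by positivity : (0 : ℝ) ≤ 4 / (2 * (j : ℝ) + 1))]
  refine mul_le_mul_of_nonneg_left ?_ (by positivity)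
  refine (Finset.abs_sum_le_sum_abs _ _).trans ?_
  calc ∑ l ∈ Finset.range (2 * j + 1), |(Y ^ l) e a * (Y ^ (2 * j - l)) b c|
      ≤ ∑ _l ∈ Finset.range (2 * j + 1), (3 * (d : ℝ) + 1) ^ (2 * j) := by
        refine Finset.sum_le_sum fun l hl => ?_
        have hl' : l ≤ 2 * j := Nat.lt_succ_iff.1 (Finset.mem_range.1 hl)
        rw [abs_mul]
        have e1 : (3 * (d : ℝ) + 1) ^ (2 * j) =
            (3 * (d : ℝ) + 1) ^ l * (3 * (d : ℝ) + 1) ^ (2 * j - l) := by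
          rw [← pow_add, Nat.add_sub_cancel' hl']
        rw [e1]
        exact mul_le_mul (Pot_pow_le (by norm_num) h l e a) (Pot_pow_le (by norm_num) h _ b c)
          (abs_nonneg _) (by positivity)
    _ = (2 * j + 1) * (3 * (d : ℝ) + 1) ^ (2 * j) := by simp

theorem Pot_LL (m : ℕ) (B : Matrix (Fin d) (Fin d) ℝ) (S : Fin d → Matrix (Fin d) (Fin d) ℝ) :
    LL m B S = ∑ e, ∑ c, ∑ b, ∑ a, Pot_G m (1 - (2 : ℝ) • B) e c b a *
      ∑ k, S k a b * S k c e := by
  have h : LL m B S = ∑ k, Pot_Q m (1 - (2 : ℝ) • B) (S k) := rfl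
  rw [h]
  simp_rw [Pot_quad, Finset.mul_sum]
  rw [Finset.sum_comm]
  refine Finset.sum_congr rfl fun e _ => ?_
  rw [Finset.sum_comm]
  refine Finset.sum_congr rfl fun c _ => ?_
  rw [Finset.sum_comm]
  refine Finset.sum_congr rfl fun b _ => ?_
  rw [Finset.sum_comm]

theorem Pot_cube (x : Fin d → Fin d → ℝ) :
    (∑ a, ∑ b, |x a b|) ^ 3 ≤ (d : ℝ) ^ 4 * ∑ a, ∑ b, |x a b| ^ 3 := by
  rcases Nat.eq_zero_or_pos d with rfl | hd
  · simp
  · have h := pow_sum_div_card_le_sum_pow (s := (Finset.univ : Finset (Fin d × Fin d)))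
      (f := fun p => |x p.1 p.2|) (fun _ _ => abs_nonneg _) 2
    have hd' : (0 : ℝ) < d := by exact_mod_cast hd
    rw [Fintype.sum_prod_type, Fintype.sum_prod_type, Finset.card_univ, Fintype.card_prod,
      Fintype.card_fin] at h
    push_cast at h
    rw [div_le_iff₀ (by positivity)] at h
    calc (∑ a, ∑ b, |x a b|) ^ 3 = (∑ a, ∑ b, |x a b|) ^ (2 + 1) := by norm_num
      _ ≤ _ := h
      _ = _ := by ring

theorem Pot_int_trace (M : Matrix (Fin d) (Fin d) ℝ) {H : E d → Matrix (Fin d) (Fin d) ℝ}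
    (pH : PGM H) (h0 : ∀ a b, ∫ v, H v a b ∂(Ou.gam (E d)) = 0) :
    ∫ v, (M * H v).trace ∂(Ou.gam (E d)) = 0 := by
  have e : ∀ v, (M * H v).trace = ∑ a, ∑ b, M a b * H v b a :=
    fun v => by simp only [Matrix.trace, Matrix.diag_apply, Matrix.mul_apply]
  have e' : (fun v => (M * H v).trace) = fun v => ∑ a, ∑ b, M a b * H v b a := funext e
  rw [e']
  have p1 : ∀ a b, PG fun v => M a b * H v b a := fun a b => (pH b a).smul _
  have p2 : ∀ a, PG fun v => ∑ b, M a b * H v b a := fun a => PG.sum _ fun b _ => p1 a b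
  rw [integral_finsetSum _ fun a _ => (p2 a).integrable]
  refine Finset.sum_eq_zero fun a _ => ?_
  rw [integral_finsetSum _ fun b _ => (p1 a b).integrable]
  refine Finset.sum_eq_zero fun b _ => ?_
  rw [integral_const_mul, h0, mul_zero]

theorem Pot_int_quad (m : ℕ) (Y : Matrix (Fin d) (Fin d) ℝ) {H : E d → Matrix (Fin d) (Fin d) ℝ}
    (pH : PGM H) : ∫ v, Pot_Q m Y (H v) ∂(Ou.gam (E d)) = ∑ e, ∑ c, ∑ b, ∑ a, Pot_G m Y e c b a *
        ∫ v, H v a b * H v c e ∂(Ou.gam (E d)) := by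
  have e' : (fun v => Pot_Q m Y (H v)) = fun v => ∑ e, ∑ c, ∑ b, ∑ a,
      Pot_G m Y e c b a * (H v a b * H v c e) := funext fun v => Pot_quad m Y (H v)
  rw [e']
  have p1 : ∀ e c b a, PG fun v => Pot_G m Y e c b a * (H v a b * H v c e) := fun e c b a =>
    ((pH a b).mul (pH c e)).smul _
  have p2 : ∀ e c b, PG fun v => ∑ a, Pot_G m Y e c b a * (H v a b * H v c e) := fun e c b =>
    PG.sum _ fun a _ => p1 e c b a
  have p3 : ∀ e c, PG fun v => ∑ b, ∑ a, Pot_G m Y e c b a * (H v a b * H v c e) := fun e c =>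
    PG.sum _ fun b _ => p2 e c b
  have p4 : ∀ e, PG fun v => ∑ c, ∑ b, ∑ a, Pot_G m Y e c b a * (H v a b * H v c e) := fun e =>
    PG.sum _ fun c _ => p3 e c
  rw [integral_finsetSum _ fun e _ => (p4 e).integrable]
  refine Finset.sum_congr rfl fun e _ => ?_
  rw [integral_finsetSum _ fun c _ => (p3 e c).integrable]
  refine Finset.sum_congr rfl fun c _ => ?_
  rw [integral_finsetSum _ fun b _ => (p2 e c b).integrable]
  refine Finset.sum_congr rfl fun b _ => ?_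
  rw [integral_finsetSum _ fun a _ => (p1 e c b a).integrable]
  refine Finset.sum_congr rfl fun a _ => ?_
  rw [integral_const_mul]

theorem Pot_pabs {H : E d → Matrix (Fin d) (Fin d) ℝ} (pH : PGM H) :
    PG fun v => ∑ a, ∑ b, |H v a b| := by
  have pa : ∀ a b, PG fun v => |H v a b| := fun a b =>
    ⟨(pH a b).meas.abs, by
      obtain ⟨C, k, hC, h⟩ := (pH a b).bd
      exact ⟨C, k, hC, fun u => by rw [abs_abs]; exact h u⟩⟩
  exact PG.sum _ fun a _ => PG.sum _ fun b _ => pa a b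

theorem Pot_int_abs3 {H : E d → Matrix (Fin d) (Fin d) ℝ} (pH : PGM H) :
    Integrable (fun v => (∑ a, ∑ b, |H v a b|) ^ 3) (Ou.gam (E d)) := by
  have h := ((Pot_pabs pH).mul ((Pot_pabs pH).mul (Pot_pabs pH))).integrable
  refine h.congr (Filter.Eventually.of_forall fun v => ?_)
  simp only
  ring

theorem Pot_int_cube {H : E d → Matrix (Fin d) (Fin d) ℝ} (pH : PGM H) {K : ℝ}
    (hK : ∀ a b, ∫ v, |H v a b| ^ 3 ∂(Ou.gam (E d)) ≤ K) :
    ∫ v, (∑ a, ∑ b, |H v a b|) ^ 3 ∂(Ou.gam (E d)) ≤ (d : ℝ) ^ 4 * (d ^ 2 * K) := by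
  have i1 : ∀ a b, Integrable (fun v => |H v a b| ^ 3) (Ou.gam (E d)) := fun a b => by
    have h := ((pH a b).mul ((pH a b).mul (pH a b))).integrable.abs
    refine h.congr (Filter.Eventually.of_forall fun v => ?_)
    simp only
    rw [abs_mul, abs_mul]
    ring
  have i3 : ∀ a, Integrable (fun v => ∑ b, |H v a b| ^ 3) (Ou.gam (E d)) := fun a =>
    integrable_finsetSum _ fun b _ => i1 a b
  have i2 : Integrable (fun v => ∑ a, ∑ b, |H v a b| ^ 3) (Ou.gam (E d)) :=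
    integrable_finsetSum _ fun a _ => i3 a
  calc ∫ v, (∑ a, ∑ b, |H v a b|) ^ 3 ∂(Ou.gam (E d))
      ≤ ∫ v, (d : ℝ) ^ 4 * ∑ a, ∑ b, |H v a b| ^ 3 ∂(Ou.gam (E d)) :=
        integral_mono (Pot_int_abs3 pH) (i2.const_mul _) fun v => Pot_cube (fun a b => H v a b)
    _ = (d : ℝ) ^ 4 * ∑ a, ∑ b, ∫ v, |H v a b| ^ 3 ∂(Ou.gam (E d)) := by
        rw [integral_const_mul, integral_finsetSum _ fun a _ => i3 a]
        congr 1
        exact Finset.sum_congr rfl fun a _ => integral_finsetSum _ fun b _ => i1 a b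
    _ ≤ (d : ℝ) ^ 4 * ∑ _a : Fin d, ∑ _b : Fin d, K := by
        refine mul_le_mul_of_nonneg_left ?_ (by positivity)
        exact Finset.sum_le_sum fun a _ => Finset.sum_le_sum fun b _ => hK a b
    _ = _ := by
        rw [Finset.sum_const, Finset.sum_const, Finset.card_univ, Fintype.card_fin]
        simp only [nsmul_eq_mul]
        ring

/-- abstract step: a random matrix `B + H` with small moments -/
theorem Pot_abstract (m : ℕ) {C : ℝ} (hC : 0 ≤ C) {B : Matrix (Fin d) (Fin d) ℝ}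
    {S : Fin d → Matrix (Fin d) (Fin d) ℝ}
    (hB : ∀ a b, |(1 - (2 : ℝ) • B) a b| ≤ 3) {H : E d → Matrix (Fin d) (Fin d) ℝ} (pH : PGM H)
    (key : ∀ v, J m B + 2 * (∑ j ∈ Finset.range (m + 1), (1 / (2 * (j : ℝ) + 1)) *
        ((1 - (2 : ℝ) • B) ^ (2 * j + 1) * H v).trace) - 1 / 2 * Pot_Q m (1 - (2 : ℝ) • B) (H v) -
        C * (∑ a, ∑ b, |H v a b|) ^ 3 ≤ J m (B + H v))
    (h0 : ∀ a b, ∫ v, H v a b ∂(Ou.gam (E d)) = 0) {r K : ℝ} (hr0 : 0 ≤ r) (hr1 : r ≤ 1)
    (h2 : ∀ a b c e, |∫ v, H v a b * H v c e ∂(Ou.gam (E d)) - r ^ 2 * ∑ k, S k a b * S k c e| ≤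
      r ^ 4)
    (h3 : ∀ a b, ∫ v, |H v a b| ^ 3 ∂(Ou.gam (E d)) ≤ K * r ^ 3) :
    J m B - r ^ 2 / 2 * LL m B S - (Pot_CG d m * d ^ 4 + C * ((d : ℝ) ^ 4 * (d ^ 2 * K))) * r ^ 3 ≤
      ∫ v, J m (B + H v) ∂(Ou.gam (E d)) := by
  set Y : Matrix (Fin d) (Fin d) ℝ := 1 - (2 : ℝ) • B with hY
  have plinj : ∀ j : ℕ, PG fun v => (1 / (2 * (j : ℝ) + 1)) * (Y ^ (2 * j + 1) * H v).trace :=
    fun j => (((PGM.const (Y ^ (2 * j + 1))).mul pH).trace).smul _
  have plin : PG fun v => ∑ j ∈ Finset.range (m + 1), (1 / (2 * (j : ℝ) + 1)) *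
      (Y ^ (2 * j + 1) * H v).trace := PG.sum _ fun j _ => plinj j
  have ilin : ∫ v, (∑ j ∈ Finset.range (m + 1), (1 / (2 * (j : ℝ) + 1)) *
      (Y ^ (2 * j + 1) * H v).trace) ∂(Ou.gam (E d)) = 0 := by
    rw [integral_finsetSum _ fun j _ => (plinj j).integrable]
    refine Finset.sum_eq_zero fun j _ => ?_
    rw [integral_const_mul, Pot_int_trace _ pH h0, mul_zero]
  have pquad : PG fun v => Pot_Q m Y (H v) := by
    unfold Pot_Q
    refine PG.sum _ fun j _ => PG.smul _ (PG.sum _ fun l _ => ?_)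
    exact ((((PGM.const (Y ^ l)).mul pH).mul (PGM.const (Y ^ (2 * j - l)))).mul pH).trace
  have iquad : ∫ v, Pot_Q m Y (H v) ∂(Ou.gam (E d)) ≤
      r ^ 2 * LL m B S + Pot_CG d m * d ^ 4 * r ^ 4 := by
    rw [Pot_int_quad m Y pH, Pot_LL, ← hY]
    have e2 : r ^ 2 * (∑ e, ∑ c, ∑ b, ∑ a, Pot_G m Y e c b a * ∑ k, S k a b * S k c e) +
        Pot_CG d m * d ^ 4 * r ^ 4 = ∑ e : Fin d, ∑ c : Fin d, ∑ b : Fin d, ∑ a : Fin d,
          (Pot_G m Y e c b a * (r ^ 2 * ∑ k, S k a b * S k c e) + Pot_CG d m * r ^ 4) := by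
      simp only [Finset.sum_add_distrib, Finset.mul_sum]
      congr 1
      · refine Finset.sum_congr rfl fun e _ => Finset.sum_congr rfl fun c _ =>
          Finset.sum_congr rfl fun b _ => Finset.sum_congr rfl fun a _ =>
          Finset.sum_congr rfl fun k _ => ?_
        ring
      · simp
        ring
    rw [e2]
    refine Finset.sum_le_sum fun e _ => Finset.sum_le_sum fun c _ =>
      Finset.sum_le_sum fun b _ => Finset.sum_le_sum fun a _ => ?_
    have q4 := h2 a b c e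
    have q5 := Pot_G_le m hB e c b a
    have q6 : Pot_G m Y e c b a * (∫ v, H v a b * H v c e ∂(Ou.gam (E d))) -
        Pot_G m Y e c b a * (r ^ 2 * ∑ k, S k a b * S k c e) ≤ Pot_CG d m * r ^ 4 := by
      rw [← mul_sub]
      refine (le_abs_self _).trans ?_
      rw [abs_mul]
      exact mul_le_mul q5 q4 (abs_nonneg _) (Pot_CG_nonneg d m)
    linarith
  have icube := Pot_int_cube pH h3
  have ps3 := Pot_int_abs3 pH
  have iJ : Integrable (fun v => J m (B + H v)) (Ou.gam (E d)) := by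
    have p : PGM fun v => B + H v := fun a b => by
      simp only [Matrix.add_apply]
      exact (PG.const _).add (pH a b)
    exact (p.J m).integrable
  set lin : E d → ℝ := fun v => ∑ j ∈ Finset.range (m + 1), (1 / (2 * (j : ℝ) + 1)) *
        (Y ^ (2 * j + 1) * H v).trace with hlin
  set qd : E d → ℝ := fun v => Pot_Q m Y (H v) with hqd
  set cu : E d → ℝ := fun v => (∑ a, ∑ b, |H v a b|) ^ 3 with hcu
  have I0 : Integrable (fun v => 2 * lin v) (Ou.gam (E d)) := plin.integrable.const_mul 2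
  have I1 : Integrable (fun v => J m B + 2 * lin v) (Ou.gam (E d)) := (integrable_const _).add I0
  have I2 : Integrable (fun v => 1 / 2 * qd v) (Ou.gam (E d)) := pquad.integrable.const_mul _
  have I3 : Integrable (fun v => J m B + 2 * lin v - 1 / 2 * qd v) (Ou.gam (E d)) := I1.sub I2
  have I4 : Integrable (fun v => C * cu v) (Ou.gam (E d)) := ps3.const_mul C
  have I5 : Integrable (fun v => J m B + 2 * lin v - 1 / 2 * qd v - C * cu v) (Ou.gam (E d)) :=
    I3.sub I4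
  have fin : ∫ v, (J m B + 2 * lin v - 1 / 2 * qd v - C * cu v) ∂(Ou.gam (E d)) ≤
      ∫ v, J m (B + H v) ∂(Ou.gam (E d)) := integral_mono I5 iJ key
  have e0 : ∫ v, (J m B + 2 * lin v - 1 / 2 * qd v - C * cu v) ∂(Ou.gam (E d)) =
      J m B + 2 * 0 - 1 / 2 * ∫ v, qd v ∂(Ou.gam (E d)) - C * ∫ v, cu v ∂(Ou.gam (E d)) := by
    rw [integral_sub I3 I4, integral_sub I1 I2, integral_add (integrable_const _) I0,
      integral_const_mul, integral_const_mul, integral_const_mul, ilin]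
    simp
  have fin2 : J m B + 2 * 0 - 1 / 2 * ∫ v, qd v ∂(Ou.gam (E d)) -
        C * ∫ v, cu v ∂(Ou.gam (E d)) ≤ ∫ v, J m (B + H v) ∂(Ou.gam (E d)) := by
    rw [← e0]
    exact fin
  have r4 : r ^ 4 ≤ r ^ 3 := pow_le_pow_of_le_one hr0 hr1 (by norm_num)
  have c1 : C * ∫ v, cu v ∂(Ou.gam (E d)) ≤ C * ((d : ℝ) ^ 4 * (d ^ 2 * (K * r ^ 3))) :=
    mul_le_mul_of_nonneg_left icube hC
  have c0 : 0 ≤ Pot_CG d m * d ^ 4 := mul_nonneg (Pot_CG_nonneg d m) (by positivity)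
  have c2 : Pot_CG d m * d ^ 4 * r ^ 4 ≤ Pot_CG d m * d ^ 4 * r ^ 3 :=
    mul_le_mul_of_nonneg_left r4 c0
  have c3 : 0 ≤ Pot_CG d m * d ^ 4 * r ^ 3 := mul_nonneg c0 (by positivity)
  refine le_trans ?_ fin2
  have e5 : C * ((d : ℝ) ^ 4 * (d ^ 2 * (K * r ^ 3))) =
      C * ((d : ℝ) ^ 4 * (d ^ 2 * K)) * r ^ 3 := by ring
  rw [e5] at c1
  have e6 : (Pot_CG d m * d ^ 4 + C * ((d : ℝ) ^ 4 * (d ^ 2 * K))) * r ^ 3 =
    Pot_CG d m * d ^ 4 * r ^ 3 + C * ((d : ℝ) ^ 4 * (d ^ 2 * K)) * r ^ 3 := by ring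
  rw [e6]
  have e7 : r ^ 2 / 2 * LL m B S = 1 / 2 * (r ^ 2 * LL m B S) := by ring
  rw [e7]
  linarith

/-! ### the step -/

theorem Pot_meas_rs {D : Pre d ι} (hm : ∀ i, MeasurableSet {u | D.L u = i}) (z : E d) (s : ℝ)
    (i : ι) : MeasurableSet {u | (D.rs z s).L u = i} := by
  have h : Measurable fun u : E d => z + s • u := by fun_prop
  exact h (hm i)

theorem Pot_A_rs {D : Pre d ι} (hm : ∀ i, MeasurableSet {u | D.L u = i}) (r : ℝ) (v : E d)
    (a b : Fin d) : A (D.rs (r • v) (Real.sqrt (1 - r ^ 2))) a b =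
      U r (fun u => D.P (D.L u) a b) v := by
  rw [A_eq (Pot_meas_rs hm _ _)]
  rfl

end Pot

open Pot

/-- **One step for the trace potential.** -/
theorem pot_step (d m : ℕ) : ∃ C : ℝ, 0 ≤ C ∧ ∀ (ι : Type) [Fintype ι] (D : Pre d ι), Good D →
    ∀ r : ℝ, 0 ≤ r → r ≤ 1 / 2 →
    J m (A D) - r ^ 2 / 2 * LL m (A D) (T D) - C * r ^ 3 ≤
      ∫ v, J m (A (D.rs (r • v) (Real.sqrt (1 - r ^ 2)))) ∂(gam d) := by
  obtain ⟨C, hC, hT⟩ := J_taylor d m
  refine ⟨Pot_CG d m * d ^ 4 + C * ((d : ℝ) ^ 4 * (d ^ 2 * (8 * (d * K1 d) ^ 3 * K3 d + 8))),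
    ?_, ?_⟩
  · have := Pot_CG_nonneg d m
    have := K1_nonneg d
    have := K3_nonneg d
    positivity
  intro ι _ D hD r hr0 hr2
  have hr1 : r ≤ 1 := by linarith
  set f : Fin d → Fin d → E d → ℝ := fun a b u => D.P (D.L u) a b with hf
  have pf : ∀ a b, PG (f a b) := fun a b =>
    ⟨fib_meas hD.meas (fun i => D.P i a b), 1, 0, zero_le_one, fun u => by
      simpa using P_abs_le hD (D.L u) a b⟩
  have bf : ∀ a b u, |f a b u| ≤ 1 := fun a b u => P_abs_le hD (D.L u) a b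
  have hA : ∀ a b, A D a b = ∫ u, f a b u ∂(Ou.gam (E d)) := fun a b => A_eq hD.meas a b
  have hTc : ∀ k a b, T D k a b = cf (f a b) k := fun k a b => T_eq hD.meas k a b
  have hAv : ∀ v a b, A (D.rs (r • v) (Real.sqrt (1 - r ^ 2))) a b = U r (f a b) v :=
    fun v a b => Pot_A_rs hD.meas r v a b
  set Av : E d → Matrix (Fin d) (Fin d) ℝ := fun v => A (D.rs (r • v) (Real.sqrt (1 - r ^ 2)))
    with hAvd
  set H : E d → Matrix (Fin d) (Fin d) ℝ := fun v => Av v - A D with hH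
  have hHe : ∀ v a b, H v a b = U r (f a b) v - ∫ u, f a b u ∂(Ou.gam (E d)) := fun v a b => by
    rw [hH]
    simp only [Matrix.sub_apply]
    rw [hAvd]
    simp only
    rw [hAv, hA]
  have pAv : PGM Av := fun a b => by
    have := (pf a b).U hr0 hr1
    have e : (fun v => Av v a b) = U r (f a b) := funext fun v => hAv v a b
    rw [e]
    exact this
  have pH : PGM H := pAv.sub (PGM.const _)
  have fsym : ∀ a b, f a b = f b a := fun a b => funext fun u => hD.sym _ a b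
  have Asym : ∀ a b, A D a b = A D b a := fun a b => by rw [hA, hA, fsym]
  have Hsym : ∀ v a b, H v a b = H v b a := fun v a b => by rw [hHe, hHe, fsym]
  have Ab : ∀ a b, |A D a b| ≤ 1 := fun a b => by
    rw [hA]
    exact abs_int_le_one (pf a b) (bf a b)
  have Avb : ∀ v a b, |A D a b + H v a b| ≤ 1 := fun v a b => by
    have e : A D a b + H v a b = U r (f a b) v := by
      rw [hHe, hA]
      ring
    rw [e]
    exact abs_U_le_one (pf a b) (bf a b) hr0 hr1 v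
  set Y : Matrix (Fin d) (Fin d) ℝ := 1 - (2 : ℝ) • A D with hY
  have Yb : ∀ a b, |Y a b| ≤ 3 := fun a b => by
    rw [hY, Matrix.sub_apply, Matrix.smul_apply, smul_eq_mul]
    refine (abs_sub _ _).trans ?_
    have h1 : |(1 : Matrix (Fin d) (Fin d) ℝ) a b| ≤ 1 := by
      rw [Matrix.one_apply]
      split_ifs <;> simp
    have h2 := Ab a b
    rw [abs_mul, abs_of_pos (by norm_num : (0 : ℝ) < 2)]
    linarith
  have key : ∀ v, J m (A D) + 2 * (∑ j ∈ Finset.range (m + 1), (1 / (2 * (j : ℝ) + 1)) *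
        ((1 - (2 : ℝ) • A D) ^ (2 * j + 1) * H v).trace) -
        1 / 2 * Pot_Q m (1 - (2 : ℝ) • A D) (H v) -
        C * (∑ a, ∑ b, |H v a b|) ^ 3 ≤ J m (A D + H v) := fun v =>
    hT (A D) (H v) Asym (Hsym v) Ab (Avb v)
  have h0 : ∀ a b, ∫ v, H v a b ∂(Ou.gam (E d)) = 0 := fun a b => by
    simp_rw [hHe]
    exact int_U_sub (pf a b) hr0 hr1
  have h2 : ∀ a b c e, |∫ v, H v a b * H v c e ∂(Ou.gam (E d)) -
      r ^ 2 * ∑ k, T D k a b * T D k c e| ≤ r ^ 4 := fun a b c e => by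
    have hc := cov_step (specHyp d) (pf a b) (pf c e) hr0 hr1
    have q1 := int_sq_le_one (pf a b) (bf a b)
    have q2 := int_sq_le_one (pf c e) (bf c e)
    simp_rw [← hHe, ← hTc] at hc
    have q3 : r ^ 4 * ((∫ v, f a b v ^ 2 ∂(Ou.gam (E d))) + ∫ v, f c e v ^ 2 ∂(Ou.gam (E d))) / 2 ≤
        r ^ 4 := by
      have : r ^ 4 * ((∫ v, f a b v ^ 2 ∂(Ou.gam (E d))) + ∫ v, f c e v ^ 2 ∂(Ou.gam (E d))) ≤
        r ^ 4 * 2 := mul_le_mul_of_nonneg_left (by linarith) (by positivity)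
      linarith
    exact hc.trans q3
  have h3 : ∀ a b, ∫ v, |H v a b| ^ 3 ∂(Ou.gam (E d)) ≤
      (8 * (d * K1 d) ^ 3 * K3 d + 8) * r ^ 3 := fun a b => by
    simp_rw [hHe]
    exact cube_step (specHyp d) (pf a b) (bf a b) hr0 hr1
  have fin := Pot_abstract (S := T D) m hC Yb pH key h0 hr0 hr1 h2 h3
  have e : ∀ v, A D + H v = A (D.rs (r • v) (Real.sqrt (1 - r ^ 2))) := fun v => by
    rw [hH]
    simp [hAvd]
  simp_rw [e] at fin
  exact fin

end Pool.Agent.KXP
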