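import Pool.Agent.KXP.ItZ
import Pool.Agent.KXP.Dvs
import Pool.Agent.KXP.Pot
import Pool.Agent.KXP.Loc

/-! KXP ItA: one step and many steps of the comparison of entropy and potential -/

set_option autoImplicit false

open MeasureTheory ProbabilityTheory Filter Topology
open scoped BigOperators

namespace Pool.Agent.KXP

variable {d : ℕ} {ι : Type} [Fintype ι]

/-- one step -/
theorem ItA_one (d m : ℕ) : ∃ C : ℝ, 0 ≤ C ∧ ∀ (ι : Type) [Fintype ι] (D : Pre d ι), Good D →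
    ∀ r : ℝ, 0 ≤ r → r ≤ 1 / 2 →
    (∫ v, (ent (D.rs (r • v) (Real.sqrt (1 - r ^ 2))) -
      J m (A (D.rs (r • v) (Real.sqrt (1 - r ^ 2))))) ∂(gam d)) - C * r ^ 3 ≤
      ent D - J m (A D) := by
  obtain ⟨C, hC, h⟩ := pot_step d m
  refine ⟨C, hC, fun ι _ D hD r h0 h1 => ?_⟩
  have h2 := h ι D hD r h0 h1
  have h3 := dv_step hD.meas h0 (by linarith : r ≤ 1)
  have h4 := LL_le_Ye m hD
  have h5 : ∫ v, (ent (D.rs (r • v) (Real.sqrt (1 - r ^ 2))) -
      J m (A (D.rs (r • v) (Real.sqrt (1 - r ^ 2))))) ∂(gam d) =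
      (∫ v, ent (D.rs (r • v) (Real.sqrt (1 - r ^ 2))) ∂(gam d)) -
      ∫ v, J m (A (D.rs (r • v) (Real.sqrt (1 - r ^ 2)))) ∂(gam d) :=
    integral_sub (ItA_int hD.meas ItA_H_cont r _) (ItA_int hD.meas (ItA_J_cont m D.P) r _)
  rw [h5]
  have h6 : r ^ 2 / 2 * LL m (A D) (T D) ≤ r ^ 2 / 2 * Ye D :=
    mul_le_mul_of_nonneg_left h4 (by positivity)
  linarith

/-- ROW ITA -/
theorem n_steps (d m : ℕ) : ∃ C : ℝ, 0 ≤ C ∧ ∀ (ι : Type) [Fintype ι] (D : Pre d ι), Good D →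
    ∀ r : ℝ, 0 ≤ r → r ≤ 1 / 2 → ∀ n : ℕ, ∀ s : ℝ, 0 ≤ s → s ^ 2 = (1 - r ^ 2) ^ n →
    (∫ v, (ent (D.rs (Real.sqrt (1 - s ^ 2) • v) s) - J m (A (D.rs (Real.sqrt (1 - s ^ 2) • v) s))) ∂(gam d))
      - n * (C * r ^ 3) ≤ ent D - J m (A D) := by
  obtain ⟨C, hC, h⟩ := ItA_one d m
  refine ⟨C, hC, fun ι _ D hD r h0 h1 n => ?_⟩
  induction n generalizing D with
  | zero =>
    intro s hs hs2
    have hs1 : s = 1 := by
      rw [pow_zero] at hs2
      nlinarith
    rw [hs1]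
    have h2 : Real.sqrt (1 - (1 : ℝ) ^ 2) = 0 := by
      rw [one_pow, sub_self, Real.sqrt_zero]
    rw [h2]
    have h3 : ∀ v : E d, ent (D.rs ((0 : ℝ) • v) 1) - J m (A (D.rs ((0 : ℝ) • v) 1)) =
        ent D - J m (A D) := by
      intro v
      rw [zero_smul]
      show ItA_H (q (D.rs (0 : E d) 1)) - ItA_J m D.P (q (D.rs (0 : E d) 1)) =
        ItA_H (q D) - ItA_J m D.P (q D)
      rw [ItA_q_rs_one]
    simp only [h3]
    simp
  | succ n ih =>
    intro s' hs' hs2'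
    have hr2 : 0 < 1 - r ^ 2 := by nlinarith
    obtain ⟨s, hs, hs2⟩ : ∃ s : ℝ, 0 ≤ s ∧ s ^ 2 = (1 - r ^ 2) ^ n :=
      ⟨Real.sqrt ((1 - r ^ 2) ^ n), Real.sqrt_nonneg _, Real.sq_sqrt (by positivity)⟩
    have hρ := Real.sqrt_nonneg (1 - r ^ 2)
    have hρ2 : Real.sqrt (1 - r ^ 2) ^ 2 = 1 - r ^ 2 := Real.sq_sqrt hr2.le
    have hs1 : s ^ 2 ≤ 1 := by
      rw [hs2]
      exact pow_le_one₀ hr2.le (by nlinarith)
    have hss : Real.sqrt (1 - r ^ 2) * s = s' := by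
      have h2 : (Real.sqrt (1 - r ^ 2) * s) ^ 2 = s' ^ 2 := by
        rw [mul_pow, hρ2, hs2, hs2', pow_succ]
        ring
      exact (pow_left_inj₀ (mul_nonneg hρ hs) hs' two_ne_zero).1 h2
    have hs1' : s' ^ 2 ≤ 1 := by
      rw [hs2']
      exact pow_le_one₀ hr2.le (by nlinarith)
    -- the averaged function
    obtain ⟨F, hF⟩ : ∃ F : E d → ℝ, ∀ z, F z = ent (D.rs z s') - J m (A (D.rs z s')) :=
      ⟨_, fun _ => rfl⟩
    have hφ : Continuous fun x : ι → ℝ => ItA_H x - ItA_J m D.P x :=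
      ItA_H_cont.sub (ItA_J_cont m D.P)
    have hFm : Measurable F := by
      have h2 : F = fun z => (fun x : ι → ℝ => ItA_H x - ItA_J m D.P x) (q (D.rs z s')) :=
        funext fun z => hF z
      rw [h2]
      exact ItA_meas hD.meas hφ s'
    obtain ⟨K, hK⟩ := ItA_bdd (d := d) hφ
    have hFb : ∀ z, ‖F z‖ ≤ K := fun z => by
      rw [hF]
      exact hK _
    -- the induction hypothesis for the rescaled data
    have hstep : ∀ v : E d, (∫ w, F (r • v + (Real.sqrt (1 - r ^ 2) * Real.sqrt (1 - s ^ 2)) • w)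
        ∂(gam d)) - n * (C * r ^ 3) ≤ ent (D.rs (r • v) (Real.sqrt (1 - r ^ 2))) -
          J m (A (D.rs (r • v) (Real.sqrt (1 - r ^ 2)))) := by
      intro v
      have h2 := ih (D.rs (r • v) (Real.sqrt (1 - r ^ 2)))
        (hD.rs _ (Real.sqrt_pos.2 hr2)) s hs hs2
      have h3 : ∀ w : E d, ent ((D.rs (r • v) (Real.sqrt (1 - r ^ 2))).rs
          (Real.sqrt (1 - s ^ 2) • w) s) - J m (A ((D.rs (r • v) (Real.sqrt (1 - r ^ 2))).rs
          (Real.sqrt (1 - s ^ 2) • w) s)) =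
          F (r • v + (Real.sqrt (1 - r ^ 2) * Real.sqrt (1 - s ^ 2)) • w) := by
        intro w
        rw [hF, ← hss, ← smul_smul]
        have h4 : q ((D.rs (r • v) (Real.sqrt (1 - r ^ 2))).rs (Real.sqrt (1 - s ^ 2) • w) s) =
            q (D.rs (r • v + Real.sqrt (1 - r ^ 2) • Real.sqrt (1 - s ^ 2) • w)
              (Real.sqrt (1 - r ^ 2) * s)) := funext fun i => q_rs_rs D _ _ _ _ i
        show ItA_H (q _) - ItA_J m D.P (q _) = ItA_H (q _) - ItA_J m D.P (q _)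
        rw [h4]
      simp only [h3] at h2
      exact h2
    have h2 := h ι D hD r h0 h1
    have hconv := ItA_conv (d := d) hFm hFb (a := r)
      (b := Real.sqrt (1 - r ^ 2) * Real.sqrt (1 - s ^ 2)) (c := Real.sqrt (1 - s' ^ 2))
      (Real.sqrt_nonneg _) (by
        rw [mul_pow, hρ2, Real.sq_sqrt (by linarith), Real.sq_sqrt (by linarith), hs2, hs2',
          pow_succ]
        ring)
    have hL : ∫ v, (ent (D.rs (Real.sqrt (1 - s' ^ 2) • v) s') -
        J m (A (D.rs (Real.sqrt (1 - s' ^ 2) • v) s'))) ∂(gam d) =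
        ∫ u, F (Real.sqrt (1 - s' ^ 2) • u) ∂(gam d) :=
      integral_congr_ae (Eventually.of_forall fun u => (hF _).symm)
    have hint1 : Integrable (fun v : E d => ∫ w, F (r • v + (Real.sqrt (1 - r ^ 2) *
        Real.sqrt (1 - s ^ 2)) • w) ∂(gam d)) (gam d) := by
      have hme : Measurable fun p : E d × E d => F (r • p.1 + (Real.sqrt (1 - r ^ 2) *
          Real.sqrt (1 - s ^ 2)) • p.2) :=
        hFm.comp ((measurable_fst.const_smul r).add (measurable_snd.const_smul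
          (Real.sqrt (1 - r ^ 2) * Real.sqrt (1 - s ^ 2))))
      exact (Integrable.of_bound (μ := (gam d).prod (gam d)) hme.aestronglyMeasurable K
        (Eventually.of_forall fun p => hFb _)).integral_prod_left
    have hmono : ∫ v, ((∫ w, F (r • v + (Real.sqrt (1 - r ^ 2) * Real.sqrt (1 - s ^ 2)) • w)
        ∂(gam d)) - n * (C * r ^ 3)) ∂(gam d) ≤
        ∫ v, (ent (D.rs (r • v) (Real.sqrt (1 - r ^ 2))) -
          J m (A (D.rs (r • v) (Real.sqrt (1 - r ^ 2))))) ∂(gam d) :=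
      integral_mono (hint1.sub (integrable_const _)) (ItA_int hD.meas hφ r _) hstep
    rw [integral_sub hint1 (integrable_const _), hconv] at hmono
    rw [hL]
    simp only [integral_const, probReal_univ, one_smul] at hmono
    push_cast
    linarith

end Pool.Agent.KXP
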