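import Pool.Agent.KXP.ItA

/-! KXP ItB: the limit of many small steps -/

set_option autoImplicit false

open MeasureTheory ProbabilityTheory Filter Topology
open scoped BigOperators

namespace Pool.Agent.KXP

variable {d : ℕ} {ι : Type} [Fintype ι]

theorem ItB_ent_nonneg (D : Pre d ι) : 0 ≤ ent D :=
  Finset.sum_nonneg fun i _ => Real.negMulLog_nonneg (q_nonneg D i) (q_le_one D i)

/-- the step sizes -/
private theorem ItB_steps {s : ℝ} (h0 : 0 < s) (h1 : s < 1) : ∃ r : ℕ → ℝ,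
    (∀ n, 0 ≤ r n) ∧ (∀ n, 1 ≤ n → s ^ 2 = (1 - r n ^ 2) ^ n) ∧
    Tendsto r atTop (𝓝 0) ∧ Tendsto (fun n : ℕ => (n : ℝ) * r n ^ 3) atTop (𝓝 0) := by
  -- `b = - 2 log s > 0`
  obtain ⟨b, hb⟩ : ∃ b, b = -2 * Real.log s := ⟨_, rfl⟩
  have hb0 : 0 < b := by
    have := Real.log_neg h0 h1
    rw [hb]; linarith
  have hs : Real.exp (-b) = s ^ 2 := by
    rw [hb]
    have : -(-2 * Real.log s) = Real.log (s ^ 2) := by
      rw [Real.log_pow]; push_cast; ring
    rw [this, Real.exp_log (by positivity)]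
  have hle : ∀ n : ℕ, Real.exp (-b / n) ≤ 1 := fun n => by
    rw [Real.exp_le_one_iff]
    exact div_nonpos_of_nonpos_of_nonneg (by linarith) (Nat.cast_nonneg n)
  have hge : ∀ n : ℕ, 1 - Real.exp (-b / n) ≤ b / n := fun n => by
    have := Real.add_one_le_exp (-b / n)
    rw [neg_div] at this ⊢
    linarith
  have hr2 : ∀ n : ℕ, Real.sqrt (1 - Real.exp (-b / n)) ^ 2 = 1 - Real.exp (-b / n) := fun n =>
    Real.sq_sqrt (by linarith [hle n])
  have hinv : Tendsto (fun n : ℕ => b / (n : ℝ)) atTop (𝓝 0) := tendsto_const_div_atTop_nhds_zero_nat b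
  have hrle : ∀ n : ℕ, Real.sqrt (1 - Real.exp (-b / n)) ≤ Real.sqrt (b / n) := fun n =>
    Real.sqrt_le_sqrt (hge n)
  have hsq : Tendsto (fun n : ℕ => Real.sqrt (b / (n : ℝ))) atTop (𝓝 0) := by
    have := (Real.continuous_sqrt.tendsto 0).comp hinv
    rw [Real.sqrt_zero] at this
    exact this
  refine ⟨fun n => Real.sqrt (1 - Real.exp (-b / n)), fun n => Real.sqrt_nonneg _, ?_, ?_, ?_⟩
  · intro n hn
    have hn' : (n : ℝ) ≠ 0 := by
      have : 0 < (n : ℝ) := by exact_mod_cast hn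
      exact this.ne'
    simp only
    rw [hr2, sub_sub_cancel, ← Real.exp_nat_mul, mul_div_cancel₀ _ hn', hs]
  · exact squeeze_zero (fun n => Real.sqrt_nonneg _) hrle hsq
  · have hbound : ∀ n : ℕ, (n : ℝ) * Real.sqrt (1 - Real.exp (-b / n)) ^ 3 ≤
        b * Real.sqrt (b / n) := by
      intro n
      rcases Nat.eq_zero_or_pos n with hn | hn
      · rw [hn]
        simp
      · have hn' : 0 < (n : ℝ) := by exact_mod_cast hn
        have h3 : Real.sqrt (1 - Real.exp (-b / n)) ^ 3 =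
            (1 - Real.exp (-b / n)) * Real.sqrt (1 - Real.exp (-b / n)) := by
          rw [pow_succ, hr2]
        rw [h3, ← mul_assoc]
        have h4 : (n : ℝ) * (1 - Real.exp (-b / n)) ≤ b := by
          have := mul_le_mul_of_nonneg_left (hge n) hn'.le
          rwa [mul_div_cancel₀ _ hn'.ne'] at this
        exact mul_le_mul h4 (hrle n) (Real.sqrt_nonneg _) hb0.le
    refine squeeze_zero (fun n => by positivity) hbound ?_
    have := hsq.const_mul b
    rwa [mul_zero] at this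

/-- ROW ITB -/
theorem sigma_bound (m : ℕ) {D : Pre d ι} (hD : Good D) {s : ℝ} (h0 : 0 < s) (h1 : s < 1) :
    J m (A D) ≤ ent D + ∫ v, J m (A (D.rs (Real.sqrt (1 - s ^ 2) • v) s)) ∂(gam d) := by
  obtain ⟨C, hC, h⟩ := n_steps d m
  obtain ⟨r, hr0, hrn, hrt, hrc⟩ := ItB_steps h0 h1
  have hsub : ∫ v, (ent (D.rs (Real.sqrt (1 - s ^ 2) • v) s) -
      J m (A (D.rs (Real.sqrt (1 - s ^ 2) • v) s))) ∂(gam d) =
      (∫ v, ent (D.rs (Real.sqrt (1 - s ^ 2) • v) s) ∂(gam d)) -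
      ∫ v, J m (A (D.rs (Real.sqrt (1 - s ^ 2) • v) s)) ∂(gam d) :=
    integral_sub (ItA_int hD.meas ItA_H_cont _ _) (ItA_int hD.meas (ItA_J_cont m D.P) _ _)
  have hnn : 0 ≤ ∫ v, ent (D.rs (Real.sqrt (1 - s ^ 2) • v) s) ∂(gam d) :=
    integral_nonneg fun v => ItB_ent_nonneg _
  have hev : ∀ᶠ n : ℕ in atTop, J m (A D) ≤ ent D +
      (∫ v, J m (A (D.rs (Real.sqrt (1 - s ^ 2) • v) s)) ∂(gam d)) +
        C * ((n : ℝ) * r n ^ 3) := by
    have h2 : ∀ᶠ n : ℕ in atTop, r n ≤ 1 / 2 :=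
      hrt.eventually (Iic_mem_nhds (by norm_num))
    filter_upwards [h2, eventually_ge_atTop 1] with n hn hn1
    have h3 := h ι D hD (r n) (hr0 n) hn n s h0.le (hrn n hn1)
    rw [hsub] at h3
    have h4 : (n : ℝ) * (C * r n ^ 3) = C * ((n : ℝ) * r n ^ 3) := by ring
    rw [h4] at h3
    linarith
  have hlim : Tendsto (fun n : ℕ => ent D +
      (∫ v, J m (A (D.rs (Real.sqrt (1 - s ^ 2) • v) s)) ∂(gam d)) +
        C * ((n : ℝ) * r n ^ 3)) atTop (𝓝 (ent D +
      (∫ v, J m (A (D.rs (Real.sqrt (1 - s ^ 2) • v) s)) ∂(gam d)))) := by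
    have := (hrc.const_mul C).const_add (ent D +
      (∫ v, J m (A (D.rs (Real.sqrt (1 - s ^ 2) • v) s)) ∂(gam d)))
    rwa [mul_zero, add_zero] at this
  exact ge_of_tendsto hlim hev

end Pool.Agent.KXP
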