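import Pool.Agent.KXP.Gau
import Pool.Agent.KXP.Fib
import Pool.Agent.KXP.Rsg

/-! KXP ItZ: continuous functions of the label probabilities -/

set_option autoImplicit false

open MeasureTheory ProbabilityTheory Filter Topology
open scoped BigOperators

namespace Pool.Agent.KXP

variable {d : ℕ} {ι : Type} [Fintype ι]

/-- the potential as a function of the probabilities of the labels -/
noncomputable def ItA_J (m : ℕ) (P : ι → Matrix (Fin d) (Fin d) ℝ) (x : ι → ℝ) : ℝ :=
  J m (∑ i, x i • P i)

/-- the entropy as a function of the probabilities of the labels -/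
noncomputable def ItA_H (x : ι → ℝ) : ℝ := ∑ i, Real.negMulLog (x i)

theorem ItA_J_cont (m : ℕ) (P : ι → Matrix (Fin d) (Fin d) ℝ) : Continuous (ItA_J m P) := by
  have h1 : Continuous fun x : ι → ℝ => ∑ i, x i • P i :=
    continuous_finsetSum _ fun i _ => (continuous_apply i).smul continuous_const
  unfold ItA_J J
  refine continuous_finsetSum _ fun j _ => Continuous.div_const ?_ _
  refine continuous_const.sub (Continuous.matrix_trace ?_)
  exact (continuous_const.sub (h1.const_smul (2 : ℝ))).pow _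

theorem ItA_H_cont : Continuous (ItA_H : (ι → ℝ) → ℝ) :=
  continuous_finsetSum _ fun i _ => Real.continuous_negMulLog.comp (continuous_apply i)

theorem ItA_mem (D : Pre d ι) : q D ∈ Set.Icc (0 : ι → ℝ) 1 :=
  ⟨fun i => q_nonneg D i, fun i => q_le_one D i⟩

theorem ItA_bdd {φ : (ι → ℝ) → ℝ} (hφ : Continuous φ) :
    ∃ C, ∀ (D : Pre d ι), ‖φ (q D)‖ ≤ C := by
  obtain ⟨C, hC⟩ := (isCompact_Icc (a := (0 : ι → ℝ)) (b := 1)).exists_bound_of_continuousOn
    hφ.continuousOn
  exact ⟨C, fun D => hC _ (ItA_mem D)⟩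

theorem ItA_meas {D : Pre d ι} (hm : ∀ i, MeasurableSet {u | D.L u = i}) {φ : (ι → ℝ) → ℝ}
    (hφ : Continuous φ) (b : ℝ) : Measurable fun z : E d => φ (q (D.rs z b)) := by
  refine hφ.measurable.comp (measurable_pi_iff.2 fun i => ?_)
  have h := q_rs_meas hm 1 b i
  simpa only [one_smul] using h

theorem ItA_int {D : Pre d ι} (hm : ∀ i, MeasurableSet {u | D.L u = i}) {φ : (ι → ℝ) → ℝ}
    (hφ : Continuous φ) (a b : ℝ) : Integrable (fun v : E d => φ (q (D.rs (a • v) b))) (gam d) := by
  obtain ⟨C, hC⟩ := ItA_bdd (d := d) hφ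
  refine Integrable.of_bound ?_ C (Eventually.of_forall fun v => hC _)
  have h := (ItA_meas hm hφ b).comp (measurable_const_smul (α := E d) a)
  exact h.aestronglyMeasurable

omit [Fintype ι] in
theorem ItA_q_rs_one (D : Pre d ι) : q (D.rs (0 : E d) 1) = q D := by
  funext i
  unfold q
  congr 1
  ext u
  simp [Pre.rs]

/-- averaging over the sum of two Gaussian vectors -/
theorem ItA_conv {F : E d → ℝ} (hF : Measurable F) {C : ℝ} (hC : ∀ z, ‖F z‖ ≤ C) {a b c : ℝ}
    (hc : 0 ≤ c) (h : a ^ 2 + b ^ 2 = c ^ 2) :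
    ∫ v, ∫ w, F (a • v + b • w) ∂(gam d) ∂(gam d) = ∫ u, F (c • u) ∂(gam d) := by
  have hme : Measurable fun p : E d × E d => F (a • p.1 + b • p.2) :=
    hF.comp ((measurable_fst.const_smul a).add (measurable_snd.const_smul b))
  have hint : Integrable (fun p : E d × E d => F (a • p.1 + b • p.2)) ((gam d).prod (gam d)) :=
    Integrable.of_bound hme.aestronglyMeasurable C (Eventually.of_forall fun p => hC _)
  rw [← integral_prod (fun p : E d × E d => F (a • p.1 + b • p.2)) hint]
  rcases hc.eq_or_lt with hc0 | hc0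
  · have ha : a = 0 := by nlinarith [sq_nonneg a, sq_nonneg b]
    have hb : b = 0 := by nlinarith [sq_nonneg a, sq_nonneg b]
    rw [← hc0, ha, hb]
    simp
  · have h1 : (a / c) ^ 2 + (b / c) ^ 2 = 1 := by
      rw [div_pow, div_pow, ← add_div, h, div_self (by positivity)]
    have h2 := gau_sum (d := d) h1
    have h3 : ∫ u, F (c • u) ∂(gam d) =
        ∫ p : E d × E d, F (c • ((a / c) • p.1 + (b / c) • p.2)) ∂((gam d).prod (gam d)) := by
      conv_lhs => rw [← h2.map_eq]
      rw [integral_map h2.measurable.aemeasurable]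
      · exact (hF.comp (measurable_const_smul (α := E d) c)).aestronglyMeasurable
    rw [h3]
    refine integral_congr_ae (Eventually.of_forall fun p => ?_)
    simp only
    congr 1
    rw [smul_add, smul_smul, smul_smul, mul_div_cancel₀ _ hc0.ne', mul_div_cancel₀ _ hc0.ne']

end Pool.Agent.KXP
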