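import Mathlib

/-! KXP: the kernel inequality of the entropy potential. -/

namespace Pool.Agent.KXP

open Finset Real

/-- The kernel of minus the second derivative of the trace of `J`. -/
noncomputable def kap (m : ℕ) (a b : ℝ) : ℝ :=
  ∑ j ∈ range m, (4 / (2 * (j : ℝ) + 1)) * ∑ q ∈ antidiagonal (2 * j), a ^ q.1 * b ^ q.2

theorem kap_comm (m : ℕ) (a b : ℝ) : kap m a b = kap m b a := by
  unfold kap
  refine Finset.sum_congr rfl fun j _ => ?_
  congr 1
  rw [← Finset.Nat.sum_antidiagonal_swap]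
  refine Finset.sum_congr rfl fun q _ => ?_
  simp [mul_comm]

theorem sub_mul_antidiag (a b : ℝ) (n : ℕ) :
    (a - b) * ∑ q ∈ antidiagonal n, a ^ q.1 * b ^ q.2 = a ^ (n + 1) - b ^ (n + 1) := by
  have h := (Commute.all a b).mul_geom_sum₂ (n + 1)
  rw [← h, Finset.Nat.sum_antidiagonal_eq_sum_range_succ_mk]
  rfl

theorem hasSum_artanh {x : ℝ} (h : |x| < 1) :
    HasSum (fun k : ℕ => (1 / (2 * (k : ℝ) + 1)) * x ^ (2 * k + 1)) (artanh x) := by
  have h1 := (hasSum_log_sub_log_of_abs_lt_one h).mul_left (1 / 2)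
  have hx : -1 < x ∧ x < 1 := abs_lt.mp h
  have h2 : artanh x = 1 / 2 * (log (1 + x) - log (1 - x)) := by
    rw [artanh_eq_half_log ⟨hx.1.le, hx.2.le⟩, Real.log_div (by linarith) (by linarith)]
  rw [h2]
  refine h1.congr_fun ?_
  intro k
  ring

theorem artanh_sub_le {a b : ℝ} (ha : |a| < 1) (hb : |b| < 1) (hab : b ≤ a) :
    artanh a - artanh b ≤ (a - b) / (√(1 - a ^ 2) * √(1 - b ^ 2)) := by
  have ha' : a ∈ Set.Ioo (-1 : ℝ) 1 := abs_lt.mp ha
  have hb' : b ∈ Set.Ioo (-1 : ℝ) 1 := abs_lt.mp hb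
  have h0 : 0 ≤ artanh a - artanh b := by
    have := artanh_le_artanh hb'.1 ha'.2 hab
    linarith
  have h1 := self_le_sinh_iff.mpr h0
  refine h1.trans (le_of_eq ?_)
  rw [Real.sinh_sub, sinh_artanh ha', sinh_artanh hb', cosh_artanh ha', cosh_artanh hb']
  have h2 : 0 < 1 - a ^ 2 := by nlinarith [ha'.1, ha'.2]
  have h3 : 0 < 1 - b ^ 2 := by nlinarith [hb'.1, hb'.2]
  have h4 := Real.sqrt_pos.mpr h2
  have h5 := Real.sqrt_pos.mpr h3
  field_simp

theorem kap_le_of_lt (m : ℕ) {a b : ℝ} (ha : |a| < 1) (hb : |b| < 1) (hab : b < a) :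
    kap m a b ≤ 4 / (√(1 - a ^ 2) * √(1 - b ^ 2)) := by
  have h1 : (a - b) * kap m a b
      = 4 * ∑ j ∈ range m, (1 / (2 * (j : ℝ) + 1)) * (a ^ (2 * j + 1) - b ^ (2 * j + 1)) := by
    unfold kap
    rw [Finset.mul_sum, Finset.mul_sum]
    refine Finset.sum_congr rfl fun j _ => ?_
    rw [← sub_mul_antidiag a b (2 * j)]
    ring
  have h2 : ∑ j ∈ range m, (1 / (2 * (j : ℝ) + 1)) * (a ^ (2 * j + 1) - b ^ (2 * j + 1))
      ≤ artanh a - artanh b := by
    have hs := (hasSum_artanh ha).sub (hasSum_artanh hb)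
    have := sum_le_hasSum (range m) (fun j _ => ?_) hs
    · refine le_trans (le_of_eq ?_) this
      refine Finset.sum_congr rfl fun j _ => ?_
      ring
    · have hmono : b ^ (2 * j + 1) ≤ a ^ (2 * j + 1) :=
        (Odd.strictMono_pow ⟨j, rfl⟩).monotone hab.le
      have hpos : (0 : ℝ) ≤ 1 / (2 * (j : ℝ) + 1) := by positivity
      have := mul_le_mul_of_nonneg_left hmono hpos
      linarith
  have h3 := h2.trans (artanh_sub_le ha hb hab.le)
  have h4 : 0 < a - b := by linarith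
  have h5 : (a - b) * kap m a b ≤ (a - b) * (4 / (√(1 - a ^ 2) * √(1 - b ^ 2))) := by
    rw [h1]
    have : (a - b) * (4 / (√(1 - a ^ 2) * √(1 - b ^ 2)))
        = 4 * ((a - b) / (√(1 - a ^ 2) * √(1 - b ^ 2))) := by ring
    rw [this]
    linarith
  exact le_of_mul_le_mul_left h5 h4

theorem kap_self_le (m : ℕ) {a : ℝ} (ha : |a| < 1) :
    kap m a a ≤ 4 / (1 - a ^ 2) := by
  have h0 : a ^ 2 < 1 := by
    have := (sq_lt_one_iff_abs_lt_one a).mpr ha
    exact this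
  have h1 : kap m a a = 4 * ∑ j ∈ range m, (a ^ 2) ^ j := by
    unfold kap
    rw [Finset.mul_sum]
    refine Finset.sum_congr rfl fun j _ => ?_
    have : ∑ q ∈ antidiagonal (2 * j), a ^ q.1 * a ^ q.2 = (2 * (j : ℝ) + 1) * (a ^ 2) ^ j := by
      have : ∀ q ∈ antidiagonal (2 * j), a ^ q.1 * a ^ q.2 = (a ^ 2) ^ j := by
        intro q hq
        rw [← pow_add, Finset.HasAntidiagonal.mem_antidiagonal.mp hq, pow_mul]
      rw [Finset.sum_congr rfl this, Finset.sum_const, Finset.Nat.card_antidiagonal, nsmul_eq_mul]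
      push_cast
      ring
    rw [this]
    have : (2 * (j : ℝ) + 1) ≠ 0 := by positivity
    field_simp
  rw [h1]
  have h2 := sum_le_hasSum (range m) (fun j _ => by positivity)
    (hasSum_geometric_of_lt_one (sq_nonneg a) h0)
  have : 4 / (1 - a ^ 2) = 4 * (1 - a ^ 2)⁻¹ := by ring
  rw [this]
  linarith

theorem kap_le (m : ℕ) {a b : ℝ} (ha : |a| < 1) (hb : |b| < 1) :
    kap m a b ≤ 4 / (√(1 - a ^ 2) * √(1 - b ^ 2)) := by
  rcases lt_trichotomy a b with h | h | h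
  · rw [kap_comm, mul_comm (√(1 - a ^ 2))]
    exact kap_le_of_lt m hb ha h
  · subst h
    have h0 : a ^ 2 < 1 := (sq_lt_one_iff_abs_lt_one a).mpr ha
    rw [Real.mul_self_sqrt (by linarith)]
    exact kap_self_le m ha
  · exact kap_le_of_lt m ha hb h

/-- The form used: with `la, lb` in `(0,1)` and `v = l - l ^ 2`. -/
theorem kap_le' (m : ℕ) {l k : ℝ} (hl : 0 < l - l ^ 2) (hk : 0 < k - k ^ 2) :
    kap m (1 - 2 * l) (1 - 2 * k) ≤ 1 / (√(l - l ^ 2) * √(k - k ^ 2)) := by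
  have h1 : 1 - (1 - 2 * l) ^ 2 = 2 ^ 2 * (l - l ^ 2) := by ring
  have h2 : 1 - (1 - 2 * k) ^ 2 = 2 ^ 2 * (k - k ^ 2) := by ring
  have ha : |1 - 2 * l| < 1 := (sq_lt_one_iff_abs_lt_one _).mp (by nlinarith)
  have hb : |1 - 2 * k| < 1 := (sq_lt_one_iff_abs_lt_one _).mp (by nlinarith)
  have := kap_le m ha hb
  refine this.trans (le_of_eq ?_)
  rw [h1, h2, Real.sqrt_mul (by norm_num), Real.sqrt_mul (by norm_num),
    Real.sqrt_sq (by norm_num : (0:ℝ) ≤ 2)]
  have h4 := Real.sqrt_pos.mpr hl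
  have h5 := Real.sqrt_pos.mpr hk
  field_simp
  norm_num

end Pool.Agent.KXP
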