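import Pool.Agent.KXP.Defs

/-! KXP, row KRA: the Mehler kernel. (The density part follows helper68.) -/

set_option autoImplicit false

open MeasureTheory ProbabilityTheory Filter Topology
open scoped BigOperators

namespace Pool.Agent.KXP

variable {d : ℕ} {ι : Type} [Fintype ι]

/-- the Gaussian density -/
noncomputable def KrA_gd (y : E d) : ℝ :=
  (2 * Real.pi) ^ (-((d : ℝ) / 2)) * Real.exp (-‖y‖ ^ 2 / 2)

theorem KrA_gd_pos (y : E d) : 0 < KrA_gd y := by
  unfold KrA_gd
  have := Real.pi_pos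
  positivity

theorem KrA_gd_cont : Continuous (KrA_gd (d := d)) := by
  unfold KrA_gd; fun_prop

theorem KrA_gd_integrable : Integrable (KrA_gd (d := d)) volume := by
  have h := GaussianFourier.integrable_cexp_neg_mul_sq_norm_add (V := E d) (b := (1 / 2 : ℂ))
    (by norm_num) 0 0
  have h2 := h.re
  have h3 : Integrable (fun y : E d => Real.exp (-‖y‖ ^ 2 / 2)) volume := by
    refine h2.congr (Filter.Eventually.of_forall fun y => ?_)
    simp only [RCLike.re_to_complex]
    have : (-(1 / 2 : ℂ) * (‖y‖ : ℂ) ^ 2 + 0 * ((inner ℝ (0 : E d) y : ℝ) : ℂ)) =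
        ((-‖y‖ ^ 2 / 2 : ℝ) : ℂ) := by
      push_cast; ring
    rw [this, ← Complex.ofReal_exp, Complex.ofReal_re]
  exact h3.const_mul _

theorem KrA_gd_charFun (t : E d) :
    ∫ y : E d, ((KrA_gd y : ℝ) : ℂ) * Complex.exp ((inner ℝ y t : ℝ) * Complex.I) =
      Complex.exp (-(‖t‖ : ℂ) ^ 2 / 2) := by
  have hpi := Real.pi_pos
  have h := GaussianFourier.integral_cexp_neg_mul_sq_norm_add (V := E d) (b := (1 / 2 : ℂ))
    (by norm_num) Complex.I t
  have h1 : ∀ y : E d, ((KrA_gd y : ℝ) : ℂ) * Complex.exp ((inner ℝ y t : ℝ) * Complex.I) =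
      (((2 * Real.pi) ^ (-((d : ℝ) / 2)) : ℝ) : ℂ) *
        Complex.exp (-(1 / 2 : ℂ) * (‖y‖ : ℂ) ^ 2 + Complex.I * ((inner ℝ t y : ℝ) : ℂ)) := by
    intro y
    unfold KrA_gd
    rw [Complex.exp_add, real_inner_comm t y]
    push_cast
    rw [mul_assoc]
    congr 3
    · ring
    · ring
  simp_rw [h1]
  rw [integral_const_mul, h, finrank_euclideanSpace_fin]
  have h2 : (Real.pi / (1 / 2 : ℂ)) ^ ((d : ℂ) / 2) =
      (((2 * Real.pi) ^ ((d : ℝ) / 2) : ℝ) : ℂ) := by
    rw [Complex.ofReal_cpow (by positivity)]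
    push_cast
    congr 1
    ring
  rw [h2, ← mul_assoc, ← Complex.ofReal_mul, ← Real.rpow_add (by positivity)]
  rw [neg_add_cancel, Real.rpow_zero, Complex.ofReal_one, one_mul]
  congr 1
  rw [Complex.I_sq]
  ring

theorem KrA_gam_eq : gam d = volume.withDensity (fun y => ENNReal.ofReal (KrA_gd y)) := by
  have : IsFiniteMeasure ((volume : Measure (E d)).withDensity (fun y => ENNReal.ofReal (KrA_gd y))) :=
    isFiniteMeasure_withDensity_ofReal KrA_gd_integrable.2
  unfold gam
  apply Measure.ext_of_charFun (E := E d)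
  ext t
  rw [charFun_stdGaussian, charFun_apply, integral_withDensity_eq_integral_toReal_smul]
  · rw [← KrA_gd_charFun t]
    refine integral_congr_ae (Filter.Eventually.of_forall fun y => ?_)
    simp only [ENNReal.toReal_ofReal (KrA_gd_pos y).le, Complex.real_smul]
  · exact (KrA_gd_cont.measurable).ennreal_ofReal
  · exact Filter.Eventually.of_forall fun y => ENNReal.ofReal_lt_top

theorem KrA_integral (g : E d → ℝ) :
    ∫ y, g y ∂(gam d) = ∫ y, KrA_gd y * g y := by
  rw [KrA_gam_eq, integral_withDensity_eq_integral_toReal_smul]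
  · refine integral_congr_ae (Filter.Eventually.of_forall fun y => ?_)
    simp only [ENNReal.toReal_ofReal (KrA_gd_pos y).le, smul_eq_mul]
  · exact (KrA_gd_cont.measurable).ennreal_ofReal
  · exact Filter.Eventually.of_forall fun y => ENNReal.ofReal_lt_top

theorem KrA_integrable (g : E d → ℝ) :
    Integrable g (gam d) ↔ Integrable (fun y => KrA_gd y * g y) volume := by
  rw [KrA_gam_eq, integrable_withDensity_iff_integrable_smul']
  · refine integrable_congr (Filter.Eventually.of_forall fun y => ?_)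
    simp only [ENNReal.toReal_ofReal (KrA_gd_pos y).le, smul_eq_mul]
  · exact (KrA_gd_cont.measurable).ennreal_ofReal
  · exact Filter.Eventually.of_forall fun y => ENNReal.ofReal_lt_top

/-- the Mehler kernel -/
noncomputable def mk (r : ℝ) (v u : E d) : ℝ :=
  (1 - r ^ 2) ^ (-(d : ℝ) / 2) *
    Real.exp (-(r ^ 2 * ‖v‖ ^ 2 - 2 * r * inner ℝ v u + r ^ 2 * ‖u‖ ^ 2) / (2 * (1 - r ^ 2)))

theorem ou_mk {r : ℝ} (h0 : 0 ≤ r) (h1 : r < 1) (f : E d → ℝ) (v : E d) :
    ou r f v = ∫ u, f u * mk r v u ∂(gam d) := by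
  have hs2 : 0 < 1 - r ^ 2 := by nlinarith
  unfold ou
  set s := Real.sqrt (1 - r ^ 2) with hs
  have hs0 : 0 < s := Real.sqrt_pos.2 hs2
  have hss : s ^ 2 = 1 - r ^ 2 := Real.sq_sqrt hs2.le
  rw [KrA_integral, KrA_integral]
  set F : E d → ℝ := fun z => KrA_gd (s⁻¹ • (z - r • v)) * f z with hF
  have e1 : ∫ y, KrA_gd y * f (r • v + s • y) = ∫ y, F (s • y + r • v) := by
    refine integral_congr_ae (Filter.Eventually.of_forall fun y => ?_)
    simp only [hF]
    rw [add_sub_cancel_right, smul_smul, inv_mul_cancel₀ hs0.ne', one_smul, add_comm]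
  rw [e1]
  have e2 := Measure.integral_comp_smul (volume : Measure (E d)) (fun y => F (y + r • v)) s
  rw [e2, integral_add_right_eq_self, finrank_euclideanSpace_fin, abs_of_pos (by positivity),
    smul_eq_mul, ← integral_const_mul]
  refine integral_congr_ae (Filter.Eventually.of_forall fun z => ?_)
  simp only [hF]
  have key : KrA_gd (s⁻¹ • (z - r • v)) = KrA_gd z *
      Real.exp (-(r ^ 2 * ‖v‖ ^ 2 - 2 * r * inner ℝ v z + r ^ 2 * ‖z‖ ^ 2) / (2 * (1 - r ^ 2))) := by
    unfold KrA_gd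
    rw [mul_assoc, ← Real.exp_add]
    congr 2
    have n1 : ‖s⁻¹ • (z - r • v)‖ ^ 2 =
        (‖z‖ ^ 2 - 2 * r * inner ℝ v z + r ^ 2 * ‖v‖ ^ 2) / (1 - r ^ 2) := by
      rw [norm_smul, mul_pow, norm_inv, Real.norm_eq_abs, abs_of_pos hs0, inv_pow, hss,
        norm_sub_sq_real, real_inner_smul_right, norm_smul, real_inner_comm v z, mul_pow]
      simp only [Real.norm_eq_abs, sq_abs]
      field_simp
    rw [n1]
    field_simp
    ring
  have hc : (1 - r ^ 2) ^ (-(d : ℝ) / 2) = (s ^ d)⁻¹ := by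
    rw [neg_div, Real.rpow_neg hs2.le, ← hss, ← Real.rpow_natCast s d, ← Real.rpow_natCast s 2,
      ← Real.rpow_mul hs0.le]
    congr 2
    push_cast
    ring
  rw [key, mk, hc]
  ring

end Pool.Agent.KXP
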