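import Pool.Agent.KXP.KrA

/-! KXP, row KRB: second moments of the Mehler kernel. -/

set_option autoImplicit false

open MeasureTheory ProbabilityTheory Filter Topology
open scoped BigOperators

namespace Pool.Agent.KXP

variable {d : ℕ} {ι : Type} [Fintype ι]

/-! ### Gaussian integrals -/

theorem KrB_exp_integrable {b : ℝ} (hb : 0 < b) (a : E d) :
    Integrable (fun u : E d => Real.exp (-b * ‖u‖ ^ 2 + inner ℝ a u)) volume := by
  have h := (GaussianFourier.integrable_cexp_neg_mul_sq_norm_add (V := E d) (b := (b : ℂ))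
    (by simpa using hb) 1 a).re
  refine h.congr (Filter.Eventually.of_forall fun y => ?_)
  simp only [RCLike.re_to_complex]
  have : (-(b : ℂ) * (‖y‖ : ℂ) ^ 2 + 1 * ((inner ℝ a y : ℝ) : ℂ)) =
      ((-b * ‖y‖ ^ 2 + inner ℝ a y : ℝ) : ℂ) := by
    push_cast; ring
  rw [this, ← Complex.ofReal_exp, Complex.ofReal_re]

theorem KrB_exp_integral {b : ℝ} (hb : 0 < b) (a : E d) :
    ∫ u : E d, Real.exp (-b * ‖u‖ ^ 2 + inner ℝ a u) =
      (Real.pi / b) ^ ((d : ℝ) / 2) * Real.exp (‖a‖ ^ 2 / (4 * b)) := by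
  have e : ∀ u : E d, Real.exp (-b * ‖u‖ ^ 2 + inner ℝ a u) =
      Real.exp (‖a‖ ^ 2 / (4 * b)) * Real.exp (-b * ‖u - (1 / (2 * b)) • a‖ ^ 2) := by
    intro u
    rw [← Real.exp_add]
    congr 1
    rw [norm_sub_sq_real, real_inner_smul_right, norm_smul, mul_pow, real_inner_comm]
    simp only [Real.norm_eq_abs, sq_abs]
    field_simp
    ring
  simp_rw [e]
  rw [integral_const_mul,
    integral_sub_right_eq_self (fun u : E d => Real.exp (-b * ‖u‖ ^ 2)) ((1 / (2 * b)) • a),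
    GaussianFourier.integral_rexp_neg_mul_sq_norm hb, finrank_euclideanSpace_fin]
  ring

/-- exponential moments of the Gaussian measure -/
theorem KrB_gauss {α : ℝ} (hα : -(1 / 2) < α) (a : E d) :
    Integrable (fun u : E d => Real.exp (-α * ‖u‖ ^ 2 + inner ℝ a u)) (gam d) ∧
      ∫ u, Real.exp (-α * ‖u‖ ^ 2 + inner ℝ a u) ∂(gam d) =
        (1 + 2 * α) ^ (-((d : ℝ) / 2)) * Real.exp (‖a‖ ^ 2 / (2 * (1 + 2 * α))) := by
  have hb : 0 < 1 / 2 + α := by linarith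
  have hpi := Real.pi_pos
  have e : ∀ u : E d, KrA_gd u * Real.exp (-α * ‖u‖ ^ 2 + inner ℝ a u) =
      (2 * Real.pi) ^ (-((d : ℝ) / 2)) * Real.exp (-(1 / 2 + α) * ‖u‖ ^ 2 + inner ℝ a u) := by
    intro u
    unfold KrA_gd
    rw [mul_assoc, ← Real.exp_add]
    congr 2
    ring
  constructor
  · rw [KrA_integrable]
    simp_rw [e]
    exact (KrB_exp_integrable hb a).const_mul _
  · rw [KrA_integral]
    simp_rw [e]
    rw [integral_const_mul, KrB_exp_integral hb a, ← mul_assoc]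
    have h1 : (2 * Real.pi) ^ (-((d : ℝ) / 2)) * (Real.pi / (1 / 2 + α)) ^ ((d : ℝ) / 2) =
        (1 + 2 * α) ^ (-((d : ℝ) / 2)) := by
      rw [Real.rpow_neg (by positivity), Real.rpow_neg (by linarith), ← Real.inv_rpow (by positivity),
        ← Real.inv_rpow (by linarith), ← Real.mul_rpow (by positivity) (by positivity)]
      congr 1
      field_simp
    rw [h1]
    congr 3
    ring

/-! ### The kernel -/

theorem KrB_mk_pos {r : ℝ} (h0 : 0 ≤ r) (h1 : r < 1) (v u : E d) : 0 < mk r v u := by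
  have hs2 : 0 < 1 - r ^ 2 := by nlinarith
  unfold mk
  positivity

theorem KrB_mk_cont (r : ℝ) : Continuous (fun p : E d × E d => mk r p.1 p.2) := by
  unfold mk
  fun_prop

/-- the square of the kernel, integrated over the second variable -/
theorem KrB_inner_sq {r : ℝ} (h0 : 0 ≤ r) (h1 : r < 1) (v : E d) :
    Integrable (fun u : E d => mk r v u ^ 2) (gam d) ∧
      ∫ u, mk r v u ^ 2 ∂(gam d) =
        (1 - r ^ 2) ^ (-(d : ℝ)) * ((1 + r ^ 2) / (1 - r ^ 2)) ^ (-((d : ℝ) / 2)) *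
          Real.exp (-(-(r ^ 2 / (1 + r ^ 2))) * ‖v‖ ^ 2 + inner ℝ (0 : E d) v) := by
  have hs2 : 0 < 1 - r ^ 2 := by nlinarith
  have hp2 : 0 < 1 + r ^ 2 := by positivity
  have hα : -(1 / 2) < r ^ 2 / (1 - r ^ 2) := by
    have : 0 ≤ r ^ 2 / (1 - r ^ 2) := by positivity
    linarith
  obtain ⟨hi, hv⟩ := KrB_gauss (d := d) hα ((2 * r / (1 - r ^ 2)) • v)
  have e : ∀ u : E d, mk r v u ^ 2 =
      ((1 - r ^ 2) ^ (-(d : ℝ)) * Real.exp (-(r ^ 2 / (1 - r ^ 2)) * ‖v‖ ^ 2)) *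
        Real.exp (-(r ^ 2 / (1 - r ^ 2)) * ‖u‖ ^ 2 + inner ℝ ((2 * r / (1 - r ^ 2)) • v) u) := by
    intro u
    have hA : ((1 - r ^ 2) ^ (-(d : ℝ) / 2)) ^ 2 = (1 - r ^ 2) ^ (-(d : ℝ)) := by
      rw [← Real.rpow_natCast, ← Real.rpow_mul hs2.le]
      congr 1
      push_cast
      ring
    unfold mk
    rw [mul_pow, hA, mul_assoc ((1 - r ^ 2) ^ (-(d : ℝ))), ← Real.exp_add, ← Real.exp_nat_mul,
      real_inner_smul_left]
    congr 2
    push_cast
    field_simp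
    ring
  constructor
  · simp_rw [e]
    exact hi.const_mul _
  · simp_rw [e]
    rw [integral_const_mul, hv]
    have e1 : 1 + 2 * (r ^ 2 / (1 - r ^ 2)) = (1 + r ^ 2) / (1 - r ^ 2) := by
      field_simp
      ring
    rw [e1]
    have e2 : Real.exp (-(r ^ 2 / (1 - r ^ 2)) * ‖v‖ ^ 2) *
        Real.exp (‖(2 * r / (1 - r ^ 2)) • v‖ ^ 2 / (2 * ((1 + r ^ 2) / (1 - r ^ 2)))) =
        Real.exp (-(-(r ^ 2 / (1 + r ^ 2))) * ‖v‖ ^ 2 + inner ℝ (0 : E d) v) := by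
      rw [← Real.exp_add, inner_zero_left, norm_smul, mul_pow]
      congr 1
      simp only [Real.norm_eq_abs, sq_abs]
      field_simp
      ring
    rw [← e2]
    ring

theorem mk_sq {r : ℝ} (h0 : 0 ≤ r) (h1 : r < 1) :
    Integrable (fun p : E d × E d => mk r p.1 p.2 ^ 2) ((gam d).prod (gam d)) ∧
      ∫ p : E d × E d, mk r p.1 p.2 ^ 2 ∂((gam d).prod (gam d)) = (1 - r ^ 2) ^ (-(d : ℝ)) := by
  have hs2 : 0 < 1 - r ^ 2 := by nlinarith
  have hp2 : 0 < 1 + r ^ 2 := by positivity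
  have hα : -(1 / 2) < -(r ^ 2 / (1 + r ^ 2)) := by
    rw [neg_lt_neg_iff, div_lt_iff₀ hp2]
    linarith
  obtain ⟨hi, hv⟩ := KrB_gauss (d := d) hα 0
  have hint : Integrable (fun p : E d × E d => mk r p.1 p.2 ^ 2) ((gam d).prod (gam d)) := by
    have hm : AEStronglyMeasurable (fun p : E d × E d => mk r p.1 p.2 ^ 2)
        ((gam d).prod (gam d)) := ((KrB_mk_cont r).pow 2).aestronglyMeasurable
    rw [integrable_prod_iff hm]
    refine ⟨Filter.Eventually.of_forall fun v => (KrB_inner_sq h0 h1 v).1, ?_⟩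
    have e : ∀ v : E d, ∫ u, ‖mk r v u ^ 2‖ ∂(gam d) =
        (1 - r ^ 2) ^ (-(d : ℝ)) * ((1 + r ^ 2) / (1 - r ^ 2)) ^ (-((d : ℝ) / 2)) *
          Real.exp (-(-(r ^ 2 / (1 + r ^ 2))) * ‖v‖ ^ 2 + inner ℝ (0 : E d) v) := by
      intro v
      rw [← (KrB_inner_sq h0 h1 v).2]
      refine integral_congr_ae (Filter.Eventually.of_forall fun u => ?_)
      simp only [norm_pow, Real.norm_eq_abs, sq_abs]
    simp_rw [e]
    exact hi.const_mul _
  refine ⟨hint, ?_⟩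
  rw [integral_prod _ hint]
  have e : ∀ v : E d, ∫ u, mk r (v, v).1 u ^ 2 ∂(gam d) = ∫ u, mk r v u ^ 2 ∂(gam d) := fun v => rfl
  simp only [(KrB_inner_sq h0 h1 _).2]
  rw [integral_const_mul, hv, norm_zero]
  have e1 : 1 + 2 * -(r ^ 2 / (1 + r ^ 2)) = ((1 + r ^ 2) / (1 - r ^ 2))⁻¹ := by
    field_simp
    ring
  rw [e1, Real.inv_rpow (by positivity)]
  have hne : ((1 + r ^ 2) / (1 - r ^ 2)) ^ (-((d : ℝ) / 2)) ≠ 0 := by positivity
  have e2 : Real.exp ((0 : ℝ) ^ 2 / (2 * ((1 + r ^ 2) / (1 - r ^ 2))⁻¹)) = 1 := by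
    simp
  rw [e2, mul_one, mul_assoc, mul_inv_cancel₀ hne, mul_one]

/-! ### Moments -/

theorem KrB_mean (v : E d) : ∫ w, inner ℝ v w ∂(gam d) = 0 := by
  have := integral_strongDual_stdGaussian (E := E d) (innerSL ℝ v)
  simpa [gam] using this

theorem KrB_memLp (v : E d) : MemLp (fun w : E d => inner ℝ v w) 2 (gam d) := by
  have := IsGaussian.memLp_dual (stdGaussian (E d)) (innerSL ℝ v) 2 (by simp)
  exact this

theorem KrB_var (v : E d) : ∫ w, (inner ℝ v w : ℝ) ^ 2 ∂(gam d) = ‖v‖ ^ 2 := by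
  have h := variance_dual_stdGaussian (E := E d) (innerSL ℝ v)
  rw [variance_of_integral_eq_zero] at h
  · have h2 : ‖(innerSL ℝ v : StrongDual ℝ (E d))‖ = ‖v‖ := by simp
    rw [h2] at h
    exact h
  · exact (innerSL ℝ v).continuous.aemeasurable
  · exact integral_strongDual_stdGaussian (E := E d) (innerSL ℝ v)

theorem KrB_norm_sq : Integrable (fun v : E d => ‖v‖ ^ 2) (gam d) ∧
    ∫ v, ‖v‖ ^ 2 ∂(gam d) = d := by
  have e : ∀ v : E d, ‖v‖ ^ 2 = ∑ a, (inner ℝ (EuclideanSpace.single a (1 : ℝ)) v : ℝ) ^ 2 := by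
    intro v
    rw [EuclideanSpace.norm_sq_eq]
    refine Finset.sum_congr rfl fun a _ => ?_
    rw [EuclideanSpace.inner_single_left]
    simp
  have hi : ∀ a : Fin d, Integrable
      (fun v : E d => (inner ℝ (EuclideanSpace.single a (1 : ℝ)) v : ℝ) ^ 2) (gam d) :=
    fun a => (KrB_memLp _).integrable_sq
  simp_rw [e]
  refine ⟨integrable_finsetSum _ fun a _ => hi a, ?_⟩
  rw [integral_finsetSum _ fun a _ => hi a]
  simp_rw [KrB_var]
  simp

theorem KrB_inner_memLp : MemLp (fun p : E d × E d => (inner ℝ p.1 p.2 : ℝ)) 2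
    ((gam d).prod (gam d)) := by
  have hm : AEStronglyMeasurable (fun p : E d × E d => (inner ℝ p.1 p.2 : ℝ))
      ((gam d).prod (gam d)) := by
    apply Continuous.aestronglyMeasurable
    fun_prop
  rw [memLp_two_iff_integrable_sq hm]
  have h := (KrB_norm_sq (d := d)).1.mul_prod (KrB_norm_sq (d := d)).1
  refine h.mono (hm.pow 2) (Filter.Eventually.of_forall fun p => ?_)
  have e1 : ‖(inner ℝ p.1 p.2 : ℝ) ^ 2‖ = |(inner ℝ p.1 p.2 : ℝ)| ^ 2 := by
    rw [Real.norm_eq_abs, abs_pow]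
  have e2 : ‖‖p.1‖ ^ 2 * ‖p.2‖ ^ 2‖ = (‖p.1‖ * ‖p.2‖) ^ 2 := by
    rw [Real.norm_of_nonneg (by positivity), mul_pow]
  rw [e1, e2]
  exact pow_le_pow_left₀ (abs_nonneg _) (abs_real_inner_le_norm _ _) 2

theorem KrB_mk_memLp {r : ℝ} (h0 : 0 ≤ r) (h1 : r < 1) :
    MemLp (fun p : E d × E d => mk r p.1 p.2) 2 ((gam d).prod (gam d)) :=
  (memLp_two_iff_integrable_sq (KrB_mk_cont r).aestronglyMeasurable).2 (mk_sq h0 h1).1

theorem KrB_mul_integrable {r : ℝ} (h0 : 0 ≤ r) (h1 : r < 1) :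
    Integrable (fun p : E d × E d => mk r p.1 p.2 * (inner ℝ p.1 p.2 : ℝ))
      ((gam d).prod (gam d)) :=
  (KrB_mk_memLp h0 h1).integrable_mul KrB_inner_memLp

theorem mk_inner {r : ℝ} (h0 : 0 ≤ r) (h1 : r < 1) :
    ∫ p : E d × E d, mk r p.1 p.2 * inner ℝ p.1 p.2 ∂((gam d).prod (gam d)) = r * d := by
  rw [integral_prod _ (KrB_mul_integrable h0 h1)]
  have e : ∀ v : E d, ∫ u, mk r v u * (inner ℝ v u : ℝ) ∂(gam d) = r * ‖v‖ ^ 2 := by
    intro v
    have h2 := ou_mk h0 h1 (fun u : E d => (inner ℝ v u : ℝ)) v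
    have h3 : ∫ u, mk r v u * (inner ℝ v u : ℝ) ∂(gam d) =
        ∫ u, (inner ℝ v u : ℝ) * mk r v u ∂(gam d) := by
      refine integral_congr_ae (Filter.Eventually.of_forall fun u => ?_)
      simp only
      ring
    rw [h3, ← h2]
    unfold ou
    simp_rw [inner_add_right, real_inner_smul_right, real_inner_self_eq_norm_sq]
    rw [integral_add (integrable_const _) (((KrB_memLp v).integrable (by norm_num)).const_mul _)]
    have h4 : ∫ a : E d, Real.sqrt (1 - r ^ 2) * (inner ℝ v a : ℝ) ∂(gam d) = 0 := by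
      rw [integral_const_mul, KrB_mean, mul_zero]
    rw [h4]
    simp
  simp only [e]
  rw [integral_const_mul, (KrB_norm_sq (d := d)).2]

end Pool.Agent.KXP
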