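import Pool.Agent.KXP.KrB

/-! KXP, row KRC: first-order expansion of the Mehler operator. -/

set_option autoImplicit false

open MeasureTheory ProbabilityTheory Filter Topology
open scoped BigOperators

namespace Pool.Agent.KXP

variable {d : ℕ} {ι : Type} [Fintype ι]

/-- the remainder of the kernel -/
noncomputable def KrC_rem (r : ℝ) (v u : E d) : ℝ := mk r v u - 1 - r * (inner ℝ v u : ℝ)

theorem KrC_rem_cont (r : ℝ) : Continuous (fun p : E d × E d => KrC_rem r p.1 p.2) := by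
  unfold KrC_rem
  exact ((KrB_mk_cont r).sub continuous_const).sub (by fun_prop)

theorem KrC_mk_int {r : ℝ} (h0 : 0 ≤ r) (h1 : r < 1) :
    ∫ p : E d × E d, mk r p.1 p.2 ∂((gam d).prod (gam d)) = 1 := by
  rw [integral_prod _ ((KrB_mk_memLp h0 h1).integrable (by norm_num))]
  have e : ∀ v : E d, ∫ u, mk r v u ∂(gam d) = 1 := by
    intro v
    have h2 := ou_mk h0 h1 (fun _ : E d => (1 : ℝ)) v
    simp only [one_mul] at h2
    rw [← h2]
    simp [ou]
  simp only [e]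
  simp

theorem KrC_inner_int : ∫ p : E d × E d, (inner ℝ p.1 p.2 : ℝ) ∂((gam d).prod (gam d)) = 0 := by
  rw [integral_prod _ (KrB_inner_memLp.integrable (by norm_num))]
  simp only [KrB_mean]
  simp

theorem KrC_inner_sq_int :
    ∫ p : E d × E d, (inner ℝ p.1 p.2 : ℝ) ^ 2 ∂((gam d).prod (gam d)) = d := by
  rw [integral_prod _ KrB_inner_memLp.integrable_sq]
  simp only [KrB_var]
  exact (KrB_norm_sq (d := d)).2

theorem KrC_rem_sq {r : ℝ} (h0 : 0 ≤ r) (h1 : r < 1) :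
    Integrable (fun p : E d × E d => KrC_rem r p.1 p.2 ^ 2) ((gam d).prod (gam d)) ∧
      ∫ p : E d × E d, KrC_rem r p.1 p.2 ^ 2 ∂((gam d).prod (gam d)) =
        (1 - r ^ 2) ^ (-(d : ℝ)) - 1 - d * r ^ 2 := by
  have iA := (mk_sq (d := d) h0 h1).1
  have iB : Integrable (fun p : E d × E d => mk r p.1 p.2) ((gam d).prod (gam d)) :=
    (KrB_mk_memLp h0 h1).integrable (by norm_num)
  have iC := (KrB_mul_integrable (d := d) h0 h1)
  have iD : Integrable (fun p : E d × E d => (inner ℝ p.1 p.2 : ℝ)) ((gam d).prod (gam d)) :=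
    KrB_inner_memLp.integrable (by norm_num)
  have iE : Integrable (fun p : E d × E d => (inner ℝ p.1 p.2 : ℝ) ^ 2) ((gam d).prod (gam d)) :=
    KrB_inner_memLp.integrable_sq
  have i1 : Integrable (fun p : E d × E d =>
      (mk r p.1 p.2 ^ 2 + (r ^ 2 * (inner ℝ p.1 p.2 : ℝ) ^ 2 + 1))) ((gam d).prod (gam d)) :=
    iA.add ((iE.const_mul (r ^ 2)).add (integrable_const (1 : ℝ)))
  have i2 : Integrable (fun p : E d × E d => (2 * r * (inner ℝ p.1 p.2 : ℝ) - 2 * mk r p.1 p.2 -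
      2 * r * (mk r p.1 p.2 * (inner ℝ p.1 p.2 : ℝ)))) ((gam d).prod (gam d)) :=
    ((iD.const_mul (2 * r)).sub (iB.const_mul 2)).sub (iC.const_mul (2 * r))
  have e : ∀ p : E d × E d, KrC_rem r p.1 p.2 ^ 2 =
      (mk r p.1 p.2 ^ 2 + (r ^ 2 * (inner ℝ p.1 p.2 : ℝ) ^ 2 + 1)) +
      (2 * r * (inner ℝ p.1 p.2 : ℝ) - 2 * mk r p.1 p.2 -
        2 * r * (mk r p.1 p.2 * (inner ℝ p.1 p.2 : ℝ))) := by
    intro p
    unfold KrC_rem
    ring
  simp_rw [e]
  refine ⟨i1.add i2, ?_⟩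
  rw [integral_add i1 i2]
  have i3 : Integrable (fun p : E d × E d => (r ^ 2 * (inner ℝ p.1 p.2 : ℝ) ^ 2 + 1))
      ((gam d).prod (gam d)) := (iE.const_mul (r ^ 2)).add (integrable_const (1 : ℝ))
  have i4 : Integrable (fun p : E d × E d => (2 * r * (inner ℝ p.1 p.2 : ℝ) - 2 * mk r p.1 p.2))
      ((gam d).prod (gam d)) := (iD.const_mul (2 * r)).sub (iB.const_mul 2)
  have e1 : ∫ p : E d × E d, (mk r p.1 p.2 ^ 2 + (r ^ 2 * (inner ℝ p.1 p.2 : ℝ) ^ 2 + 1))
      ∂((gam d).prod (gam d)) = (1 - r ^ 2) ^ (-(d : ℝ)) + (r ^ 2 * d + 1) := by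
    rw [integral_add iA i3, (mk_sq h0 h1).2,
      integral_add (iE.const_mul (r ^ 2)) (integrable_const (1 : ℝ)), integral_const_mul,
      KrC_inner_sq_int]
    simp
  have e2 : ∫ p : E d × E d, (2 * r * (inner ℝ p.1 p.2 : ℝ) - 2 * mk r p.1 p.2 -
        2 * r * (mk r p.1 p.2 * (inner ℝ p.1 p.2 : ℝ))) ∂((gam d).prod (gam d)) =
      2 * r * 0 - 2 * 1 - 2 * r * (r * d) := by
    rw [integral_sub i4 (iC.const_mul (2 * r)), integral_sub (iD.const_mul (2 * r)) (iB.const_mul 2), integral_const_mul,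
      integral_const_mul, integral_const_mul, KrC_inner_int, KrC_mk_int h0 h1, mk_inner h0 h1]
  rw [e1, e2]
  ring

/-- second order estimate for `(1 - x)^(-d)` -/
theorem KrC_pow (d : ℕ) : ∃ C : ℝ, 0 ≤ C ∧ ∀ x : ℝ, 0 ≤ x → x ≤ 1 / 4 →
    ((1 - x)⁻¹) ^ d ≤ 1 + d * x + C * x ^ 2 := by
  induction d with
  | zero => exact ⟨0, le_rfl, fun x _ _ => by simp⟩
  | succ d ih =>
    obtain ⟨C, hC, h⟩ := ih
    refine ⟨2 * C + 2 * d + 2, by positivity, fun x hx0 hx1 => ?_⟩
    have h1 := h x hx0 hx1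
    have hpos : 0 < 1 - x := by linarith
    have h2 : (1 - x)⁻¹ ≤ 1 + x + 4 / 3 * x ^ 2 := by
      rw [inv_le_iff_one_le_mul₀ hpos]
      nlinarith [mul_nonneg (sq_nonneg x) (by linarith : 0 ≤ 1 - 4 * x)]
    have h3 : 0 ≤ 1 + (d : ℝ) * x + C * x ^ 2 := by positivity
    calc ((1 - x)⁻¹) ^ (d + 1) = ((1 - x)⁻¹) ^ d * (1 - x)⁻¹ := pow_succ _ _
      _ ≤ (1 + d * x + C * x ^ 2) * (1 + x + 4 / 3 * x ^ 2) :=
          mul_le_mul h1 h2 (by positivity) h3
      _ ≤ 1 + ((d + 1 : ℕ) : ℝ) * x + (2 * C + 2 * d + 2) * x ^ 2 := by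
          push_cast
          have hd : (0 : ℝ) ≤ d := Nat.cast_nonneg d
          have a1 : (d : ℝ) * x ^ 3 ≤ d * (1 / 4) * x ^ 2 := by
            have : (d : ℝ) * x ^ 2 * x ≤ d * x ^ 2 * (1 / 4) :=
              mul_le_mul_of_nonneg_left hx1 (by positivity)
            nlinarith
          have a2 : C * x ^ 3 ≤ C * (1 / 4) * x ^ 2 := by
            have : C * x ^ 2 * x ≤ C * x ^ 2 * (1 / 4) :=
              mul_le_mul_of_nonneg_left hx1 (by positivity)
            nlinarith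
          have a3 : C * x ^ 4 ≤ C * (1 / 16) * x ^ 2 := by
            have h5 : x ^ 2 ≤ 1 / 16 := by nlinarith
            have : C * x ^ 2 * x ^ 2 ≤ C * x ^ 2 * (1 / 16) :=
              mul_le_mul_of_nonneg_left h5 (by positivity)
            nlinarith
          have hx2 : 0 ≤ x ^ 2 := sq_nonneg x
          have hdx : 0 ≤ (d : ℝ) * x ^ 2 := by positivity
          have hCx : 0 ≤ C * x ^ 2 := by positivity
          nlinarith

theorem ou_second (d : ℕ) : ∃ C : ℝ, 0 ≤ C ∧ ∀ r : ℝ, 0 ≤ r → r ≤ 1 / 2 → ∀ f : E d → ℝ,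
    MemLp f 2 (gam d) →
    ∫ v, (ou r f v - (∫ u, f u ∂(gam d)) - r * ∑ k, v k * ∫ u, f u * u k ∂(gam d)) ^ 2 ∂(gam d) ≤
      C * r ^ 4 * ∫ u, f u ^ 2 ∂(gam d) := by
  obtain ⟨C, hC, hpow⟩ := KrC_pow d
  refine ⟨C, hC, fun r h0 h12 f hf => ?_⟩
  have h1 : r < 1 := by linarith
  have hs2 : 0 < 1 - r ^ 2 := by nlinarith
  -- the integrand is an integral against the remainder
  have hcoord : ∀ k : Fin d, MemLp (fun u : E d => u k) 2 (gam d) := by
    intro k
    have h := KrB_memLp (d := d) (EuclideanSpace.single k (1 : ℝ))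
    refine h.ae_eq (Filter.Eventually.of_forall fun u => ?_)
    simp [EuclideanSpace.inner_single_left]
  have hfi : Integrable f (gam d) := hf.integrable (by norm_num)
  have hmkv : ∀ v : E d, MemLp (fun u => mk r v u) 2 (gam d) := by
    intro v
    have hc : Continuous (fun u : E d => mk r v u) := by
      unfold mk
      fun_prop
    exact (memLp_two_iff_integrable_sq hc.aestronglyMeasurable).2 (KrB_inner_sq h0 h1 v).1
  have hremv : ∀ v : E d, MemLp (fun u => KrC_rem r v u) 2 (gam d) := by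
    intro v
    have hA : MemLp (fun u => mk r v u - 1) 2 (gam d) := (hmkv v).sub (memLp_const 1)
    have hB : MemLp (fun u : E d => r * (inner ℝ v u : ℝ)) 2 (gam d) := (KrB_memLp v).const_mul r
    have hAB : MemLp (fun u => mk r v u - 1 - r * (inner ℝ v u : ℝ)) 2 (gam d) := hA.sub hB
    exact hAB
  have key : ∀ v : E d, ou r f v - (∫ u, f u ∂(gam d)) - r * ∑ k, v k * ∫ u, f u * u k ∂(gam d) =
      ∫ u, f u * KrC_rem r v u ∂(gam d) := by
    intro v
    have i1 : Integrable (fun u => f u * mk r v u) (gam d) := hf.integrable_mul (hmkv v)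
    have i2 : Integrable (fun u => f u * (inner ℝ v u : ℝ)) (gam d) :=
      hf.integrable_mul (KrB_memLp v)
    have e1 : ∀ u : E d, f u * KrC_rem r v u =
        f u * mk r v u - f u - r * (f u * (inner ℝ v u : ℝ)) := by
      intro u
      unfold KrC_rem
      ring
    simp_rw [e1]
    have i5 : Integrable (fun u => f u * mk r v u - f u) (gam d) := i1.sub hfi
    rw [integral_sub i5 (i2.const_mul r), integral_sub i1 hfi, integral_const_mul,
      ou_mk h0 h1]
    congr 2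
    have e2 : ∀ u : E d, f u * (inner ℝ v u : ℝ) = ∑ k, v k * (f u * u k) := by
      intro u
      rw [PiLp.inner_apply, Finset.mul_sum]
      refine Finset.sum_congr rfl fun k _ => ?_
      simp
      ring
    simp_rw [e2]
    have i7 : ∀ k : Fin d, Integrable (fun u : E d => v k * (f u * u k)) (gam d) :=
      fun k => (hf.integrable_mul (hcoord k)).const_mul _
    rw [integral_finsetSum _ fun k _ => i7 k]
    refine Finset.sum_congr rfl fun k _ => ?_
    rw [integral_const_mul]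
  simp_rw [key]
  -- Cauchy-Schwarz
  have hcs : ∀ v : E d, (∫ u, f u * KrC_rem r v u ∂(gam d)) ^ 2 ≤
      (∫ u, f u ^ 2 ∂(gam d)) * ∫ u, KrC_rem r v u ^ 2 ∂(gam d) := by
    intro v
    set a := ∫ u, f u ^ 2 ∂(gam d) with ha
    set b := ∫ u, f u * KrC_rem r v u ∂(gam d) with hb
    set c := ∫ u, KrC_rem r v u ^ 2 ∂(gam d) with hc
    have i1 : Integrable (fun u => f u ^ 2) (gam d) := hf.integrable_sq
    have i2 : Integrable (fun u => f u * KrC_rem r v u) (gam d) := hf.integrable_mul (hremv v)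
    have i3 : Integrable (fun u => KrC_rem r v u ^ 2) (gam d) := (hremv v).integrable_sq
    have hq : ∀ t : ℝ, 0 ≤ c * (t * t) + (2 * b) * t + a := by
      intro t
      have h5 : ∫ u, (f u + t * KrC_rem r v u) ^ 2 ∂(gam d) = c * (t * t) + (2 * b) * t + a := by
        have e3 : ∀ u : E d, (f u + t * KrC_rem r v u) ^ 2 =
            (f u ^ 2 + 2 * t * (f u * KrC_rem r v u)) + t * t * KrC_rem r v u ^ 2 := by
          intro u
          ring
        simp_rw [e3]
        have i6 : Integrable (fun u => f u ^ 2 + 2 * t * (f u * KrC_rem r v u)) (gam d) :=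
          i1.add (i2.const_mul (2 * t))
        rw [integral_add i6 (i3.const_mul (t * t)), integral_add i1 (i2.const_mul (2 * t)), integral_const_mul, integral_const_mul]
        ring
      rw [← h5]
      exact integral_nonneg fun u => sq_nonneg _
    have hd := discrim_le_zero hq
    unfold discrim at hd
    nlinarith
  have hI : Integrable (fun v : E d => ∫ u, KrC_rem r v u ^ 2 ∂(gam d)) (gam d) :=
    (KrC_rem_sq (d := d) h0 h1).1.integral_prod_left
  have hmono : ∫ v, (∫ u, f u * KrC_rem r v u ∂(gam d)) ^ 2 ∂(gam d) ≤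
      ∫ v, (∫ u, f u ^ 2 ∂(gam d)) * ∫ u, KrC_rem r v u ^ 2 ∂(gam d) ∂(gam d) :=
    integral_mono_of_nonneg (Filter.Eventually.of_forall fun v => sq_nonneg _)
      (hI.const_mul _) (Filter.Eventually.of_forall hcs)
  refine hmono.trans ?_
  rw [integral_const_mul]
  have e5 : ∫ v, ∫ u, KrC_rem r v u ^ 2 ∂(gam d) ∂(gam d) =
      (1 - r ^ 2) ^ (-(d : ℝ)) - 1 - d * r ^ 2 := by
    rw [← (KrC_rem_sq (d := d) h0 h1).2, integral_prod _ (KrC_rem_sq (d := d) h0 h1).1]
  rw [e5]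
  have h6 := hpow (r ^ 2) (sq_nonneg r) (by nlinarith)
  have h7 : (1 - r ^ 2) ^ (-(d : ℝ)) = ((1 - r ^ 2)⁻¹) ^ d := by
    rw [Real.rpow_neg hs2.le, Real.rpow_natCast, inv_pow]
  rw [h7]
  have h8 : 0 ≤ ∫ u, f u ^ 2 ∂(gam d) := integral_nonneg fun u => sq_nonneg _
  have h9 : ((1 - r ^ 2)⁻¹) ^ d - 1 - d * r ^ 2 ≤ C * r ^ 4 := by
    have : (r ^ 2) ^ 2 = r ^ 4 := by ring
    rw [this] at h6
    linarith
  calc (∫ u, f u ^ 2 ∂(gam d)) * (((1 - r ^ 2)⁻¹) ^ d - 1 - d * r ^ 2)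
      ≤ (∫ u, f u ^ 2 ∂(gam d)) * (C * r ^ 4) := mul_le_mul_of_nonneg_left h9 h8
    _ = C * r ^ 4 * ∫ u, f u ^ 2 ∂(gam d) := by ring

end Pool.Agent.KXP
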