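import Pool.Agent.KXP.Kernel

/-! KXP, section 2: the local inequality, finite form. -/

namespace Pool.Agent.KXP

open Finset Matrix

variable {ι : Type} [Fintype ι] {d : ℕ}

/-- The mean projection. -/
noncomputable def avg (p : ι → ℝ) (P : ι → Matrix (Fin d) (Fin d) ℝ) : Matrix (Fin d) (Fin d) ℝ :=
  ∑ i, p i • P i

/-- The matrices `T k`. -/
noncomputable def tens (p : ι → ℝ) (P : ι → Matrix (Fin d) (Fin d) ℝ) (y : ι → Fin d → ℝ)
    (k : Fin d) : Matrix (Fin d) (Fin d) ℝ :=
  ∑ i, (p i * y i k) • P i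

theorem avg_apply (p : ι → ℝ) (P : ι → Matrix (Fin d) (Fin d) ℝ) (a b : Fin d) :
    avg p P a b = ∑ i, p i * P i a b := by
  unfold avg
  rw [Matrix.sum_apply]
  rfl

theorem tens_apply (p : ι → ℝ) (P : ι → Matrix (Fin d) (Fin d) ℝ) (y : ι → Fin d → ℝ)
    (k a b : Fin d) : tens p P y k a b = ∑ i, p i * y i k * P i a b := by
  unfold tens
  rw [Matrix.sum_apply]
  rfl

section Diag

variable (p : ι → ℝ) (P : ι → Matrix (Fin d) (Fin d) ℝ) (y : ι → Fin d → ℝ) (l : Fin d → ℝ)

/-- Second moments of the centered projection. -/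
theorem second_moment (hs : ∀ i, (P i)ᵀ = P i) (hid : ∀ i, P i * P i = P i)
    (h1 : ∑ i, p i = 1) (hA : avg p P = Matrix.diagonal l) (a a' : Fin d) :
    ∑ i, p i * ∑ b, (P i - Matrix.diagonal l) a b * (P i - Matrix.diagonal l) a' b
      = Matrix.diagonal (fun a => l a - l a ^ 2) a a' := by
  have h2 : ∀ i, ∑ b, (P i - Matrix.diagonal l) a b * (P i - Matrix.diagonal l) a' b
      = (P i - P i * Matrix.diagonal l - Matrix.diagonal l * P i
          + Matrix.diagonal l * Matrix.diagonal l) a a' := by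
    intro i
    have h3 : (P i - Matrix.diagonal l)ᵀ = P i - Matrix.diagonal l := by
      rw [Matrix.transpose_sub, hs i, Matrix.diagonal_transpose]
    have h4 : ∑ b, (P i - Matrix.diagonal l) a b * (P i - Matrix.diagonal l) a' b
        = ((P i - Matrix.diagonal l) * (P i - Matrix.diagonal l)ᵀ) a a' := by
      rw [Matrix.mul_apply]
      rfl
    have h4' : (P i - Matrix.diagonal l) * (P i - Matrix.diagonal l)
        = P i - P i * Matrix.diagonal l - Matrix.diagonal l * P i
          + Matrix.diagonal l * Matrix.diagonal l := by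
      rw [Matrix.sub_mul, Matrix.mul_sub, Matrix.mul_sub, hid i]
      abel
    rw [h4, h3, h4']
  have h5 : ∑ i, p i * ∑ b, (P i - Matrix.diagonal l) a b * (P i - Matrix.diagonal l) a' b
      = (∑ i, p i • (P i - P i * Matrix.diagonal l - Matrix.diagonal l * P i
          + Matrix.diagonal l * Matrix.diagonal l)) a a' := by
    rw [Matrix.sum_apply]
    refine Finset.sum_congr rfl fun i _ => ?_
    rw [h2 i]
    rfl
  rw [h5]
  have h6 : (∑ i, p i • (P i - P i * Matrix.diagonal l - Matrix.diagonal l * P i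
          + Matrix.diagonal l * Matrix.diagonal l))
      = avg p P - avg p P * Matrix.diagonal l - Matrix.diagonal l * avg p P
          + Matrix.diagonal l * Matrix.diagonal l := by
    unfold avg
    simp only [smul_add, smul_sub, Finset.sum_add_distrib, Finset.sum_sub_distrib,
      Finset.sum_mul, Finset.mul_sum, Matrix.smul_mul, Matrix.mul_smul]
    rw [← Finset.sum_smul, h1, one_smul]
  rw [h6, hA]
  simp only [Matrix.diagonal_mul_diagonal]
  by_cases h : a = a'
  · subst h
    simp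
    ring
  · simp [h]

theorem var_nonneg (hp : ∀ i, 0 ≤ p i) (hs : ∀ i, (P i)ᵀ = P i) (hid : ∀ i, P i * P i = P i)
    (h1 : ∑ i, p i = 1) (hA : avg p P = Matrix.diagonal l) (a : Fin d) :
    0 ≤ l a - l a ^ 2 := by
  have := second_moment p P l hs hid h1 hA a a
  rw [Matrix.diagonal_apply_eq] at this
  rw [← this]
  exact Finset.sum_nonneg fun i _ => mul_nonneg (hp i)
    (Finset.sum_nonneg fun b _ => mul_self_nonneg _)

theorem tens_centered (hy : ∀ k, ∑ i, p i * y i k = 0) (k a b : Fin d) :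
    tens p P y k a b = ∑ i, p i * y i k * (P i - Matrix.diagonal l) a b := by
  rw [tens_apply]
  have : ∑ i, p i * y i k * (P i - Matrix.diagonal l) a b
      = ∑ i, p i * y i k * P i a b - (∑ i, p i * y i k) * Matrix.diagonal l a b := by
    rw [Finset.sum_mul, ← Finset.sum_sub_distrib]
    refine Finset.sum_congr rfl fun i _ => ?_
    rw [Matrix.sub_apply]
    ring
  rw [this, hy k]
  ring

theorem tens_eq_zero (hp : ∀ i, 0 ≤ p i) (hs : ∀ i, (P i)ᵀ = P i) (hid : ∀ i, P i * P i = P i)
    (h1 : ∑ i, p i = 1) (hA : avg p P = Matrix.diagonal l)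
    (hy : ∀ k, ∑ i, p i * y i k = 0) (k a b : Fin d) (ha : l a - l a ^ 2 = 0) :
    tens p P y k a b = 0 := by
  have h := second_moment p P l hs hid h1 hA a a
  rw [Matrix.diagonal_apply_eq, ha] at h
  have h2 := (Finset.sum_eq_zero_iff_of_nonneg (fun i _ => mul_nonneg (hp i)
    (Finset.sum_nonneg fun b _ => mul_self_nonneg _))).mp h
  rw [tens_centered p P y l hy]
  refine Finset.sum_eq_zero fun i hi => ?_
  rcases mul_eq_zero.mp (h2 i hi) with h3 | h3
  · rw [h3]; ring
  · have h4 := (Finset.sum_eq_zero_iff_of_nonneg (fun b _ => mul_self_nonneg _)).mp h3 b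
      (Finset.mem_univ b)
    rw [mul_self_eq_zero.mp h4]
    ring

/-- The weighted square sum of the tensor is at most the mean square of `y`. -/
theorem weighted (hp : ∀ i, 0 ≤ p i) (hs : ∀ i, (P i)ᵀ = P i) (hid : ∀ i, P i * P i = P i)
    (h1 : ∑ i, p i = 1) (hA : avg p P = Matrix.diagonal l)
    (hy : ∀ k, ∑ i, p i * y i k = 0)
    (hT : ∀ a b k, tens p P y k a b = tens p P y a k b)
    (w : Fin d → ℝ) (hw : ∀ a, w a ^ 2 * (l a - l a ^ 2) ≤ 1) :
    ∑ k, ∑ a, ∑ b, w a * w k * (tens p P y k a b) ^ 2 ≤ ∑ i, p i * ∑ k, y i k ^ 2 := by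
  set Z : ι → Matrix (Fin d) (Fin d) ℝ := fun i => P i - Matrix.diagonal l with hZ
  set X : ι → ι → Fin d → ℝ := fun i j b => ∑ a, Z i a b * w a * y j a with hX
  have e1 : ∑ k, ∑ a, ∑ b, w a * w k * (tens p P y k a b) ^ 2
      = ∑ i, ∑ j, p i * p j * ∑ b, X i j b * X j i b := by
    have h2 : ∀ k a b, w a * w k * (tens p P y k a b) ^ 2
        = ∑ i, ∑ j, p i * p j * ((Z i a b * w a * y j a) * (Z j k b * w k * y i k)) := by
      intro k a b
      have h3 : (tens p P y k a b) ^ 2
          = (∑ i, p i * y i k * Z i a b) * (∑ j, p j * y j a * Z j k b) := by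
        rw [sq]
        nth_rewrite 2 [hT a b k]
        rw [tens_centered p P y l hy, tens_centered p P y l hy]
      rw [h3, Finset.sum_mul_sum, Finset.mul_sum]
      refine Finset.sum_congr rfl fun i _ => ?_
      rw [Finset.mul_sum]
      refine Finset.sum_congr rfl fun j _ => ?_
      ring
    have h4 : ∀ i j, p i * p j * ∑ b, X i j b * X j i b
        = ∑ b, ∑ a, ∑ k, p i * p j * ((Z i a b * w a * y j a) * (Z j k b * w k * y i k)) := by
      intro i j
      rw [Finset.mul_sum]
      refine Finset.sum_congr rfl fun b _ => ?_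
      simp only [hX]
      rw [Finset.sum_mul_sum, Finset.mul_sum]
      refine Finset.sum_congr rfl fun a _ => ?_
      rw [Finset.mul_sum]
    simp only [h2, h4]
    -- reorder sums
    calc ∑ k, ∑ a, ∑ b, ∑ i, ∑ j, p i * p j * ((Z i a b * w a * y j a) * (Z j k b * w k * y i k))
        = ∑ k, ∑ a, ∑ i, ∑ j, ∑ b, p i * p j *
            ((Z i a b * w a * y j a) * (Z j k b * w k * y i k)) := by
          refine Finset.sum_congr rfl fun k _ => Finset.sum_congr rfl fun a _ => ?_
          rw [Finset.sum_comm]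
          refine Finset.sum_congr rfl fun i _ => ?_
          rw [Finset.sum_comm]
      _ = ∑ k, ∑ i, ∑ j, ∑ a, ∑ b, p i * p j *
            ((Z i a b * w a * y j a) * (Z j k b * w k * y i k)) := by
          refine Finset.sum_congr rfl fun k _ => ?_
          rw [Finset.sum_comm]
          refine Finset.sum_congr rfl fun i _ => ?_
          rw [Finset.sum_comm]
      _ = ∑ i, ∑ j, ∑ k, ∑ a, ∑ b, p i * p j *
            ((Z i a b * w a * y j a) * (Z j k b * w k * y i k)) := by
          rw [Finset.sum_comm]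
          refine Finset.sum_congr rfl fun i _ => ?_
          rw [Finset.sum_comm]
      _ = _ := by
          refine Finset.sum_congr rfl fun i _ => Finset.sum_congr rfl fun j _ => ?_
          calc ∑ k, ∑ a, ∑ b, p i * p j * ((Z i a b * w a * y j a) * (Z j k b * w k * y i k))
              = ∑ k, ∑ b, ∑ a, p i * p j *
                  ((Z i a b * w a * y j a) * (Z j k b * w k * y i k)) := by
                refine Finset.sum_congr rfl fun k _ => ?_
                rw [Finset.sum_comm]
            _ = ∑ b, ∑ k, ∑ a, p i * p j *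
                  ((Z i a b * w a * y j a) * (Z j k b * w k * y i k)) := by
                rw [Finset.sum_comm]
            _ = _ := by
                refine Finset.sum_congr rfl fun b _ => ?_
                rw [Finset.sum_comm]
  have e2 : ∑ i, ∑ j, p i * p j * ∑ b, X i j b * X j i b
      ≤ ∑ i, ∑ j, p i * p j * ∑ b, X i j b ^ 2 := by
    have h5 : ∑ i, ∑ j, p i * p j * ∑ b, X j i b ^ 2 = ∑ i, ∑ j, p i * p j * ∑ b, X i j b ^ 2 := by
      rw [Finset.sum_comm]
      refine Finset.sum_congr rfl fun i _ => Finset.sum_congr rfl fun j _ => ?_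
      ring
    have h6 : ∑ i, ∑ j, p i * p j * ∑ b, X i j b * X j i b
        ≤ ∑ i, ∑ j, (p i * p j * ∑ b, X i j b ^ 2 + p i * p j * ∑ b, X j i b ^ 2) / 2 := by
      refine Finset.sum_le_sum fun i _ => Finset.sum_le_sum fun j _ => ?_
      have h7 : ∑ b, X i j b * X j i b ≤ (∑ b, X i j b ^ 2 + ∑ b, X j i b ^ 2) / 2 := by
        rw [← Finset.sum_add_distrib, Finset.sum_div]
        refine Finset.sum_le_sum fun b _ => ?_
        nlinarith [sq_nonneg (X i j b - X j i b)]
      have h8 := mul_le_mul_of_nonneg_left h7 (mul_nonneg (hp i) (hp j))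
      linarith
    refine h6.trans (le_of_eq ?_)
    have h9 : ∑ i, ∑ j, (p i * p j * ∑ b, X i j b ^ 2 + p i * p j * ∑ b, X j i b ^ 2) / 2
        = (∑ i, ∑ j, p i * p j * ∑ b, X i j b ^ 2
            + ∑ i, ∑ j, p i * p j * ∑ b, X j i b ^ 2) / 2 := by
      rw [← Finset.sum_add_distrib, Finset.sum_div]
      refine Finset.sum_congr rfl fun i _ => ?_
      rw [← Finset.sum_add_distrib, Finset.sum_div]
    rw [h9, h5]
    ring
  have e3 : ∑ i, ∑ j, p i * p j * ∑ b, X i j b ^ 2
      = ∑ j, p j * ∑ a, w a ^ 2 * (l a - l a ^ 2) * y j a ^ 2 := by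
    rw [Finset.sum_comm]
    refine Finset.sum_congr rfl fun j _ => ?_
    have h10 : ∀ i, ∑ b, X i j b ^ 2
        = ∑ a, ∑ a', w a * y j a * (w a' * y j a') * ∑ b, Z i a b * Z i a' b := by
      intro i
      have : ∀ b, X i j b ^ 2
          = ∑ a, ∑ a', w a * y j a * (w a' * y j a') * (Z i a b * Z i a' b) := by
        intro b
        simp only [hX]
        rw [sq, Finset.sum_mul_sum]
        refine Finset.sum_congr rfl fun a _ => Finset.sum_congr rfl fun a' _ => ?_
        ring
      simp only [this]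
      rw [Finset.sum_comm]
      refine Finset.sum_congr rfl fun a _ => ?_
      rw [Finset.sum_comm]
      refine Finset.sum_congr rfl fun a' _ => ?_
      rw [Finset.mul_sum]
    have h11 : ∑ i, p i * p j * ∑ b, X i j b ^ 2
        = p j * ∑ a, ∑ a', w a * y j a * (w a' * y j a') *
            ∑ i, p i * ∑ b, Z i a b * Z i a' b := by
      have : ∀ i, p i * p j * ∑ b, X i j b ^ 2
          = ∑ a, ∑ a', p j * (w a * y j a * (w a' * y j a') *
              (p i * ∑ b, Z i a b * Z i a' b)) := by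
        intro i
        rw [h10 i, Finset.mul_sum]
        refine Finset.sum_congr rfl fun a _ => ?_
        rw [Finset.mul_sum]
        refine Finset.sum_congr rfl fun a' _ => ?_
        ring
      simp only [this]
      rw [Finset.sum_comm, Finset.mul_sum]
      refine Finset.sum_congr rfl fun a _ => ?_
      rw [Finset.sum_comm, Finset.mul_sum]
      refine Finset.sum_congr rfl fun a' _ => ?_
      rw [← Finset.mul_sum, ← Finset.mul_sum]
    rw [h11]
    congr 1
    refine Finset.sum_congr rfl fun a _ => ?_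
    simp only [hZ, second_moment p P l hs hid h1 hA]
    rw [Finset.sum_eq_single a]
    · rw [Matrix.diagonal_apply_eq]
      ring
    · intro a' _ ha'
      rw [Matrix.diagonal_apply_ne _ (Ne.symm ha')]
      ring
    · intro h
      exact absurd (Finset.mem_univ a) h
  rw [e1]
  refine e2.trans ?_
  rw [e3]
  refine Finset.sum_le_sum fun j _ => mul_le_mul_of_nonneg_left ?_ (hp j)
  refine Finset.sum_le_sum fun a _ => ?_
  have := mul_le_mul_of_nonneg_right (hw a) (sq_nonneg (y j a))
  linarith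

/-- The potential drift `LL`. -/
noncomputable def drift (m : ℕ) (A : Matrix (Fin d) (Fin d) ℝ)
    (T : Fin d → Matrix (Fin d) (Fin d) ℝ) : ℝ :=
  ∑ k, ∑ j ∈ range m, (4 / (2 * (j : ℝ) + 1)) * ∑ q ∈ antidiagonal (2 * j),
    Matrix.trace ((1 - (2 : ℝ) • A) ^ q.1 * T k * (1 - (2 : ℝ) • A) ^ q.2 * T k)

theorem drift_diag (hs : ∀ i, (P i)ᵀ = P i) (m : ℕ) :
    drift m (Matrix.diagonal l) (tens p P y)
      = ∑ k, ∑ a, ∑ b, kap m (1 - 2 * l a) (1 - 2 * l b) * (tens p P y k a b) ^ 2 := by
  have hY : (1 - (2 : ℝ) • Matrix.diagonal l : Matrix (Fin d) (Fin d) ℝ)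
      = Matrix.diagonal (fun a => 1 - 2 * l a) := by
    ext a b
    by_cases h : a = b
    · subst h; simp
    · simp [h]
  have hTs : ∀ k a b, tens p P y k b a = tens p P y k a b := by
    intro k a b
    rw [tens_apply, tens_apply]
    refine Finset.sum_congr rfl fun i _ => ?_
    conv_lhs => rw [← hs i]
    rfl
  unfold drift
  refine Finset.sum_congr rfl fun k _ => ?_
  have h1 : ∀ q : ℕ × ℕ, Matrix.trace ((1 - (2 : ℝ) • Matrix.diagonal l) ^ q.1 * tens p P y k *
      (1 - (2 : ℝ) • Matrix.diagonal l) ^ q.2 * tens p P y k)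
      = ∑ a, ∑ b, ((1 - 2 * l a) ^ q.1 * (1 - 2 * l b) ^ q.2) * (tens p P y k a b) ^ 2 := by
    intro q
    rw [hY, Matrix.diagonal_pow, Matrix.diagonal_pow, Matrix.trace]
    refine Finset.sum_congr rfl fun a _ => ?_
    rw [Matrix.diag_apply, Matrix.mul_apply]
    refine Finset.sum_congr rfl fun b _ => ?_
    rw [Matrix.mul_diagonal, Matrix.diagonal_mul, hTs k a b]
    simp only [Pi.pow_apply]
    ring
  simp only [h1]
  have h2 : ∀ a b, kap m (1 - 2 * l a) (1 - 2 * l b) * (tens p P y k a b) ^ 2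
      = ∑ j ∈ range m, (4 / (2 * (j : ℝ) + 1)) * ∑ q ∈ antidiagonal (2 * j),
          ((1 - 2 * l a) ^ q.1 * (1 - 2 * l b) ^ q.2) * (tens p P y k a b) ^ 2 := by
    intro a b
    unfold kap
    rw [Finset.sum_mul]
    refine Finset.sum_congr rfl fun j _ => ?_
    rw [mul_assoc, Finset.sum_mul]
  simp only [h2]
  have h3 : ∀ a, ∑ b, ∑ j ∈ range m, (4 / (2 * (j : ℝ) + 1)) * ∑ q ∈ antidiagonal (2 * j),
          ((1 - 2 * l a) ^ q.1 * (1 - 2 * l b) ^ q.2) * (tens p P y k a b) ^ 2
      = ∑ j ∈ range m, (4 / (2 * (j : ℝ) + 1)) * ∑ q ∈ antidiagonal (2 * j), ∑ b,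
          ((1 - 2 * l a) ^ q.1 * (1 - 2 * l b) ^ q.2) * (tens p P y k a b) ^ 2 := by
    intro a
    rw [Finset.sum_comm]
    refine Finset.sum_congr rfl fun j _ => ?_
    rw [← Finset.mul_sum, Finset.sum_comm]
  simp only [h3]
  rw [Finset.sum_comm]
  refine Finset.sum_congr rfl fun j _ => ?_
  rw [← Finset.mul_sum, Finset.sum_comm]

theorem local_diag (m : ℕ) (hp : ∀ i, 0 ≤ p i) (hs : ∀ i, (P i)ᵀ = P i)
    (hid : ∀ i, P i * P i = P i)
    (h1 : ∑ i, p i = 1) (hA : avg p P = Matrix.diagonal l)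
    (hy : ∀ k, ∑ i, p i * y i k = 0)
    (hT : ∀ a b k, tens p P y k a b = tens p P y a k b) :
    drift m (avg p P) (tens p P y) ≤ ∑ i, p i * ∑ k, y i k ^ 2 := by
  have hTs : ∀ k a b, tens p P y k b a = tens p P y k a b := by
    intro k a b
    rw [tens_apply, tens_apply]
    refine Finset.sum_congr rfl fun i _ => ?_
    conv_lhs => rw [← hs i]
    rfl
  have hv := var_nonneg p P l hp hs hid h1 hA
  set w : Fin d → ℝ := fun a => (√(l a - l a ^ 2))⁻¹ with hw
  have hw1 : ∀ a, w a ^ 2 * (l a - l a ^ 2) ≤ 1 := by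
    intro a
    simp only [hw]
    rw [inv_pow, Real.sq_sqrt (hv a)]
    exact inv_mul_le_one
  rw [hA, drift_diag p P y l hs m]
  refine le_trans ?_ (weighted p P y l hp hs hid h1 hA hy hT w hw1)
  -- relabel the right side
  have e : ∑ k, ∑ a, ∑ b, w a * w k * (tens p P y k a b) ^ 2
      = ∑ k, ∑ a, ∑ b, w a * w b * (tens p P y k a b) ^ 2 := by
    rw [Finset.sum_comm]
    conv_rhs => rw [Finset.sum_comm]
    refine Finset.sum_congr rfl fun a _ => ?_
    conv_rhs => rw [Finset.sum_comm]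
    refine Finset.sum_congr rfl fun k _ => Finset.sum_congr rfl fun b _ => ?_
    have : tens p P y k a b = tens p P y b a k := by
      rw [hTs k b a, hT b a k, ← hTs]
    rw [this]
  rw [e]
  refine Finset.sum_le_sum fun k _ => Finset.sum_le_sum fun a _ =>
    Finset.sum_le_sum fun b _ => ?_
  rcases (hv a).eq_or_lt with ha | ha
  · rw [tens_eq_zero p P y l hp hs hid h1 hA hy k a b ha.symm]
    simp
  · rcases (hv b).eq_or_lt with hb | hb
    · rw [← hTs, tens_eq_zero p P y l hp hs hid h1 hA hy k b a hb.symm]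
      simp
    · refine mul_le_mul_of_nonneg_right ?_ (sq_nonneg _)
      refine (kap_le' m ha hb).trans (le_of_eq ?_)
      simp only [hw]
      rw [one_div, mul_inv]

end Diag

section Conj

theorem conj_pow (U Y : Matrix (Fin d) (Fin d) ℝ) (hU : U * Uᵀ = 1) (hU' : Uᵀ * U = 1) (n : ℕ) :
    (Uᵀ * Y * U) ^ n = Uᵀ * Y ^ n * U := by
  induction n with
  | zero => simp [hU']
  | succ n ih =>
    rw [pow_succ, ih, pow_succ]
    calc Uᵀ * Y ^ n * U * (Uᵀ * Y * U) = Uᵀ * Y ^ n * (U * Uᵀ) * Y * U := by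
          simp only [Matrix.mul_assoc]
      _ = Uᵀ * (Y ^ n * Y) * U := by
          rw [hU, Matrix.mul_one]
          simp only [Matrix.mul_assoc]

theorem trace_conj (U X : Matrix (Fin d) (Fin d) ℝ) (hU : U * Uᵀ = 1) :
    Matrix.trace (Uᵀ * X * U) = Matrix.trace X := by
  rw [Matrix.trace_mul_comm, ← Matrix.mul_assoc, hU, Matrix.one_mul]

theorem four_sum (B C : Matrix (Fin d) (Fin d) ℝ) (S : Fin d → Matrix (Fin d) (Fin d) ℝ) :
    B * (∑ r, S r) * C * (∑ s, S s) = ∑ r, ∑ s, B * S r * C * S s := by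
  simp only [Finset.mul_sum, Finset.sum_mul]
  rw [Finset.sum_comm]

theorem drift_conj (m : ℕ) (U A : Matrix (Fin d) (Fin d) ℝ) (T : Fin d → Matrix (Fin d) (Fin d) ℝ)
    (hU : U * Uᵀ = 1) (hU' : Uᵀ * U = 1) :
    drift m (Uᵀ * A * U) (fun k => ∑ r, U r k • (Uᵀ * T r * U)) = drift m A T := by
  have hY : (1 - (2 : ℝ) • (Uᵀ * A * U)) = Uᵀ * (1 - (2 : ℝ) • A) * U := by
    rw [Matrix.mul_sub, Matrix.sub_mul, Matrix.mul_one, hU']
    simp
  have h1 : ∀ (i l : ℕ) (k : Fin d), Matrix.trace ((1 - (2 : ℝ) • (Uᵀ * A * U)) ^ i *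
      (∑ r, U r k • (Uᵀ * T r * U)) * (1 - (2 : ℝ) • (Uᵀ * A * U)) ^ l *
      (∑ r, U r k • (Uᵀ * T r * U)))
      = ∑ r, ∑ s, U r k * U s k * Matrix.trace ((1 - (2 : ℝ) • A) ^ i * T r *
          (1 - (2 : ℝ) • A) ^ l * T s) := by
    intro i l k
    rw [hY, conj_pow U _ hU hU', conj_pow U _ hU hU']
    rw [four_sum, Matrix.trace_sum]
    refine Finset.sum_congr rfl fun r _ => ?_
    rw [Matrix.trace_sum]
    refine Finset.sum_congr rfl fun s _ => ?_
    have : Uᵀ * (1 - (2 : ℝ) • A) ^ i * U * U r k • (Uᵀ * T r * U) *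
        (Uᵀ * (1 - (2 : ℝ) • A) ^ l * U) * U s k • (Uᵀ * T s * U)
        = (U r k * U s k) • (Uᵀ * ((1 - (2 : ℝ) • A) ^ i * T r *
          (1 - (2 : ℝ) • A) ^ l * T s) * U) := by
      simp only [Matrix.mul_smul, Matrix.smul_mul, smul_smul]
      rw [mul_comm (U s k)]
      congr 1
      calc Uᵀ * (1 - (2 : ℝ) • A) ^ i * U * (Uᵀ * T r * U) *
            (Uᵀ * (1 - (2 : ℝ) • A) ^ l * U) * (Uᵀ * T s * U)
          = Uᵀ * (1 - (2 : ℝ) • A) ^ i * (U * Uᵀ) * T r * (U * Uᵀ) *
            (1 - (2 : ℝ) • A) ^ l * (U * Uᵀ) * T s * U := by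
            simp only [Matrix.mul_assoc]
        _ = _ := by
            rw [hU]
            simp only [Matrix.mul_one, Matrix.mul_assoc]
    rw [this, Matrix.trace_smul, trace_conj U _ hU, smul_eq_mul]
  have h2 : ∀ r s, ∑ k, U r k * U s k = if r = s then (1 : ℝ) else 0 := by
    intro r s
    have := congrFun (congrFun hU r) s
    rw [Matrix.mul_apply, Matrix.one_apply] at this
    exact this
  have h3 : ∀ (i l : ℕ), ∑ k, ∑ r, ∑ s, U r k * U s k * Matrix.trace ((1 - (2 : ℝ) • A) ^ i * T r *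
          (1 - (2 : ℝ) • A) ^ l * T s)
      = ∑ r, Matrix.trace ((1 - (2 : ℝ) • A) ^ i * T r * (1 - (2 : ℝ) • A) ^ l * T r) := by
    intro i l
    rw [Finset.sum_comm]
    refine Finset.sum_congr rfl fun r _ => ?_
    rw [Finset.sum_comm]
    have : ∀ s, ∑ k, U r k * U s k * Matrix.trace ((1 - (2 : ℝ) • A) ^ i * T r *
          (1 - (2 : ℝ) • A) ^ l * T s)
        = (if r = s then (1 : ℝ) else 0) * Matrix.trace ((1 - (2 : ℝ) • A) ^ i * T r *
          (1 - (2 : ℝ) • A) ^ l * T s) := by
      intro s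
      rw [← Finset.sum_mul, h2]
    simp only [this]
    simp
  unfold drift
  simp only [h1]
  rw [Finset.sum_comm]
  conv_rhs => rw [Finset.sum_comm]
  refine Finset.sum_congr rfl fun j _ => ?_
  rw [← Finset.mul_sum, ← Finset.mul_sum]
  congr 1
  rw [Finset.sum_comm]
  conv_rhs => rw [Finset.sum_comm]
  refine Finset.sum_congr rfl fun q _ => ?_
  exact h3 q.1 q.2

end Conj

/-- The local inequality (section 2 of the note), finite form. -/
theorem local_ineq (p : ι → ℝ) (P : ι → Matrix (Fin d) (Fin d) ℝ) (y : ι → Fin d → ℝ)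
    (m : ℕ) (hp : ∀ i, 0 ≤ p i) (hs : ∀ i, (P i)ᵀ = P i)
    (hid : ∀ i, P i * P i = P i) (h1 : ∑ i, p i = 1)
    (hy : ∀ k, ∑ i, p i * y i k = 0)
    (hT : ∀ a b k, tens p P y k a b = tens p P y a k b) :
    drift m (avg p P) (tens p P y) ≤ ∑ i, p i * ∑ k, y i k ^ 2 := by
  have hAh : (avg p P).IsHermitian := by
    unfold avg
    rw [Matrix.IsHermitian, Matrix.conjTranspose_sum]
    refine Finset.sum_congr rfl fun i _ => ?_
    rw [Matrix.conjTranspose_smul]
    simp only [star_trivial]
    rw [Matrix.conjTranspose_eq_transpose_of_trivial, hs i]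
  set V : Matrix (Fin d) (Fin d) ℝ := (hAh.eigenvectorUnitary : Matrix (Fin d) (Fin d) ℝ) with hV
  have hVV : V * Vᵀ = 1 := by
    have := Matrix.mem_unitaryGroup_iff.mp hAh.eigenvectorUnitary.2
    rw [Matrix.star_eq_conjTranspose, Matrix.conjTranspose_eq_transpose_of_trivial] at this
    exact this
  have hVV' : Vᵀ * V = 1 := by
    have := Matrix.mem_unitaryGroup_iff'.mp hAh.eigenvectorUnitary.2
    rw [Matrix.star_eq_conjTranspose, Matrix.conjTranspose_eq_transpose_of_trivial] at this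
    exact this
  have hD : Vᵀ * avg p P * V = Matrix.diagonal hAh.eigenvalues := by
    have h := hAh.spectral_theorem
    rw [Unitary.conjStarAlgAut_apply, Matrix.star_eq_conjTranspose,
      Matrix.conjTranspose_eq_transpose_of_trivial, ← hV] at h
    have h2 : (RCLike.ofReal ∘ hAh.eigenvalues : Fin d → ℝ) = hAh.eigenvalues := by
      funext a; simp
    rw [h2] at h
    conv_lhs => rw [h]
    calc Vᵀ * (V * Matrix.diagonal hAh.eigenvalues * Vᵀ) * V
        = (Vᵀ * V) * Matrix.diagonal hAh.eigenvalues * (Vᵀ * V) := by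
          simp only [Matrix.mul_assoc]
      _ = _ := by rw [hVV', Matrix.one_mul, Matrix.mul_one]
  set P' : ι → Matrix (Fin d) (Fin d) ℝ := fun i => Vᵀ * P i * V with hP'
  set y' : ι → Fin d → ℝ := fun i k => ∑ r, V r k * y i r with hy'
  have hAvg : avg p P' = Vᵀ * avg p P * V := by
    unfold avg
    rw [Finset.mul_sum, Finset.sum_mul]
    refine Finset.sum_congr rfl fun i _ => ?_
    rw [Matrix.mul_smul, Matrix.smul_mul]
  have hTens : ∀ k, tens p P' y' k = ∑ r, V r k • (Vᵀ * tens p P y r * V) := by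
    intro k
    unfold tens
    have : ∀ r, V r k • (Vᵀ * (∑ i, (p i * y i r) • P i) * V)
        = ∑ i, (p i * (V r k * y i r)) • P' i := by
      intro r
      rw [Finset.mul_sum, Finset.sum_mul, Finset.smul_sum]
      refine Finset.sum_congr rfl fun i _ => ?_
      rw [Matrix.mul_smul, Matrix.smul_mul, smul_smul]
      congr 1
      ring
    simp only [this]
    rw [Finset.sum_comm]
    refine Finset.sum_congr rfl fun i _ => ?_
    simp only [hy']
    rw [Finset.mul_sum, Finset.sum_smul]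
  have hTens2 : ∀ k a b, tens p P' y' k a b
      = ∑ r, ∑ s, ∑ t, V r k * V s a * V t b * tens p P y r s t := by
    intro k a b
    rw [hTens k, Matrix.sum_apply]
    refine Finset.sum_congr rfl fun r _ => ?_
    rw [Matrix.smul_apply, Matrix.mul_apply, smul_eq_mul, Finset.mul_sum, Finset.sum_comm]
    refine Finset.sum_congr rfl fun t _ => ?_
    rw [Matrix.mul_apply, Finset.sum_mul, Finset.mul_sum]
    refine Finset.sum_congr rfl fun s _ => ?_
    rw [Matrix.transpose_apply]
    ring
  have hmain := local_diag p P' y' hAh.eigenvalues m hp (fun i => by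
      simp only [hP']
      rw [Matrix.transpose_mul, Matrix.transpose_mul, Matrix.transpose_transpose, hs i,
        Matrix.mul_assoc]) (fun i => by
      simp only [hP']
      calc Vᵀ * P i * V * (Vᵀ * P i * V) = Vᵀ * P i * (V * Vᵀ) * P i * V := by
            simp only [Matrix.mul_assoc]
        _ = Vᵀ * (P i * P i) * V := by
            rw [hVV, Matrix.mul_one]
            simp only [Matrix.mul_assoc]
        _ = _ := by rw [hid i]) h1 (by rw [hAvg, hD]) (fun k => by
      simp only [hy', Finset.mul_sum]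
      rw [Finset.sum_comm]
      refine Finset.sum_eq_zero fun r _ => ?_
      have : ∑ i, p i * (V r k * y i r) = V r k * ∑ i, p i * y i r := by
        rw [Finset.mul_sum]
        exact Finset.sum_congr rfl fun i _ => by ring
      rw [this, hy r, mul_zero]) (fun a b k => by
      rw [hTens2, hTens2]
      rw [Finset.sum_comm]
      refine Finset.sum_congr rfl fun s _ => Finset.sum_congr rfl fun r _ =>
        Finset.sum_congr rfl fun t _ => ?_
      rw [hT s t r]
      ring)
  have e1 : drift m (avg p P') (tens p P' y') = drift m (avg p P) (tens p P y) := by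
    have : tens p P' y' = fun k => ∑ r, V r k • (Vᵀ * tens p P y r * V) := funext hTens
    rw [this, hAvg]
    exact drift_conj m V _ _ hVV hVV'
  have e2 : ∀ i, ∑ k, y' i k ^ 2 = ∑ k, y i k ^ 2 := by
    intro i
    have h3 : ∀ k, y' i k = (Vᵀ *ᵥ y i) k := by
      intro k
      rfl
    have h4 : ∑ k, y' i k ^ 2 = (Vᵀ *ᵥ y i) ⬝ᵥ (Vᵀ *ᵥ y i) := by
      simp only [h3, dotProduct, sq]
    have h5 : ∑ k, y i k ^ 2 = y i ⬝ᵥ y i := by
      simp only [dotProduct, sq]
    rw [h4, h5, Matrix.dotProduct_mulVec, Matrix.vecMul_transpose, Matrix.mulVec_mulVec, hVV,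
      Matrix.one_mulVec]
  rw [e1] at hmain
  simpa only [e2] using hmain

end Pool.Agent.KXP
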