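import Pool.Agent.KXP.Defs
import Pool.Agent.KXP.Local

/-! KXP row LNC: the local inequality in the form of the stubs. -/

set_option autoImplicit false

open MeasureTheory ProbabilityTheory Filter Topology
open scoped BigOperators

namespace Pool.Agent.KXP

variable {d : ℕ} {ι : Type} [Fintype ι]

theorem LnC_drift (m : ℕ) (B : Matrix (Fin d) (Fin d) ℝ) (S : Fin d → Matrix (Fin d) (Fin d) ℝ) :
    LL m B S = drift (m + 1) B S := by
  unfold LL drift
  refine Finset.sum_congr rfl fun k _ => Finset.sum_congr rfl fun j _ => ?_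
  rw [Finset.Nat.sum_antidiagonal_eq_sum_range_succ
    (fun p q => Matrix.trace ((1 - (2 : ℝ) • B) ^ p * S k * (1 - (2 : ℝ) • B) ^ q * S k)) (2 * j)]

theorem lin_ineq (m : ℕ) (w : ι → ℝ) (hw : ∀ i, 0 ≤ w i) (hs : ∑ i, w i = 1)
    (P : ι → Matrix (Fin d) (Fin d) ℝ) (hsym : ∀ i a b, P i a b = P i b a) (hid : ∀ i, P i * P i = P i)
    (μ : ι → Fin d → ℝ) (h0 : ∀ i k, w i = 0 → μ i k = 0) (hμ : ∀ k, ∑ i, μ i k = 0)
    (hT : ∀ a b k, ∑ i, μ i k * P i a b = ∑ i, μ i b * P i a k) :
    LL m (∑ i, w i • P i) (fun k => ∑ i, μ i k • P i) ≤ ∑ i, (∑ k, μ i k ^ 2) / w i := by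
  have hwy : ∀ i k, w i * (μ i k / w i) = μ i k := by
    intro i k
    by_cases h : w i = 0
    · rw [h, zero_mul, h0 i k h]
    · field_simp
  have hty : tens w P (fun i k => μ i k / w i) = fun k => ∑ i, μ i k • P i := by
    funext k
    unfold tens
    refine Finset.sum_congr rfl fun i _ => ?_
    rw [hwy]
  have hap : ∀ k a b, tens w P (fun i k => μ i k / w i) k a b = ∑ i, μ i k * P i a b := by
    intro k a b
    rw [tens_apply]
    refine Finset.sum_congr rfl fun i _ => ?_
    rw [hwy]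
  have h := local_ineq w P (fun i k => μ i k / w i) (m + 1) hw
    (fun i => by ext a b; exact hsym i b a) hid hs (fun k => by
      rw [← hμ k]
      exact Finset.sum_congr rfl fun i _ => hwy i k) (fun a b k => by
      rw [hap, hap]
      have e1 : ∑ i, μ i k * P i a b = ∑ i, μ i k * P i b a :=
        Finset.sum_congr rfl fun i _ => by rw [hsym i a b]
      have e2 : ∑ i, μ i a * P i k b = ∑ i, μ i a * P i b k :=
        Finset.sum_congr rfl fun i _ => by rw [hsym i k b]
      rw [e1, e2, hT b a k])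
  rw [hty] at h
  rw [LnC_drift]
  refine h.trans (le_of_eq ?_)
  refine Finset.sum_congr rfl fun i _ => ?_
  by_cases hi : w i = 0
  · rw [hi]; simp
  · rw [Finset.mul_sum, Finset.sum_div]
    refine Finset.sum_congr rfl fun k _ => ?_
    field_simp

end Pool.Agent.KXP
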