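import Pool.Agent.KXP.Dvs
import Pool.Agent.KXP.Rsg
import Pool.Agent.KXP.Fib

/-! KXP: row MCC, part 0: the series of `log 2`, and the final inequality of section 5 with
`ent_ge` and `mac_J` as hypotheses. -/

set_option autoImplicit false

open MeasureTheory ProbabilityTheory Filter Topology
open scoped BigOperators

namespace Pool.Agent.KXP

variable {d : ℕ} {ι : Type} [Fintype ι]

namespace McC

theorem Jh_harmonic (m : ℕ) :
    Jh m = (harmonic (2 * (m + 1)) : ℝ) - (harmonic (m + 1) : ℝ) := by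
  unfold Jh
  induction m with
  | zero =>
    simp [harmonic_succ]
  | succ n ih =>
    rw [Finset.sum_range_succ, ih]
    have e : 2 * (n + 1 + 1) = 2 * (n + 1) + 1 + 1 := by ring
    rw [e, harmonic_succ (2 * (n + 1) + 1), harmonic_succ (2 * (n + 1)), harmonic_succ (n + 1)]
    push_cast
    have h1 : (2 * ((n : ℝ) + 1) + 1) ≠ 0 := by positivity
    have h2 : (2 * ((n : ℝ) + 1) + 1 + 1) ≠ 0 := by positivity
    have h3 : ((n : ℝ) + 1 + 1) ≠ 0 := by positivity
    have h4 : (2 * ((n : ℝ) + 1) + 2) ≠ 0 := by positivity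
    field_simp
    ring

end McC

theorem Jh_tendsto : Tendsto Jh atTop (𝓝 (Real.log 2)) := by
  have h1 : Tendsto (fun m : ℕ => ((harmonic (m + 1) : ℝ) - Real.log ((m + 1 : ℕ) : ℝ)))
      atTop (𝓝 Real.eulerMascheroniConstant) :=
    Real.tendsto_harmonic_sub_log.comp (tendsto_add_atTop_nat 1)
  have h2 : Tendsto (fun m : ℕ => ((harmonic (2 * (m + 1)) : ℝ) - Real.log ((2 * (m + 1) : ℕ) : ℝ)))
      atTop (𝓝 Real.eulerMascheroniConstant) :=
    Real.tendsto_harmonic_sub_log.comp
      ((tendsto_id.const_mul_atTop' (by norm_num : 0 < 2)).comp (tendsto_add_atTop_nat 1))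
  have h3 := (h2.sub h1).add_const (Real.log 2)
  rw [sub_self, zero_add] at h3
  refine h3.congr fun m => ?_
  rw [McC.Jh_harmonic]
  have hm' : ((m : ℝ) + 1) ≠ 0 := by positivity
  push_cast
  rw [Real.log_mul (by norm_num) hm']
  ring

namespace McC

/-- a continuous function of the cell probabilities of the rescaled data is integrable -/
theorem int_q {D : Pre d ι} (hm : ∀ i, MeasurableSet {u | D.L u = i}) (a b : ℝ)
    {F : (ι → ℝ) → ℝ} (hF : Continuous F) :
    Integrable (fun v : E d => F (fun i => q (D.rs (a • v) b) i)) (gam d) := by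
  have hmeas : Measurable (fun v : E d => (fun i => q (D.rs (a • v) b) i)) :=
    measurable_pi_iff.2 fun i => q_rs_meas hm a b i
  have hcomp : IsCompact (Set.Icc (0 : ι → ℝ) 1) := isCompact_Icc
  obtain ⟨C, hC⟩ := hcomp.exists_bound_of_continuousOn hF.continuousOn
  refine Integrable.of_bound (hF.measurable.comp hmeas).aestronglyMeasurable C
    (Eventually.of_forall fun v => ?_)
  refine hC _ ⟨fun i => q_nonneg _ i, fun i => q_le_one _ i⟩

theorem mac_of0 {D : Pre d ι} (hD : Good D)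
    (hent : ∀ (m : ℕ) {D : Pre d ι}, Good D → J m (A D) ≤ ent D)
    (hJ : ∀ (m : ℕ) {r : ℝ}, 0 ≤ r → r ≤ 1 →
      (d : ℝ) * Jh m * (1 - r ^ 4) ≤
        ∫ v, J m (A (D.rs (r • v) (Real.sqrt (1 - r ^ 2)))) ∂(gam d))
    (y : ℝ) (hy : (d : ℝ) * y ≤ Ye D) {t : ℝ}
    (h0 : 0 ≤ t) (h1 : t < 1) : (d : ℝ) * (Real.log 2 * (1 - t ^ 2) + t / 2 * y) ≤ ent D := by
  set r := Real.sqrt t with hr
  have hr0 : 0 ≤ r := Real.sqrt_nonneg t
  have hr2 : r ^ 2 = t := Real.sq_sqrt h0
  have hr4 : r ^ 4 = t ^ 2 := by rw [← hr2]; ring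
  have hr1 : r ≤ 1 := by
    rw [hr]; exact Real.sqrt_le_one.2 h1.le
  have hs : 0 < Real.sqrt (1 - r ^ 2) := by
    rw [hr2]; exact Real.sqrt_pos.2 (by linarith)
  have hdv := dv_step hD.meas hr0 hr1
  have key : ∀ m : ℕ, (d : ℝ) * (Jh m * (1 - t ^ 2) + t / 2 * y) ≤ ent D := by
    intro m
    have hi1 : Integrable (fun v : E d => ent (D.rs (r • v) (Real.sqrt (1 - r ^ 2)))) (gam d) := by
      have := int_q hD.meas r (Real.sqrt (1 - r ^ 2))
        (F := fun x => ∑ i, Real.negMulLog (x i))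
        (continuous_finsetSum _ fun i _ => Real.continuous_negMulLog.comp (continuous_apply i))
      exact this
    have hi2 : Integrable (fun v : E d => J m (A (D.rs (r • v) (Real.sqrt (1 - r ^ 2))))) (gam d) := by
      have hc : Continuous (fun x : ι → ℝ => J m (∑ i, x i • D.P i)) := by
        have hB : Continuous (fun x : ι → ℝ => ∑ i, x i • D.P i) :=
          continuous_finsetSum _ fun i _ => (continuous_apply i).smul continuous_const
        unfold J
        refine continuous_finsetSum _ fun j _ => ?_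
        refine Continuous.div_const ?_ _
        refine continuous_const.sub ?_
        exact ((continuous_const.sub (hB.const_smul (2 : ℝ))).pow _).matrix_trace
      exact int_q hD.meas r (Real.sqrt (1 - r ^ 2)) hc
    have hle : ∫ v, J m (A (D.rs (r • v) (Real.sqrt (1 - r ^ 2)))) ∂(gam d) ≤
        ∫ v, ent (D.rs (r • v) (Real.sqrt (1 - r ^ 2))) ∂(gam d) :=
      integral_mono hi2 hi1 fun v => hent m (hD.rs (r • v) hs)
    have hj := hJ m hr0 hr1
    rw [hr4] at hj
    rw [hr2] at hdv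
    rw [hr2] at hj hle
    have h5 : t / 2 * ((d : ℝ) * y) ≤ t / 2 * Ye D := mul_le_mul_of_nonneg_left hy (by linarith)
    calc (d : ℝ) * (Jh m * (1 - t ^ 2) + t / 2 * y)
        = (d : ℝ) * Jh m * (1 - t ^ 2) + t / 2 * ((d : ℝ) * y) := by ring
      _ ≤ _ := by linarith
  have hlim : Tendsto (fun m => (d : ℝ) * (Jh m * (1 - t ^ 2) + t / 2 * y)) atTop
      (𝓝 ((d : ℝ) * (Real.log 2 * (1 - t ^ 2) + t / 2 * y))) :=
    ((Jh_tendsto.mul_const _).add_const _).const_mul _
  exact le_of_tendsto' hlim key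

end McC

end Pool.Agent.KXP
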