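import Mathlib

/-!
# KXP / OU: the Ornstein-Uhlenbeck semigroup on functions of polynomial growth
-/

set_option autoImplicit false
set_option linter.unusedSectionVars false

namespace Pool.Agent.KXP.Ou

open MeasureTheory ProbabilityTheory Complex
open scoped RealInnerProductSpace

noncomputable section

variable {E : Type} [NormedAddCommGroup E] [InnerProductSpace ℝ E] [FiniteDimensional ℝ E]
  [MeasurableSpace E] [BorelSpace E]

/-- the standard Gaussian measure -/
abbrev gam (E : Type) [NormedAddCommGroup E] [InnerProductSpace ℝ E] [FiniteDimensional ℝ E]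
    [MeasurableSpace E] [BorelSpace E] : Measure E := stdGaussian E

/-! ### Rotations -/

theorem dual_norm_comb (L M : StrongDual ℝ E) (a b : ℝ) :
    ‖a • L + b • M‖ ^ 2 = a ^ 2 * ‖L‖ ^ 2 + 2 * (a * b) *
      ⟪(InnerProductSpace.toDual ℝ E).symm L, (InnerProductSpace.toDual ℝ E).symm M⟫ +
      b ^ 2 * ‖M‖ ^ 2 := by
  have e : ∀ N : StrongDual ℝ E, ‖N‖ = ‖(InnerProductSpace.toDual ℝ E).symm N‖ := fun N =>
    ((InnerProductSpace.toDual ℝ E).symm.norm_map N).symm
  have e2 : (InnerProductSpace.toDual ℝ E).symm (a • L + b • M) =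
      a • (InnerProductSpace.toDual ℝ E).symm L + b • (InnerProductSpace.toDual ℝ E).symm M := by
    rw [map_add]
    simp
  rw [e, e2, e L, e M, norm_add_sq_real, norm_smul, norm_smul, real_inner_smul_left,
    real_inner_smul_right, mul_pow, mul_pow, Real.norm_eq_abs, Real.norm_eq_abs, sq_abs, sq_abs]
  ring

theorem mp_rot {a b c e : ℝ} (h1 : a ^ 2 + b ^ 2 = 1) (h2 : c ^ 2 + e ^ 2 = 1)
    (h3 : a * c + b * e = 0) :
    MeasurePreserving (fun p : E × E => (a • p.1 + b • p.2, c • p.1 + e • p.2))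
      ((gam E).prod (gam E)) ((gam E).prod (gam E)) := by
  refine ⟨by fun_prop, ?_⟩
  set A : (E × E) →L[ℝ] (E × E) :=
    ((a • ContinuousLinearMap.fst ℝ E E + b • ContinuousLinearMap.snd ℝ E E).prod
      (c • ContinuousLinearMap.fst ℝ E E + e • ContinuousLinearMap.snd ℝ E E)) with hA
  have hfun : (fun p : E × E => (a • p.1 + b • p.2, c • p.1 + e • p.2)) = A := by
    funext p
    simp [hA]
  rw [hfun]
  refine Measure.ext_of_charFunDual ?_
  ext L
  rw [charFunDual_map, charFunDual_prod, charFunDual_prod, charFunDual_stdGaussian,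
    charFunDual_stdGaussian, charFunDual_stdGaussian, charFunDual_stdGaussian,
    ← Complex.exp_add, ← Complex.exp_add]
  congr 1
  set L1 := L.comp (ContinuousLinearMap.inl ℝ E E) with hL1
  set L2 := L.comp (ContinuousLinearMap.inr ℝ E E) with hL2
  have e1 : (L.comp A).comp (ContinuousLinearMap.inl ℝ E E) = a • L1 + c • L2 := by
    ext v
    simp only [hA, hL1, hL2, ContinuousLinearMap.comp_apply, ContinuousLinearMap.inl_apply,
      ContinuousLinearMap.inr_apply, _root_.add_apply,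
      _root_.smul_apply, ContinuousLinearMap.prod_apply,
      ContinuousLinearMap.coe_fst', ContinuousLinearMap.coe_snd', smul_zero, add_zero]
    have : ((a • v, c • v) : E × E) = a • (v, 0) + c • (0, v) := by simp
    rw [this, map_add, map_smul, map_smul]
  have e2 : (L.comp A).comp (ContinuousLinearMap.inr ℝ E E) = b • L1 + e • L2 := by
    ext v
    simp only [hA, hL1, hL2, ContinuousLinearMap.comp_apply, ContinuousLinearMap.inl_apply,
      ContinuousLinearMap.inr_apply, _root_.add_apply,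
      _root_.smul_apply, ContinuousLinearMap.prod_apply,
      ContinuousLinearMap.coe_fst', ContinuousLinearMap.coe_snd', smul_zero, zero_add]
    have : ((b • v, e • v) : E × E) = b • (v, 0) + e • (0, v) := by simp
    rw [this, map_add, map_smul, map_smul]
  rw [e1, e2]
  have n1 := dual_norm_comb L1 L2 a c
  have n2 := dual_norm_comb L1 L2 b e
  have key : ‖a • L1 + c • L2‖ ^ 2 + ‖b • L1 + e • L2‖ ^ 2 = ‖L1‖ ^ 2 + ‖L2‖ ^ 2 := by
    rw [n1, n2]
    linear_combination (‖L1‖ ^ 2) * h1 + (‖L2‖ ^ 2) * h2 +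
      2 * ⟪(InnerProductSpace.toDual ℝ E).symm L1, (InnerProductSpace.toDual ℝ E).symm L2⟫ * h3
  have keyC := congrArg (fun t : ℝ => (t : ℂ)) key
  push_cast at keyC
  linear_combination (-1 / 2 : ℂ) * keyC

theorem mp_comb {a b : ℝ} (h : a ^ 2 + b ^ 2 = 1) :
    MeasurePreserving (fun p : E × E => a • p.1 + b • p.2) ((gam E).prod (gam E)) (gam E) := by
  have h1 := mp_rot (E := E) h (c := -b) (e := a) (by rw [← h]; ring) (by ring)
  exact (measurePreserving_fst (μ := gam E) (ν := gam E)).comp h1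

theorem mp_integral {α β : Type} [MeasurableSpace α] [MeasurableSpace β] {μ : Measure α}
    {ν : Measure β} {T : α → β} (h : MeasurePreserving T μ ν) {g : β → ℝ}
    (hg : AEStronglyMeasurable g ν) : ∫ x, g (T x) ∂μ = ∫ y, g y ∂ν := by
  rw [← h.map_eq, integral_map h.measurable.aemeasurable (by rwa [h.map_eq])]

/-! ### Polynomial growth -/

/-- measurable functions of polynomial growth -/
structure PG {F : Type} [NormedAddCommGroup F] [MeasurableSpace F] (f : F → ℝ) : Prop where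
  meas : Measurable f
  bd : ∃ (C : ℝ) (k : ℕ), 0 ≤ C ∧ ∀ u, |f u| ≤ C * (1 + ‖u‖) ^ k

section pg

variable {F : Type} [NormedAddCommGroup F] [MeasurableSpace F] {f g : F → ℝ}

theorem PG.const (c : ℝ) : PG (fun _ : F => c) :=
  ⟨measurable_const, |c|, 0, abs_nonneg c, fun u => by simp⟩

theorem pow_mono' {x : ℝ} (hx : 0 ≤ x) {k l : ℕ} (h : k ≤ l) : (1 + x) ^ k ≤ (1 + x) ^ l :=
  pow_le_pow_right₀ (by linarith) h

theorem PG.add (hf : PG f) (hg : PG g) : PG (fun u => f u + g u) := by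
  obtain ⟨C, k, hC, h1⟩ := hf.bd
  obtain ⟨D, l, hD, h2⟩ := hg.bd
  refine ⟨hf.meas.add hg.meas, C + D, k + l, by positivity, fun u => ?_⟩
  have h3 := pow_mono' (norm_nonneg u) (Nat.le_add_right k l)
  have h4 := pow_mono' (norm_nonneg u) (Nat.le_add_left l k)
  calc |f u + g u| ≤ |f u| + |g u| := abs_add_le _ _
    _ ≤ C * (1 + ‖u‖) ^ (k + l) + D * (1 + ‖u‖) ^ (k + l) := by
        refine add_le_add ((h1 u).trans ?_) ((h2 u).trans ?_)
        · exact mul_le_mul_of_nonneg_left h3 hC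
        · exact mul_le_mul_of_nonneg_left h4 hD
    _ = (C + D) * (1 + ‖u‖) ^ (k + l) := by ring

theorem PG.mul (hf : PG f) (hg : PG g) : PG (fun u => f u * g u) := by
  obtain ⟨C, k, hC, h1⟩ := hf.bd
  obtain ⟨D, l, hD, h2⟩ := hg.bd
  refine ⟨hf.meas.mul hg.meas, C * D, k + l, by positivity, fun u => ?_⟩
  rw [abs_mul, pow_add]
  calc |f u| * |g u| ≤ (C * (1 + ‖u‖) ^ k) * (D * (1 + ‖u‖) ^ l) :=
        mul_le_mul (h1 u) (h2 u) (abs_nonneg _) (by positivity)
    _ = C * D * ((1 + ‖u‖) ^ k * (1 + ‖u‖) ^ l) := by ring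

theorem PG.smul (c : ℝ) (hf : PG f) : PG (fun u => c * f u) := (PG.const c).mul hf

theorem PG.neg (hf : PG f) : PG (fun u => -f u) := by
  have := hf.smul (-1)
  simpa using this

theorem PG.sub (hf : PG f) (hg : PG g) : PG (fun u => f u - g u) := by
  have := hf.add hg.neg
  simpa [sub_eq_add_neg] using this

theorem PG.sq (hf : PG f) : PG (fun u => f u ^ 2) := by
  have := hf.mul hf
  simpa [pow_two] using this

end pg

theorem PG.inner (a : E) : PG (fun u : E => ⟪a, u⟫) :=
  ⟨by fun_prop, ‖a‖, 1, norm_nonneg a, fun u => by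
    refine (abs_real_inner_le_norm a u).trans ?_
    rw [pow_one]
    have := norm_nonneg a
    nlinarith [norm_nonneg u]⟩

theorem PG.norm : PG (fun u : E => ‖u‖) :=
  ⟨by fun_prop, 1, 1, zero_le_one, fun u => by rw [abs_norm, pow_one]; linarith⟩

/-- growth of `f ∘ (a v + b w)` on pairs -/
theorem PG.pair {f : E → ℝ} (hf : PG f) {a b : ℝ} (ha : |a| ≤ 1) (hb : |b| ≤ 1) :
    ∃ (C : ℝ) (k : ℕ), 0 ≤ C ∧ ∀ v w : E, |f (a • v + b • w)| ≤
      C * ((1 + ‖v‖) ^ k * (1 + ‖w‖) ^ k) := by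
  obtain ⟨C, k, hC, h1⟩ := hf.bd
  refine ⟨C, k, hC, fun v w => (h1 _).trans (mul_le_mul_of_nonneg_left ?_ hC)⟩
  rw [← mul_pow]
  refine pow_le_pow_left₀ (by positivity) ?_ k
  have h2 : ‖a • v + b • w‖ ≤ ‖v‖ + ‖w‖ := by
    refine (norm_add_le _ _).trans (add_le_add ?_ ?_)
    · rw [norm_smul, Real.norm_eq_abs]
      exact mul_le_of_le_one_left (norm_nonneg _) ha
    · rw [norm_smul, Real.norm_eq_abs]
      exact mul_le_of_le_one_left (norm_nonneg _) hb
  nlinarith [norm_nonneg v, norm_nonneg w, mul_nonneg (norm_nonneg v) (norm_nonneg w)]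

theorem pow_integrable (k : ℕ) : Integrable (fun u : E => (1 + ‖u‖) ^ k) (gam E) := by
  have h1 : MemLp (fun u : E => 1 + ‖u‖) (k : ENNReal) (gam E) := by
    have h2 : MemLp (id : E → E) (k : ENNReal) (gam E) :=
      IsGaussian.memLp_id (gam E) _ (ENNReal.natCast_ne_top k)
    exact (memLp_const (1 : ℝ)).add h2.norm
  have h3 := h1.integrable_norm_pow'
  refine h3.congr (Filter.Eventually.of_forall fun u => ?_)
  have : (0 : ℝ) ≤ 1 + ‖u‖ := by positivity
  simp [abs_of_nonneg this]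

theorem PG.integrable {f : E → ℝ} (hf : PG f) : Integrable f (gam E) := by
  obtain ⟨C, k, hC, h1⟩ := hf.bd
  refine ((pow_integrable (E := E) k).const_mul C).mono' hf.meas.aestronglyMeasurable ?_
  exact Filter.Eventually.of_forall fun u => by
    rw [Real.norm_eq_abs]
    exact h1 u

theorem PG.pair_integrable {f g : E → ℝ} (hf : PG f) (hg : PG g) {a b c e : ℝ} (ha : |a| ≤ 1)
    (hb : |b| ≤ 1) (hc : |c| ≤ 1) (he : |e| ≤ 1) :
    Integrable (fun p : E × E => f (a • p.1 + b • p.2) * g (c • p.1 + e • p.2))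
      ((gam E).prod (gam E)) := by
  obtain ⟨C, k, hC, h1⟩ := hf.pair ha hb
  obtain ⟨D, l, hD, h2⟩ := hg.pair hc he
  have h3 : Integrable (fun p : E × E => (1 + ‖p.1‖) ^ (k + l) * (1 + ‖p.2‖) ^ (k + l))
      ((gam E).prod (gam E)) := (pow_integrable (k + l)).mul_prod (pow_integrable (k + l))
  have mf : Measurable fun p : E × E => f (a • p.1 + b • p.2) := hf.meas.comp (by fun_prop)
  have mg : Measurable fun p : E × E => g (c • p.1 + e • p.2) := hg.meas.comp (by fun_prop)
  refine (h3.const_mul (C * D)).mono' (mf.mul mg).aestronglyMeasurable ?_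
  refine Filter.Eventually.of_forall fun p => ?_
  rw [Real.norm_eq_abs, abs_mul]
  calc |f (a • p.1 + b • p.2)| * |g (c • p.1 + e • p.2)|
      ≤ (C * ((1 + ‖p.1‖) ^ k * (1 + ‖p.2‖) ^ k)) * (D * ((1 + ‖p.1‖) ^ l * (1 + ‖p.2‖) ^ l)) :=
        mul_le_mul (h1 _ _) (h2 _ _) (abs_nonneg _) (by positivity)
    _ = C * D * ((1 + ‖p.1‖) ^ (k + l) * (1 + ‖p.2‖) ^ (k + l)) := by rw [pow_add, pow_add]; ring

/-! ### The semigroup -/

/-- `U_r f (v) = E f (r v + √(1-r²) w)` -/
def U (r : ℝ) (f : E → ℝ) (v : E) : ℝ := ∫ w, f (r • v + √(1 - r ^ 2) • w) ∂(gam E)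

theorem sr_sq {r : ℝ} (h0 : 0 ≤ r) (h1 : r ≤ 1) : r ^ 2 + √(1 - r ^ 2) ^ 2 = 1 := by
  rw [Real.sq_sqrt (by nlinarith)]
  ring

theorem sr_nonneg (r : ℝ) : 0 ≤ √(1 - r ^ 2) := Real.sqrt_nonneg _

theorem sr_le (r : ℝ) : |√(1 - r ^ 2)| ≤ 1 := by
  rw [abs_of_nonneg (sr_nonneg r)]
  exact Real.sqrt_le_one.2 (by nlinarith [sq_nonneg r])

theorem PG.slice {f : E → ℝ} (hf : PG f) {r s : ℝ} (hr : |r| ≤ 1) (hs : |s| ≤ 1) (v : E) :
    Integrable (fun w => f (r • v + s • w)) (gam E) := by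
  obtain ⟨C, k, hC, h1⟩ := hf.pair hr hs
  have hm : Measurable fun w : E => f (r • v + s • w) := hf.meas.comp (by fun_prop)
  refine ((pow_integrable (E := E) k).const_mul (C * (1 + ‖v‖) ^ k)).mono'
    hm.aestronglyMeasurable ?_
  refine Filter.Eventually.of_forall fun w => ?_
  rw [Real.norm_eq_abs, mul_assoc]
  exact h1 v w

theorem abs_le_of {r : ℝ} (h0 : 0 ≤ r) (h1 : r ≤ 1) : |r| ≤ 1 := by rwa [abs_of_nonneg h0]

theorem PG.U {f : E → ℝ} (hf : PG f) {r : ℝ} (h0 : 0 ≤ r) (h1 : r ≤ 1) :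
    PG (Ou.U r f) := by
  obtain ⟨C, k, hC, h2⟩ := hf.pair (abs_le_of h0 h1) (sr_le r)
  refine ⟨?_, C * ∫ w, (1 + ‖w‖) ^ k ∂(gam E), k, ?_, fun v => ?_⟩
  · have hm : Measurable fun p : E × E => f (r • p.1 + √(1 - r ^ 2) • p.2) :=
      hf.meas.comp (by fun_prop)
    exact (hm.stronglyMeasurable.integral_prod_right (ν := gam E)).measurable
  · exact mul_nonneg hC (integral_nonneg fun w => by positivity)
  · unfold Ou.U
    refine (abs_integral_le_integral_abs).trans ?_
    calc ∫ w, |f (r • v + √(1 - r ^ 2) • w)| ∂(gam E)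
        ≤ ∫ w, C * ((1 + ‖v‖) ^ k * (1 + ‖w‖) ^ k) ∂(gam E) := by
          refine integral_mono (hf.slice (abs_le_of h0 h1) (sr_le r) v).abs
            (((pow_integrable k).const_mul _).const_mul _) fun w => h2 v w
      _ = C * (∫ w, (1 + ‖w‖) ^ k ∂(gam E)) * (1 + ‖v‖) ^ k := by
          rw [integral_const_mul, integral_const_mul]
          ring

/-- the pair formula -/
theorem pair_formula {f g : E → ℝ} (hf : PG f) (hg : PG g) {r : ℝ} (h0 : 0 ≤ r) (h1 : r ≤ 1) :
    ∫ v, g v * U r f v ∂(gam E) =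
      ∫ p : E × E, g p.1 * f (r • p.1 + √(1 - r ^ 2) • p.2) ∂((gam E).prod (gam E)) := by
  have hi := hg.pair_integrable hf (a := 1) (b := 0) (c := r) (e := √(1 - r ^ 2)) (by simp)
    (by simp) (abs_le_of h0 h1) (sr_le r)
  simp only [one_smul, zero_smul, add_zero] at hi
  rw [integral_prod _ hi]
  refine integral_congr_ae (Filter.Eventually.of_forall fun v => ?_)
  simp only [U]
  rw [integral_const_mul]

theorem U_self {f g : E → ℝ} (hf : PG f) (hg : PG g) {r : ℝ} (h0 : 0 ≤ r) (h1 : r ≤ 1) :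
    ∫ v, g v * U r f v ∂(gam E) = ∫ v, U r g v * f v ∂(gam E) := by
  have e2 : ∫ v, U r g v * f v ∂(gam E) = ∫ v, f v * U r g v ∂(gam E) := by
    refine integral_congr_ae (Filter.Eventually.of_forall fun v => ?_)
    simp only [mul_comm]
  rw [e2, pair_formula hf hg h0 h1, pair_formula hg hf h0 h1]
  set s := √(1 - r ^ 2) with hs
  have hrs : r ^ 2 + s ^ 2 = 1 := sr_sq h0 h1
  have h3 := mp_rot (E := E) (a := r) (b := s) (c := s) (e := -r) hrs (by rw [← hrs]; ring)
    (by ring)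
  have hi := hg.pair_integrable hf (a := 1) (b := 0) (c := r) (e := s) (by simp)
    (by simp) (abs_le_of h0 h1) (sr_le r)
  simp only [one_smul, zero_smul, add_zero] at hi
  have hm : Measurable fun p : E × E => g p.1 * f (r • p.1 + s • p.2) :=
    (hg.meas.comp measurable_fst).mul (hf.meas.comp (by fun_prop))
  have h4 := mp_integral h3 hm.aestronglyMeasurable
  rw [← h4]
  refine integral_congr_ae (Filter.Eventually.of_forall fun p => ?_)
  simp only
  have e3 : r • (r • p.1 + s • p.2) + s • (s • p.1 + -r • p.2) = p.1 := by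
    have : r • (r • p.1 + s • p.2) + s • (s • p.1 + -r • p.2) = (r ^ 2 + s ^ 2) • p.1 := by
      module
    rw [this, hrs, one_smul]
  rw [e3, mul_comm]

theorem U_integral {f : E → ℝ} (hf : PG f) {r : ℝ} (h0 : 0 ≤ r) (h1 : r ≤ 1) :
    ∫ v, U r f v ∂(gam E) = ∫ v, f v ∂(gam E) := by
  have h2 := U_self hf (PG.const 1) h0 h1
  have h3 : ∀ v : E, U r (fun _ => (1 : ℝ)) v = 1 := fun v => by simp [U]
  simpa [h3] using h2

theorem U_const (r c : ℝ) (v : E) : U r (fun _ : E => c) v = c := by simp [U]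

theorem U_add {f g : E → ℝ} (hf : PG f) (hg : PG g) {r : ℝ} (h0 : 0 ≤ r) (h1 : r ≤ 1) (v : E) :
    U r (fun u => f u + g u) v = U r f v + U r g v :=
  integral_add (hf.slice (abs_le_of h0 h1) (sr_le r) v) (hg.slice (abs_le_of h0 h1) (sr_le r) v)

theorem U_sub {f g : E → ℝ} (hf : PG f) (hg : PG g) {r : ℝ} (h0 : 0 ≤ r) (h1 : r ≤ 1) (v : E) :
    U r (fun u => f u - g u) v = U r f v - U r g v :=
  integral_sub (hf.slice (abs_le_of h0 h1) (sr_le r) v) (hg.slice (abs_le_of h0 h1) (sr_le r) v)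

theorem U_smul (c : ℝ) (f : E → ℝ) (r : ℝ) (v : E) :
    U r (fun u => c * f u) v = c * U r f v := integral_const_mul _ _

theorem integral_inner_gam (a : E) : ∫ w, ⟪a, w⟫ ∂(gam E) = 0 := by
  have := integral_strongDual_stdGaussian (E := E) (innerSL ℝ a)
  simpa using this

theorem U_inner (a : E) {r : ℝ} (v : E) : U r (fun u => ⟪a, u⟫) v = r * ⟪a, v⟫ := by
  simp only [U, inner_add_right, real_inner_smul_right]
  have hi : Integrable (fun w : E => √(1 - r ^ 2) * ⟪a, w⟫) (gam E) :=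
    (PG.inner a).integrable.const_mul _
  have e : ∫ w : E, √(1 - r ^ 2) * ⟪a, w⟫ ∂(gam E) = 0 := by
    rw [integral_const_mul, integral_inner_gam, mul_zero]
  rw [integral_add (integrable_const _) hi, e]
  simp

/-- semigroup -/
theorem U_U {f : E → ℝ} (hf : PG f) {r ρ : ℝ} (h0 : 0 ≤ r) (h1 : r ≤ 1) (h0' : 0 ≤ ρ)
    (h1' : ρ ≤ 1) (v : E) : U r (U ρ f) v = U (r * ρ) f v := by
  have hr := sr_sq h0 h1
  have hρ := sr_sq h0' h1'
  set s := √(1 - r ^ 2) with hs
  set σ := √(1 - ρ ^ 2) with hσ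
  have hs0 : 0 ≤ s := sr_nonneg r
  have hσ0 : 0 ≤ σ := sr_nonneg ρ
  have hrr0 : 0 ≤ r * ρ := mul_nonneg h0 h0'
  have hrr1 : r * ρ ≤ 1 := mul_le_one₀ h1 h0' h1'
  have ht := sr_sq hrr0 hrr1
  set t := √(1 - (r * ρ) ^ 2) with ht'
  have ht0 : 0 ≤ t := sr_nonneg _
  have hsum : (ρ * s) ^ 2 + σ ^ 2 = t ^ 2 := by
    have : t ^ 2 = 1 - (r * ρ) ^ 2 := by linarith
    rw [this]
    have e1 : s ^ 2 = 1 - r ^ 2 := by linarith
    have e2 : σ ^ 2 = 1 - ρ ^ 2 := by linarith
    rw [mul_pow, e1, e2]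
    ring
  have eL : U r (U ρ f) v =
      ∫ p : E × E, f ((r * ρ) • v + ((ρ * s) • p.1 + σ • p.2)) ∂((gam E).prod (gam E)) := by
    have hi : Integrable (fun p : E × E => f ((r * ρ) • v + ((ρ * s) • p.1 + σ • p.2)))
        ((gam E).prod (gam E)) := by
      obtain ⟨C, k, hC, h2⟩ := hf.bd
      have hm : Measurable fun p : E × E => f ((r * ρ) • v + ((ρ * s) • p.1 + σ • p.2)) :=
        hf.meas.comp (by fun_prop)
      have h3 : Integrable (fun p : E × E => (1 + ‖p.1‖) ^ k * (1 + ‖p.2‖) ^ k)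
          ((gam E).prod (gam E)) := (pow_integrable k).mul_prod (pow_integrable k)
      refine (h3.const_mul (C * (1 + ‖v‖) ^ k)).mono' hm.aestronglyMeasurable ?_
      refine Filter.Eventually.of_forall fun p => ?_
      rw [Real.norm_eq_abs]
      refine (h2 _).trans ?_
      rw [mul_assoc]
      refine mul_le_mul_of_nonneg_left ?_ hC
      rw [← mul_pow, ← mul_pow]
      refine pow_le_pow_left₀ (by positivity) ?_ k
      have hsl : s ≤ 1 := by nlinarith
      have hσl : σ ≤ 1 := by nlinarith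
      have n1 : ‖(r * ρ) • v + ((ρ * s) • p.1 + σ • p.2)‖ ≤ ‖v‖ + (‖p.1‖ + ‖p.2‖) := by
        refine (norm_add_le _ _).trans (add_le_add ?_ ((norm_add_le _ _).trans
          (add_le_add ?_ ?_)))
        · rw [norm_smul, Real.norm_eq_abs, abs_of_nonneg hrr0]
          exact mul_le_of_le_one_left (norm_nonneg _) hrr1
        · rw [norm_smul, Real.norm_eq_abs, abs_of_nonneg (mul_nonneg h0' hs0)]
          exact mul_le_of_le_one_left (norm_nonneg _) (mul_le_one₀ h1' hs0 hsl)
        · rw [norm_smul, Real.norm_eq_abs, abs_of_nonneg hσ0]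
          exact mul_le_of_le_one_left (norm_nonneg _) hσl
      have := norm_nonneg v
      have := norm_nonneg p.1
      have := norm_nonneg p.2
      have m1 := mul_nonneg (norm_nonneg v) (norm_nonneg p.1)
      have m2 := mul_nonneg (norm_nonneg v) (norm_nonneg p.2)
      have m3 := mul_nonneg (norm_nonneg p.1) (norm_nonneg p.2)
      have m4 := mul_nonneg (norm_nonneg v) m3
      nlinarith
    rw [integral_prod _ hi]
    unfold U
    refine integral_congr_ae (Filter.Eventually.of_forall fun w => ?_)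
    simp only
    refine integral_congr_ae (Filter.Eventually.of_forall fun z => ?_)
    simp only
    congr 1
    rw [← hs, ← hσ]
    module
  rw [eL]
  by_cases htz : t = 0
  · have hz : (ρ * s) ^ 2 + σ ^ 2 = 0 := by rw [hsum, htz]; ring
    have z1 : ρ * s = 0 := by nlinarith [sq_nonneg (ρ * s), sq_nonneg σ]
    have z2 : σ = 0 := by nlinarith [sq_nonneg (ρ * s), sq_nonneg σ]
    unfold U
    rw [← ht', htz, z1, z2]
    simp
  · have htp : 0 < t := lt_of_le_of_ne ht0 (Ne.symm htz)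
    have h3 := mp_comb (E := E) (a := ρ * s / t) (b := σ / t) (by
      rw [div_pow, div_pow, ← add_div, hsum]
      exact div_self (by positivity))
    have hm : Measurable fun u : E => f ((r * ρ) • v + t • u) := hf.meas.comp (by fun_prop)
    have h4 := mp_integral h3 (g := fun u : E => f ((r * ρ) • v + t • u))
      hm.aestronglyMeasurable
    unfold U
    rw [← ht', ← h4]
    refine integral_congr_ae (Filter.Eventually.of_forall fun p => ?_)
    simp only
    congr 1
    rw [smul_add, smul_smul, smul_smul]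
    congr 2
    · congr 1
      field_simp
    · congr 1
      field_simp

end

end Pool.Agent.KXP.Ou
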