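import Pool.Agent.KXP.OU

/-!
# KXP / PotCov: second and third moments of `U_r f - E f`
-/

set_option autoImplicit false
set_option linter.unusedSectionVars false

namespace Pool.Agent.KXP.PotCov

open MeasureTheory ProbabilityTheory Ou
open scoped RealInnerProductSpace

noncomputable section

/-- the spectral estimate, as a proposition (proved in OU2) -/
def SpecHyp (E : Type) [NormedAddCommGroup E] [InnerProductSpace ℝ E] [FiniteDimensional ℝ E]
    [MeasurableSpace E] [BorelSpace E] : Prop :=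
  ∀ f : E → ℝ, PG f → ∫ u, f u ∂(gam E) = 0 → (∀ e : E, ∫ u, f u * ⟪e, u⟫ ∂(gam E) = 0) →
    ∀ r : ℝ, 0 ≤ r → r ≤ 1 → ∫ v, U r f v ^ 2 ∂(gam E) ≤ r ^ 4 * ∫ v, f v ^ 2 ∂(gam E)

variable {d : ℕ}

/-- the standard euclidean space -/
abbrev Ed (d : ℕ) : Type := EuclideanSpace ℝ (Fin d)

theorem PG.sum {F : Type} [NormedAddCommGroup F] [MeasurableSpace F] {ι : Type} (s : Finset ι)
    {f : ι → F → ℝ} (h : ∀ i ∈ s, PG (f i)) : PG (fun u => ∑ i ∈ s, f i u) := by
  classical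
  induction s using Finset.induction_on with
  | empty => simpa using (PG.const (F := F) 0)
  | insert a s ha ih =>
    have h1 := (h a (Finset.mem_insert_self a s)).add
      (ih fun i hi => h i (Finset.mem_insert_of_mem hi))
    simpa [Finset.sum_insert ha] using h1

theorem coord_eq (k : Fin d) (u : Ed d) : u k = ⟪EuclideanSpace.single k (1 : ℝ), u⟫ := by
  rw [EuclideanSpace.inner_single_left]
  simp

theorem PG.coord (k : Fin d) : PG (fun u : Ed d => u k) := by
  have h := PG.inner (E := Ed d) (EuclideanSpace.single k (1 : ℝ))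
  simpa only [← coord_eq] using h

theorem int_coord (k : Fin d) : ∫ u : Ed d, u k ∂(gam (Ed d)) = 0 := by
  simp_rw [coord_eq]
  exact integral_inner_gam _

theorem int_coord_mul (k l : Fin d) :
    ∫ u : Ed d, u k * u l ∂(gam (Ed d)) = if k = l then 1 else 0 := by
  have h := covariance_eval_multivariateGaussian (μ := (0 : Ed d)) (S := (1 : Matrix (Fin d) (Fin d) ℝ))
    Matrix.PosSemidef.one k l
  rw [multivariateGaussian_zero_one, covariance_eq_sub, int_coord, int_coord] at h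
  · simpa [Matrix.one_apply] using h
  · exact (memLp_two_iff_integrable_sq (PG.coord k).meas.aestronglyMeasurable).2
      (PG.coord k).sq.integrable
  · exact (memLp_two_iff_integrable_sq (PG.coord l).meas.aestronglyMeasurable).2
      (PG.coord l).sq.integrable

theorem U_coord (k : Fin d) (r : ℝ) (v : Ed d) : U r (fun u : Ed d => u k) v = r * v k := by
  have h := U_inner (E := Ed d) (EuclideanSpace.single k (1 : ℝ)) (r := r) v
  simpa only [← coord_eq] using h

/-- a linear functional -/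
def ln (c : Fin d → ℝ) (u : Ed d) : ℝ := ∑ k, c k * u k

theorem ln_PG (c : Fin d → ℝ) : PG (ln c) :=
  PG.sum _ fun k _ => (PG.coord k).smul (c k)

theorem inner_eq_ln (e u : Ed d) : ⟪e, u⟫ = ln (fun k => e k) u := by
  rw [PiLp.inner_apply]
  unfold ln
  refine Finset.sum_congr rfl fun k _ => ?_
  simp [mul_comm]

theorem int_mul_ln {f : Ed d → ℝ} (hf : PG f) (c : Fin d → ℝ) :
    ∫ u, f u * ln c u ∂(gam (Ed d)) = ∑ k, c k * ∫ u, f u * u k ∂(gam (Ed d)) := by
  have e : ∀ u : Ed d, f u * ln c u = ∑ k, c k * (f u * u k) := fun u => by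
    unfold ln
    rw [Finset.mul_sum]
    exact Finset.sum_congr rfl fun k _ => by ring
  simp_rw [e]
  rw [integral_finsetSum _ fun k _ => ((hf.mul (PG.coord k)).smul (c k)).integrable]
  exact Finset.sum_congr rfl fun k _ => integral_const_mul _ _

theorem int_ln (c : Fin d → ℝ) : ∫ u, ln c u ∂(gam (Ed d)) = 0 := by
  unfold ln
  rw [integral_finsetSum _ fun k _ => ((PG.coord k).smul (c k)).integrable]
  refine Finset.sum_eq_zero fun k _ => ?_
  rw [integral_const_mul, int_coord, mul_zero]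

theorem int_ln_coord (c : Fin d → ℝ) (l : Fin d) :
    ∫ u, ln c u * u l ∂(gam (Ed d)) = c l := by
  have e : ∀ u : Ed d, ln c u * u l = ∑ k, c k * (u k * u l) := fun u => by
    unfold ln
    rw [Finset.sum_mul]
    exact Finset.sum_congr rfl fun k _ => by ring
  simp_rw [e]
  rw [integral_finsetSum _ fun k _ => (((PG.coord k).mul (PG.coord l)).smul (c k)).integrable]
  simp_rw [integral_const_mul, int_coord_mul]
  simp

theorem int_ln_ln (c e : Fin d → ℝ) :
    ∫ u, ln c u * ln e u ∂(gam (Ed d)) = ∑ k, c k * e k := by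
  rw [int_mul_ln (ln_PG c)]
  refine Finset.sum_congr rfl fun k _ => ?_
  rw [int_ln_coord]
  ring

theorem U_ln (c : Fin d → ℝ) {r : ℝ} (v : Ed d) :
    U r (ln c) v = r * ln c v := by
  have hc : ∀ u : Ed d, ln c u = ⟪(WithLp.toLp 2 c : Ed d), u⟫ := fun u => by
    rw [inner_eq_ln]
  have e1 : (ln c : Ed d → ℝ) = fun u => ⟪(WithLp.toLp 2 c : Ed d), u⟫ := funext hc
  rw [e1, U_inner]

section one

variable {f g : Ed d → ℝ}

/-- first Hermite coefficient -/
def cf (f : Ed d → ℝ) (k : Fin d) : ℝ := ∫ u, f u * u k ∂(gam (Ed d))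

/-- the part of degree at least two -/
def hi (f : Ed d → ℝ) (u : Ed d) : ℝ := f u - (∫ x, f x ∂(gam (Ed d))) - ln (cf f) u

theorem hi_PG (hf : PG f) : PG (hi f) := (hf.sub (PG.const _)).sub (ln_PG _)

theorem int_hi (hf : PG f) : ∫ u, hi f u ∂(gam (Ed d)) = 0 := by
  unfold hi
  rw [integral_sub (hf.sub (PG.const _)).integrable (ln_PG _).integrable,
    integral_sub hf.integrable (integrable_const _), int_ln]
  simp

theorem int_hi_coord (hf : PG f) (l : Fin d) : ∫ u, hi f u * u l ∂(gam (Ed d)) = 0 := by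
  have e : ∀ u : Ed d, hi f u * u l =
      (f u * u l - (∫ x, f x ∂(gam (Ed d))) * u l) - ln (cf f) u * u l := fun u => by
    unfold hi
    ring
  simp_rw [e]
  rw [integral_sub ((hf.mul (PG.coord l)).sub ((PG.coord l).smul _)).integrable
      ((ln_PG _).mul (PG.coord l)).integrable,
    integral_sub (hf.mul (PG.coord l)).integrable ((PG.coord l).smul _).integrable,
    integral_const_mul, int_coord, int_ln_coord]
  unfold cf
  ring

theorem int_hi_ln (hf : PG f) (c : Fin d → ℝ) : ∫ u, hi f u * ln c u ∂(gam (Ed d)) = 0 := by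
  rw [int_mul_ln (hi_PG hf)]
  refine Finset.sum_eq_zero fun k _ => ?_
  rw [int_hi_coord hf, mul_zero]

theorem int_hi_sq_le (hf : PG f) :
    ∫ u, hi f u ^ 2 ∂(gam (Ed d)) ≤ ∫ u, f u ^ 2 ∂(gam (Ed d)) := by
  set c0 := ∫ x, f x ∂(gam (Ed d)) with hc0
  have e : ∀ u : Ed d, f u ^ 2 = hi f u ^ 2 + ((2 * c0) * hi f u + 2 * (hi f u * ln (cf f) u)) +
      (c0 + ln (cf f) u) ^ 2 := fun u => by
    unfold hi
    rw [← hc0]
    ring
  have hh := hi_PG hf
  have hl := ln_PG (cf f)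
  have p1 : PG (fun u : Ed d => (c0 + ln (cf f) u) ^ 2) := ((PG.const c0).add hl).sq
  have i1 : ∫ u, f u ^ 2 ∂(gam (Ed d)) = ∫ u, hi f u ^ 2 ∂(gam (Ed d)) +
      (2 * c0 * 0 + 2 * 0) + ∫ u, (c0 + ln (cf f) u) ^ 2 ∂(gam (Ed d)) := by
    simp_rw [e]
    rw [integral_add (hh.sq.add ((hh.smul _).add ((hh.mul hl).smul _))).integrable p1.integrable,
      integral_add hh.sq.integrable ((hh.smul _).add ((hh.mul hl).smul _)).integrable,
      integral_add (hh.smul _).integrable ((hh.mul hl).smul _).integrable,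
      integral_const_mul, integral_const_mul, int_hi hf, int_hi_ln hf]
  have i2 : 0 ≤ ∫ u, (c0 + ln (cf f) u) ^ 2 ∂(gam (Ed d)) := integral_nonneg fun u => sq_nonneg _
  rw [i1]
  linarith

theorem U_hi (hf : PG f) {r : ℝ} (h0 : 0 ≤ r) (h1 : r ≤ 1) (v : Ed d) :
    U r (hi f) v = U r f v - (∫ x, f x ∂(gam (Ed d))) - r * ln (cf f) v := by
  have e : hi f = fun u => (fun u => f u - (∫ x, f x ∂(gam (Ed d)))) u - ln (cf f) u := rfl
  rw [e, U_sub (hf.sub (PG.const _)) (ln_PG _) h0 h1, U_sub hf (PG.const _) h0 h1, U_const,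
    U_ln _]

theorem int_U_hi_ln (hf : PG f) {r : ℝ} (h0 : 0 ≤ r) (h1 : r ≤ 1) (c : Fin d → ℝ) :
    ∫ v, U r (hi f) v * ln c v ∂(gam (Ed d)) = 0 := by
  have e := U_self (hi_PG hf) (ln_PG c) h0 h1
  have e2 : ∫ v, U r (hi f) v * ln c v ∂(gam (Ed d)) =
      ∫ v, ln c v * U r (hi f) v ∂(gam (Ed d)) := by
    simp_rw [mul_comm]
  rw [e2, e]
  simp_rw [U_ln c]
  have e3 : ∀ v : Ed d, r * ln c v * hi f v = r * (hi f v * ln c v) := fun v => by ring
  simp_rw [e3]
  rw [integral_const_mul, int_hi_ln hf, mul_zero]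

theorem int_U_hi_sq (hS : SpecHyp (Ed d)) (hf : PG f) {r : ℝ} (h0 : 0 ≤ r) (h1 : r ≤ 1) :
    ∫ v, U r (hi f) v ^ 2 ∂(gam (Ed d)) ≤ r ^ 4 * ∫ v, f v ^ 2 ∂(gam (Ed d)) := by
  refine (hS (hi f) (hi_PG hf) (int_hi hf) (fun e => ?_) r h0 h1).trans
    (mul_le_mul_of_nonneg_left (int_hi_sq_le hf) (by positivity))
  simp_rw [inner_eq_ln]
  exact int_hi_ln hf _

/-- covariance of `U_r f - E f` and `U_r g - E g` -/
theorem cov_step (hS : SpecHyp (Ed d)) (hf : PG f) (hg : PG g) {r : ℝ} (h0 : 0 ≤ r)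
    (h1 : r ≤ 1) :
    |∫ v, (U r f v - ∫ x, f x ∂(gam (Ed d))) * (U r g v - ∫ x, g x ∂(gam (Ed d))) ∂(gam (Ed d)) -
      r ^ 2 * ∑ k, cf f k * cf g k| ≤
      r ^ 4 * ((∫ v, f v ^ 2 ∂(gam (Ed d))) + ∫ v, g v ^ 2 ∂(gam (Ed d))) / 2 := by
  have pf : PG (U r (hi f)) := (hi_PG hf).U h0 h1
  have pg : PG (U r (hi g)) := (hi_PG hg).U h0 h1
  have lf := ln_PG (cf f)
  have lg := ln_PG (cf g)
  have e : ∀ v : Ed d, (U r f v - ∫ x, f x ∂(gam (Ed d))) * (U r g v - ∫ x, g x ∂(gam (Ed d))) =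
      U r (hi f) v * U r (hi g) v + (r * (U r (hi f) v * ln (cf g) v) +
        r * (U r (hi g) v * ln (cf f) v)) + r ^ 2 * (ln (cf f) v * ln (cf g) v) := fun v => by
    have a1 := U_hi hf h0 h1 v
    have a2 := U_hi hg h0 h1 v
    have b1 : U r f v - ∫ x, f x ∂(gam (Ed d)) = U r (hi f) v + r * ln (cf f) v := by linarith
    have b2 : U r g v - ∫ x, g x ∂(gam (Ed d)) = U r (hi g) v + r * ln (cf g) v := by linarith
    rw [b1, b2]
    ring
  have i1 : ∫ v, (U r f v - ∫ x, f x ∂(gam (Ed d))) * (U r g v - ∫ x, g x ∂(gam (Ed d)))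
      ∂(gam (Ed d)) = ∫ v, U r (hi f) v * U r (hi g) v ∂(gam (Ed d)) + (r * 0 + r * 0) +
      r ^ 2 * ∑ k, cf f k * cf g k := by
    simp_rw [e]
    rw [integral_add ((pf.mul pg).add (((pf.mul lg).smul _).add ((pg.mul lf).smul _))).integrable
        ((lf.mul lg).smul _).integrable,
      integral_add (pf.mul pg).integrable (((pf.mul lg).smul _).add ((pg.mul lf).smul _)).integrable,
      integral_add ((pf.mul lg).smul _).integrable ((pg.mul lf).smul _).integrable,
      integral_const_mul, integral_const_mul, integral_const_mul, int_U_hi_ln hf h0 h1,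
      int_U_hi_ln hg h0 h1, int_ln_ln]
  rw [i1]
  have e3 : ∫ v, U r (hi f) v * U r (hi g) v ∂(gam (Ed d)) + (r * 0 + r * 0) +
      r ^ 2 * ∑ k, cf f k * cf g k - r ^ 2 * ∑ k, cf f k * cf g k =
      ∫ v, U r (hi f) v * U r (hi g) v ∂(gam (Ed d)) := by ring
  rw [e3]
  have q1 := int_U_hi_sq hS hf h0 h1
  have q2 := int_U_hi_sq hS hg h0 h1
  have q3 : |∫ v, U r (hi f) v * U r (hi g) v ∂(gam (Ed d))| ≤
      ∫ v, (U r (hi f) v ^ 2 + U r (hi g) v ^ 2) / 2 ∂(gam (Ed d)) := by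
    refine abs_integral_le_integral_abs.trans ?_
    refine integral_mono (pf.mul pg).integrable.abs ?_ fun v => ?_
    · exact (pf.sq.add pg.sq).integrable.div_const 2
    · simp only
      rw [abs_mul]
      nlinarith [sq_nonneg (|U r (hi f) v| - |U r (hi g) v|), sq_abs (U r (hi f) v),
        sq_abs (U r (hi g) v)]
  rw [integral_div, integral_add pf.sq.integrable pg.sq.integrable] at q3
  refine q3.trans ?_
  rw [mul_add]
  linarith

theorem int_U_sub (hf : PG f) {r : ℝ} (h0 : 0 ≤ r) (h1 : r ≤ 1) :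
    ∫ v, (U r f v - ∫ x, f x ∂(gam (Ed d))) ∂(gam (Ed d)) = 0 := by
  rw [integral_sub (hf.U h0 h1).integrable (integrable_const _), U_integral hf h0 h1]
  simp

/-- moment constants -/
def K1 (d : ℕ) : ℝ := ∫ u : Ed d, ‖u‖ ∂(gam (Ed d))
def K3 (d : ℕ) : ℝ := ∫ u : Ed d, ‖u‖ ^ 3 ∂(gam (Ed d))

theorem K1_nonneg (d : ℕ) : 0 ≤ K1 d := integral_nonneg fun u => norm_nonneg u
theorem K3_nonneg (d : ℕ) : 0 ≤ K3 d := integral_nonneg fun u => by positivity

theorem abs_coord_le (u : Ed d) (k : Fin d) : |u k| ≤ ‖u‖ := by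
  have := PiLp.norm_apply_le u k
  simpa using this

theorem abs_cf_le (hf : PG f) (hb : ∀ u, |f u| ≤ 1) (k : Fin d) : |cf f k| ≤ K1 d := by
  unfold cf K1
  refine abs_integral_le_integral_abs.trans ?_
  refine integral_mono (hf.mul (PG.coord k)).integrable.abs PG.norm.integrable fun u => ?_
  simp only
  rw [abs_mul]
  calc |f u| * |u k| ≤ 1 * ‖u‖ := mul_le_mul (hb u) (abs_coord_le u k) (abs_nonneg _) zero_le_one
    _ = ‖u‖ := one_mul _

theorem abs_ln_cf_le (hf : PG f) (hb : ∀ u, |f u| ≤ 1) (v : Ed d) :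
    |ln (cf f) v| ≤ d * K1 d * ‖v‖ := by
  unfold ln
  refine (Finset.abs_sum_le_sum_abs _ _).trans ?_
  calc ∑ k : Fin d, |cf f k * v k| ≤ ∑ _k : Fin d, K1 d * ‖v‖ := by
        refine Finset.sum_le_sum fun k _ => ?_
        rw [abs_mul]
        exact mul_le_mul (abs_cf_le hf hb k) (abs_coord_le v k) (abs_nonneg _) (K1_nonneg d)
    _ = d * K1 d * ‖v‖ := by simp; ring

theorem abs_int_le_one (hf : PG f) (hb : ∀ u, |f u| ≤ 1) : |∫ u, f u ∂(gam (Ed d))| ≤ 1 := by
  refine abs_integral_le_integral_abs.trans ?_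
  calc ∫ u, |f u| ∂(gam (Ed d)) ≤ ∫ _u, (1 : ℝ) ∂(gam (Ed d)) :=
        integral_mono hf.integrable.abs (integrable_const _) fun u => hb u
    _ = 1 := by simp

theorem abs_U_le_one (hf : PG f) (hb : ∀ u, |f u| ≤ 1) {r : ℝ} (h0 : 0 ≤ r) (h1 : r ≤ 1)
    (v : Ed d) : |U r f v| ≤ 1 := by
  unfold U
  refine abs_integral_le_integral_abs.trans ?_
  calc ∫ w, |f (r • v + √(1 - r ^ 2) • w)| ∂(gam (Ed d)) ≤ ∫ _u, (1 : ℝ) ∂(gam (Ed d)) :=
        integral_mono (hf.slice (abs_le_of h0 h1) (sr_le r) v).abs (integrable_const _)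
          fun u => hb _
    _ = 1 := by simp

theorem int_sq_le_one (hf : PG f) (hb : ∀ u, |f u| ≤ 1) : ∫ u, f u ^ 2 ∂(gam (Ed d)) ≤ 1 := by
  calc ∫ u, f u ^ 2 ∂(gam (Ed d)) ≤ ∫ _u, (1 : ℝ) ∂(gam (Ed d)) :=
        integral_mono hf.sq.integrable (integrable_const _) fun u => by
          have := hb u
          rw [← sq_abs]
          nlinarith [abs_nonneg (f u)]
    _ = 1 := by simp

/-- third moment of `U_r f - E f` -/
theorem cube_step (hS : SpecHyp (Ed d)) (hf : PG f) (hb : ∀ u, |f u| ≤ 1) {r : ℝ} (h0 : 0 ≤ r)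
    (h1 : r ≤ 1) :
    ∫ v, |U r f v - ∫ x, f x ∂(gam (Ed d))| ^ 3 ∂(gam (Ed d)) ≤
      (8 * (d * K1 d) ^ 3 * K3 d + 8) * r ^ 3 := by
  have pf : PG (U r (hi f)) := (hi_PG hf).U h0 h1
  have key : ∀ v : Ed d, |U r f v - ∫ x, f x ∂(gam (Ed d))| ^ 3 ≤
      8 * (r * (d * K1 d)) ^ 3 * ‖v‖ ^ 3 + 8 * U r (hi f) v ^ 2 := fun v => by
    have a1 := U_hi hf h0 h1 v
    set H := U r f v - ∫ x, f x ∂(gam (Ed d)) with hH
    have b1 : H = r * ln (cf f) v + U r (hi f) v := by linarith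
    have b2 : |H| ≤ 2 := by
      have := abs_U_le_one hf hb h0 h1 v
      have := abs_int_le_one hf hb
      rw [hH]
      refine (abs_sub _ _).trans ?_
      linarith
    have b3 : |r * ln (cf f) v| ≤ r * (d * K1 d) * ‖v‖ := by
      rw [abs_mul, abs_of_nonneg h0, mul_assoc]
      exact mul_le_mul_of_nonneg_left (abs_ln_cf_le hf hb v) h0
    have b4 : |H| ≤ |r * ln (cf f) v| + |U r (hi f) v| := by
      rw [b1]
      exact abs_add_le _ _
    have hHn := abs_nonneg H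
    set a := |r * ln (cf f) v| with ha
    set b := |U r (hi f) v| with hbb
    have hb2 : b ^ 2 = U r (hi f) v ^ 2 := sq_abs _
    rw [← hb2]
    have han : 0 ≤ a := abs_nonneg _
    have hbn : 0 ≤ b := abs_nonneg _
    set c := r * (d * K1 d) * ‖v‖ with hc
    have hcc : 8 * (r * (d * K1 d)) ^ 3 * ‖v‖ ^ 3 = 8 * c ^ 3 := by rw [hc]; ring
    rw [hcc]
    by_cases hab : b ≤ a
    · have h2 : |H| ≤ 2 * c := by linarith
      have h3 : |H| ^ 3 ≤ (2 * c) ^ 3 := pow_le_pow_left₀ hHn h2 3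
      nlinarith [sq_nonneg b]
    · have h2 : |H| ≤ 2 * b := by linarith
      have h3 : |H| ^ 2 ≤ (2 * b) ^ 2 := pow_le_pow_left₀ hHn h2 2
      have h4 : |H| ^ 3 ≤ 2 * |H| ^ 2 := by
        have : |H| ^ 3 = |H| * |H| ^ 2 := by ring
        rw [this]
        exact mul_le_mul_of_nonneg_right b2 (by positivity)
      have h5 : 0 ≤ c ^ 3 := by
        have : 0 ≤ c := han.trans b3
        positivity
      nlinarith
  have i3 : Integrable (fun v : Ed d => ‖v‖ ^ 3) (gam (Ed d)) := by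
    have h := ((PG.norm (E := Ed d)).mul (PG.norm.mul PG.norm)).integrable
    refine h.congr (Filter.Eventually.of_forall fun v => ?_)
    simp only
    ring
  have pH : PG (fun v : Ed d => U r f v - ∫ x, f x ∂(gam (Ed d))) := (hf.U h0 h1).sub (PG.const _)
  have iH : Integrable (fun v : Ed d => |U r f v - ∫ x, f x ∂(gam (Ed d))| ^ 3) (gam (Ed d)) := by
    have h := (pH.mul (pH.mul pH)).integrable.abs
    refine h.congr (Filter.Eventually.of_forall fun v => ?_)
    simp only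
    rw [abs_mul, abs_mul]
    ring
  calc ∫ v, |U r f v - ∫ x, f x ∂(gam (Ed d))| ^ 3 ∂(gam (Ed d))
      ≤ ∫ v, (8 * (r * (d * K1 d)) ^ 3 * ‖v‖ ^ 3 + 8 * U r (hi f) v ^ 2) ∂(gam (Ed d)) :=
        integral_mono iH ((i3.const_mul _).add (pf.sq.integrable.const_mul _)) key
    _ = 8 * (r * (d * K1 d)) ^ 3 * K3 d + 8 * ∫ v, U r (hi f) v ^ 2 ∂(gam (Ed d)) := by
        rw [integral_add (i3.const_mul _) (pf.sq.integrable.const_mul _), integral_const_mul,
          integral_const_mul]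
        rfl
    _ ≤ (8 * (d * K1 d) ^ 3 * K3 d + 8) * r ^ 3 := by
        have q := int_U_hi_sq hS hf h0 h1
        have q1 := int_sq_le_one hf hb
        have q2 : r ^ 4 * ∫ v, f v ^ 2 ∂(gam (Ed d)) ≤ r ^ 4 * 1 :=
          mul_le_mul_of_nonneg_left q1 (by positivity)
        have q3 : r ^ 4 ≤ r ^ 3 := pow_le_pow_of_le_one h0 h1 (by norm_num)
        have e : 8 * (r * (d * K1 d)) ^ 3 * K3 d = 8 * (d * K1 d) ^ 3 * K3 d * r ^ 3 := by ring
        rw [e]
        linarith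

end one

end

end Pool.Agent.KXP.PotCov
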