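import Pool.Agent.KXP.Defs

/-! KXP row STA: almost everywhere derivative. -/

set_option autoImplicit false

open MeasureTheory ProbabilityTheory Filter Topology
open scoped BigOperators

namespace Pool.Agent.KXP

variable {d : ℕ} {ι : Type} [Fintype ι]

theorem der_ae {D : Pre d ι} (hD : Good D) :
    ∀ᵐ u ∂(volume : Measure (E d)), ∀ a b, HasLineDerivAt ℝ (fun v => D.X v a) (D.P (D.L u) a b) u
      (EuclideanSpace.single b (1 : ℝ)) := by
  filter_upwards [hD.loc] with u hu a b
  have h1 : HasDerivAt (fun t : ℝ => D.c (D.L u) a +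
      ∑ b', D.P (D.L u) a b' * (u + t • EuclideanSpace.single b (1 : ℝ)) b')
      (D.P (D.L u) a b) 0 := by
    have h2 : (fun t : ℝ => D.c (D.L u) a +
        ∑ b', D.P (D.L u) a b' * (u + t • EuclideanSpace.single b (1 : ℝ)) b') =
        fun t : ℝ => (D.c (D.L u) a + ∑ b', D.P (D.L u) a b' * u b') + D.P (D.L u) a b * t := by
      funext t
      have h3 : ∑ b', D.P (D.L u) a b' * (u + t • EuclideanSpace.single b (1 : ℝ)) b' =
          ∑ b', D.P (D.L u) a b' * u b' + D.P (D.L u) a b * t := by
        have h4 : ∀ b', D.P (D.L u) a b' * (u + t • EuclideanSpace.single b (1 : ℝ)) b' =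
            D.P (D.L u) a b' * u b' + (if b' = b then D.P (D.L u) a b' * t else 0) := by
          intro b'
          by_cases h : b' = b
          · subst h
            simp
            ring
          · simp [h]
        rw [Finset.sum_congr rfl (fun b' _ => h4 b'), Finset.sum_add_distrib]
        simp
      rw [h3]
      ring
    rw [h2]
    have h5 : HasDerivAt (fun t : ℝ => D.P (D.L u) a b * t) (D.P (D.L u) a b) 0 := by
      simpa using (hasDerivAt_id (0 : ℝ)).const_mul (D.P (D.L u) a b)
    exact h5.const_add _
  refine HasDerivAt.congr_of_eventuallyEq h1 ?_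
  have hc : Tendsto (fun t : ℝ => u + t • EuclideanSpace.single b (1 : ℝ)) (𝓝 0) (𝓝 u) := by
    have : Continuous (fun t : ℝ => u + t • EuclideanSpace.single b (1 : ℝ)) := by fun_prop
    have h6 := this.tendsto 0
    simpa using h6
  filter_upwards [hc.eventually hu] with t ht
  show D.X (u + t • EuclideanSpace.single b (1 : ℝ)) a = _
  rw [hD.aff, ht]

end Pool.Agent.KXP
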