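import Pool.Agent.KXP.Local

/-! KXP: second order Taylor inequality for the trace of the entropy potential. -/

namespace Pool.Agent.KXP

open Finset Matrix

section Ring

variable {R : Type} [Ring R]

/-- first order words -/
def S1 (Y X : R) : ℕ → R
  | 0 => 0
  | n + 1 => Y * S1 Y X n + X * Y ^ n

/-- second order words -/
def S2 (Y X : R) : ℕ → R
  | 0 => 0
  | n + 1 => Y * S2 Y X n + X * S1 Y X n

/-- the remainder -/
def S3 (Y X : R) (n : ℕ) : R := (Y + X) ^ n - Y ^ n - S1 Y X n - S2 Y X n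

theorem S3_succ (Y X : R) (n : ℕ) :
    S3 Y X (n + 1) = X * S2 Y X n + (Y + X) * S3 Y X n := by
  unfold S3
  simp only [S1, S2]
  rw [pow_succ' (Y + X), pow_succ' Y]
  noncomm_ring

theorem S1_succ_eq (Y X : R) (n : ℕ) :
    S1 Y X (n + 1) = ∑ q ∈ antidiagonal n, Y ^ q.1 * X * Y ^ q.2 := by
  induction n with
  | zero => simp [S1]
  | succ n ih =>
    rw [S1, ih, Finset.Nat.antidiagonal_succ, Finset.sum_cons, Finset.sum_map, Finset.mul_sum,
      add_comm]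
    congr 1
    · simp
    · refine Finset.sum_congr rfl fun q _ => ?_
      simp only [Function.Embedding.prodMap, Function.Embedding.coeFn_mk, Prod.map,
        Function.Embedding.refl_apply, Nat.succ_eq_add_one, pow_succ', mul_assoc]

theorem S2_succ_eq (Y X : R) (n : ℕ) :
    S2 Y X (n + 2) = ∑ q ∈ antidiagonal n, Y ^ q.1 * X * S1 Y X (q.2 + 1) := by
  induction n with
  | zero => simp [S2, S1]
  | succ n ih =>
    rw [S2, ih, Finset.Nat.antidiagonal_succ, Finset.sum_cons, Finset.sum_map, Finset.mul_sum,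
      add_comm]
    congr 1
    · simp
    · refine Finset.sum_congr rfl fun q _ => ?_
      simp only [Function.Embedding.prodMap, Function.Embedding.coeFn_mk, Prod.map,
        Function.Embedding.refl_apply, Nat.succ_eq_add_one, pow_succ', mul_assoc]

end Ring

theorem triple_sum (n : ℕ) (F : ℕ → ℕ → ℕ → ℝ) :
    ∑ q ∈ antidiagonal n, ∑ r ∈ antidiagonal q.2, F q.1 r.1 r.2
      = ∑ q ∈ antidiagonal n, ∑ r ∈ antidiagonal q.1, F r.1 q.2 r.2 := by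
  rw [Finset.sum_sigma', Finset.sum_sigma']
  refine Finset.sum_bij' (fun x _ => ⟨(x.1.1 + x.2.2, x.2.1), (x.1.1, x.2.2)⟩)
    (fun x _ => ⟨(x.2.1, x.1.2 + x.2.2), (x.1.2, x.2.2)⟩) ?_ ?_ ?_ ?_ ?_
  · rintro ⟨⟨a, b⟩, ⟨c, e⟩⟩ h
    simp only [Finset.mem_sigma, Finset.HasAntidiagonal.mem_antidiagonal] at h ⊢
    have h1 : a + b = n := h.1
    have h2 : c + e = b := h.2
    refine ⟨?_, trivial⟩
    show a + e + c = n
    omega
  · rintro ⟨⟨a, b⟩, ⟨c, e⟩⟩ h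
    simp only [Finset.mem_sigma, Finset.HasAntidiagonal.mem_antidiagonal] at h ⊢
    have h1 : a + b = n := h.1
    have h2 : c + e = a := h.2
    refine ⟨?_, trivial⟩
    show c + (b + e) = n
    omega
  · rintro ⟨⟨a, b⟩, ⟨c, e⟩⟩ h
    simp only [Finset.mem_sigma, Finset.HasAntidiagonal.mem_antidiagonal] at h ⊢
    obtain ⟨h1, h2⟩ := h
    subst h2
    rfl
  · rintro ⟨⟨a, b⟩, ⟨c, e⟩⟩ h
    simp only [Finset.mem_sigma, Finset.HasAntidiagonal.mem_antidiagonal] at h ⊢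
    obtain ⟨h1, h2⟩ := h
    subst h2
    rfl
  · rintro ⟨⟨a, b⟩, ⟨c, e⟩⟩ h
    rfl

variable {d : ℕ}

theorem trace_S1 (Y X : Matrix (Fin d) (Fin d) ℝ) (n : ℕ) :
    trace (S1 Y X (n + 1)) = (n + 1 : ℝ) * trace (Y ^ n * X) := by
  rw [S1_succ_eq, trace_sum]
  have : ∀ q ∈ antidiagonal n, trace (Y ^ q.1 * X * Y ^ q.2) = trace (Y ^ n * X) := by
    intro q hq
    rw [Matrix.trace_mul_comm, ← mul_assoc, ← pow_add, add_comm,
      Finset.HasAntidiagonal.mem_antidiagonal.mp hq]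
  rw [Finset.sum_congr rfl this, Finset.sum_const, Finset.Nat.card_antidiagonal, nsmul_eq_mul]
  push_cast
  ring

theorem trace_S2 (Y X : Matrix (Fin d) (Fin d) ℝ) (n : ℕ) :
    trace (S2 Y X (n + 2)) = ((n + 2 : ℝ) / 2) *
      ∑ q ∈ antidiagonal n, trace (Y ^ q.1 * X * Y ^ q.2 * X) := by
  have h1 : trace (S2 Y X (n + 2))
      = ∑ q ∈ antidiagonal n, ∑ r ∈ antidiagonal q.2,
          trace (Y ^ (q.1 + r.2) * X * Y ^ r.1 * X) := by
    rw [S2_succ_eq, trace_sum]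
    refine Finset.sum_congr rfl fun q _ => ?_
    rw [S1_succ_eq, Finset.mul_sum, trace_sum]
    refine Finset.sum_congr rfl fun r _ => ?_
    rw [pow_add, ← mul_assoc, Matrix.trace_mul_comm]
    congr 1
    rw [← mul_assoc, ← mul_assoc, ← mul_assoc, ← pow_add, ← pow_add, add_comm]
  rw [h1, triple_sum n (fun a c e => trace (Y ^ (a + e) * X * Y ^ c * X))]
  have h2 : ∀ q ∈ antidiagonal n, ∑ r ∈ antidiagonal q.1,
      trace (Y ^ (r.1 + r.2) * X * Y ^ q.2 * X)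
      = (q.1 + 1 : ℝ) * trace (Y ^ q.1 * X * Y ^ q.2 * X) := by
    intro q _
    have : ∀ r ∈ antidiagonal q.1, trace (Y ^ (r.1 + r.2) * X * Y ^ q.2 * X)
        = trace (Y ^ q.1 * X * Y ^ q.2 * X) := by
      intro r hr
      rw [Finset.HasAntidiagonal.mem_antidiagonal.mp hr]
    rw [Finset.sum_congr rfl this, Finset.sum_const, Finset.Nat.card_antidiagonal, nsmul_eq_mul]
    push_cast
    ring
  rw [Finset.sum_congr rfl h2]
  have h3 : ∑ q ∈ antidiagonal n, (q.1 + 1 : ℝ) * trace (Y ^ q.1 * X * Y ^ q.2 * X)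
      = ∑ q ∈ antidiagonal n, (q.2 + 1 : ℝ) * trace (Y ^ q.1 * X * Y ^ q.2 * X) := by
    rw [← Finset.Nat.sum_antidiagonal_swap]
    refine Finset.sum_congr rfl fun q _ => ?_
    simp only [Prod.swap]
    congr 1
    rw [mul_assoc (Y ^ q.2 * X), Matrix.trace_mul_comm]
    simp only [mul_assoc]
  have h4 : ∑ q ∈ antidiagonal n, (q.1 + 1 : ℝ) * trace (Y ^ q.1 * X * Y ^ q.2 * X)
      + ∑ q ∈ antidiagonal n, (q.2 + 1 : ℝ) * trace (Y ^ q.1 * X * Y ^ q.2 * X)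
      = (n + 2 : ℝ) * ∑ q ∈ antidiagonal n, trace (Y ^ q.1 * X * Y ^ q.2 * X) := by
    rw [← Finset.sum_add_distrib, Finset.mul_sum]
    refine Finset.sum_congr rfl fun q hq => ?_
    have : (n : ℝ) = q.1 + q.2 := by
      rw [← Finset.HasAntidiagonal.mem_antidiagonal.mp hq]
      push_cast
      ring
    rw [this]
    ring
  linarith

/-- Frobenius norm -/
noncomputable def fr (B : Matrix (Fin d) (Fin d) ℝ) : ℝ := √(∑ a, ∑ b, B a b ^ 2)

open scoped Matrix.Norms.Frobenius in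
theorem fr_eq (B : Matrix (Fin d) (Fin d) ℝ) : fr B = ‖B‖ := by
  rw [Matrix.frobenius_norm_def, fr, Real.sqrt_eq_rpow]
  congr 1
  refine Finset.sum_congr rfl fun a _ => Finset.sum_congr rfl fun b _ => ?_
  rw [Real.norm_eq_abs]
  norm_cast
  rw [sq_abs]

open scoped Matrix.Norms.Frobenius in
theorem words_bound (M : ℝ) (hM : 0 ≤ M) (n : ℕ) : ∃ C : ℝ, 0 ≤ C ∧
    ∀ Y X : Matrix (Fin d) (Fin d) ℝ, ‖Y‖ ≤ M → ‖Y + X‖ ≤ M →
      ‖Y ^ n‖ ≤ C ∧ ‖S1 Y X n‖ ≤ C * ‖X‖ ∧ ‖S2 Y X n‖ ≤ C * ‖X‖ ^ 2 ∧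
        ‖S3 Y X n‖ ≤ C * ‖X‖ ^ 3 := by
  induction n with
  | zero =>
    refine ⟨‖(1 : Matrix (Fin d) (Fin d) ℝ)‖, norm_nonneg _, fun Y X _ _ => ?_⟩
    refine ⟨by rw [pow_zero], ?_, ?_, ?_⟩
    · simp only [S1, norm_zero]; positivity
    · simp only [S2, norm_zero]; positivity
    · simp only [S3, S1, S2, pow_zero, sub_self, norm_zero]; positivity
  | succ n ih =>
    obtain ⟨C, hC, h⟩ := ih
    refine ⟨M * C + C, by positivity, fun Y X hY hYX => ?_⟩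
    obtain ⟨h1, h2, h3, h4⟩ := h Y X hY hYX
    have hX := norm_nonneg X
    refine ⟨?_, ?_, ?_, ?_⟩
    · rw [pow_succ']
      have := (norm_mul_le Y (Y ^ n)).trans (mul_le_mul hY h1 (norm_nonneg _) hM)
      linarith
    · rw [S1]
      refine (norm_add_le _ _).trans ?_
      have e1 := (norm_mul_le Y (S1 Y X n)).trans (mul_le_mul hY h2 (norm_nonneg _) hM)
      have e2 := (norm_mul_le X (Y ^ n)).trans (mul_le_mul_of_nonneg_left h1 hX)
      linarith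
    · rw [S2]
      refine (norm_add_le _ _).trans ?_
      have e1 := (norm_mul_le Y (S2 Y X n)).trans (mul_le_mul hY h3 (norm_nonneg _) hM)
      have e2 := (norm_mul_le X (S1 Y X n)).trans (mul_le_mul_of_nonneg_left h2 hX)
      linarith
    · rw [S3_succ]
      refine (norm_add_le _ _).trans ?_
      have e1 := (norm_mul_le (Y + X) (S3 Y X n)).trans (mul_le_mul hYX h4 (norm_nonneg _) hM)
      have e2 := (norm_mul_le X (S2 Y X n)).trans (mul_le_mul_of_nonneg_left h3 hX)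
      linarith

open scoped Matrix.Norms.Frobenius in
theorem abs_trace_le (B : Matrix (Fin d) (Fin d) ℝ) : |trace B| ≤ √d * ‖B‖ := by
  rw [← fr_eq, fr]
  have h1 : (trace B) ^ 2 ≤ d * ∑ a, ∑ b, B a b ^ 2 := by
    have h := sq_sum_le_card_mul_sum_sq (s := (Finset.univ : Finset (Fin d)))
      (f := fun a => B a a)
    rw [Finset.card_univ, Fintype.card_fin] at h
    refine h.trans (mul_le_mul_of_nonneg_left ?_ (by positivity))
    refine Finset.sum_le_sum fun a _ => ?_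
    exact Finset.single_le_sum (f := fun b => B a b ^ 2) (fun b _ => sq_nonneg _)
      (Finset.mem_univ a)
  rw [← Real.sqrt_mul (by positivity)]
  exact Real.abs_le_sqrt h1

/-- The trace of the entropy potential. -/
noncomputable def trJ (m : ℕ) (A : Matrix (Fin d) (Fin d) ℝ) : ℝ :=
  ∑ j ∈ range m, ((d : ℝ) - trace ((1 - (2 : ℝ) • A) ^ (2 * j + 2))) /
    ((2 * (j : ℝ) + 1) * (2 * (j : ℝ) + 2))

/-- The first derivative. -/
noncomputable def linJ (m : ℕ) (A B : Matrix (Fin d) (Fin d) ℝ) : ℝ :=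
  ∑ j ∈ range m, (2 / (2 * (j : ℝ) + 1)) * trace ((1 - (2 : ℝ) • A) ^ (2 * j + 1) * B)

/-- Minus the second derivative. -/
noncomputable def quadJ (m : ℕ) (A B C : Matrix (Fin d) (Fin d) ℝ) : ℝ :=
  ∑ j ∈ range m, (4 / (2 * (j : ℝ) + 1)) * ∑ q ∈ antidiagonal (2 * j),
    trace ((1 - (2 : ℝ) • A) ^ q.1 * B * (1 - (2 : ℝ) • A) ^ q.2 * C)

theorem drift_eq_quadJ (m : ℕ) (A : Matrix (Fin d) (Fin d) ℝ)
    (T : Fin d → Matrix (Fin d) (Fin d) ℝ) : drift m A T = ∑ k, quadJ m A (T k) (T k) := rfl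

theorem trace_pow_expand (Y B : Matrix (Fin d) (Fin d) ℝ) (j : ℕ) :
    trace ((Y + (-2 : ℝ) • B) ^ (2 * j + 2)) = trace (Y ^ (2 * j + 2))
      - (2 * (j : ℝ) + 2) * (2 * trace (Y ^ (2 * j + 1) * B))
      + (2 * (j : ℝ) + 2) / 2 * (4 * ∑ q ∈ antidiagonal (2 * j), trace (Y ^ q.1 * B * Y ^ q.2 * B))
      + trace (S3 Y ((-2 : ℝ) • B) (2 * j + 2)) := by
  have h : (Y + (-2 : ℝ) • B) ^ (2 * j + 2) = Y ^ (2 * j + 2) + S1 Y ((-2 : ℝ) • B) (2 * j + 2)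
      + S2 Y ((-2 : ℝ) • B) (2 * j + 2) + S3 Y ((-2 : ℝ) • B) (2 * j + 2) := by
    unfold S3; abel
  rw [h, trace_add, trace_add, trace_add, trace_S1, trace_S2]
  have h1 : trace (Y ^ (2 * j + 1) * (-2 : ℝ) • B) = -2 * trace (Y ^ (2 * j + 1) * B) := by
    rw [Matrix.mul_smul, trace_smul, smul_eq_mul]
  have h2 : ∑ q ∈ antidiagonal (2 * j), trace (Y ^ q.1 * (-2 : ℝ) • B * Y ^ q.2 * (-2 : ℝ) • B)
      = 4 * ∑ q ∈ antidiagonal (2 * j), trace (Y ^ q.1 * B * Y ^ q.2 * B) := by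
    rw [Finset.mul_sum]
    refine Finset.sum_congr rfl fun q _ => ?_
    simp only [Matrix.mul_smul, Matrix.smul_mul, trace_smul, smul_eq_mul]
    ring
  rw [h1, h2]
  push_cast
  ring

theorem fr_nonneg (B : Matrix (Fin d) (Fin d) ℝ) : 0 ≤ fr B := Real.sqrt_nonneg _

open scoped Matrix.Norms.Frobenius in
/-- Taylor inequality with third order remainder. -/
theorem trJ_taylor (m d : ℕ) (M : ℝ) (hM : 0 ≤ M) : ∃ C : ℝ, 0 ≤ C ∧
    ∀ A B : Matrix (Fin d) (Fin d) ℝ, fr A ≤ M → fr (A + B) ≤ M →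
      trJ m A + linJ m A B - (1 / 2) * quadJ m A B B - C * fr B ^ 3 ≤ trJ m (A + B) := by
  set N : ℝ := ‖(1 : Matrix (Fin d) (Fin d) ℝ)‖ + 2 * M with hN
  have hN0 : 0 ≤ N := by positivity
  have hw : ∀ j : ℕ, ∃ C : ℝ, 0 ≤ C ∧ ∀ Y X : Matrix (Fin d) (Fin d) ℝ, ‖Y‖ ≤ N → ‖Y + X‖ ≤ N →
      ‖S3 Y X (2 * j + 2)‖ ≤ C * ‖X‖ ^ 3 := by
    intro j
    obtain ⟨C, hC, h⟩ := words_bound (d := d) N hN0 (2 * j + 2)
    exact ⟨C, hC, fun Y X h1 h2 => (h Y X h1 h2).2.2.2⟩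
  choose C hC hCb using hw
  refine ⟨∑ j ∈ range m, √d * (C j * 8) / ((2 * (j : ℝ) + 1) * (2 * (j : ℝ) + 2)),
    Finset.sum_nonneg fun j _ => by have := hC j; positivity, fun A B hA hAB => ?_⟩
  rw [fr_eq] at hA hAB
  rw [fr_eq]
  set Y : Matrix (Fin d) (Fin d) ℝ := 1 - (2 : ℝ) • A with hY
  have hYn : ‖Y‖ ≤ N := by
    refine (norm_sub_le _ _).trans ?_
    rw [norm_smul, Real.norm_eq_abs, abs_of_nonneg (by norm_num : (0:ℝ) ≤ 2)]
    linarith
  have hYX : 1 - (2 : ℝ) • (A + B) = Y + (-2 : ℝ) • B := by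
    rw [hY, smul_add, neg_smul]
    abel
  have hYXn : ‖Y + (-2 : ℝ) • B‖ ≤ N := by
    rw [← hYX]
    refine (norm_sub_le _ _).trans ?_
    rw [norm_smul, Real.norm_eq_abs, abs_of_nonneg (by norm_num : (0:ℝ) ≤ 2)]
    linarith
  unfold trJ linJ quadJ
  rw [← hY, hYX, Finset.mul_sum, Finset.sum_mul, ← Finset.sum_add_distrib,
    ← Finset.sum_sub_distrib, ← Finset.sum_sub_distrib]
  refine Finset.sum_le_sum fun j _ => ?_
  rw [trace_pow_expand]
  have h1 := hCb j Y ((-2 : ℝ) • B) hYn hYXn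
  rw [norm_smul, Real.norm_eq_abs, abs_neg, abs_of_nonneg (by norm_num : (0:ℝ) ≤ 2)] at h1
  have h2 := (abs_trace_le (S3 Y ((-2 : ℝ) • B) (2 * j + 2))).trans
    (mul_le_mul_of_nonneg_left h1 (Real.sqrt_nonneg _))
  have h3 := (le_abs_self _).trans h2
  set t1 := trace (Y ^ (2 * j + 2))
  set t2 := trace (Y ^ (2 * j + 1) * B)
  set t3 := ∑ q ∈ antidiagonal (2 * j), trace (Y ^ q.1 * B * Y ^ q.2 * B)
  set t4 := trace (S3 Y ((-2 : ℝ) • B) (2 * j + 2))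
  have hp1 : (0 : ℝ) < 2 * (j : ℝ) + 1 := by positivity
  have hp2 : (0 : ℝ) < 2 * (j : ℝ) + 2 := by positivity
  have e : (d - (t1 - (2 * (j : ℝ) + 2) * (2 * t2) + (2 * (j : ℝ) + 2) / 2 * (4 * t3) + t4)) /
        ((2 * (j : ℝ) + 1) * (2 * (j : ℝ) + 2))
      = (d - t1) / ((2 * (j : ℝ) + 1) * (2 * (j : ℝ) + 2)) + 2 / (2 * (j : ℝ) + 1) * t2
        - 1 / 2 * (4 / (2 * (j : ℝ) + 1) * t3)
        - t4 / ((2 * (j : ℝ) + 1) * (2 * (j : ℝ) + 2)) := by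
    field_simp
    ring
  rw [e]
  have h4 : t4 / ((2 * (j : ℝ) + 1) * (2 * (j : ℝ) + 2))
      ≤ √d * (C j * 8) / ((2 * (j : ℝ) + 1) * (2 * (j : ℝ) + 2)) * ‖B‖ ^ 3 := by
    rw [div_mul_eq_mul_div]
    refine div_le_div_of_nonneg_right ?_ (by positivity)
    refine h3.trans (le_of_eq ?_)
    ring
  linarith

end Pool.Agent.KXP
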